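import Pool.Agent.MP_b33505_an.St

namespace Pool.Agent.MP_b33505_an

open MeasureTheory Set Metric Filter Topology
open scoped RealInnerProductSpace Laplacian BoundedContinuousFunction

section

section
variable {Z : Type} [NormedAddCommGroup Z] [NormedSpace ℝ Z]

lemma joint_Int {P : ℝ → Z →L[ℝ] Z} (hP : SG P) :
    ContinuousOn (fun p : Z × ℝ => P p.2 p.1) (univ ×ˢ Ioi 0) := by
  refine continuousOn_prod_of_continuousOn_lipschitzOnWith _ 1 (fun a _ => hP.cont a) ?_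
  intro r hr
  refine (LipschitzWith.of_dist_le_mul fun a b => ?_).lipschitzOnWith
  rw [dist_eq_norm, dist_eq_norm, NNReal.coe_one, one_mul]
  change ‖P r a - P r b‖ ≤ _
  rw [← map_sub]
  exact hP.nrm r hr _

lemma comp_Int {P : ℝ → Z →L[ℝ] Z} (hP : SG P) {T : ℝ} {h : ℝ → Z}
    (hh : ContinuousOn h (Ioc 0 T)) {a b : ℝ → ℝ} {S : Set ℝ} (ha : Continuous a)
    (hb : Continuous b) (ha0 : ∀ x ∈ S, 0 < a x) (hb0 : ∀ x ∈ S, b x ∈ Ioc 0 T) :
    ContinuousOn (fun x => P (a x) (h (b x))) S := by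
  have h1 : ContinuousOn (fun x => (h (b x), a x)) S :=
    (hh.comp hb.continuousOn hb0).prodMk ha.continuousOn
  exact (joint_Int hP).comp h1 fun x hx => ⟨mem_univ _, ha0 x hx⟩

lemma scale_Int (f : ℝ → Z) {t : ℝ} (ht : 0 < t) :
    ∫ s in Ioo 0 t, f s = t • ∫ σ in Ioo (0 : ℝ) 1, f (t * σ) := by
  rw [← integral_Ioc_eq_integral_Ioo, ← integral_Ioc_eq_integral_Ioo,
    ← intervalIntegral.integral_of_le ht.le, ← intervalIntegral.integral_of_le zero_le_one,
    intervalIntegral.smul_integral_comp_mul_left, mul_zero, mul_one]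

end

theorem sInt : SInt := by
  intro Z _ _ _ P T h hP hh
  obtain ⟨hc, C, hC⟩ := hh
  have hbd : ∀ t ∈ Ioc 0 T, ∀ s ∈ Ioo 0 t, ‖P (t - s) (h s)‖ ≤ C := fun t ht s hs =>
    (hP.nrm _ (sub_pos.2 hs.2) _).trans (hC s ⟨hs.1, hs.2.le.trans ht.2⟩)
  have hcont : ∀ t ∈ Ioc 0 T, ContinuousOn (fun s => P (t - s) (h s)) (Ioo 0 t) := fun t ht =>
    comp_Int hP hc (a := fun s => t - s) (b := fun s => s) (by fun_prop) (by fun_prop)
      (fun s hs => sub_pos.2 hs.2) fun s hs => ⟨hs.1, hs.2.le.trans ht.2⟩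
  refine ⟨fun t ht => ⟨hcont t ht, ?_⟩, ?_, C * T, fun t ht => ?_⟩
  · refine Integrable.mono' (g := fun _ => C) (integrableOn_const (by simp))
      ((hcont t ht).aestronglyMeasurable measurableSet_Ioo) ?_
    exact (ae_restrict_mem measurableSet_Ioo).mono fun s hs => hbd t ht s hs
  · have hmem : ∀ t ∈ Ioc 0 T, ∀ σ ∈ Ioo (0 : ℝ) 1, t * σ ∈ Ioo 0 t := fun t ht σ hσ =>
      ⟨mul_pos ht.1 hσ.1, mul_lt_of_lt_one_right ht.1 hσ.2⟩
    have h1 : ContinuousOn (fun t => ∫ σ in Ioo (0 : ℝ) 1, P (t - t * σ) (h (t * σ)))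
        (Ioc 0 T) := by
      refine continuousOn_of_dominated (bound := fun _ => C) (fun t ht => ?_) (fun t ht => ?_)
        (integrableOn_const (by simp)) ?_
      · refine ContinuousOn.aestronglyMeasurable ?_ measurableSet_Ioo
        exact comp_Int hP hc (a := fun σ => t - t * σ) (b := fun σ => t * σ) (by fun_prop)
          (by fun_prop) (fun σ hσ => sub_pos.2 (hmem t ht σ hσ).2)
          fun σ hσ => ⟨(hmem t ht σ hσ).1, (hmem t ht σ hσ).2.le.trans ht.2⟩
      · exact (ae_restrict_mem measurableSet_Ioo).mono fun σ hσ => hbd t ht _ (hmem t ht σ hσ)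
      · refine (ae_restrict_mem measurableSet_Ioo).mono fun σ hσ => ?_
        exact comp_Int hP hc (a := fun t => t - t * σ) (b := fun t => t * σ) (by fun_prop)
          (by fun_prop) (fun t ht => sub_pos.2 (hmem t ht σ hσ).2)
          fun t ht => ⟨(hmem t ht σ hσ).1, (hmem t ht σ hσ).2.le.trans ht.2⟩
    refine (continuousOn_id.smul h1).congr fun t ht => ?_
    exact scale_Int (fun s => P (t - s) (h s)) ht.1
  · have hC0 : 0 ≤ C := (norm_nonneg _).trans (hC t ht)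
    have h1 := norm_setIntegral_le_of_norm_le_const (μ := volume) (s := Ioo 0 t) (C := C)
      (f := fun s => P (t - s) (h s)) (by simp) (hbd t ht)
    refine h1.trans (mul_le_mul_of_nonneg_left ?_ hC0)
    rw [Real.volume_real_Ioo_of_le ht.1.le, sub_zero]
    exact ht.2

end

section

lemma ioo_Shift {Z : Type} [NormedAddCommGroup Z] [NormedSpace ℝ Z] (f : ℝ → Z) {s : ℝ}
    (hs : 0 ≤ s) : ∫ r in (0 : ℝ)..s, f r = ∫ r in Ioo 0 s, f r := by
  rw [intervalIntegral.integral_of_le hs, integral_Ioc_eq_integral_Ioo]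

theorem sShift (hI : SInt) : SShift := by
  intro Z _ _ _ P u α T h m hP hu hh hm hM k t ht
  have hb : BC T fun s => h s + k • m s := by
    obtain ⟨h1, C, hC⟩ := hh
    obtain ⟨h2, C', hC'⟩ := hm
    refine ⟨h1.add (h2.const_smul k), C + ‖k‖ * C', fun s hs => (norm_add_le _ _).trans ?_⟩
    rw [norm_smul]
    exact add_le_add (hC s hs) (mul_le_mul_of_nonneg_left (hC' s hs) (norm_nonneg _))
  obtain ⟨hc, hi⟩ := (hI Z P T h hP hh).1 t ht
  obtain ⟨-, hi2⟩ := (hI Z P T _ hP hb).1 t ht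
  have hii : IntervalIntegrable (fun s => P (t - s) (h s)) volume 0 t :=
    (intervalIntegrable_iff_integrableOn_Ioo_of_le ht.1.le).2 hi
  have hW : ContinuousOn (fun s => ∫ r in (0 : ℝ)..s, P (t - r) (h r)) (Icc 0 t) := by
    have := intervalIntegral.continuousOn_primitive_interval' hii left_mem_uIcc
    rwa [uIcc_of_le ht.1.le] at this
  have hkey : ∀ s ∈ Ioo 0 t, P (t - s) (m s) = u t + ∫ r in (0 : ℝ)..s, P (t - r) (h r) := by
    intro s hs
    have hsT : s ∈ Ioc 0 T := ⟨hs.1, hs.2.le.trans ht.2⟩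
    have hts : 0 < t - s := sub_pos.2 hs.2
    rw [hM s hsT, map_add, hu.law _ hts _ hs.1, sub_add_cancel, ioo_Shift _ hs.1.le,
      ← ContinuousLinearMap.integral_comp_comm _ ((hI Z P T h hP hh).1 s hsT).2]
    congr 1
    refine setIntegral_congr_fun measurableSet_Ioo fun r hr => ?_
    show P (t - s) (P (s - r) (h r)) = P (t - r) (h r)
    rw [hP.law _ hts _ (sub_pos.2 hr.2), sub_add_sub_cancel]
  have he : Continuous fun s : ℝ => Real.exp (-k * (t - s)) := by fun_prop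
  have hd : ∀ s ∈ Ioo 0 t, HasDerivAt
      (fun s => Real.exp (-k * (t - s)) • (u t + ∫ r in (0 : ℝ)..s, P (t - r) (h r)))
      (Real.exp (-k * (t - s)) • P (t - s) (h s + k • m s)) s := by
    intro s hs
    have d1 : HasDerivAt (fun s => ∫ r in (0 : ℝ)..s, P (t - r) (h r)) (P (t - s) (h s)) s :=
      intervalIntegral.integral_hasDerivAt_right
        (hii.mono_set (uIcc_subset_uIcc_left (mem_uIcc_of_le hs.1.le hs.2.le)))
        (hc.stronglyMeasurableAtFilter isOpen_Ioo s hs) (hc.continuousAt (Ioo_mem_nhds hs.1 hs.2))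
    have d2 : HasDerivAt (fun s : ℝ => Real.exp (-k * (t - s)))
        (Real.exp (-k * (t - s)) * k) s := by
      have := (((hasDerivAt_id s).const_sub t).const_mul (-k)).exp
      simpa using this
    refine (d2.smul (d1.const_add (u t))).congr_deriv ?_
    rw [← hkey s hs, map_add, map_smul, smul_add, smul_smul]
  have hint : IntervalIntegrable
      (fun s => Real.exp (-k * (t - s)) • P (t - s) (h s + k • m s)) volume 0 t :=
    ((intervalIntegrable_iff_integrableOn_Ioo_of_le ht.1.le).2 hi2).continuousOn_smul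
      he.continuousOn
  have hF := intervalIntegral.integral_eq_sub_of_hasDerivAt_of_le ht.1.le
    (he.continuousOn.smul (continuousOn_const.add hW)) hd hint
  rw [← ioo_Shift _ ht.1.le, hF, hM t ht, ← ioo_Shift _ ht.1.le]
  simp

end

section

theorem int_Stab (k A a b t : ℝ) (hk : 0 < k) (hA : 0 < A) (ht : 0 ≤ t) :
    IntegrableOn (fun s => Real.exp (-k * (t - s)) * (a * Real.exp (A * s) + b)) (Ioo 0 t) ∧
    ∫ s in Ioo 0 t, Real.exp (-k * (t - s)) * (a * Real.exp (A * s) + b) =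
      a * (Real.exp (A * t) - Real.exp (-k * t)) / (k + A) + b * (1 - Real.exp (-k * t)) / k := by
  have hc : Continuous fun s => Real.exp (-k * (t - s)) * (a * Real.exp (A * s) + b) := by
    fun_prop
  refine ⟨(hc.integrableOn_Icc).mono_set Ioo_subset_Icc_self, ?_⟩
  have hd : ∀ s ∈ uIcc 0 t, HasDerivAt (fun s => Real.exp (-k * (t - s)) *
      (a * Real.exp (A * s) / (k + A) + b / k))
      (Real.exp (-k * (t - s)) * (a * Real.exp (A * s) + b)) s := by
    intro s _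
    have h1 : HasDerivAt (fun s => -k * (t - s)) (-k * (-1)) s :=
      ((hasDerivAt_id s).const_sub t).const_mul (-k)
    have h2 : HasDerivAt (fun s => A * s) (A * 1) s := (hasDerivAt_id s).const_mul A
    have h3 := h1.exp.mul (((h2.exp.const_mul a).div_const (k + A)).add_const (b / k))
    refine h3.congr_deriv ?_
    have : k + A ≠ 0 := by positivity
    field_simp
    ring
  rw [← integral_Ioc_eq_integral_Ioo, ← intervalIntegral.integral_of_le ht,
    intervalIntegral.integral_eq_sub_of_hasDerivAt hd (hc.intervalIntegrable _ _)]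
  simp only [sub_self, mul_zero, Real.exp_zero, sub_zero]
  ring

theorem num_Stab {α b k L Y : ℝ} (hα : 0 ≤ α) (hb : 0 ≤ b) (hL : 0 ≤ L) (hk : L + 1 ≤ k)
    (h : Y ≤ max α ((k + L) / (k + (L + 1)) * Y) + b / k) : Y ≤ α + 2 * b := by
  have hk0 : 0 < k := by linarith
  rcases le_total α ((k + L) / (k + (L + 1)) * Y) with h1 | h1
  · rw [max_eq_right h1] at h
    have h2 : 0 < k + (L + 1) := by linarith
    have h3 : Y / (k + (L + 1)) = Y - (k + L) / (k + (L + 1)) * Y := by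
      field_simp
      ring
    have h4 : Y / (k + (L + 1)) ≤ b / k := by linarith
    rw [div_le_div_iff₀ h2 hk0] at h4
    have h5 : b * (k + (L + 1)) ≤ b * (2 * k) := mul_le_mul_of_nonneg_left (by linarith) hb
    have h6 : Y ≤ 2 * b := le_of_mul_le_mul_right (by linarith) hk0
    linarith
  · rw [max_eq_left h1] at h
    have := div_le_self hb (show 1 ≤ k by linarith)
    linarith

theorem sStab (_hI : SInt) (hS : SShift) : SStab := by
  intro Z _ _ _ P u α T h m L β hP hu hh hm hM hL hβ hk t₀ ht₀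
  have hα : 0 ≤ α := (norm_nonneg _).trans (hu.bd 1 one_pos)
  set A := L + 1 with hAd
  have hA : 0 < A := by linarith
  obtain ⟨C, hC⟩ := hm.2
  have hbd : BddAbove ((fun t => Real.exp (-A * t) * ‖m t‖) '' Ioc 0 T) := by
    refine ⟨C, ?_⟩
    rintro _ ⟨t, ht, rfl⟩
    exact (mul_le_of_le_one_left (norm_nonneg _)
      (Real.exp_le_one_iff.2 (by nlinarith [ht.1]))).trans (hC t ht)
  set Y := sSup ((fun t => Real.exp (-A * t) * ‖m t‖) '' Ioc 0 T) with hYd
  have hY : ∀ t ∈ Ioc 0 T, Real.exp (-A * t) * ‖m t‖ ≤ Y := fun t ht =>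
    le_csSup hbd ⟨t, ht, rfl⟩
  have hee : ∀ t, Real.exp (-A * t) * Real.exp (A * t) = 1 := fun t => by
    rw [← Real.exp_add]
    simp
  have hY' : ∀ t ∈ Ioc 0 T, ‖m t‖ ≤ Y * Real.exp (A * t) := fun t ht => by
    have := mul_le_mul_of_nonneg_right (hY t ht) (Real.exp_pos (A * t)).le
    rwa [mul_right_comm, hee, one_mul] at this
  have key : ∀ ε > 0, Y ≤ α + 2 * (β + ε) := by
    intro ε hε
    obtain ⟨k0, hk0⟩ := hk ε hε
    set k := max k0 A with hkd
    have hkA : A ≤ k := le_max_right _ _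
    have hk1 : 0 < k := by linarith
    refine num_Stab (k := k) hα (by linarith) hL hkA (csSup_le ⟨_, t₀, ht₀, rfl⟩ ?_)
    rintro _ ⟨t, ht, rfl⟩
    show Real.exp (-A * t) * ‖m t‖ ≤ max α ((k + L) / (k + A) * Y) + (β + ε) / k
    obtain ⟨i1, i2⟩ := int_Stab k A ((k + L) * Y) (β + ε) t hk1 hA ht.1.le
    have b1 : ‖∫ s in Ioo 0 t, Real.exp (-k * (t - s)) • P (t - s) (h s + k • m s)‖ ≤ _ :=
      norm_integral_le_of_norm_le i1 (by
        filter_upwards [ae_restrict_mem measurableSet_Ioo] with s hs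
        have hs' : s ∈ Ioc 0 T := ⟨hs.1, hs.2.le.trans ht.2⟩
        rw [norm_smul, Real.norm_of_nonneg (Real.exp_pos _).le]
        refine mul_le_mul_of_nonneg_left ?_ (Real.exp_pos _).le
        refine (hP.nrm _ (sub_pos.2 hs.2) _).trans ((hk0 k (le_max_left _ _) s hs').trans ?_)
        have := mul_le_mul_of_nonneg_left (hY' s hs') (show 0 ≤ k + L by linarith)
        linarith)
    rw [i2] at b1
    have b2 : ‖Real.exp (-k * t) • u t‖ ≤ Real.exp (-k * t) * α := by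
      rw [norm_smul, Real.norm_of_nonneg (Real.exp_pos _).le]
      exact mul_le_mul_of_nonneg_left (hu.bd t ht.1) (Real.exp_pos _).le
    have b3 := (norm_add_le _ _).trans (add_le_add b2 b1)
    rw [← hS Z P u α T h m hP hu hh ⟨hm.1, C, hC⟩ hM k t ht] at b3
    have hE0 := Real.exp_pos (-k * t)
    have hE1 : Real.exp (-k * t) ≤ 1 := Real.exp_le_one_iff.2 (by nlinarith [ht.1])
    have hW0 := Real.exp_pos (-A * t)
    have hW1 : Real.exp (-A * t) ≤ 1 := Real.exp_le_one_iff.2 (by nlinarith [ht.1])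
    have b4 := mul_le_mul_of_nonneg_left b3 hW0.le
    have h1 := hee t
    generalize Real.exp (-k * t) = E at hE0 hE1 b4
    generalize Real.exp (-A * t) = W at hW0 hW1 b4 h1 ⊢
    generalize Real.exp (A * t) = V at b4 h1
    have hq0 : 0 ≤ W * E := by positivity
    have hq1 : W * E ≤ 1 := mul_le_one₀ hW1 hE0.le hE1
    have e1 : W * (E * α + ((k + L) * Y * (V - E) / (k + A) + (β + ε) * (1 - E) / k)) =
        W * E * α + (1 - W * E) * ((k + L) / (k + A) * Y) + W * (1 - E) * ((β + ε) / k) := by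
      linear_combination ((k + L) / (k + A) * Y) * h1
    have c1 := mul_le_mul_of_nonneg_left (le_max_left α ((k + L) / (k + A) * Y)) hq0
    have c2 := mul_le_mul_of_nonneg_left (le_max_right α ((k + L) / (k + A) * Y))
      (sub_nonneg.2 hq1)
    have c3 : W * (1 - E) * ((β + ε) / k) ≤ (β + ε) / k :=
      mul_le_of_le_one_left (by positivity) (mul_le_one₀ hW1 (by linarith) (by linarith))
    linarith
  have hfin : Y ≤ α + 2 * β := le_of_forall_pos_le_add fun ε hε => by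
    have := key (ε / 2) (by linarith)
    linarith
  refine (hY' t₀ ht₀).trans (mul_le_mul hfin ?_ (Real.exp_pos _).le (by linarith))
  exact Real.exp_le_exp.2 (mul_le_mul_of_nonneg_left ht₀.2 hA.le)

end

section

theorem ext_ExL {Z : Type} [NormedAddCommGroup Z] [NormedSpace ℝ Z] {κ T : ℝ} (hκ : 0 ≤ κ)
    (v : Ioc (0 : ℝ) T →ᵇ Z) :
    ∃ m : ℝ → Z, BC T m ∧ ∀ (t : ℝ) (ht : t ∈ Ioc 0 T), m t = Real.exp (κ * t) • v ⟨t, ht⟩ := by
  classical
  refine ⟨fun s => if h : s ∈ Ioc 0 T then Real.exp (κ * s) • v ⟨s, h⟩ else 0,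
    ⟨?_, Real.exp (κ * T) * ‖v‖, fun t ht => ?_⟩, fun t ht => dif_pos ht⟩
  · rw [continuousOn_iff_continuous_domRestrict]
    have h : Continuous fun t : Ioc (0 : ℝ) T => Real.exp (κ * t) • v t :=
      (by fun_prop : Continuous fun t : Ioc (0 : ℝ) T => Real.exp (κ * t)).smul v.continuous
    refine h.congr fun t => ?_
    simp only [domRestrict_apply, dif_pos t.2]
  · simp only [dif_pos ht]
    rw [norm_smul, Real.norm_of_nonneg (Real.exp_pos _).le]
    exact mul_le_mul (Real.exp_le_exp.2 (mul_le_mul_of_nonneg_left ht.2 hκ))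
      (v.norm_coe_le_norm _) (norm_nonneg _) (Real.exp_pos _).le

theorem res_ExL {Z : Type} [NormedAddCommGroup Z] [NormedSpace ℝ Z] {κ T : ℝ} (hκ : 0 ≤ κ)
    {m : ℝ → Z} (hm : BC T m) :
    ∃ w : Ioc (0 : ℝ) T →ᵇ Z, ∀ t, w t = Real.exp (-(κ * t)) • m t := by
  obtain ⟨h1, C, hC⟩ := hm
  refine ⟨BoundedContinuousFunction.ofNormedAddCommGroup
    (fun t : Ioc (0 : ℝ) T => Real.exp (-(κ * t)) • m t)
    ((by fun_prop : Continuous fun t : Ioc (0 : ℝ) T => Real.exp (-(κ * t))).smul h1.domRestrict)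
    C fun t => ?_, fun t => rfl⟩
  rw [norm_smul, Real.norm_of_nonneg (Real.exp_pos _).le]
  refine (mul_le_of_le_one_left (norm_nonneg _) ?_).trans (hC t t.2)
  exact Real.exp_le_one_iff.2 (neg_nonpos.2 (mul_nonneg hκ t.2.1.le))

theorem comp_ExL {Z : Type} [NormedAddCommGroup Z] [NormedSpace ℝ Z] {L T : ℝ} (hL : 0 ≤ L)
    {N : Z → Z} (hN : Lip L N) {m : ℝ → Z} (hm : BC T m) : BC T fun s => N (m s) := by
  obtain ⟨h1, C, hC⟩ := hm
  refine ⟨(hN.continuous hL).comp_continuousOn h1, ‖N 0‖ + L * C, fun t ht => ?_⟩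
  have h2 := hN (m t) 0
  rw [sub_zero] at h2
  have h3 := norm_sub_norm_le (N (m t)) (N 0)
  have h4 := mul_le_mul_of_nonneg_left (hC t ht) hL
  linarith

theorem int_ExL {κ t : ℝ} (hκ : 0 < κ) (ht : 0 ≤ t) :
    ∫ s in Ioo 0 t, Real.exp (κ * s) ≤ Real.exp (κ * t) / κ := by
  rw [← integral_Ioc_eq_integral_Ioo, ← intervalIntegral.integral_of_le ht,
    intervalIntegral.integral_eq_sub_of_hasDerivAt (f := fun s => Real.exp (κ * s) / κ)
      (fun s _ => (((hasDerivAt_id s).const_mul κ).exp.div_const κ).congr_deriv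
        (by simp [hκ.ne']))
      ((by fun_prop : Continuous fun s : ℝ => Real.exp (κ * s)).intervalIntegrable _ _)]
  exact sub_le_self _ (by positivity)

theorem sExL (hI : SInt) : SExL := by
  intro Z _ _ _ P u α T N L hP hu hT hL hN
  obtain ⟨κ, hκ⟩ : ∃ κ : ℝ, κ = 2 * L + 1 := ⟨_, rfl⟩
  have hκ0 : 0 < κ := by linarith
  choose ext hb he using fun v : Ioc (0 : ℝ) T →ᵇ Z => ext_ExL hκ0.le v
  have hJ := fun v => hI Z P T _ hP (comp_ExL hL hN (hb v))
  have hS : ∀ v, BC T fun t => u t + ∫ s in Ioo 0 t, P (t - s) (N (ext v s)) := fun v => by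
    obtain ⟨h1, C, hC⟩ := (hJ v).2
    exact ⟨(hu.cont.mono Ioc_subset_Ioi_self).add h1, α + C, fun t ht =>
      (norm_add_le _ _).trans (add_le_add (hu.bd t ht.1) (hC t ht))⟩
  choose Φ hΦ using fun v => res_ExL hκ0.le (hS v)
  have hc : ContractingWith (1 / 2) Φ := by
    refine ⟨by norm_num, LipschitzWith.of_dist_le_mul fun v w => ?_⟩
    have hD : 0 ≤ dist v w := dist_nonneg
    refine (BoundedContinuousFunction.dist_le (by positivity)).2 fun t => ?_
    have h1 : ‖∫ s in Ioo 0 t.1, (P (t - s) (N (ext v s)) - P (t - s) (N (ext w s)))‖ ≤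
        ∫ s in Ioo 0 t.1, L * dist v w * Real.exp (κ * s) := by
      refine norm_integral_le_of_norm_le (((by fun_prop : Continuous fun s : ℝ =>
        L * dist v w * Real.exp (κ * s)).integrableOn_Icc (a := 0) (b := t.1)).mono_set
          Ioo_subset_Icc_self) ?_
      filter_upwards [ae_restrict_mem measurableSet_Ioo] with s hs
      have hs' : s ∈ Ioc 0 T := ⟨hs.1, hs.2.le.trans t.2.2⟩
      rw [← map_sub]
      refine (hP.nrm _ (sub_pos.2 hs.2) _).trans ((hN _ _).trans ?_)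
      rw [he v s hs', he w s hs', ← smul_sub, norm_smul, Real.norm_of_nonneg (Real.exp_pos _).le,
        mul_assoc, mul_comm (dist v w), ← dist_eq_norm]
      gcongr
      exact BoundedContinuousFunction.dist_coe_le_dist _
    rw [integral_const_mul] at h1
    have h2 := h1.trans (mul_le_mul_of_nonneg_left (int_ExL hκ0 t.2.1.le) (by positivity))
    rw [dist_eq_norm, hΦ, hΦ, ← smul_sub, add_sub_add_left_eq_sub,
      ← integral_sub ((hJ v).1 t t.2).2 ((hJ w).1 t t.2).2, norm_smul,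
      Real.norm_of_nonneg (Real.exp_pos _).le]
    refine (mul_le_mul_of_nonneg_left h2 (Real.exp_pos _).le).trans ?_
    have e : Real.exp (-(κ * t)) * (L * dist v w * (Real.exp (κ * t) / κ)) =
        L / κ * dist v w := by
      rw [Real.exp_neg]
      field_simp
    rw [e]
    refine mul_le_mul_of_nonneg_right ?_ hD
    rw [div_le_iff₀ hκ0]
    push_cast
    linarith
  refine ⟨ext (hc.fixedPoint Φ), hb _, fun t ht => ?_⟩
  have h := hΦ (hc.fixedPoint Φ) ⟨t, ht⟩
  rw [hc.fixedPoint_isFixedPt.eq] at h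
  rw [he _ t ht, h, smul_smul, ← Real.exp_add, add_neg_cancel, Real.exp_zero, one_smul]

end

section

theorem add_Dif {Z : Type} [NormedAddCommGroup Z] [NormedSpace ℝ Z] {T : ℝ} {a b : ℝ → Z}
    (ha : BC T a) (hb : BC T b) : BC T fun s => a s + b s := by
  obtain ⟨h1, C, hC⟩ := ha
  obtain ⟨h2, C', hC'⟩ := hb
  exact ⟨h1.add h2, C + C', fun t ht => (norm_add_le _ _).trans (add_le_add (hC t ht) (hC' t ht))⟩

theorem sub_Dif {Z : Type} [NormedAddCommGroup Z] [NormedSpace ℝ Z] {T : ℝ} {a b : ℝ → Z}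
    (ha : BC T a) (hb : BC T b) : BC T fun s => a s - b s := by
  obtain ⟨h1, C, hC⟩ := ha
  obtain ⟨h2, C', hC'⟩ := hb
  exact ⟨h1.sub h2, C + C', fun t ht => (norm_sub_le _ _).trans (add_le_add (hC t ht) (hC' t ht))⟩

theorem sDif (hI : SInt) (hS : SStab) : SDif := by
  intro Z _ _ _ P u T F G L β lam lam' η m m' r r' hP hF hG hm hm' hr hr' hη hrr h1 h2 t ht
  have b1 := add_Dif (hm.src (lam := lam) hF hG) hr
  have b2 := add_Dif (hm'.src (lam := lam') hF hG) hr'
  have β0 : 0 ≤ β := (norm_nonneg _).trans (hF.bd 0)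
  have key := hS Z P (fun _ => 0) 0 T _ _ (|lam| * L) (|lam - lam'| * β + η) hP
    ⟨fun _ _ => norm_zero.le, continuousOn_const, fun _ _ _ _ => map_zero _⟩ (sub_Dif b1 b2)
    (sub_Dif hm hm') (fun s hs => by
      simp only [map_sub (P _) (_ + _)]
      rw [integral_sub ((hI Z P T _ hP b1).1 s hs).2 ((hI Z P T _ hP b2).1 s hs).2, h1 s hs,
        h2 s hs]
      abel) (mul_nonneg (abs_nonneg _) hF.L0) (by positivity) (fun ε hε => ?_) t ht
  · rwa [zero_add] at key
  obtain ⟨-, C, hC⟩ := hm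
  obtain ⟨-, C', hC'⟩ := hm'
  obtain ⟨k0, hk⟩ := hG.mon (max C C') ε hε
  refine ⟨k0, fun k hk0 s hs => ?_⟩
  have e : lam • F (m s) - G (m s) + r s - (lam' • F (m' s) - G (m' s) + r' s) +
      k • (m s - m' s) = lam • (F (m s) - F (m' s)) + (lam - lam') • F (m' s) +
        (k • (m s - m' s) - (G (m s) - G (m' s))) + (r s - r' s) := by module
  have n1 : ‖lam • (F (m s) - F (m' s))‖ ≤ |lam| * (L * ‖m s - m' s‖) := by
    rw [norm_smul, Real.norm_eq_abs]
    exact mul_le_mul_of_nonneg_left (hF.lip _ _) (abs_nonneg _)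
  have n2 : ‖(lam - lam') • F (m' s)‖ ≤ |lam - lam'| * β := by
    rw [norm_smul, Real.norm_eq_abs]
    exact mul_le_mul_of_nonneg_left (hF.bd _) (abs_nonneg _)
  have n3 := hk k hk0 _ _ ((hC s hs).trans (le_max_left _ _)) ((hC' s hs).trans (le_max_right _ _))
  rw [e]
  refine (norm_add_le _ _).trans ((add_le_add (norm_add₃_le.trans
    (add_le_add (add_le_add n1 n2) n3)) (hrr s hs)).trans (le_of_eq ?_))
  ring

end

section

theorem bc_Apx {Z : Type} [NormedAddCommGroup Z] [NormedSpace ℝ Z] {T L : ℝ} {N : Z → Z}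
    {m : ℝ → Z} (hm : BC T m) (hL : 0 ≤ L) (hN : Lip L N) : BC T fun s => N (m s) := by
  obtain ⟨h1, C, hC⟩ := hm
  refine ⟨(hN.continuous hL).comp_continuousOn h1, L * C + ‖N 0‖, fun t ht => ?_⟩
  have a := hN (m t) 0
  rw [sub_zero] at a
  have b := norm_sub_norm_le (N (m t)) (N 0)
  have c := mul_le_mul_of_nonneg_left (hC t ht) hL
  linarith

theorem sApx (hE : SExL) (hS : SStab) : SApx := by
  intro Z _ _ _ P u α T F G L β lam hP hu hT hF hG
  have hβ : 0 ≤ β := (norm_nonneg _).trans (hF.bd 0)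
  refine ⟨(α + 2 * (|lam| * β)) * Real.exp ((0 + 1) * T), fun η hη => ?_⟩
  obtain ⟨G', L', L0, hL, h0, hM, hA⟩ :=
    hG.apx ((α + 2 * (|lam| * β)) * Real.exp ((0 + 1) * T)) η hη
  have hLL : 0 ≤ |lam| * L + L' := add_nonneg (mul_nonneg (abs_nonneg _) hF.L0) L0
  have hN : Lip (|lam| * L + L') fun z => lam • F z - G' z := by
    intro a b
    have e : lam • F a - G' a - (lam • F b - G' b) = lam • (F a - F b) - (G' a - G' b) := by
      rw [smul_sub]; abel
    rw [e]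
    refine (norm_sub_le _ _).trans ?_
    rw [norm_smul, Real.norm_eq_abs, add_mul, mul_assoc]
    exact add_le_add (mul_le_mul_of_nonneg_left (hF.lip a b) (abs_nonneg _)) (hL a b)
  obtain ⟨m, hm, hmild⟩ := hE Z P u α T _ _ hP hu hT hLL hN
  have hb : ∀ t ∈ Ioc 0 T, ‖m t‖ ≤ (α + 2 * (|lam| * β)) * Real.exp ((0 + 1) * T) := by
    refine hS Z P u α T _ m 0 (|lam| * β) hP hu (bc_Apx hm hLL hN) hm hmild le_rfl
      (mul_nonneg (abs_nonneg _) hβ) fun ε hε => ?_
    obtain ⟨-, C, hC⟩ := hm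
    obtain ⟨k0, hk⟩ := hM (max C 0) ε hε
    refine ⟨k0, fun k hk0 s hs => ?_⟩
    have a := hk k hk0 (m s) 0 ((hC s hs).trans (le_max_left _ _)) (by simp)
    rw [h0, sub_zero, sub_zero] at a
    have e : lam • F (m s) - G' (m s) + k • m s = lam • F (m s) + (k • m s - G' (m s)) := by abel
    have b : ‖lam • F (m s)‖ ≤ |lam| * β := by
      rw [norm_smul, Real.norm_eq_abs]
      exact mul_le_mul_of_nonneg_left (hF.bd _) (abs_nonneg _)
    have c := norm_add_le (lam • F (m s)) (k • m s - G' (m s))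
    rw [e, add_zero]
    linarith
  have hr : ∀ t ∈ Ioc 0 T, ‖G (m t) - G' (m t)‖ ≤ η := fun t ht => by
    rw [norm_sub_rev]; exact hA _ (hb t ht)
  refine ⟨m, fun s => G (m s) - G' (m s), hm, ⟨(hG.cont.comp_continuousOn hm.1).sub
    ((hL.continuous L0).comp_continuousOn hm.1), η, hr⟩, fun t ht => ⟨hb t ht, hr t ht⟩, ?_⟩
  simpa only [sub_add_sub_cancel] using hmild

end

section

theorem BC.add_Ex {Z : Type} [NormedAddCommGroup Z] {T : ℝ} {a b : ℝ → Z} (ha : BC T a)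
    (hb : BC T b) : BC T fun s => a s + b s := by
  obtain ⟨h1, C, hC⟩ := ha
  obtain ⟨h2, C', hC'⟩ := hb
  exact ⟨h1.add h2, C + C', fun t ht => (norm_add_le _ _).trans (add_le_add (hC t ht) (hC' t ht))⟩

theorem int_sub_Ex (hI : SInt) {Z : Type} [NormedAddCommGroup Z] [NormedSpace ℝ Z]
    [CompleteSpace Z] {P : ℝ → Z →L[ℝ] Z} {T c : ℝ} {a b : ℝ → Z} (hP : SG P) (ha : BC T a)
    (hb : BC T b) (hc : ∀ s ∈ Ioc 0 T, ‖a s - b s‖ ≤ c) {t : ℝ} (ht : t ∈ Ioc 0 T) :
    ‖(∫ s in Ioo 0 t, P (t - s) (a s)) - ∫ s in Ioo 0 t, P (t - s) (b s)‖ ≤ c * T := by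
  rw [← integral_sub ((hI Z P T a hP ha).1 t ht).2 ((hI Z P T b hP hb).1 t ht).2]
  refine (norm_setIntegral_le_of_norm_le_const (C := c) measure_Ioo_lt_top fun s hs => ?_).trans ?_
  · rw [← map_sub]
    exact (hP.nrm _ (sub_pos.2 hs.2) _).trans (hc s ⟨hs.1, hs.2.le.trans ht.2⟩)
  · rw [Real.volume_real_Ioo_of_le ht.1.le, sub_zero]
    exact mul_le_mul_of_nonneg_left ht.2 ((norm_nonneg _).trans (hc t ht))

theorem sEx (hI : SInt) (hD : SDif) (hA : SApx) : SEx := by
  intro Z _ _ _ P u α T F G L β lam hP hu hT hF hG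
  obtain ⟨M, hM⟩ := hA Z P u α T F G L β lam hP hu hT hF hG
  obtain ⟨δ, hδ0, hδa, hδ⟩ : ∃ δ : ℕ → ℝ, (∀ j, 0 < δ j) ∧ Antitone δ ∧ Tendsto δ atTop (𝓝 0) :=
    ⟨fun j => 1 / ((j : ℝ) + 1), fun j => Nat.one_div_pos_of_nat,
      fun i j h => Nat.one_div_le_one_div h, tendsto_one_div_add_atTop_nhds_zero_nat⟩
  choose m r hm hr hb hmild using fun j => hM (δ j) (hδ0 j)
  obtain ⟨E, hE0, hcl⟩ : ∃ E : ℝ, 0 ≤ E ∧ ∀ i j, ∀ t ∈ Ioc 0 T,
      ‖m i t - m j t‖ ≤ (δ i + δ j) * E := by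
    refine ⟨2 * Real.exp ((|lam| * L + 1) * T), by positivity, fun i j t ht => ?_⟩
    refine (hD Z P u T F G L β lam lam (δ i + δ j) (m i) (m j) (r i) (r j) hP hF hG (hm i) (hm j)
      (hr i) (hr j) (add_pos (hδ0 i) (hδ0 j)).le (fun s hs => (norm_sub_le _ _).trans
        (add_le_add (hb i s hs).2 (hb j s hs).2)) (hmild i) (hmild j) t ht).trans (le_of_eq ?_)
    rw [sub_self, abs_zero]
    ring
  have hlim : ∀ t ∈ Ioc 0 T, Tendsto (fun j => m j t) atTop (𝓝 (limUnder atTop fun j => m j t)) :=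
    fun t ht => CauchySeq.tendsto_limUnder (cauchySeq_of_le_tendsto_0 (fun N => (δ N + δ N) * E)
      (fun i j N hi hj => by
        rw [dist_eq_norm]
        exact (hcl i j t ht).trans (mul_le_mul_of_nonneg_right (add_le_add (hδa hi) (hδa hj)) hE0))
      (by simpa using (hδ.add hδ).mul_const E))
  generalize hmm : (fun t => limUnder atTop fun j => m j t) = mm
  replace hlim : ∀ t ∈ Ioc 0 T, Tendsto (fun j => m j t) atTop (𝓝 (mm t)) := hmm ▸ hlim
  have hcv : ∀ j, ∀ t ∈ Ioc 0 T, ‖m j t - mm t‖ ≤ δ j * E := fun j t ht =>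
    le_of_tendsto_of_tendsto' (tendsto_const_nhds.sub (hlim t ht)).norm
      (by simpa using ((tendsto_const_nhds (x := δ j)).add hδ).mul_const E) fun i => hcl j i t ht
  have hMm : ∀ t ∈ Ioc 0 T, ‖mm t‖ ≤ M := fun t ht =>
    le_of_tendsto' (hlim t ht).norm fun j => (hb j t ht).1
  have hBC : BC T mm := by
    refine ⟨TendstoUniformlyOn.continuousOn (F := m) (p := atTop)
      (Metric.tendstoUniformlyOn_iff.2 fun ε hε => ?_)
      (Frequently.of_forall fun j => (hm j).1), M, hMm⟩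
    filter_upwards [(show Tendsto (fun j => δ j * E) atTop (𝓝 0) by
      simpa using hδ.mul_const E).eventually (gt_mem_nhds hε)] with j hj t ht
    rw [dist_comm, dist_eq_norm]
    exact (hcv j t ht).trans_lt hj
  refine ⟨mm, hBC, fun t ht => ?_⟩
  rw [← sub_eq_zero, ← norm_le_zero_iff]
  refine le_of_forall_pos_le_add fun ε hε => ?_
  obtain ⟨G', L', hL', hlip, -, -, hG'⟩ := hG.apx M (ε / (2 * T)) (by positivity)
  have key : ∀ j, ‖mm t - (u t + ∫ s in Ioo 0 t, P (t - s) (lam • F (mm s) - G (mm s)))‖ ≤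
      δ j * E + (δ j * (|lam| * L * E + L' * E + 1) + ε / T) * T := fun j => by
    refine (norm_sub_le_norm_sub_add_norm_sub _ (m j t) _).trans (add_le_add ?_ ?_)
    · rw [norm_sub_rev]
      exact hcv j t ht
    · rw [hmild j t ht, add_sub_add_left_eq_sub]
      refine int_sub_Ex hI hP (((hm j).src hF hG).add_Ex (hr j)) (hBC.src hF hG) (fun s hs => ?_) ht
      have h1 := mul_le_mul_of_nonneg_left ((hF.lip (m j s) (mm s)).trans
        (mul_le_mul_of_nonneg_left (hcv j s hs) hF.L0)) (abs_nonneg lam)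
      have h2 := (hlip (mm s) (m j s)).trans
        (mul_le_mul_of_nonneg_left ((norm_sub_rev _ _).trans_le (hcv j s hs)) hL')
      have h3 := hG' _ (hb j s hs).1
      have h4 := (norm_sub_rev _ _).trans_le (hG' _ (hMm s hs))
      have h5 := (hb j s hs).2
      have e : lam • F (m j s) - G (m j s) + r j s - (lam • F (mm s) - G (mm s)) =
          lam • (F (m j s) - F (mm s)) + (G' (m j s) - G (m j s)) + (G' (mm s) - G' (m j s)) +
            (G (mm s) - G' (mm s)) + r j s := by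
        rw [smul_sub]
        abel
      have e2 : ε / T = ε / (2 * T) + ε / (2 * T) := by field_simp; norm_num
      rw [e, e2]
      refine (norm_add_le_of_le (norm_add_le_of_le (norm_add_le_of_le (norm_add_le_of_le
        ((norm_smul _ _).trans_le h1) h3) h2) h4) h5).trans (le_of_eq ?_)
      ring
  have hl : Tendsto (fun j => δ j * E + (δ j * (|lam| * L * E + L' * E + 1) + ε / T) * T) atTop
      (𝓝 (0 * E + (0 * (|lam| * L * E + L' * E + 1) + ε / T) * T)) :=
    (hδ.mul_const _).add (((hδ.mul_const _).add_const _).mul_const _)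
  refine (ge_of_tendsto' hl key).trans (le_of_eq ?_)
  field_simp
  ring

end

section

theorem mono_G1 {d : ℕ} {c : ℝ → ℝ} (h0 : ∀ r ≥ 0, 0 ≤ c r)
    (hm : MonotoneOn (fun r => c r * r) (Ici 0)) (a b : EE d) :
    0 ≤ ⟪a - b, c ‖a‖ • a - c ‖b‖ • b⟫ := by
  have ha := h0 _ (norm_nonneg a)
  have hb := h0 _ (norm_nonneg b)
  have h1 : ⟪a, b⟫ ≤ ‖a‖ * ‖b‖ := real_inner_le_norm a b
  have e : ⟪a - b, c ‖a‖ • a - c ‖b‖ • b⟫ =
      (c ‖a‖ * ‖a‖ - c ‖b‖ * ‖b‖) * (‖a‖ - ‖b‖) + (c ‖a‖ + c ‖b‖) * (‖a‖ * ‖b‖ - ⟪a, b⟫) := by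
    rw [inner_sub_left, inner_sub_right, inner_sub_right, real_inner_smul_right,
      real_inner_smul_right, real_inner_smul_right, real_inner_smul_right,
      real_inner_self_eq_norm_sq, real_inner_self_eq_norm_sq, real_inner_comm a b]
    ring
  have h2 : 0 ≤ (c ‖a‖ * ‖a‖ - c ‖b‖ * ‖b‖) * (‖a‖ - ‖b‖) := by
    rcases le_total ‖a‖ ‖b‖ with h | h
    · have := hm (mem_Ici.2 (norm_nonneg a)) (mem_Ici.2 (norm_nonneg b)) h
      exact mul_nonneg_of_nonpos_of_nonpos (sub_nonpos.2 this) (sub_nonpos.2 h)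
    · have := hm (mem_Ici.2 (norm_nonneg b)) (mem_Ici.2 (norm_nonneg a)) h
      exact mul_nonneg (sub_nonneg.2 this) (sub_nonneg.2 h)
  rw [e]
  exact add_nonneg h2 (mul_nonneg (add_nonneg ha hb) (sub_nonneg.2 h1))

theorem sq_G1 {d : ℕ} {k ε : ℝ} {x e : EE d} (hk : 0 ≤ k) (hε : 0 ≤ ε) (h : 0 ≤ ⟪x, e⟫)
    (he : ‖e‖ ^ 2 ≤ 2 * k * ‖x‖ * ε + ε ^ 2) : ‖k • x - e‖ ≤ k * ‖x‖ + ε := by
  refine (pow_le_pow_iff_left₀ (norm_nonneg _) (add_nonneg (mul_nonneg hk (norm_nonneg _)) hε)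
    two_ne_zero).1 ?_
  rw [norm_sub_sq_real, real_inner_smul_left, norm_smul, Real.norm_eq_abs, abs_of_nonneg hk]
  have := mul_nonneg hk h
  calc (k * ‖x‖) ^ 2 - 2 * (k * ⟪x, e⟫) + ‖e‖ ^ 2 ≤ (k * ‖x‖) ^ 2 + (2 * k * ‖x‖ * ε + ε ^ 2) := by
        linarith
    _ = (k * ‖x‖ + ε) ^ 2 := by ring

theorem sG1 : SG1 := by
  intro d c h0 hm hc M ε hε
  have hK : IsCompact (closedBall (0 : EE d) M) := isCompact_closedBall _ _
  obtain ⟨B, hB⟩ := hK.exists_bound_of_continuousOn hc.continuousOn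
  obtain ⟨η, hη, hu⟩ := Metric.uniformContinuousOn_iff.1
    (hK.uniformContinuousOn_of_continuous hc.continuousOn) ε hε
  refine ⟨max 0 (2 * B ^ 2 / (η * ε)), fun k hk a b ha hb => ?_⟩
  have k0 : 0 ≤ k := le_trans (le_max_left _ _) hk
  have k1 : 2 * B ^ 2 ≤ k * (η * ε) :=
    (div_le_iff₀ (mul_pos hη hε)).1 (le_trans (le_max_right _ _) hk)
  have ma : a ∈ closedBall (0 : EE d) M := mem_closedBall_zero_iff.2 ha
  have mb : b ∈ closedBall (0 : EE d) M := mem_closedBall_zero_iff.2 hb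
  refine sq_G1 k0 hε.le (mono_G1 h0 hm a b) ?_
  have p0 : 0 ≤ 2 * k * ‖a - b‖ * ε := by positivity
  rcases lt_or_ge ‖a - b‖ η with h | h
  · have h1 := hu a ma b mb (by rwa [dist_eq_norm])
    rw [dist_eq_norm] at h1
    have h2 := pow_le_pow_left₀ (norm_nonneg _) h1.le 2
    linarith
  · have h1 : ‖c ‖a‖ • a - c ‖b‖ • b‖ ≤ 2 * B := by
      have := norm_sub_le (c ‖a‖ • a) (c ‖b‖ • b)
      linarith [hB a ma, hB b mb]
    have h2 := pow_le_pow_left₀ (norm_nonneg _) h1 2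
    have h3 : k * (η * ε) ≤ k * (‖a - b‖ * ε) :=
      mul_le_mul_of_nonneg_left (mul_le_mul_of_nonneg_right h hε.le) k0
    calc ‖c ‖a‖ • a - c ‖b‖ • b‖ ^ 2 ≤ (2 * B) ^ 2 := h2
      _ = 2 * (2 * B ^ 2) := by ring
      _ ≤ 2 * (k * (‖a - b‖ * ε)) := by linarith
      _ = 2 * k * ‖a - b‖ * ε := by ring
      _ ≤ _ := le_add_of_nonneg_right (sq_nonneg ε)

end

section

theorem mem_G2a {ρ M : ℝ} (h : ρ ≤ M) (r : ℝ) : max ρ (min r M) ∈ Icc ρ M :=
  ⟨le_max_left _ _, max_le h (min_le_right _ _)⟩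

theorem lip_G2a {ρ M : ℝ} (p : ℝ) (h0 : 0 < ρ) (h : ρ ≤ M) : ∃ K : ℝ, 0 ≤ K ∧ ∀ a b : ℝ,
    |(max ρ (min a M)) ^ p - (max ρ (min b M)) ^ p| ≤ K * |a - b| := by
  have h1 : ContDiffOn ℝ 1 (fun r : ℝ => r ^ p) (Icc ρ M) := fun r hr =>
    (Real.contDiffAt_rpow_const_of_ne (h0.trans_le hr.1).ne').contDiffWithinAt
  obtain ⟨K, hK⟩ := h1.exists_lipschitzOnWith one_ne_zero (convex_Icc ρ M) isCompact_Icc
  refine ⟨K, K.2, fun a b => ?_⟩
  have h2 := hK.dist_le_mul _ (mem_G2a h a) _ (mem_G2a h b)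
  rw [Real.dist_eq, Real.dist_eq] at h2
  refine h2.trans (mul_le_mul_of_nonneg_left ?_ K.2)
  refine (abs_max_sub_max_le_max _ _ _ _).trans (max_le (by simp) ?_)
  exact (abs_min_sub_min_le_max _ _ _ _).trans (max_le le_rfl (by simp))

theorem sG2a : SG2a := by
  intro d γ ρ M hγ h0 h
  generalize hp : 2 * (γ - 1) = p
  have hp1 : 0 ≤ p + 1 := by linarith
  have hM : 0 ≤ M := h0.le.trans h
  have pos : ∀ r : ℝ, 0 < max ρ (min r M) := fun r => h0.trans_le (le_max_left _ _)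
  constructor
  · obtain ⟨K, hK, hl⟩ := lip_G2a p h0 h
    obtain ⟨B, hB⟩ := isCompact_Icc.exists_bound_of_continuousOn (f := fun r : ℝ => r ^ p)
      (s := Icc ρ M) fun r hr =>
        (Real.continuousAt_rpow_const _ _ (Or.inl (h0.trans_le hr.1).ne')).continuousWithinAt
    have hB0 : 0 ≤ B := (norm_nonneg _).trans (hB ρ ⟨le_rfl, h⟩)
    have key : ∀ v w : EE d, ‖w‖ ≤ ‖v‖ →
        ‖(max ρ (min ‖v‖ M)) ^ p • v - (max ρ (min ‖w‖ M)) ^ p • w‖ ≤ (B + K * M) * ‖v - w‖ := by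
      intro v w hw
      have e : (max ρ (min ‖v‖ M)) ^ p • v - (max ρ (min ‖w‖ M)) ^ p • w =
          (max ρ (min ‖v‖ M)) ^ p • (v - w) +
            ((max ρ (min ‖v‖ M)) ^ p - (max ρ (min ‖w‖ M)) ^ p) • w := by
        rw [smul_sub, sub_smul]
        abel
      have h1 : ‖(max ρ (min ‖v‖ M)) ^ p • (v - w)‖ ≤ B * ‖v - w‖ := by
        rw [norm_smul]
        exact mul_le_mul_of_nonneg_right (hB _ (mem_G2a h _)) (norm_nonneg _)
      have h2 : ‖((max ρ (min ‖v‖ M)) ^ p - (max ρ (min ‖w‖ M)) ^ p) • w‖ ≤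
          K * M * ‖v - w‖ := by
        rcases le_total M ‖w‖ with h3 | h3
        · rw [min_eq_right h3, min_eq_right (h3.trans hw), sub_self, zero_smul, norm_zero]
          positivity
        · rw [norm_smul, Real.norm_eq_abs]
          calc _ ≤ K * ‖v - w‖ * M := mul_le_mul ((hl _ _).trans
                (mul_le_mul_of_nonneg_left (abs_norm_sub_norm_le _ _) hK)) h3 (norm_nonneg _)
                (by positivity)
            _ = _ := by ring
      rw [e]
      exact (norm_add_le _ _).trans (by linarith)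
    refine ⟨B + K * M, by positivity, fun v w => ?_⟩
    rcases le_total ‖w‖ ‖v‖ with hw | hw
    · exact key v w hw
    · rw [norm_sub_rev, norm_sub_rev v]
      exact key w v hw
  · intro a ha b hb hab
    have e : ∀ r : ℝ, (max ρ (min r M)) ^ p * r =
        (max ρ (min r M)) ^ (p + 1) * (r / max ρ (min r M)) := fun r => by
      rw [Real.rpow_add_one (pos r).ne', mul_assoc, mul_div_cancel₀ _ (pos r).ne']
    have ha0 : 0 ≤ a := ha
    have hb0 : 0 ≤ b := hb
    beta_reduce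
    rw [e, e]
    refine mul_le_mul (Real.rpow_le_rpow (pos a).le
      (max_le_max le_rfl (min_le_min hab le_rfl)) hp1) ?_ (div_nonneg ha0 (pos a).le)
      (Real.rpow_nonneg (pos b).le _)
    rw [div_le_div_iff₀ (pos a) (pos b), mul_max_of_nonneg _ _ ha0, mul_max_of_nonneg _ _ hb0]
    refine max_le_max (mul_le_mul_of_nonneg_right hab h0.le) ?_
    rcases le_total a M with h3 | h3
    · rw [min_eq_left h3, mul_comm b]
      exact mul_le_mul_of_nonneg_left (min_le_left _ _) ha0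
    · rw [min_eq_right h3, min_eq_right (h3.trans hab)]
      exact mul_le_mul_of_nonneg_right hab hM

end

section

theorem pw_G2 {γ r : ℝ} (hγ : 1 / 2 < γ) (hr : 0 ≤ r) :
    r ^ (2 * (γ - 1)) * r = r ^ (2 * γ - 1) := by
  rcases hr.eq_or_lt with h | h
  · rw [← h, mul_zero, Real.zero_rpow (by linarith)]
  · rw [← Real.rpow_add_one h.ne']
    congr 1
    ring

theorem nrm_G2 {d : ℕ} {γ : ℝ} (hγ : 1 / 2 < γ) (v : EE d) :
    ‖damp γ v‖ = ‖v‖ ^ (2 * γ - 1) := by
  rw [damp, norm_smul, Real.norm_of_nonneg (Real.rpow_nonneg (norm_nonneg v) _),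
    pw_G2 hγ (norm_nonneg v)]

theorem cont_G2 {d : ℕ} {γ : ℝ} (hγ : 1 / 2 < γ) : Continuous (damp γ : EE d → EE d) := by
  refine continuous_iff_continuousAt.2 fun v => ?_
  by_cases hv : v = 0
  · subst hv
    have e : damp γ (0 : EE d) = 0 := smul_zero _
    have c : Continuous fun v : EE d => ‖v‖ ^ (2 * γ - 1) :=
      continuous_norm.rpow_const fun _ => Or.inr (by linarith)
    have t := c.tendsto 0
    rw [norm_zero, Real.zero_rpow (by linarith)] at t
    rw [ContinuousAt, e]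
    exact squeeze_zero_norm (fun v => (nrm_G2 hγ v).le) t
  · exact (continuous_norm.continuousAt.rpow_const (Or.inl (norm_ne_zero_iff.2 hv))).smul
      continuousAt_id

theorem sG2 (h1 : SG1) (h2 : SG2a) : SG2 := by
  intro d γ hγ
  have hp : 0 < 2 * γ - 1 := by linarith
  refine ⟨cont_G2 hγ, smul_zero _, ?_, fun M η hη => ?_⟩
  · refine h1 d (fun r => r ^ (2 * (γ - 1))) (fun r hr => Real.rpow_nonneg hr _)
      (fun a ha b hb hab => ?_) (cont_G2 hγ)
    simp only [pw_G2 hγ ha, pw_G2 hγ hb]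
    exact Real.rpow_le_rpow ha hab hp.le
  · obtain ⟨ρ, hρ, e⟩ : ∃ ρ : ℝ, 0 < ρ ∧ ρ ^ (2 * γ - 1) = η / 2 :=
      ⟨(η / 2) ^ (2 * γ - 1)⁻¹, Real.rpow_pos_of_pos (by linarith) _,
        Real.rpow_inv_rpow (by linarith) hp.ne'⟩
    obtain ⟨⟨L, L0, hL⟩, hm⟩ := h2 d γ ρ (max M ρ) hγ hρ (le_max_right _ _)
    refine ⟨_, L, L0, hL, smul_zero _,
      h1 d (fun r => (max ρ (min r (max M ρ))) ^ (2 * (γ - 1)))
        (fun r _ => Real.rpow_nonneg (hρ.le.trans (le_max_left _ _)) _) hm (hL.continuous L0),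
      fun a ha => ?_⟩
    rcases le_total ‖a‖ ρ with c | c
    · rw [max_eq_left ((min_le_left _ _).trans c)]
      refine (norm_sub_le _ _).trans ?_
      have b1 : ‖damp γ a‖ ≤ η / 2 := by
        rw [nrm_G2 hγ, ← e]
        exact Real.rpow_le_rpow (norm_nonneg a) c hp.le
      have b2 : ‖ρ ^ (2 * (γ - 1)) • a‖ ≤ η / 2 := by
        rw [norm_smul, Real.norm_of_nonneg (Real.rpow_nonneg hρ.le _), ← e, ← pw_G2 hγ hρ.le]
        exact mul_le_mul_of_nonneg_left c (Real.rpow_nonneg hρ.le _)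
      linarith
    · rw [min_eq_left (ha.trans (le_max_left _ _)), max_eq_right c, damp, sub_self, norm_zero]
      exact hη.le

end

section

theorem lift_G3 {d : ℕ} (g : EE d → EE d) (hc : Continuous g)
    (hb : ∀ M : ℝ, ∃ B : ℝ, ∀ a, ‖a‖ ≤ M → ‖g a‖ ≤ B) :
    ∃ G : ZZ d → ZZ d, ∀ (z : ZZ d) (x : EE d), G z x = g (z x) := by
  choose B hB using hb
  exact ⟨fun z => BoundedContinuousFunction.ofNormedAddCommGroup (fun x => g (z x))
    (hc.comp z.continuous) (B ‖z‖) (fun x => hB _ _ (z.norm_coe_le_norm x)), fun _ _ => rfl⟩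

theorem mon_G3 {d : ℕ} {g : EE d → EE d} {G : ZZ d → ZZ d}
    (h : ∀ (z : ZZ d) (x : EE d), G z x = g (z x)) (hm : Mon g) : Mon G := by
  intro M ε hε
  obtain ⟨k0, hk⟩ := hm M ε hε
  refine ⟨max k0 0, fun k hk0 a b ha hb => ?_⟩
  have k1 : k0 ≤ k := (le_max_left _ _).trans hk0
  have k2 : 0 ≤ k := (le_max_right _ _).trans hk0
  refine (BoundedContinuousFunction.norm_le (by positivity)).2 fun x => ?_
  have h1 := hk k k1 (a x) (b x) ((a.norm_coe_le_norm x).trans ha)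
    ((b.norm_coe_le_norm x).trans hb)
  have h2 : ‖a x - b x‖ ≤ ‖a - b‖ := (a - b).norm_coe_le_norm x
  have e : (k • (a - b) - (G a - G b)) x = k • (a x - b x) - (g (a x) - g (b x)) := by
    rw [← h, ← h]
    rfl
  rw [e]
  linarith [mul_le_mul_of_nonneg_left h2 k2]

theorem lip_G3 {d : ℕ} {g : EE d → EE d} {G : ZZ d → ZZ d} {L : ℝ}
    (h : ∀ (z : ZZ d) (x : EE d), G z x = g (z x)) (L0 : 0 ≤ L) (hl : Lip L g) : Lip L G := by
  intro a b
  refine (BoundedContinuousFunction.norm_le (by positivity)).2 fun x => ?_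
  have h2 : ‖a x - b x‖ ≤ ‖a - b‖ := (a - b).norm_coe_le_norm x
  have e : (G a - G b) x = g (a x) - g (b x) := by
    rw [← h, ← h]
    rfl
  rw [e]
  exact (hl _ _).trans (mul_le_mul_of_nonneg_left h2 L0)

theorem sG3 : SG3 := by
  intro d g hg
  obtain ⟨G, hG⟩ := lift_G3 g hg.cont hg.bd
  have apx : ∀ M η : ℝ, 0 < η → ∃ (G' : ZZ d → ZZ d) (L : ℝ), 0 ≤ L ∧ Lip L G' ∧ G' 0 = 0 ∧
      Mon G' ∧ ∀ a, ‖a‖ ≤ M → ‖G' a - G a‖ ≤ η := by
    intro M η hη
    obtain ⟨g', L, L0, hL, h0, hm, hap⟩ := hg.apx M η hη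
    obtain ⟨G', hG'⟩ := lift_G3 g' (hL.continuous L0) fun M' => ⟨L * M', fun a ha => by
      have h1 := hL a 0
      rw [h0, sub_zero, sub_zero] at h1
      exact h1.trans (mul_le_mul_of_nonneg_left ha L0)⟩
    refine ⟨G', L, L0, lip_G3 hG' L0 hL, ?_, mon_G3 hG' hm, fun a ha => ?_⟩
    · exact BoundedContinuousFunction.ext fun x => (hG' 0 x).trans h0
    · refine (BoundedContinuousFunction.norm_le hη.le).2 fun x => ?_
      have e : (G' a - G a) x = g' (a x) - g (a x) := by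
        rw [← hG, ← hG']
        rfl
      rw [e]
      exact hap _ ((a.norm_coe_le_norm x).trans ha)
  refine ⟨G, ⟨?_, BoundedContinuousFunction.ext fun x => (hG 0 x).trans hg.zero,
    mon_G3 hG hg.mon, apx⟩, hG⟩
  refine Metric.continuous_iff.2 fun b ε hε => ?_
  obtain ⟨G', L, L0, hL, -, -, hap⟩ := apx (‖b‖ + 1) (ε / 4) (by positivity)
  refine ⟨min 1 (ε / 4 / (L + 1)), by positivity, fun a ha => ?_⟩
  rw [dist_eq_norm, lt_min_iff, lt_div_iff₀ (by positivity)] at ha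
  rw [dist_eq_norm]
  have h1 := hap a (by linarith [norm_sub_norm_le a b, ha.1])
  have h2 := hap b (by linarith)
  have h3 := hL a b
  have e : G a - G b = (G' a - G' b) - (G' a - G a) + (G' b - G b) := by abel
  have h4 : ‖G a - G b‖ ≤ ‖G' a - G' b‖ + ‖G' a - G a‖ + ‖G' b - G b‖ := by
    rw [e]
    exact (norm_add_le _ _).trans (add_le_add (norm_sub_le _ _) le_rfl)
  nlinarith [norm_nonneg (a - b), ha.2]

end

section

theorem ii_B {s : ℝ → ℝ} {C : ℝ} (h : Prof s C) (k : ℕ) (a b : ℝ) :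
    IntervalIntegrable (fun ρ => s ρ * ρ ^ k) volume a b := by
  have h1 : IntervalIntegrable s volume a b :=
    (intervalIntegrable_const (c := C)).mono_fun' h.1.aestronglyMeasurable
      (Eventually.of_forall fun r => h.2 r)
  exact h1.mul_continuousOn (continuous_pow k).continuousOn

theorem eq_B (s : ℝ → ℝ) {d : ℕ} (hd : 1 ≤ d) {r : ℝ} (hr : 0 < r) :
    bb s d r = (r ^ d)⁻¹ * ∫ ρ in (0 : ℝ)..r, s ρ * ρ ^ (d - 1) := by
  have h1 := intervalIntegral.integral_comp_mul_right (a := 0) (b := 1)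
    (fun ρ => s ρ * ρ ^ (d - 1)) hr.ne'
  simp only [zero_mul, one_mul, mul_pow, ← mul_assoc, smul_eq_mul] at h1
  rw [intervalIntegral.integral_mul_const] at h1
  have h2 : r ^ d = r ^ (d - 1) * r := by rw [← pow_succ, Nat.sub_add_cancel hd]
  have h3 : r ^ (d - 1) ≠ 0 := pow_ne_zero _ hr.ne'
  rw [h2, mul_inv, mul_assoc, ← h1, bb, mul_comm, mul_assoc, mul_inv_cancel₀ h3, mul_one]

theorem sB : SB := by
  intro d s C hd h
  refine ⟨?_, ?_, fun r => ?_⟩
  · refine ContinuousOn.congr (f := fun r => (r ^ d)⁻¹ * ∫ ρ in (0 : ℝ)..r, s ρ * ρ ^ (d - 1)) ?_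
      fun r hr => eq_B s hd hr
    exact ((continuous_pow d).continuousOn.inv₀ fun r hr => pow_ne_zero _ (ne_of_gt hr)).mul
      (intervalIntegral.continuous_primitive (ii_B h (d - 1)) 0).continuousOn
  · have h1 : bb s d = fun r => ∫ t in Ioc (0 : ℝ) 1, s (t * r) * t ^ (d - 1) :=
      funext fun r => intervalIntegral.integral_of_le zero_le_one
    have h2 : Measurable (Function.uncurry fun r t : ℝ => s (t * r) * t ^ (d - 1)) :=
      (h.1.comp (measurable_snd.mul measurable_fst)).mul (measurable_snd.pow_const _)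
    rw [h1]
    exact (h2.stronglyMeasurable.integral_prod_right).measurable
  · have h1 := intervalIntegral.norm_integral_le_of_norm_le_const (a := 0) (b := 1) (C := C)
      (f := fun t => s (t * r) * t ^ (d - 1)) fun t ht => by
        rw [uIoc_of_le zero_le_one] at ht
        rw [norm_mul, Real.norm_of_nonneg (pow_nonneg ht.1.le _)]
        exact (mul_le_of_le_one_right (norm_nonneg _) (pow_le_one₀ ht.1.le ht.2)).trans (h.2 _)
    rw [sub_zero, abs_one, mul_one] at h1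
    exact h1

end

section

noncomputable def psi_F1 (a : ℝ) : ℝ := a / (1 + a ^ 2) ^ 2

theorem der_F1 (a : ℝ) : HasDerivAt psi_F1 ((1 - 3 * a ^ 2) / (1 + a ^ 2) ^ 3) a := by
  have h0 : (1 + a ^ 2) ≠ 0 := by positivity
  have h1 : HasDerivAt (fun a : ℝ => (1 + a ^ 2) ^ 2) (2 * (1 + a ^ 2) * (2 * a)) a := by
    simpa using (((hasDerivAt_id a).fun_pow 2).const_add 1).fun_pow 2
  refine ((hasDerivAt_id a).fun_div h1 (pow_ne_zero 2 h0)).congr_deriv ?_
  simp only [id]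
  field_simp
  ring

theorem lip_F1 (a b : ℝ) : |psi_F1 a - psi_F1 b| ≤ |a - b| := by
  have h := Convex.norm_image_sub_le_of_norm_hasDerivWithin_le (𝕜 := ℝ) (C := 1) (s := univ)
    (f := psi_F1) (fun x _ => (der_F1 x).hasDerivWithinAt) (fun x _ => ?_) convex_univ
    (mem_univ b) (mem_univ a)
  · simpa using h
  · have h0 : 0 < (1 + x ^ 2) ^ 3 := by positivity
    have h1 := sq_nonneg x
    rw [Real.norm_eq_abs, abs_div, abs_of_pos h0, div_le_one h0, abs_le]
    generalize x ^ 2 = y at h0 h1 ⊢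
    constructor <;> nlinarith [mul_nonneg h1 h1, mul_nonneg h1 (mul_nonneg h1 h1)]

theorem bd_F1 (a : ℝ) : |psi_F1 a| ≤ 1 := by
  have h0 : 0 < (1 + a ^ 2) ^ 2 := by positivity
  rw [psi_F1, abs_div, abs_of_pos h0, div_le_one h0, abs_le]
  constructor <;> nlinarith [sq_nonneg (a + 1), sq_nonneg (a - 1), sq_nonneg (a ^ 2), sq_nonneg a]

theorem sF1 : SF1 := by
  intro d R C s hR hs x v w
  by_cases hx : x = 0
  · subst hx
    simp only [fh, smul_zero, sub_self, norm_zero]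
    exact ⟨by positivity, by positivity, by positivity⟩
  have h0 : 0 < ‖x‖ := norm_pos_iff.2 hx
  obtain ⟨W, hW⟩ : ∃ W, W = cut R ‖x‖ * bb s d ‖x‖ := ⟨_, rfl⟩
  have e : ∀ u : EE d, fh R s x u = (W ^ 2 * ‖x‖ * psi_F1 (⟪u, x⟫ / ‖x‖)) • x := fun u => by
    rw [fh, psi_F1, ← hW, div_pow]
    congr 1
    field_simp
  have hC : 0 ≤ C := (abs_nonneg _).trans (hs.2 0)
  have c0 : 0 ≤ cut R ‖x‖ := le_max_left _ _
  have c1 : cut R ‖x‖ ≤ 1 := max_le zero_le_one (min_le_left _ _)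
  have w1 : |W| ≤ C := by
    rw [hW, abs_mul, abs_of_nonneg c0]
    exact (mul_le_of_le_one_left (abs_nonneg _) c1).trans (hs.2 _)
  have w2 : W ^ 2 ≤ C ^ 2 := sq_le_sq' (abs_le.1 w1).1 (abs_le.1 w1).2
  have w3 : W ^ 2 * ‖x‖ ^ 2 ≤ (2 * R * C) ^ 2 := by
    by_cases h : ‖x‖ ≤ 2 * R
    · rw [mul_pow, mul_comm]
      gcongr
    · have h1 : cut R ‖x‖ = 0 := by
        refine max_eq_left ((min_le_right _ _).trans ?_)
        rw [sub_nonpos, le_div_iff₀ hR]
        linarith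
      rw [hW, h1, zero_mul]
      simpa using sq_nonneg (2 * R * C)
  have n1 : ∀ c : ℝ, ‖(W ^ 2 * ‖x‖ * c) • x‖ = W ^ 2 * ‖x‖ ^ 2 * |c| := fun c => by
    rw [norm_smul, Real.norm_eq_abs, abs_mul, abs_of_nonneg (by positivity)]
    ring
  have n2 : ‖fh R s x v‖ ≤ W ^ 2 * ‖x‖ ^ 2 := by
    rw [e, n1]
    exact mul_le_of_le_one_right (by positivity) (bd_F1 _)
  refine ⟨?_, n2.trans w3, n2.trans (by gcongr)⟩
  rw [e, e, ← sub_smul, ← mul_sub, n1]
  refine mul_le_mul w3 ((lip_F1 _ _).trans ?_) (abs_nonneg _) (by positivity)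
  rw [← sub_div, ← inner_sub_left, abs_div, abs_of_pos h0, div_le_iff₀ h0]
  exact abs_real_inner_le_norm _ _

end

section

theorem cont_F {d : ℕ} {R C : ℝ} {s : ℝ → ℝ} (hb : ContinuousOn (bb s d) (Ioi 0))
    (h0 : ∀ x v : EE d, ‖fh R s x v‖ ≤ C ^ 2 * ‖x‖ ^ 2) {z : EE d → EE d} (hz : Continuous z) :
    Continuous fun x => fh R s x (z x) := by
  refine continuous_iff_continuousAt.2 fun x => ?_
  by_cases hx : x = 0
  · subst hx
    have e : fh R s (0 : EE d) (z 0) = 0 := by simp [fh]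
    show Tendsto _ _ (𝓝 (fh R s (0 : EE d) (z 0)))
    rw [e]
    refine squeeze_zero_norm (fun y => h0 y (z y)) ?_
    have : Continuous fun y : EE d => C ^ 2 * ‖y‖ ^ 2 := by fun_prop
    simpa using this.tendsto 0
  · have hn : 0 < ‖x‖ := norm_pos_iff.2 hx
    have c1 : ContinuousAt (fun y : EE d => bb s d ‖y‖) x :=
      ContinuousAt.comp (f := fun y : EE d => ‖y‖) (hb.continuousAt (Ioi_mem_nhds hn))
        continuous_norm.continuousAt
    have c2 : Continuous fun y : EE d => cut R ‖y‖ := by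
      unfold cut
      fun_prop
    have c3 : Continuous fun y : EE d => ⟪z y, y⟫ := hz.inner continuous_id
    have c4 : ContinuousAt (fun y : EE d => 1 + ⟪z y, y⟫ ^ 2 / ‖y‖ ^ 2) x :=
      continuousAt_const.add ((c3.continuousAt.pow 2).div (continuous_norm.continuousAt.pow 2)
        (by positivity))
    have c5 : (1 + ⟪z x, x⟫ ^ 2 / ‖x‖ ^ 2) ^ 2 ≠ 0 := by positivity
    exact ((((c2.continuousAt.mul c1).pow 2).mul c3.continuousAt).div (c4.pow 2) c5).smul
      continuousAt_id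

theorem sF (hB : SB) (h1 : SF1) : SF := by
  intro d R C s hd hR hs
  obtain ⟨hb, hp⟩ := hB d s C hd hs
  have h := h1 d R C s hR hp
  refine ⟨fun z => BoundedContinuousFunction.ofNormedAddCommGroup (fun x => fh R s x (z x))
    (cont_F hb (fun x v => (h x v v).2.2) z.continuous) ((2 * R * C) ^ 2)
    (fun x => (h x _ (z x)).2.1), (2 * R * C) ^ 2, (2 * R * C) ^ 2,
    ⟨by positivity, fun a b => ?_, fun a => ?_⟩, fun z x => rfl⟩
  · refine (BoundedContinuousFunction.norm_le (by positivity)).2 fun x => ?_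
    refine (h x (a x) (b x)).1.trans (mul_le_mul_of_nonneg_left ?_ (by positivity))
    exact (a - b).norm_coe_le_norm x
  · exact (BoundedContinuousFunction.norm_le (by positivity)).2 fun x => (h x _ (a x)).2.1

end

end Pool.Agent.MP_b33505_an
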