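import Pool.Agent.MP_b33505_an.St

namespace Pool.Agent.MP_b33505_an

open MeasureTheory Set Metric Filter Topology
open scoped RealInnerProductSpace Laplacian BoundedContinuousFunction

section

lemma dd_Max (g : ℝ → ℝ) (hg : IsLocalMax g 0) (hc : ContinuousAt g 0) :
    deriv (deriv g) 0 ≤ 0 := by
  by_contra h
  have h1 : deriv (deriv g) 0 > 0 := not_le.mp h
  have h2 := isLocalMin_of_deriv_deriv_pos h1 hg.deriv_eq_zero hc
  have h3 : g =ᶠ[𝓝 0] fun _ => g 0 := by
    filter_upwards [hg, h2] with r hr1 hr2 using le_antisymm hr1 hr2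
  have h4 : deriv (deriv g) 0 = 0 := by
    rw [h3.deriv.deriv_eq]
    simp
  exact absurd h1 (by rw [h4]; exact lt_irrefl _)

lemma dir_Max {d : ℕ} (f : EE d → ℝ) (x e : EE d) (hf : ContDiffAt ℝ 2 f x)
    (hm : IsLocalMax f x) : fderiv ℝ (fderiv ℝ f) x e e ≤ 0 := by
  have hl : ∀ r : ℝ, HasDerivAt (fun s : ℝ => x + s • e) e r := by
    intro r
    simpa using ((hasDerivAt_id r).smul_const e).const_add x
  have hc0 : Tendsto (fun s : ℝ => x + s • e) (𝓝 0) (𝓝 x) := by
    have := (hl 0).continuousAt.tendsto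
    simpa using this
  have hm' : IsLocalMax (fun s : ℝ => f (x + s • e)) 0 := by
    have := hc0.eventually hm
    filter_upwards [this] with s hs
    simpa using hs
  have hcf : ContinuousAt (fun s : ℝ => f (x + s • e)) 0 := by
    have h1 : ContinuousAt f (x + (0 : ℝ) • e) := by simpa using hf.continuousAt
    exact ContinuousAt.comp (f := fun s : ℝ => x + s • e) h1 (hl 0).continuousAt
  have key := dd_Max _ hm' hcf
  have hev : ∀ᶠ y in 𝓝 x, DifferentiableAt ℝ f y := by
    have := hf.eventually (by simp)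
    filter_upwards [this] with y hy using hy.differentiableAt (by simp)
  have hd1 : deriv (fun s : ℝ => f (x + s • e)) =ᶠ[𝓝 0] fun s => fderiv ℝ f (x + s • e) e := by
    filter_upwards [hc0.eventually hev] with s hs
    exact (hs.hasFDerivAt.comp_hasDerivAt s (hl s)).deriv
  have hd2 : DifferentiableAt ℝ (fderiv ℝ f) x :=
    (hf.fderiv_right (m := 1) (by norm_num)).differentiableAt (by simp)
  have hd3 : HasDerivAt (fun s : ℝ => fderiv ℝ f (x + s • e)) (fderiv ℝ (fderiv ℝ f) x e) 0 := by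
    have h1 : HasFDerivAt (fderiv ℝ f) (fderiv ℝ (fderiv ℝ f) x) (x + (0 : ℝ) • e) := by
      simpa using hd2.hasFDerivAt
    exact h1.comp_hasDerivAt (0 : ℝ) (hl 0)
  have hd4 : HasDerivAt (fun s : ℝ => fderiv ℝ f (x + s • e) e)
      (fderiv ℝ (fderiv ℝ f) x e e) 0 := by
    simpa using hd3.clm_apply (hasDerivAt_const (0 : ℝ) e)
  rw [hd1.deriv_eq, hd4.deriv] at key
  exact key

lemma lap_Max {d : ℕ} (f : EE d → ℝ) (x : EE d) (hf : ContDiffAt ℝ 2 f x)
    (hm : IsLocalMax f x) : Δ f x ≤ 0 := by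
  rw [InnerProductSpace.laplacian_eq_iteratedFDeriv_orthonormalBasis f
    (EuclideanSpace.basisFun (Fin d) ℝ)]
  refine Finset.sum_nonpos fun i _ => ?_
  rw [iteratedFDeriv_two_apply]
  simpa using dir_Max f x (EuclideanSpace.basisFun (Fin d) ℝ i) hf hm

lemma time_Max (g : ℝ → ℝ) (a t g' : ℝ) (hat : a < t) (hg : HasDerivAt g g' t)
    (hm : ∀ s ∈ Icc a t, g s ≤ g t) : 0 ≤ g' := by
  have h1 := hg.tendsto_slope.mono_left (nhdsLT_le_nhdsNE t)
  refine ge_of_tendsto h1 ?_
  filter_upwards [Ioo_mem_nhdsLT hat] with s hs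
  rw [slope_def_field]
  exact div_nonneg_of_nonpos (sub_nonpos.mpr (hm s ⟨hs.1.le, hs.2.le⟩)) (sub_nonpos.mpr hs.2.le)

theorem sMax : SMax := by
  intro d R D a b c u hu h0 hb t ht x hx
  have hab : a ≤ b := ht.1.trans ht.2
  have main : ∀ ε : ℝ, 0 < ε → u t x - ε * (t - a) ≤ c := by
    intro ε hε
    have hK : IsCompact (Icc a b ×ˢ closedBall (0 : EE d) R) :=
      isCompact_Icc.prod (isCompact_closedBall _ _)
    have hcont : ContinuousOn (fun p : ℝ × EE d => u p.1 p.2 - ε * (p.1 - a))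
        (Icc a b ×ˢ closedBall (0 : EE d) R) :=
      hu.1.sub (by fun_prop)
    obtain ⟨p, hp, hmax⟩ := hK.exists_isMaxOn ⟨(t, x), ht, hx⟩ hcont
    have hle : u t x - ε * (t - a) ≤ u p.1 p.2 - ε * (p.1 - a) :=
      hmax (show (t, x) ∈ Icc a b ×ˢ closedBall (0 : EE d) R from ⟨ht, hx⟩)
    have hpa : 0 ≤ ε * (p.1 - a) := mul_nonneg hε.le (sub_nonneg.mpr hp.1.1)
    suffices h : u p.1 p.2 ≤ c by linarith
    rcases eq_or_lt_of_le hp.1.1 with h1 | h1
    · rw [← h1]; exact h0 _ hp.2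
    rcases eq_or_lt_of_le (mem_closedBall.mp hp.2) with h2 | h2
    · exact hb _ hp.1 _ (mem_sphere.mpr h2)
    exfalso
    obtain ⟨hC, hD⟩ := hu.2 p.1 ⟨h1, hp.1.2⟩ p.2 (mem_ball.mpr h2)
    have hloc : IsLocalMax (u p.1) p.2 := by
      filter_upwards [isOpen_ball.mem_nhds (mem_ball.mpr h2)] with y hy
      have := hmax (show (p.1, y) ∈ Icc a b ×ˢ closedBall (0 : EE d) R from
        ⟨hp.1, ball_subset_closedBall hy⟩)
      have h3 : u p.1 y - ε * (p.1 - a) ≤ u p.1 p.2 - ε * (p.1 - a) := this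
      linarith
    have hlap := lap_Max _ _ hC hloc
    have hD2 : HasDerivAt (fun s => u s p.2 - ε * (s - a)) (D ^ 2 * Δ (u p.1) p.2 - ε) p.1 := by
      simpa using hD.fun_sub (((hasDerivAt_id p.1).sub_const a).const_mul ε)
    have htime := time_Max _ a p.1 _ h1 hD2 (fun s hs =>
      hmax (show (s, p.2) ∈ Icc a b ×ˢ closedBall (0 : EE d) R from
        ⟨⟨hs.1, hs.2.trans hp.1.2⟩, hp.2⟩))
    have : D ^ 2 * Δ (u p.1) p.2 ≤ 0 := mul_nonpos_of_nonneg_of_nonpos (sq_nonneg D) hlap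
    linarith
  refine le_of_forall_pos_le_add fun δ hδ => ?_
  have hpos : 0 < t - a + 1 := by linarith [ht.1]
  have h1 := main (δ / (t - a + 1)) (div_pos hδ hpos)
  have h2 : δ / (t - a + 1) * (t - a) ≤ δ := by
    rw [div_mul_eq_mul_div, div_le_iff₀ hpos]
    nlinarith
  linarith

end

section

theorem rot_Lin {d : ℕ} (f : EE d → ℝ) (g : EE d ≃ₗᵢ[ℝ] EE d) (x : EE d) :
    Δ (fun y => f (g y)) x = Δ f (g x) := by
  have h := g.toContinuousLinearEquiv.iteratedFDerivWithin_comp_right f uniqueDiffOn_univ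
    (x := x) (mem_univ _) 2
  rw [preimage_univ, iteratedFDerivWithin_univ, iteratedFDerivWithin_univ] at h
  rw [InnerProductSpace.laplacian_eq_iteratedFDeriv_orthonormalBasis _ (stdOrthonormalBasis ℝ _),
    InnerProductSpace.laplacian_eq_iteratedFDeriv_orthonormalBasis f
      ((stdOrthonormalBasis ℝ _).map g)]
  refine Finset.sum_congr rfl fun i _ => (DFunLike.congr_fun h _).trans ?_
  rw [ContinuousMultilinearMap.compContinuousLinearMap_apply]
  congr 1
  funext j
  fin_cases j <;> rfl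

theorem sLin : SLin := by
  intro d R D a b
  refine ⟨fun u v p q hu hv => ⟨(hu.1.const_mul p).add (hv.1.const_mul q), fun t ht x hx => ?_⟩,
    fun u g hu => ⟨?_, fun t ht x hx => ?_⟩, fun K s hK ha hs y hy => ⟨?_, fun t ht x hx => ?_⟩⟩
  · obtain ⟨u1, u2⟩ := hu.2 t ht x hx
    obtain ⟨v1, v2⟩ := hv.2 t ht x hx
    refine ⟨(contDiffAt_const.mul u1).add (contDiffAt_const.mul v1), ?_⟩
    have e : Δ (fun x => p * u t x + q * v t x) x = p * Δ (u t) x + q * Δ (v t) x := by
      have h := (u1.const_smul p).laplacian_add (v1.const_smul q)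
      rw [show (fun y => p • u t y) = p • u t from rfl, show (fun y => q • v t y) = q • v t from rfl,
        InnerProductSpace.laplacian_smul p u1, InnerProductSpace.laplacian_smul q v1] at h
      exact h
    refine ((u2.const_mul p).add (v2.const_mul q)).congr_deriv ?_
    rw [e]
    ring
  · refine hu.1.comp (f := fun z : ℝ × EE d => (z.1, g z.2)) (by fun_prop) fun z hz => ⟨hz.1, ?_⟩
    simpa using hz.2
  · obtain ⟨u1, u2⟩ := hu.2 t ht (g x) (by simpa using hx)
    refine ⟨u1.comp x g.contDiff.contDiffAt, ?_⟩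
    rw [rot_Lin (u t) g x]
    exact u2
  · refine hK.cont.comp (f := fun z : ℝ × EE d => (z.1 + s, z.2, y)) (by fun_prop)
      fun z hz => ⟨?_, hz.2, ball_subset_closedBall hy⟩
    exact add_pos_of_pos_of_nonneg (ha.trans_le hz.1.1) hs
  · obtain ⟨u1, u2⟩ := hK.heat (t + s) (add_pos_of_pos_of_nonneg (ha.trans ht.1) hs) x hx y hy
    exact ⟨u1, u2.comp_add_const t s⟩

end

section

lemma d1_GaH {d : ℕ} (c k : ℝ) (y x : EE d) :
    HasFDerivAt (fun x : EE d => c * Real.exp (-‖x - y‖ ^ 2 / k))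
      ((-2 / k * (c * Real.exp (-‖x - y‖ ^ 2 / k))) • innerSL ℝ (x - y)) x := by
  have h1 := ((((hasFDerivAt_id x).sub_const y).norm_sq.neg.mul_const k⁻¹).exp).const_mul c
  simp only [div_eq_mul_inv]
  refine h1.congr_fderiv ?_
  ext v
  simp
  ring

lemma lap_GaH {d : ℕ} (c k : ℝ) (y x : EE d) :
    Δ (fun x : EE d => c * Real.exp (-‖x - y‖ ^ 2 / k)) x =
      c * Real.exp (-‖x - y‖ ^ 2 / k) * (4 / k ^ 2 * ‖x - y‖ ^ 2 - 2 / k * d) := by
  have e1 : fderiv ℝ (fun x : EE d => c * Real.exp (-‖x - y‖ ^ 2 / k)) =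
      fun x => (-2 / k * (c * Real.exp (-‖x - y‖ ^ 2 / k))) • innerSL ℝ (x - y) :=
    funext fun x => (d1_GaH c k y x).fderiv
  have h2 : HasFDerivAt (fun x : EE d => innerSL ℝ (x - y)) (innerSL ℝ (E := EE d)) x :=
    ((innerSL ℝ (E := EE d)).hasFDerivAt.comp x ((hasFDerivAt_id x).sub_const y)).congr_fderiv
      (ContinuousLinearMap.comp_id _)
  have h3 := (((d1_GaH c k y x).const_mul (-2 / k)).smul h2).fderiv
  have h4 : ∀ e : EE d, ‖e‖ = 1 →
      iteratedFDeriv ℝ 2 (fun x : EE d => c * Real.exp (-‖x - y‖ ^ 2 / k)) x ![e, e] =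
      c * Real.exp (-‖x - y‖ ^ 2 / k) * (4 / k ^ 2 * ⟪x - y, e⟫ ^ 2 - 2 / k) := fun e he => by
    have h5 : ⟪e, e⟫ = 1 := by rw [real_inner_self_eq_norm_sq, he, one_pow]
    rw [iteratedFDeriv_two_apply, e1]
    refine (congrArg (fun L : EE d →L[ℝ] EE d →L[ℝ] ℝ => L e e) h3).trans ?_
    change -2 / k * (c * Real.exp (-‖x - y‖ ^ 2 / k)) * ⟪e, e⟫ +
      -2 / k * (-2 / k * (c * Real.exp (-‖x - y‖ ^ 2 / k)) * ⟪x - y, e⟫) * ⟪x - y, e⟫ = _
    rw [h5]
    ring
  rw [InnerProductSpace.laplacian_eq_iteratedFDeriv_orthonormalBasis _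
    (EuclideanSpace.basisFun (Fin d) ℝ)]
  simp only [h4 _ ((EuclideanSpace.basisFun (Fin d) ℝ).orthonormal.1 _)]
  rw [← Finset.mul_sum, Finset.sum_sub_distrib, ← Finset.mul_sum,
    OrthonormalBasis.sum_sq_inner_left]
  simp [mul_comm]

theorem sGaH : SGaH := by
  intro d R D a b y hD ha
  refine ⟨?_, fun t ht x _ => ⟨?_, ?_⟩⟩
  · have hp : ∀ p ∈ Icc a b ×ˢ closedBall (0 : EE d) R, 0 < p.1 := fun p hp => ha.trans_le hp.1.1
    unfold gauss
    refine ContinuousOn.mul (ContinuousOn.rpow_const (by fun_prop) fun p h => Or.inl ?_)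
      (ContinuousOn.rexp (ContinuousOn.div (by fun_prop) (by fun_prop) fun p h => ?_))
    · have := hp p h
      have := Real.pi_pos
      positivity
    · have := hp p h
      positivity
  · unfold gauss
    exact (contDiff_const.mul (((contDiff_id.sub contDiff_const).norm_sq ℝ).neg.div_const
      _).exp).contDiffAt
  · have ht0 : 0 < t := ha.trans ht.1
    have hπ := Real.pi_pos
    have h1 : HasDerivAt (fun t : ℝ => (4 * Real.pi * D ^ 2 * t) ^ (-(d : ℝ) / 2))
        (-(d : ℝ) / 2 / t * (4 * Real.pi * D ^ 2 * t) ^ (-(d : ℝ) / 2)) t := by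
      have h := ((hasDerivAt_id t).const_mul (4 * Real.pi * D ^ 2)).rpow_const
        (p := -(d : ℝ) / 2) (Or.inl (by simp only [id]; positivity))
      refine h.congr_deriv ?_
      simp only [id]
      rw [Real.rpow_sub_one (by positivity)]
      field_simp
    have h2 : HasDerivAt (fun t : ℝ => -‖x - y‖ ^ 2 / (4 * D ^ 2 * t))
        (‖x - y‖ ^ 2 / (4 * D ^ 2 * t ^ 2)) t := by
      have h := (hasDerivAt_const t (-‖x - y‖ ^ 2)).div
        ((hasDerivAt_id t).const_mul (4 * D ^ 2)) (by simp only [id]; positivity)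
      refine h.congr_deriv ?_
      simp only [id]
      field_simp
      ring
    unfold gauss
    rw [lap_GaH]
    refine (h1.mul h2.exp).congr_deriv ?_
    field_simp
    ring

end

section

theorem int_GaI (d : ℕ) {D t : ℝ} (hD : 0 < D) (ht : 0 < t) :
    ∫ y : EE d, gauss D t y = 1 := by
  have hb : 0 < 1 / (4 * D ^ 2 * t) := by positivity
  have h0 : 0 < 4 * Real.pi * D ^ 2 * t := by positivity
  have h1 := GaussianFourier.integral_rexp_neg_mul_sq_norm (V := EE d) hb
  rw [finrank_euclideanSpace_fin,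
    show Real.pi / (1 / (4 * D ^ 2 * t)) = 4 * Real.pi * D ^ 2 * t by field_simp] at h1
  have e : ∀ y : EE d, -‖y‖ ^ 2 / (4 * D ^ 2 * t) = -(1 / (4 * D ^ 2 * t)) * ‖y‖ ^ 2 :=
    fun y => by ring
  simp only [gauss, e]
  rw [integral_const_mul, h1, ← Real.rpow_add h0, show -(d : ℝ) / 2 + d / 2 = 0 by ring,
    Real.rpow_zero]

theorem sGaI : SGaI := by
  intro d D t hD ht x
  have h : ∫ y, gauss D t (x - y) = 1 := by
    rw [integral_sub_left_eq_self (fun y : EE d => gauss D t y) volume x, int_GaI d hD ht]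
  refine ⟨?_, Integrable.of_integral_ne_zero (by rw [h]; exact one_ne_zero), h⟩
  unfold gauss
  positivity

end

section

theorem eq_GaT {d : ℕ} {D t u : ℝ} (hD : 0 < D) (ht : 0 < t)
    (hu : u = (4 * Real.pi * D ^ 2 * t)⁻¹) (x : EE d) :
    gauss D t x = u ^ ((d : ℝ) / 2) * Real.exp (-(Real.pi * ‖x‖ ^ 2) * u) := by
  have hp := Real.pi_pos
  rw [gauss, hu, neg_div, Real.rpow_neg (by positivity), Real.inv_rpow (by positivity)]
  congr 2
  field_simp

theorem sGaT (hI : SGaI) : SGaT := by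
  intro d D δ ε hD hδ hε
  have hp := Real.pi_pos
  have l0 : Tendsto (fun t : ℝ => (4 * Real.pi * D ^ 2 * t)⁻¹) (𝓝[>] 0) atTop := by
    simp only [mul_inv (4 * Real.pi * D ^ 2)]
    exact tendsto_inv_nhdsGT_zero.const_mul_atTop (by positivity)
  have l1 := (tendsto_rpow_mul_exp_neg_mul_atTop_nhds_zero ((d : ℝ) / 2) (Real.pi * δ ^ 2)
    (by positivity)).comp l0
  have l2 := ((tendsto_rpow_mul_exp_neg_mul_atTop_nhds_zero 0 (Real.pi * δ ^ 2 / 2)
    (by positivity)).comp l0).const_mul ((2 : ℝ) ^ ((d : ℝ) / 2))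
  rw [mul_zero] at l2
  obtain ⟨t0, h0, h⟩ := mem_nhdsGT_iff_exists_Ioo_subset.1
    ((l1.eventually (gt_mem_nhds hε)).and (l2.eventually (gt_mem_nhds hε)))
  refine ⟨t0, h0, fun t ht x => ?_⟩
  obtain ⟨h1, h2⟩ := h ht
  obtain ⟨u, hu⟩ : ∃ u : ℝ, u = (4 * Real.pi * D ^ 2 * t)⁻¹ := ⟨_, rfl⟩
  have tp := ht.1
  have up : 0 < u := by rw [hu]; positivity
  simp only [Function.comp_apply, ← hu, Real.rpow_zero, one_mul] at h1 h2
  have sq : ∀ z : EE d, δ ≤ ‖z‖ → Real.pi * δ ^ 2 * u ≤ Real.pi * ‖z‖ ^ 2 * u := fun z hz => by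
    gcongr
  refine ⟨fun hx => le_trans ?_ h1.le, le_trans ?_ h2.le⟩
  · rw [eq_GaT hD tp hu]
    exact mul_le_mul_of_nonneg_left (Real.exp_le_exp.2 (by linarith [sq x hx])) (by positivity)
  · obtain ⟨-, i1, -⟩ := hI d D t hD tp x
    obtain ⟨-, i2, i3⟩ := hI d D (2 * t) hD (by positivity) x
    obtain ⟨c, hc⟩ : ∃ c : ℝ, c = 2 ^ ((d : ℝ) / 2) * Real.exp (-(Real.pi * δ ^ 2 / 2) * u) :=
      ⟨_, rfl⟩
    have cp : 0 < c := by rw [hc]; positivity
    rw [← hc]
    calc ∫ y in {y | δ ≤ ‖x - y‖}, gauss D t (x - y)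
        ≤ ∫ y in {y | δ ≤ ‖x - y‖}, c * gauss D (2 * t) (x - y) := by
          refine setIntegral_mono_on i1.integrableOn (i2.const_mul c).integrableOn
            (measurableSet_le measurable_const (by fun_prop)) fun y hy => ?_
          rw [eq_GaT hD tp hu, eq_GaT (u := u / 2) hD (by positivity) (by rw [hu]; field_simp), hc,
            mul_mul_mul_comm, ← Real.mul_rpow (by positivity) (by positivity), ← Real.exp_add,
            mul_div_cancel₀ u two_ne_zero]
          exact mul_le_mul_of_nonneg_left (Real.exp_le_exp.2 (by linarith [sq _ hy]))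
            (by positivity)
      _ ≤ ∫ y, c * gauss D (2 * t) (x - y) := setIntegral_le_integral (i2.const_mul c)
          (Eventually.of_forall fun y =>
            (mul_pos cp (hI d D (2 * t) hD (by positivity) (x - y)).1).le)
      _ = c := by rw [integral_const_mul, i3, mul_one]

end

section

theorem key_Kb (hM : SMax) (hL : SLin) (hH : SGaH) (hI : SGaI) {d : ℕ} {R D : ℝ}
    {K : ℝ → EE d → EE d → ℝ} (hK : IsKernel R D K) (hD : 0 < D) {t ε p q : ℝ} (ht : 0 < t)
    {y : EE d} (hy : y ∈ ball (0 : EE d) R) (hε : 0 < ε)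
    (h1 : ∀ k g : ℝ, 0 < g → |g - k| ≤ ε → p * k + q * g ≤ ε)
    (h2 : ∀ τ ∈ Ioc 0 t, ∀ x ∈ sphere (0 : EE d) R, q * gauss D τ (x - y) ≤ ε) :
    ∀ x ∈ closedBall (0 : EE d) R, p * K t x y + q * gauss D t (x - y) ≤ ε := by
  obtain ⟨a, ha, ha'⟩ := ((Metric.tendstoUniformlyOn_iff.1 (hK.init y hy) ε hε).and
    (Ioo_mem_nhdsGT ht)).exists
  obtain ⟨l1, -, l3⟩ := hL d R D a t
  have h := hM d R D a t ε _ (l1 _ _ p q (l3 K 0 hK ha'.1 le_rfl y hy) (hH d R D a t y hD ha'.1))
  simp only [add_zero] at h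
  refine h (fun x hx => h1 _ _ (hI d D a hD ha'.1 _).1 ?_) (fun τ hτ x hx => ?_) t
    ⟨ha'.2.le, le_rfl⟩
  · have := ha x hx
    rw [Real.dist_eq, zero_sub, neg_sub] at this
    exact this.le
  · have τ0 : 0 < τ := ha'.1.trans_le hτ.1
    rw [hK.bdry τ τ0 x hx y hy, mul_zero, zero_add]
    exact h2 τ ⟨τ0, hτ.2⟩ x hx

theorem sKb (hM : SMax) (hL : SLin) (hH : SGaH) (hI : SGaI) (hT : SGaT) : SKb := by
  intro d R D K hK hD
  refine ⟨fun t ht x hx y hy => ⟨?_, ?_⟩, fun δ hδ ε hε => ?_⟩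
  · refine le_of_forall_pos_le_add fun ε hε => ?_
    have := key_Kb hM hL hH hI hK hD (p := -1) (q := 0) ht hy hε
      (fun k g hg h => by linarith [(abs_le.1 h).2]) (fun τ _ z _ => by linarith) x hx
    linarith
  · refine le_of_forall_pos_le_add fun ε hε => ?_
    have := key_Kb hM hL hH hI hK hD (p := 1) (q := -1) ht hy hε
      (fun k g hg h => by linarith [(abs_le.1 h).1])
      (fun τ hτ z _ => by linarith [(hI d D τ hD hτ.1 (z - y)).1]) x hx
    linarith
  · obtain ⟨t0, h0, h⟩ := hT d D δ ε hD hδ hε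
    refine ⟨t0, h0, fun t ht x hx y hy => ?_⟩
    have hy' : y ∈ ball (0 : EE d) R := mem_ball_zero_iff.2 (by linarith)
    have := key_Kb hM hL hH hI hK hD (p := -1) (q := 1) ht.1 hy' hε
      (fun k g hg h => by linarith [(abs_le.1 h).2])
      (fun τ hτ z hz => by
        have h1 := norm_sub_norm_le z y
        rw [mem_sphere_zero_iff_norm.1 hz] at h1
        have h2 := (h τ ⟨hτ.1, hτ.2.trans_lt ht.2⟩ (z - y)).1 (by linarith)
        linarith) x hx
    linarith

end

section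

theorem le_Kinv (hM : SMax) (hL : SLin) {d : ℕ} {R D : ℝ} {K : ℝ → EE d → EE d → ℝ}
    (hK : IsKernel R D K) (g : EE d ≃ₗᵢ[ℝ] EE d) {t : ℝ} (ht : 0 < t) {x y : EE d}
    (hx : x ∈ closedBall (0 : EE d) R) (hy : y ∈ ball (0 : EE d) R) :
    K t (g x) (g y) ≤ K t x y := by
  have hy' : g y ∈ ball (0 : EE d) R := by simpa using hy
  refine le_of_forall_pos_le_add fun ε hε => ?_
  obtain ⟨a, ⟨h1, h2⟩, a0, at'⟩ := (((Metric.tendstoUniformlyOn_iff.1 (hK.init y hy) _
    (half_pos hε)).and (Metric.tendstoUniformlyOn_iff.1 (hK.init _ hy') _ (half_pos hε))).and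
    (Ioo_mem_nhdsGT ht)).exists
  obtain ⟨l1, l2, l3⟩ := hL d R D a t
  have key := hM d R D a t ε _ (l1 _ _ 1 (-1) (l2 _ g (l3 K 0 hK a0 le_rfl _ hy'))
    (l3 K 0 hK a0 le_rfl _ hy)) (fun z hz => ?_) (fun s hs z hz => ?_) t ⟨at'.le, le_rfl⟩ x hx
  · simp only [add_zero] at key
    linarith
  · have b1 := h1 z hz
    have b2 := h2 (g z) (by simpa using hz)
    have e : gauss D a (g z - g y) = gauss D a (z - y) := by
      rw [← map_sub, gauss, gauss, g.norm_map]
    rw [Real.dist_eq, abs_lt] at b1 b2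
    simp only [add_zero]
    linarith [b1.2, b2.1]
  · have s0 : 0 < s := a0.trans_le hs.1
    simp only [add_zero]
    rw [hK.bdry s s0 z hz y hy, hK.bdry s s0 (g z) (by simpa using hz) _ hy']
    linarith

theorem sKinv (hM : SMax) (hL : SLin) : SKinv := by
  intro d R D K hK g t ht x hx y hy
  refine le_antisymm (le_Kinv hM hL hK g ht hx hy) ?_
  simpa using le_Kinv hM hL hK g.symm ht (x := g x) (y := g y) (by simpa using hx)
    (by simpa using hy)

end

section

theorem near_Kini {d : ℕ} {R η : ℝ} {φ : EE d → ℝ} (hR : 0 < R)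
    (hφ : ContinuousOn φ (closedBall 0 R)) (h0 : ∀ x ∈ sphere (0 : EE d) R, φ x = 0) (hη : 0 < η) :
    ∃ δ > 0, (∀ x ∈ closedBall (0 : EE d) R, ∀ z ∈ closedBall (0 : EE d) R, ‖x - z‖ < δ →
      |φ z - φ x| ≤ η) ∧ ∀ z ∈ closedBall (0 : EE d) R, R - δ < ‖z‖ → |φ z| ≤ η := by
  obtain ⟨δ, hδ, h⟩ := Metric.uniformContinuousOn_iff.1
    ((isCompact_closedBall (0 : EE d) R).uniformContinuousOn_of_continuous hφ) η hη
  refine ⟨min δ R, lt_min hδ hR, fun x hx z hz hxz => ?_, fun z hz hz' => ?_⟩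
  · have := h z hz x hx (by
      rw [dist_comm, dist_eq_norm]
      exact hxz.trans_le (min_le_left _ _))
    exact this.le
  · have h1 : 0 < ‖z‖ := by linarith [min_le_right δ R]
    have h2 : ‖z‖ ≤ R := mem_closedBall_zero_iff.1 hz
    have h3 : ‖(R / ‖z‖) • z‖ = R := by
      rw [norm_smul, Real.norm_of_nonneg (by positivity), div_mul_cancel₀ _ h1.ne']
    have h4 : dist ((R / ‖z‖) • z) z = R - ‖z‖ := by
      rw [dist_eq_norm, show (R / ‖z‖) • z - z = (R / ‖z‖ - 1) • z by rw [sub_smul, one_smul],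
        norm_smul, Real.norm_of_nonneg (sub_nonneg.2 ((one_le_div h1).2 h2)), sub_mul,
        div_mul_cancel₀ _ h1.ne', one_mul]
    have h5 := h _ (mem_closedBall_zero_iff.2 h3.le) z hz (by
      rw [h4]
      linarith [min_le_left δ R])
    rw [h0 _ (mem_sphere_zero_iff_norm.2 h3), Real.dist_eq, zero_sub, abs_neg] at h5
    exact h5.le

theorem sKini (hI : SGaI) (hT : SGaT) (hB : SKb) : SKini := by
  intro d R D K hK hD hR φ hφ h0 ε hε
  obtain ⟨M, hM⟩ := (isCompact_closedBall (0 : EE d) R).exists_bound_of_continuousOn hφ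
  simp only [Real.norm_eq_abs] at hM
  have M0 : 0 ≤ M := (abs_nonneg _).trans (hM 0 (mem_closedBall_self hR.le))
  obtain ⟨V, hV⟩ : ∃ V, V = (volume : Measure (EE d)).real (ball 0 R) := ⟨_, rfl⟩
  have V0 : 0 ≤ V := hV ▸ measureReal_nonneg
  obtain ⟨η, hη, hηe⟩ : ∃ η : ℝ, 0 < η ∧ η * (M * V + 2 + 2 * M) = ε :=
    ⟨ε / (M * V + 2 + 2 * M), by positivity, div_mul_cancel₀ _ (by positivity)⟩
  obtain ⟨δ, hδ, u1, u2⟩ := near_Kini hR hφ h0 hη
  obtain ⟨kb, kc⟩ := hB d R D K hK hD
  obtain ⟨t1, ht1, k1⟩ := kc δ hδ η hη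
  obtain ⟨t2, ht2, k2⟩ := hT d D δ η hD hδ hη
  refine ⟨min t1 t2, lt_min ht1 ht2, fun t ht x hx => ?_⟩
  have ht0 : 0 < t := ht.1
  obtain ⟨-, gi, g1⟩ := hI d D t hD ht0 x
  have g0 : ∀ z, 0 ≤ gauss D t (x - z) := fun z => (hI d D t hD ht0 (x - z)).1.le
  have hS : MeasurableSet {y : EE d | δ ≤ ‖x - y‖} :=
    (isClosed_le continuous_const (by fun_prop)).measurableSet
  have cK : ContinuousOn (fun z => K t x z) (closedBall 0 R) :=
    hK.cont.comp (f := fun z => (t, x, z)) (by fun_prop) fun z hz => ⟨ht0, hx, hz⟩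
  have iK : IntegrableOn (fun z => K t x z * φ z) (ball 0 R) :=
    ((cK.mul hφ).integrableOn_compact (isCompact_closedBall 0 R)).mono_set ball_subset_closedBall
  have i1 : Integrable ((ball (0 : EE d) R).indicator fun _ => η * M) :=
    (integrable_indicator_iff measurableSet_ball).2 (integrableOn_const measure_ball_lt_top.ne)
  have i2 : Integrable fun z => 2 * η * gauss D t (x - z) := gi.const_mul _
  have i3 : Integrable fun z => 2 * M *
      {y : EE d | δ ≤ ‖x - y‖}.indicator (fun z => gauss D t (x - z)) z :=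
    (gi.indicator hS).const_mul _
  have i12 : Integrable fun z => (ball (0 : EE d) R).indicator (fun _ => η * M) z +
      2 * η * gauss D t (x - z) := i1.add i2
  have e : (∫ z in ball 0 R, K t x z * φ z) - φ x = ∫ z, ((ball (0 : EE d) R).indicator
      (fun z => K t x z * φ z) z - gauss D t (x - z) * φ x) := by
    rw [integral_sub ((integrable_indicator_iff measurableSet_ball).2 iK) (gi.mul_const _),
      integral_indicator measurableSet_ball, integral_mul_const, g1, one_mul]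
  rw [e, ← Real.norm_eq_abs]
  refine (norm_integral_le_of_norm_le (i12.add i3) (Eventually.of_forall fun z => ?_)).trans ?_
  · have gz := g0 z
    have a1 := mul_nonneg hη.le gz
    have a2 := mul_nonneg M0 gz
    have a3 := mul_nonneg hη.le M0
    have hx' := hM x hx
    rw [Real.norm_eq_abs]
    simp only [Pi.add_apply]
    by_cases hz : z ∈ ball (0 : EE d) R
    · have hz' := ball_subset_closedBall hz
      obtain ⟨b1, b2⟩ := kb t ht0 x hx z hz
      have b3 : |(K t x z - gauss D t (x - z)) * φ z| ≤ η * M + η * gauss D t (x - z) := by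
        rw [abs_mul, abs_sub_comm, abs_of_nonneg (sub_nonneg.2 b2)]
        rcases le_or_gt ‖z‖ (R - δ) with h | h
        · have := mul_le_mul (k1 t ⟨ht0, ht.2.trans_le (min_le_left _ _)⟩ x hx z h) (hM z hz')
            (abs_nonneg _) hη.le
          linarith
        · have := mul_le_mul (show gauss D t (x - z) - K t x z ≤ gauss D t (x - z) by linarith)
            (u2 z hz' h) (abs_nonneg _) gz
          linarith
      rw [indicator_of_mem hz, indicator_of_mem hz,
        show K t x z * φ z - gauss D t (x - z) * φ x = (K t x z - gauss D t (x - z)) * φ z +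
          gauss D t (x - z) * (φ z - φ x) by ring]
      refine (abs_add_le _ _).trans ?_
      rw [abs_mul (gauss D t (x - z)), abs_of_nonneg gz]
      by_cases h : δ ≤ ‖x - z‖
      · rw [indicator_of_mem (show z ∈ {y : EE d | δ ≤ ‖x - y‖} from h)]
        have := mul_le_mul_of_nonneg_left ((abs_sub _ _).trans (add_le_add (hM z hz') hx')) gz
        linarith
      · rw [indicator_of_notMem (show z ∉ {y : EE d | δ ≤ ‖x - y‖} from h)]
        have := mul_le_mul_of_nonneg_left (u1 x hx z hz' (not_le.1 h)) gz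
        linarith
    · rw [indicator_of_notMem hz, indicator_of_notMem hz, zero_sub, abs_neg, abs_mul,
        abs_of_nonneg gz]
      by_cases h : δ ≤ ‖x - z‖
      · rw [indicator_of_mem (show z ∈ {y : EE d | δ ≤ ‖x - y‖} from h)]
        have := mul_le_mul_of_nonneg_left hx' gz
        linarith
      · rw [indicator_of_notMem (show z ∉ {y : EE d | δ ≤ ‖x - y‖} from h)]
        have b1 : R ≤ ‖z‖ := not_lt.1 fun c => hz (mem_ball_zero_iff.2 c)
        have b2 := norm_sub_norm_le z x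
        rw [norm_sub_rev] at b2
        have := mul_le_mul_of_nonneg_left (u2 x hx (by linarith [not_le.1 h])) gz
        linarith
  · simp only [Pi.add_apply]
    rw [integral_add i12 i3, integral_add i1 i2, integral_const_mul, integral_const_mul,
      integral_indicator measurableSet_ball, integral_indicator hS, g1, setIntegral_const, ← hV,
      smul_eq_mul]
    have := mul_le_mul_of_nonneg_left (k2 t ⟨ht0, ht.2.trans_le (min_le_right _ _)⟩ x).2 M0
    linarith

end

section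

theorem int_Ksup {X Z : Type} [NormedAddCommGroup X] [NormedSpace ℝ X] [CompleteSpace X]
    [MeasurableSpace Z] {μ : Measure Z} {s : Set Z} (hs : μ s ≠ ⊤) (hm : MeasurableSet s)
    (V : Submodule ℝ X) (hV : IsClosed (V : Set X)) {f : Z → X} (hf : IntegrableOn f s μ)
    (h : ∀ z ∈ s, f z ∈ V) : ∫ z in s, f z ∂μ ∈ V := by
  by_cases h0 : μ s = 0
  · rw [setIntegral_measure_zero _ h0]
    exact V.zero_mem
  · rw [← measure_smul_setAverage f hs]
    exact V.smul_mem _ (V.convex.set_average_mem hV h0 hs (ae_restrict_of_forall_mem hm h) hf)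

theorem max_Ksup (hM : SMax) {d : ℕ} {R D a b c : ℝ}
    [CompactSpace ↥(Icc a b ×ˢ closedBall (0 : EE d) R)]
    {w : C(↥(Icc a b ×ˢ closedBall (0 : EE d) R), ℝ)}
    (hw : w ∈ closure {w : C(↥(Icc a b ×ˢ closedBall (0 : EE d) R), ℝ) |
      ∃ v, Heat R D a b v ∧ ∀ q, w q = v q.1.1 q.1.2})
    (h1 : ∀ q, q.1.1 = a → w q ≤ c) (h2 : ∀ q, q.1.2 ∈ sphere (0 : EE d) R → w q ≤ c)
    (q : ↥(Icc a b ×ˢ closedBall (0 : EE d) R)) : w q ≤ c := by
  refine le_of_forall_pos_le_add fun ε hε => ?_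
  obtain ⟨w', ⟨v, hv, e⟩, hd⟩ := Metric.mem_closure_iff.1 hw (ε / 2) (half_pos hε)
  have k : ∀ q, |w q - v q.1.1 q.1.2| < ε / 2 := fun q => by
    rw [← e, ← Real.dist_eq]
    exact (ContinuousMap.dist_apply_le_dist q).trans_lt hd
  have h := hM d R D a b (c + ε / 2) v hv (fun x hx => by
    have ha : a ∈ Icc a b := left_mem_Icc.2 (q.2.1.1.trans q.2.1.2)
    linarith [(abs_lt.1 (k ⟨(a, x), ha, hx⟩)).1, h1 ⟨(a, x), ha, hx⟩ rfl]) (fun t ht x hx => by
    have hx' := sphere_subset_closedBall hx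
    linarith [(abs_lt.1 (k ⟨(t, x), ht, hx'⟩)).1, h2 ⟨(t, x), ht, hx'⟩ hx]) _ q.2.1 _ q.2.2
  linarith [(abs_lt.1 (k q)).2]

theorem sKsup (hM : SMax) (hL : SLin) : SKsup := by
  intro d R D a b c K φ u hK hφ ha hu hs h0 t ht x hx
  have : CompactSpace ↥(Icc a b ×ˢ closedBall (0 : EE d) R) :=
    isCompact_iff_compactSpace.1 (isCompact_Icc.prod (isCompact_closedBall _ _))
  obtain ⟨L1, -, L3⟩ := hL d R D a b
  let V : Submodule ℝ C(↥(Icc a b ×ˢ closedBall (0 : EE d) R), ℝ) :=
    { carrier := {w | ∃ v, Heat R D a b v ∧ ∀ q, w q = v q.1.1 q.1.2}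
      add_mem' := fun ⟨v, hv, e⟩ ⟨v', hv', e'⟩ => ⟨_, L1 v v' 1 1 hv hv', fun q => by simp [e, e']⟩
      zero_mem' := ⟨_, L1 u u 0 0 hu hu, fun q => by simp⟩
      smul_mem' := fun r w ⟨v, hv, e⟩ => ⟨_, L1 v v r 0 hv hv, fun q => by simp [e]⟩ }
  have hc : ContinuousOn (Function.uncurry fun (z : EE d) (q : ℝ × EE d) => K q.1 q.2 z * φ z)
      (closedBall 0 R ×ˢ (Icc a b ×ˢ closedBall (0 : EE d) R)) :=
    (hK.cont.comp (f := fun p : EE d × ℝ × EE d => (p.2.1, p.2.2, p.1)) (by fun_prop)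
      fun p hp => ⟨ha.trans_le hp.2.1.1, hp.2.2, hp.1⟩).mul
      (hφ.comp continuousOn_fst fun p hp => hp.1)
  obtain ⟨f, hf, ef⟩ : ∃ f : EE d → C(↥(Icc a b ×ˢ closedBall (0 : EE d) R), ℝ),
      ContinuousOn f (closedBall 0 R) ∧
        ∀ z ∈ closedBall (0 : EE d) R, ∀ q, f z q = K q.1.1 q.1.2 z * φ z :=
    ⟨_, ContinuousMap.continuousOn_mkD_restrict_of_uncurry _ 0 hc, fun z hz q =>
      ContinuousMap.mkD_apply_of_continuousOn (hc.comp (Continuous.prodMk_right z).continuousOn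
        fun _ h => ⟨hz, h⟩)⟩
  have hi : IntegrableOn f (ball 0 R) :=
    (hf.integrableOn_compact (isCompact_closedBall _ _)).mono_set ball_subset_closedBall
  have h1 : ∫ z in ball 0 R, f z ∈ V.topologicalClosure :=
    int_Ksup measure_ball_lt_top.ne measurableSet_ball _ V.isClosed_topologicalClosure hi
      fun z hz => V.le_topologicalClosure ⟨_, L1 _ _ (φ z) 0 (L3 K 0 hK ha le_rfl z hz) hu,
        fun q => by simp [ef z (ball_subset_closedBall hz), mul_comm]⟩
  have h2 : (⟨_, hu.1.domRestrict⟩ : C(↥(Icc a b ×ˢ closedBall (0 : EE d) R), ℝ)) ∈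
      V.topologicalClosure := V.le_topologicalClosure ⟨u, hu, fun q => rfl⟩
  obtain ⟨w, hw, e⟩ : ∃ w ∈ V.topologicalClosure,
      ∀ q, w q = u q.1.1 q.1.2 - ∫ z in ball 0 R, K q.1.1 q.1.2 z * φ z :=
    ⟨_, sub_mem h2 h1, fun q => by
      rw [ContinuousMap.sub_apply, ContinuousMap.integral_apply hi,
        setIntegral_congr_fun measurableSet_ball fun z hz => ef z (ball_subset_closedBall hz) q]
      rfl⟩
  have c0 : 0 ≤ c := (abs_nonneg _).trans (h0 x hx)
  have k1 : ∀ q : ↥(Icc a b ×ˢ closedBall (0 : EE d) R), q.1.1 = a → |w q| ≤ c := fun q hq => by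
    rw [e, hq]
    exact h0 _ q.2.2
  have k2 : ∀ q : ↥(Icc a b ×ˢ closedBall (0 : EE d) R), q.1.2 ∈ sphere (0 : EE d) R → w q = 0 :=
    fun q hq => by
      rw [e, hs _ q.2.1 _ hq, setIntegral_eq_zero_of_forall_eq_zero fun z hz => by
        rw [hK.bdry _ (ha.trans_le q.2.1.1) _ hq z hz, zero_mul], sub_zero]
  have m1 := max_Ksup hM hw (fun q hq => (abs_le.1 (k1 q hq)).2)
    (fun q hq => (k2 q hq).trans_le c0) ⟨(t, x), ht, hx⟩
  have m2 := max_Ksup hM (c := c) (neg_mem hw)
    (fun q hq => neg_le.1 (abs_le.1 (k1 q hq)).1)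
    (fun q hq => by rw [ContinuousMap.neg_apply, k2 q hq, neg_zero]; exact c0) ⟨(t, x), ht, hx⟩
  rw [ContinuousMap.neg_apply, e] at m2
  rw [e] at m1
  exact abs_le.2 ⟨neg_le.1 m2, m1⟩

end

section

theorem sKlaw (hL : SLin) (hI : SKini) (hS : SKsup) : SKlaw := by
  intro d R D K hK hD hR t ht s hs x hx y hy
  have hyc : y ∈ closedBall (0 : EE d) R := ball_subset_closedBall hy
  have hc : ContinuousOn (fun p : ℝ × EE d => K p.1 p.2 y) (Icc s (s + 1) ×ˢ closedBall 0 R) :=
    hK.cont.comp (f := fun p : ℝ × EE d => (p.1, p.2, y)) (by fun_prop)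
      fun p hp => ⟨lt_of_lt_of_le hs hp.1.1, hp.2, hyc⟩
  have hφ : ContinuousOn (fun z : EE d => K s z y) (closedBall 0 R) :=
    hK.cont.comp (f := fun z : EE d => (s, z, y)) (by fun_prop) fun z hz => ⟨hs, hz, hyc⟩
  have uc := Metric.uniformContinuousOn_iff.1
    ((isCompact_Icc.prod (isCompact_closedBall (0 : EE d) R)).uniformContinuousOn_of_continuous hc)
  refine (eq_of_forall_dist_le fun ε hε => ?_).symm
  obtain ⟨δ, hδ, h1⟩ := uc (ε / 2) (half_pos hε)
  obtain ⟨t0, ht0, h2⟩ := hI d R D K hK hD hR (fun z => K s z y) hφ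
    (fun z hz => hK.bdry s hs z hz y hy) (ε / 2) (half_pos hε)
  obtain ⟨a, a0, a1, a2, a3, a4⟩ : ∃ a : ℝ, 0 < a ∧ a ≤ t ∧ a < t0 ∧ a < δ ∧ a ≤ 1 := by
    have p : 0 < min (min t t0) (min δ 1) := lt_min (lt_min ht ht0) (lt_min hδ one_pos)
    have q1 := min_le_left (min t t0) (min δ 1)
    have q2 := min_le_right (min t t0) (min δ 1)
    have q3 := min_le_left t t0
    have q4 := min_le_right t t0
    have q5 := min_le_left δ 1
    have q6 := min_le_right δ 1
    exact ⟨min (min t t0) (min δ 1) / 2, by linarith, by linarith, by linarith, by linarith,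
      by linarith⟩
  rw [Real.dist_eq]
  refine hS d R D a t ε K (fun z => K s z y) (fun τ z => K (τ + s) z y) hK hφ a0
    ((hL d R D a t).2.2 K s hK a0 hs.le y hy)
    (fun τ hτ z hz => hK.bdry (τ + s) (by linarith [hτ.1]) z hz y hy) (fun z hz => ?_)
    t ⟨a1, le_rfl⟩ x hx
  have b1 := h1 (a + s, z) ⟨⟨by linarith, by linarith⟩, hz⟩ (s, z) ⟨⟨le_rfl, by linarith⟩, hz⟩
    (by
      rw [Prod.dist_eq, dist_self, Real.dist_eq, add_sub_cancel_right, abs_of_pos a0]
      exact max_lt a3 hδ)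
  rw [Real.dist_eq] at b1
  have b2 := h2 a ⟨a0, a2⟩ z hz
  have b3 := abs_sub_le (K (a + s) z y) (K s z y) (∫ w in ball 0 R, K a z w * K s w y)
  rw [abs_sub_comm] at b2
  exact b3.trans (by linarith [b1.le])

end

section

theorem sPk1 (hI : SGaI) (hB : SKb) : SPk1 := by
  intro d R D C K f hK hD hR hf t ht
  have C0 : 0 ≤ C := (norm_nonneg _).trans (hf.2 0 (mem_ball_self hR))
  have kb := (hB d R D K hK hD).1 t ht
  have c2 : ContinuousOn (fun p : EE d × EE d => K t p.1 p.2) (closedBall 0 R ×ˢ closedBall 0 R) :=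
    hK.cont.comp (f := fun p : EE d × EE d => (t, p)) (by fun_prop) fun p hp => ⟨ht, hp⟩
  obtain ⟨M, hM⟩ := ((isCompact_closedBall (0 : EE d) R).prod
    (isCompact_closedBall (0 : EE d) R)).exists_bound_of_continuousOn c2
  have ms : ∀ x ∈ closedBall (0 : EE d) R,
      AEStronglyMeasurable (fun y => K t x y • f y) (volume.restrict (ball 0 R)) := fun x hx =>
    ((c2.comp (f := fun y : EE d => (x, y)) (by fun_prop) fun y hy =>
      ⟨hx, ball_subset_closedBall hy⟩).aestronglyMeasurable measurableSet_ball).smul hf.1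
  have bd : ∀ x ∈ closedBall (0 : EE d) R, ∀ᵐ y ∂volume.restrict (ball (0 : EE d) R),
      ‖K t x y • f y‖ ≤ M * C := fun x hx =>
    (ae_restrict_mem measurableSet_ball).mono fun y hy => by
      have := hM (x, y) ⟨hx, ball_subset_closedBall hy⟩
      rw [norm_smul]
      exact mul_le_mul this (hf.2 y hy) (norm_nonneg _) ((norm_nonneg _).trans this)
  have ic : IntegrableOn (fun _ : EE d => M * C) (ball (0 : EE d) R) :=
    integrableOn_const measure_ball_lt_top.ne
  refine ⟨fun x hx => ic.mono' (ms x hx) (bd x hx), ?_, fun x => ?_⟩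
  · have c : ContinuousOn (fun x => ∫ y in ball (0 : EE d) R, K t x y • f y) (closedBall 0 R) :=
      continuousOn_of_dominated ms bd ic ((ae_restrict_mem measurableSet_ball).mono fun y hy =>
        (c2.comp (f := fun x : EE d => (x, y)) (by fun_prop) fun x hx =>
          ⟨hx, ball_subset_closedBall hy⟩).smul continuousOn_const)
    refine continuous_indicator (fun x hx => ?_) (by rwa [isClosed_closedBall.closure_eq])
    rw [frontier_closedBall _ hR.ne'] at hx
    rw [setIntegral_congr_fun measurableSet_ball (g := fun _ => 0) fun y hy => by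
      simp only [hK.bdry t ht x hx y hy, zero_smul], integral_zero]
  · by_cases hx : x ∈ closedBall (0 : EE d) R
    · obtain ⟨-, g1, g2⟩ := hI d D t hD ht x
      rw [pk, indicator_of_mem hx]
      refine (norm_integral_le_of_norm_le (g1.mul_const C).integrableOn
        ((ae_restrict_mem measurableSet_ball).mono fun y hy => ?_)).trans ?_
      · rw [norm_smul, Real.norm_of_nonneg (kb x hx y hy).1]
        exact mul_le_mul (kb x hx y hy).2 (hf.2 y hy) (norm_nonneg _) (hI d D t hD ht _).1.le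
      · refine (setIntegral_le_integral (g1.mul_const C) (Eventually.of_forall fun y =>
          mul_nonneg (hI d D t hD ht _).1.le C0)).trans_eq ?_
        rw [integral_mul_const, g2, one_mul]
    · rw [pk, indicator_of_notMem hx, norm_zero]
      exact C0

end

section

theorem sPk2 (hP : SPk1) : SPk2 := by
  intro d R D K hK hD hR t0 ht0 ε hε
  set V : ℝ := (volume : Measure (EE d)).real (ball 0 R) with hV
  have hV0 : 0 ≤ V := measureReal_nonneg
  have hc : IsCompact (Icc (t0 / 2) (2 * t0) ×ˢ closedBall (0 : EE d) R ×ˢ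
      closedBall (0 : EE d) R) :=
    isCompact_Icc.prod ((isCompact_closedBall _ _).prod (isCompact_closedBall _ _))
  have hu := hc.uniformContinuousOn_of_continuous (hK.cont.mono
    (prod_mono (fun t ht => lt_of_lt_of_le (half_pos ht0) ht.1) Subset.rfl))
  obtain ⟨δ, hδ, hδ'⟩ := Metric.uniformContinuousOn_iff.1 hu (ε / (V + 1)) (by positivity)
  refine ⟨min δ (t0 / 2), lt_min hδ (half_pos ht0), fun t ht htt C f hf x => ?_⟩
  have hC : 0 ≤ C := (norm_nonneg _).trans (hf.2 0 (mem_ball_self hR))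
  by_cases hx : x ∈ closedBall (0 : EE d) R
  · have h1 := (hP d R D C K f hK hD hR hf t ht).1 x hx
    have h2 := (hP d R D C K f hK hD hR hf t0 ht0).1 x hx
    simp only [pk, indicator_of_mem hx]
    rw [← integral_sub h1 h2]
    have h3 := abs_lt.1 (htt.trans_le (min_le_right _ _))
    have hb : ∀ y ∈ ball (0 : EE d) R, ‖K t x y • f y - K t0 x y • f y‖ ≤ ε / (V + 1) * C := by
      intro y hy
      rw [← sub_smul, norm_smul]
      refine mul_le_mul ?_ (hf.2 y hy) (norm_nonneg _) (by positivity)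
      have h4 := hδ' (t, x, y) ⟨⟨by linarith [h3.1], by linarith [h3.2]⟩, hx,
        ball_subset_closedBall hy⟩ (t0, x, y) ⟨⟨by linarith, by linarith⟩, hx,
        ball_subset_closedBall hy⟩ (by
          rw [Prod.dist_eq, dist_self, Real.dist_eq]
          exact max_lt (htt.trans_le (min_le_left _ _)) hδ)
      rw [dist_eq_norm] at h4
      exact h4.le
    refine (norm_setIntegral_le_of_norm_le_const measure_ball_lt_top hb).trans ?_
    rw [← hV]
    have h5 : ε / (V + 1) * V ≤ ε := by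
      rw [div_mul_eq_mul_div, div_le_iff₀ (by positivity)]
      nlinarith
    calc ε / (V + 1) * C * V = ε / (V + 1) * V * C := by ring
      _ ≤ ε * C := mul_le_mul_of_nonneg_right h5 hC
  · simp only [pk, indicator_of_notMem hx, sub_zero, norm_zero]
    positivity

end

section

theorem sPk3 (hP : SPk1) (hL : SKlaw) : SPk3 := by
  intro d R D C K f hK hD hR hf t ht s hs
  funext x
  by_cases hx : x ∈ closedBall (0 : EE d) R
  swap
  · simp only [pk, indicator_of_notMem hx]
  have hk : ContinuousOn (fun p : EE d × EE d => K t x p.1 * K s p.1 p.2)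
      (closedBall 0 R ×ˢ closedBall 0 R) :=
    (hK.cont.comp (f := fun p : EE d × EE d => (t, x, p.1)) (by fun_prop)
      fun p hp => ⟨ht, hx, hp.1⟩).mul
    (hK.cont.comp (f := fun p : EE d × EE d => (s, p.1, p.2)) (by fun_prop)
      fun p hp => ⟨hs, hp.1, hp.2⟩)
  obtain ⟨M, hM⟩ :=
    ((isCompact_closedBall 0 R).prod (isCompact_closedBall 0 R)).exists_bound_of_continuousOn hk
  have sb : ball (0 : EE d) R ×ˢ ball (0 : EE d) R ⊆ closedBall 0 R ×ˢ closedBall 0 R :=
    prod_mono ball_subset_closedBall ball_subset_closedBall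
  have mb : MeasurableSet (ball (0 : EE d) R ×ˢ ball (0 : EE d) R) :=
    measurableSet_ball.prod measurableSet_ball
  have : IsFiniteMeasure (volume.restrict (ball (0 : EE d) R)) :=
    isFiniteMeasure_restrict.2 measure_ball_lt_top.ne
  have hi : Integrable (Function.uncurry fun z y : EE d => (K t x z * K s z y) • f y)
      ((volume.restrict (ball (0 : EE d) R)).prod (volume.restrict (ball (0 : EE d) R))) := by
    have h0 : AEStronglyMeasurable (fun p : EE d × EE d => K t x p.1 * K s p.1 p.2)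
        ((volume.restrict (ball (0 : EE d) R)).prod (volume.restrict (ball (0 : EE d) R))) := by
      rw [Measure.prod_restrict]
      exact (hk.mono sb).aestronglyMeasurable mb
    refine Integrable.of_bound (h0.smul hf.1.comp_snd) (M * C) ?_
    rw [Measure.prod_restrict]
    filter_upwards [ae_restrict_mem mb] with p hp
    exact (norm_smul_le _ _).trans (mul_le_mul (hM p (sb hp)) (hf.2 _ hp.2) (norm_nonneg _)
      ((norm_nonneg _).trans (hM p (sb hp))))
  have h1 : ∫ z in ball (0 : EE d) R, K t x z • pk R K s f z =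
      ∫ z in ball (0 : EE d) R, ∫ y in ball (0 : EE d) R, (K t x z * K s z y) • f y :=
    setIntegral_congr_fun measurableSet_ball fun z hz => by
      simp only [pk, indicator_of_mem (ball_subset_closedBall hz), mul_smul]
      exact (integral_smul _ _).symm
  rw [pk, indicator_of_mem hx, h1, integral_integral_swap hi, pk, indicator_of_mem hx]
  refine setIntegral_congr_fun measurableSet_ball fun y hy => ?_
  simp only [integral_smul_const, hL d R D K hK hD hR t ht s hs x hx y hy]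

end

section

lemma dat_P {d : ℕ} (R : ℝ) (z : ZZ d) : Dat R ‖z‖ z :=
  ⟨z.continuous.aestronglyMeasurable, fun y _ => z.norm_coe_le_norm y⟩

lemma ex_P (h1 : SPk1) {d : ℕ} {R D C : ℝ} {K : ℝ → EE d → EE d → ℝ} {f : EE d → EE d}
    (hK : IsKernel R D K) (hD : 0 < D) (hR : 0 < R) (hf : Dat R C f) :
    ∃ u : ℝ → ZZ d, ∀ t > 0, ∀ x, u t x = pk R K t f x := by
  have h : ∀ t : ℝ, ∃ w : ZZ d, 0 < t → ∀ x, w x = pk R K t f x := fun t => by
    by_cases ht : 0 < t
    · obtain ⟨-, a, b⟩ := h1 d R D C K f hK hD hR hf t ht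
      exact ⟨BoundedContinuousFunction.ofNormedAddCommGroup _ a C b, fun _ _ => rfl⟩
    · exact ⟨0, fun h => absurd h ht⟩
  choose u hu using h
  exact ⟨u, hu⟩

lemma bd_P (h1 : SPk1) (h2 : SPk2) {d : ℕ} {R D C : ℝ} {K : ℝ → EE d → EE d → ℝ}
    {f : EE d → EE d} (hK : IsKernel R D K) (hD : 0 < D) (hR : 0 < R) (hf : Dat R C f)
    {u : ℝ → ZZ d} (hu : ∀ t > 0, ∀ x, u t x = pk R K t f x) :
    (∀ t > 0, ‖u t‖ ≤ C) ∧ ContinuousOn u (Ioi 0) := by
  have C0 : 0 ≤ C := (norm_nonneg _).trans (hf.2 0 (mem_ball_self hR))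
  refine ⟨fun t ht => (BoundedContinuousFunction.norm_le C0).2 fun x => ?_,
    Metric.continuousOn_iff.2 fun b hb ε hε => ?_⟩
  · rw [hu t ht]
    exact (h1 d R D C K f hK hD hR hf t ht).2.2 x
  · have p : 0 < ε / (C + 1) := by positivity
    obtain ⟨δ, δ0, hδ⟩ := h2 d R D K hK hD hR b hb _ p
    refine ⟨δ, δ0, fun a ha hab => ?_⟩
    have e : ε / (C + 1) * C < ε := by
      rw [div_mul_eq_mul_div, div_lt_iff₀ (by positivity)]
      linarith
    rw [dist_eq_norm]
    refine lt_of_le_of_lt ((BoundedContinuousFunction.norm_le (by positivity)).2 fun x => ?_) e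
    rw [BoundedContinuousFunction.sub_apply, hu a ha, hu b hb]
    exact hδ a ha hab C f hf x

lemma op_P (h1 : SPk1) (h2 : SPk2) {d : ℕ} {R D : ℝ} {K : ℝ → EE d → EE d → ℝ}
    (hK : IsKernel R D K) (hD : 0 < D) (hR : 0 < R) :
    ∃ P : ℝ → ZZ d →L[ℝ] ZZ d, ∀ t > 0, ∀ (z : ZZ d) (x : EE d), P t z x = pk R K t z x := by
  choose U hU using fun z : ZZ d => ex_P h1 hK hD hR (dat_P R z)
  have h : ∀ t : ℝ, ∃ A : ZZ d →L[ℝ] ZZ d, 0 < t → ∀ (z : ZZ d) (x : EE d),
      A z x = pk R K t z x := fun t => by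
    by_cases ht : 0 < t
    · have ad : ∀ z w : ZZ d, U (z + w) t = U z t + U w t := fun z w => by
        ext1 x
        rw [BoundedContinuousFunction.add_apply, hU _ t ht, hU _ t ht, hU _ t ht]
        unfold pk
        by_cases hx : x ∈ closedBall (0 : EE d) R
        · rw [indicator_of_mem hx, indicator_of_mem hx, indicator_of_mem hx,
            ← integral_add ((h1 d R D _ K z hK hD hR (dat_P R z) t ht).1 x hx)
              ((h1 d R D _ K w hK hD hR (dat_P R w) t ht).1 x hx)]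
          simp only [BoundedContinuousFunction.add_apply, smul_add]
        · rw [indicator_of_notMem hx, indicator_of_notMem hx, indicator_of_notMem hx, add_zero]
      have sm : ∀ (c : ℝ) (z : ZZ d), U (c • z) t = c • U z t := fun c z => by
        ext1 x
        rw [BoundedContinuousFunction.smul_apply, hU _ t ht, hU _ t ht]
        unfold pk
        by_cases hx : x ∈ closedBall (0 : EE d) R
        · rw [indicator_of_mem hx, indicator_of_mem hx, ← integral_smul]
          simp only [BoundedContinuousFunction.smul_apply, smul_comm c]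
        · rw [indicator_of_notMem hx, indicator_of_notMem hx, smul_zero]
      refine ⟨LinearMap.mkContinuous ⟨⟨fun z => U z t, ad⟩, sm⟩ 1 fun z => ?_,
        fun _ z x => hU z t ht x⟩
      rw [one_mul]
      exact (bd_P h1 h2 hK hD hR (dat_P R z) (hU z)).1 t ht
    · exact ⟨0, fun h => absurd h ht⟩
  choose P hP using h
  exact ⟨P, hP⟩

theorem sP (h1 : SPk1) (h2 : SPk2) (h3 : SPk3) : SP := by
  intro d R D K hK hD hR
  obtain ⟨P, hP⟩ := op_P h1 h2 hK hD hR
  have ob : ∀ (C : ℝ) (f : EE d → EE d) (u : ℝ → ZZ d), Dat R C f →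
      (∀ t > 0, ∀ x, u t x = pk R K t f x) → Orb P u C := fun C f u hf hu => by
    obtain ⟨a, b⟩ := bd_P h1 h2 hK hD hR hf hu
    refine ⟨a, b, fun t ht s hs => ?_⟩
    ext1 x
    have e : (u s : EE d → EE d) = pk R K s f := funext (hu s hs)
    rw [hP t ht, hu _ (add_pos ht hs), e, h3 d R D C K f hK hD hR hf t ht s hs]
  have oz : ∀ z : ZZ d, Orb P (fun t => P t z) ‖z‖ := fun z =>
    ob _ _ _ (dat_P R z) fun t ht x => hP t ht z x
  refine ⟨P, ⟨fun t ht z => (oz z).bd t ht, fun z => (oz z).cont,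
    fun t ht s hs z => (oz z).law t ht s hs⟩, hP, fun C f hf => ?_⟩
  obtain ⟨u, hu⟩ := ex_P h1 hK hD hR hf
  exact ⟨u, hf, ob C f u hf hu, hu⟩

end

section

theorem sSym1 (hK : SKinv) : SSym1 := by
  intro d R D K g σ f f' hker hf t ht x
  have hx : g x ∈ closedBall (0 : EE d) R ↔ x ∈ closedBall (0 : EE d) R := by
    simp only [mem_closedBall_zero_iff, g.norm_map]
  unfold pk
  by_cases h : x ∈ closedBall (0 : EE d) R
  · rw [indicator_of_mem h, indicator_of_mem (hx.2 h)]
    have hp : g ⁻¹' ball (0 : EE d) R = ball 0 R := by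
      ext y
      simp only [mem_preimage, mem_ball_zero_iff, g.norm_map]
    have e1 : ∫ y in ball 0 R, K t x y • f' y =
        ∫ y in ball 0 R, σ • g.symm.toContinuousLinearEquiv (K t (g x) (g y) • f (g y)) := by
      refine setIntegral_congr_fun measurableSet_ball fun y hy => ?_
      show K t x y • f' y = σ • g.symm (K t (g x) (g y) • f (g y))
      rw [hf y hy, hK d R D K hker g t ht x h y hy, map_smul, smul_comm]
    have e2 := g.measurePreserving.setIntegral_preimage_emb g.toHomeomorph.measurableEmbedding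
      (fun y => K t (g x) y • f y) (ball 0 R)
    rw [hp] at e2
    rw [e1, integral_smul, ContinuousLinearEquiv.integral_comp_comm, e2]
    rfl
  · rw [indicator_of_notMem h, indicator_of_notMem (fun k => h (hx.1 k)), map_zero, smul_zero]

end

section

theorem tau_Sym {d : ℕ} (g : EE d ≃ₗᵢ[ℝ] EE d) (σ : ℝ) :
    ∃ τ : ZZ d →L[ℝ] ZZ d, ∀ z x, τ z x = σ • g.symm (z (g x)) :=
  ⟨σ • ((g.symm.toContinuousLinearEquiv : EE d →L[ℝ] EE d).compLeftContinuousBounded
    (EE d)).comp (BoundedContinuousFunction.compContinuousCLM (EE d) ℝ ⟨g, g.continuous⟩),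
    fun _ _ => rfl⟩

theorem fh_Sym {d : ℕ} (g : EE d ≃ₗᵢ[ℝ] EE d) {σ : ℝ} (hσ : σ = 1 ∨ σ = -1) (R : ℝ) (s : ℝ → ℝ)
    (x v : EE d) : fh R s x (σ • g.symm v) = σ • g.symm (fh R s (g x) v) := by
  have e : ⟪g.symm v, x⟫ = ⟪v, g x⟫ := by
    rw [← g.inner_map_map, g.apply_symm_apply]
  unfold fh
  rw [map_smul, g.symm_apply_apply, g.norm_map, smul_smul, real_inner_smul_left, e]
  congr 1
  rcases hσ with rfl | rfl <;> ring

theorem damp_Sym {d : ℕ} (g : EE d ≃ₗᵢ[ℝ] EE d) {σ : ℝ} (hσ : σ = 1 ∨ σ = -1) (γ : ℝ)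
    (v : EE d) : damp γ (σ • g.symm v) = σ • g.symm (damp γ v) := by
  have e : ‖σ • g.symm v‖ = ‖v‖ := by rcases hσ with rfl | rfl <;> simp
  unfold damp
  rw [e, map_smul, smul_comm]

theorem sSym (hI : SInt) (hD : SDif) (h1 : SSym1) : SSym := by
  intro d R D γ C T lam L β K s P F G f u m g σ hc hu hσ hf hm t ht x
  obtain ⟨τ, hτ⟩ := tau_Sym g σ
  have s2 : σ * σ = 1 := by rcases hσ with rfl | rfl <;> norm_num
  have eP : ∀ t > 0, ∀ z, P t (τ z) = τ (P t z) := fun t ht z =>
    BoundedContinuousFunction.ext fun x => by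
      rw [hτ, hc.rep t ht, hc.rep t ht]
      exact h1 d R D K g σ z (τ z) hc.ker (fun y _ => hτ z y) t ht x
  have eu : ∀ t > 0, τ (u t) = u t := fun t ht =>
    BoundedContinuousFunction.ext fun x => by
      rw [hτ, hu.rep t ht, hu.rep t ht]
      refine (h1 d R D K g σ f f hc.ker (fun y _ => ?_) t ht x).symm
      rw [hf, map_smul, g.symm_apply_apply, smul_smul, s2, one_smul]
  have eF : ∀ z, F (τ z) = τ (F z) := fun z => BoundedContinuousFunction.ext fun x => by
    rw [hτ, hc.repF, hc.repF, hτ, fh_Sym g hσ]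
  have eG : ∀ z, G (τ z) = τ (G z) := fun z => BoundedContinuousFunction.ext fun x => by
    rw [hτ, hc.repG, hc.repG, hτ, damp_Sym g hσ]
  have b0 : BC T fun _ => (0 : ZZ d) := ⟨continuousOn_const, 0, fun _ _ => norm_zero.le⟩
  have b1 : BC T fun t => τ (m t) := by
    obtain ⟨c1, M, hM⟩ := hm.1
    exact ⟨τ.continuous.comp_continuousOn c1, ‖τ‖ * M, fun t ht => τ.le_opNorm_of_le (hM t ht)⟩
  have hi := (hI _ P T _ hc.sg (hm.1.src (lam := lam) hc.frc hc.dmp)).1
  have m1 : Mild P u T (fun s => lam • F (τ (m s)) - G (τ (m s)) + 0) fun t => τ (m t) :=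
    fun t ht => by
      beta_reduce
      rw [hm.2 t ht, map_add, eu t ht.1, ← τ.integral_comp_comm (hi t ht).2]
      congr 1
      refine setIntegral_congr_fun measurableSet_Ioo fun s hs => ?_
      rw [← eP _ (sub_pos.2 hs.2), add_zero, eF, eG, map_sub τ, map_smul τ]
  have h2 := hD _ P u T F G L β lam lam 0 m _ _ _ hc.sg hc.frc hc.dmp hm.1 b1 b0 b0 le_rfl
    (fun _ _ => by simp) (by simpa only [add_zero] using hm.2) m1 t ht
  have h3 : m t = τ (m t) := by simpa [sub_eq_zero] using h2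
  have h4 : m t x = σ • g.symm (m t (g x)) := by rw [← hτ, ← h3]
  rw [h4, map_smul, g.apply_symm_apply, smul_smul, s2, one_smul]

end

end Pool.Agent.MP_b33505_an
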