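import Pool.Agent.MP_b33505_an.St

namespace Pool.Agent.MP_b33505_an

open MeasureTheory Set Metric Filter Topology
open scoped RealInnerProductSpace Laplacian BoundedContinuousFunction

section

theorem tn_RadG {d : ℕ} (z : EE d → EE d)
    (hz : ∀ (g : EE d ≃ₗᵢ[ℝ] EE d) (x : EE d), z (g x) = g (z x)) (x : EE d) : tn z x = 0 := by
  have h1 : ⟪tn z x, x⟫ = 0 := by
    rcases eq_or_ne x 0 with rfl | hx
    · exact inner_zero_right _
    · have : ‖x‖ ^ 2 ≠ 0 := pow_ne_zero _ (norm_ne_zero_iff.2 hx)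
      rw [tn, inner_sub_left, real_inner_smul_left, real_inner_self_eq_norm_sq,
        div_mul_cancel₀ _ this, sub_self]
  have h2 : (ℝ ∙ tn z x)ᗮ.reflection x = x :=
    Submodule.reflection_mem_subspace_eq_self
      (Submodule.mem_orthogonal_singleton_iff_inner_right.2 h1)
  have h3 := Submodule.reflection_orthogonalComplement_singleton_eq_neg (𝕜 := ℝ) (tn z x)
  have h4 := hz (ℝ ∙ tn z x)ᗮ.reflection x
  have h5 : (ℝ ∙ tn z x)ᗮ.reflection (z x - (⟪z x, x⟫ / ‖x‖ ^ 2) • x) = tn z x := by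
    rw [map_sub, map_smul, ← h4, h2, tn]
  have h6 : tn z x = -tn z x := h5.symm.trans h3
  have h7 : (2 : ℝ) • tn z x = 0 := by
    rw [two_smul]
    exact eq_neg_iff_add_eq_zero.1 h6
  exact (smul_eq_zero.1 h7).resolve_left two_ne_zero

theorem sRadG : SRadG := by
  intro d R z hz
  refine ⟨fun x _ y _ h => ?_, fun h _ _ _ φ _ => by simp [tn_RadG z hz]⟩
  have h1 := Submodule.reflection_sub h
  have h2 := ((ℝ ∙ (x - y))ᗮ.reflection).inner_map_map (z x) x
  rw [← hz, h1] at h2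
  exact h2.symm

end

section

theorem orth_Sw1 {d : ℕ} {e f : EE d} (h : ON e f) (x : EE d) :
    ⟪x - ⟪x, e⟫ • e - ⟪x, f⟫ • f, e⟫ = 0 ∧ ⟪x - ⟪x, e⟫ • e - ⟪x, f⟫ • f, f⟫ = 0 := by
  obtain ⟨he, hf, hef⟩ := h
  have hfe : ⟪f, e⟫ = 0 := by rw [real_inner_comm]; exact hef
  have hee : ⟪e, e⟫ = 1 := by rw [real_inner_self_eq_norm_sq, he, one_pow]
  have hff : ⟪f, f⟫ = 1 := by rw [real_inner_self_eq_norm_sq, hf, one_pow]
  simp only [inner_sub_left, real_inner_smul_left, hee, hff, hef, hfe]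
  constructor <;> ring

theorem pyth_Sw1 {d : ℕ} (e f x : EE d) :
    ⟪x, e⟫ ^ 2 + ⟪x, f⟫ ^ 2 = ⟪x, x⟫ - ⟪x, x - ⟪x, e⟫ • e - ⟪x, f⟫ • f⟫ := by
  simp only [inner_sub_right, real_inner_smul_right]
  ring

theorem sSw1 : SSw1 := by
  intro d e f w h g σ _ hfix hrot x
  obtain ⟨n, hn⟩ : ∃ n, n = x - ⟪x, e⟫ • e - ⟪x, f⟫ • f := ⟨_, rfl⟩
  obtain ⟨n', hn'⟩ : ∃ n', n' = g x - ⟪g x, e⟫ • e - ⟪g x, f⟫ • f := ⟨_, rfl⟩
  obtain ⟨a1, a2⟩ := orth_Sw1 h x
  obtain ⟨b1, b2⟩ := orth_Sw1 h (g x)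
  have p1 := pyth_Sw1 e f x
  have p2 := pyth_Sw1 e f (g x)
  rw [← hn] at a1 a2 p1
  rw [← hn'] at b1 b2 p2
  have key : ∀ v : EE d, ⟪v, e⟫ = 0 → ⟪v, f⟫ = 0 → ⟪v, n'⟫ = ⟪v, n⟫ :=
    fun v c1 c2 => by
      have c3 : ⟪v, g x⟫ = ⟪v, x⟫ := by
        conv_lhs => rw [← hfix v c1 c2]
        exact g.inner_map_map v x
      rw [hn, hn']
      simp only [inner_sub_right, real_inner_smul_right, c1, c2, c3, mul_zero, sub_zero]
  have e1 : n' = n := by
    have c := key (n' - n) (by rw [inner_sub_left, a1, b1, sub_zero])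
      (by rw [inner_sub_left, a2, b2, sub_zero])
    rw [← sub_eq_zero, ← inner_sub_right, inner_self_eq_zero, sub_eq_zero] at c
    exact c
  have e2 : ⟪g x, e⟫ ^ 2 + ⟪g x, f⟫ ^ 2 = ⟪x, e⟫ ^ 2 + ⟪x, f⟫ ^ 2 := by
    rw [p1, p2, e1, g.inner_map_map]
    conv_lhs => rw [← hfix n a1 a2, g.inner_map_map]
  unfold swirl
  rw [← hn, ← hn', e1, e2, hrot, map_smul, smul_comm]

end

section

theorem key_Sw2 {d : ℕ} {e f : EE d} {z : EE d → EE d} (h : ON e f) (hz : SW e f z) (a b : ℝ)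
    (hab : a ^ 2 + b ^ 2 ≠ 0) (x : EE d) (hx : a * ⟪x, e⟫ + b * ⟪x, f⟫ = 0) :
    ∃ c : ℝ, z x = c • (a • e + b • f) := by
  obtain ⟨he, hf, hef⟩ := h
  have hee : ⟪e, e⟫ = (1 : ℝ) := by rw [real_inner_self_eq_norm_sq, he]; norm_num
  have hff : ⟪f, f⟫ = (1 : ℝ) := by rw [real_inner_self_eq_norm_sq, hf]; norm_num
  have hfe : ⟪f, e⟫ = (0 : ℝ) := by rw [real_inner_comm]; exact hef
  set v : EE d := a • e + b • f with hv
  have hvy : ∀ y : EE d, ⟪v, y⟫ = a * ⟪y, e⟫ + b * ⟪y, f⟫ := fun y => by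
    rw [hv, inner_add_left, real_inner_smul_left, real_inner_smul_left, real_inner_comm y e,
      real_inner_comm y f]
  have hve : ⟪v, e⟫ = a := by rw [hvy, hee, hef]; ring
  have hvf : ⟪v, f⟫ = b := by rw [hvy, hfe, hff]; ring
  have hvv : ‖v‖ ^ 2 = a ^ 2 + b ^ 2 := by
    rw [← real_inner_self_eq_norm_sq, hvy, hve, hvf]; ring
  set g : EE d ≃ₗᵢ[ℝ] EE d := (ℝ ∙ v)ᗮ.reflection with hg
  have hgy : ∀ y : EE d,
      g y = y - (2 * (a * ⟪y, e⟫ + b * ⟪y, f⟫) / (a ^ 2 + b ^ 2)) • v := fun y => by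
    rw [hg, Submodule.reflection_orthogonal_apply, Submodule.reflection_singleton_apply, ← hvy,
      ← hvv]
    simp only [RCLike.ofReal_real_eq_id, id_eq, two_smul, neg_sub]
    module
  have h1 : ∀ y : EE d, ⟪y, e⟫ = 0 → ⟪y, f⟫ = 0 → g y = y := fun y h1 h2 => by
    rw [hgy, h1, h2]; simp
  have h2 : ∀ y : EE d, rotJ e f (g y) = (-1 : ℝ) • g (rotJ e f y) := fun y => by
    rw [hgy y, hgy (rotJ e f y)]
    simp only [rotJ, inner_sub_left, real_inner_smul_left, hve, hvf, hee, hff, hef, hfe]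
    rw [hv]
    match_scalars <;> field_simp <;> ring
  have h3 := hz g (-1) (Or.inr rfl) h1 h2 x
  have h4 : g x = x := by rw [hgy, hx]; simp
  rw [h4, hgy] at h3
  refine ⟨(a * ⟪z x, e⟫ + b * ⟪z x, f⟫) / (a ^ 2 + b ^ 2), ?_⟩
  have h5 : (2 : ℝ) • z x = (2 : ℝ) • (((a * ⟪z x, e⟫ + b * ⟪z x, f⟫) / (a ^ 2 + b ^ 2)) • v) := by
    rw [two_smul]
    nth_rewrite 1 [h3]
    module
  exact smul_right_injective _ two_ne_zero h5

theorem sSw2 : SSw2 := by
  intro d e f z h hz x
  by_cases hx : (-⟪x, f⟫) ^ 2 + ⟪x, e⟫ ^ 2 = 0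
  · have h1 : ⟪x, f⟫ = (0 : ℝ) := by nlinarith [sq_nonneg ⟪x, e⟫, sq_nonneg ⟪x, f⟫]
    have h2 : ⟪x, e⟫ = (0 : ℝ) := by nlinarith [sq_nonneg ⟪x, e⟫, sq_nonneg ⟪x, f⟫]
    obtain ⟨c, hc⟩ := key_Sw2 h hz 1 0 (by norm_num) x (by rw [h1, h2]; ring)
    obtain ⟨c', hc'⟩ := key_Sw2 h hz 0 1 (by norm_num) x (by rw [h1, h2]; ring)
    obtain ⟨he, -, hef⟩ := h
    have hee : ⟪e, e⟫ = (1 : ℝ) := by rw [real_inner_self_eq_norm_sq, he]; norm_num
    have h3 : ⟪e, z x⟫ = c := by
      rw [hc]; simp only [one_smul, zero_smul, add_zero, real_inner_smul_right, hee, mul_one]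
    have h4 : ⟪e, z x⟫ = 0 := by
      rw [hc']; simp only [one_smul, zero_smul, zero_add, real_inner_smul_right, hef, mul_zero]
    refine ⟨0, ?_⟩
    rw [hc, ← h3, h4, zero_smul, zero_smul]
  · obtain ⟨c, hc⟩ := key_Sw2 h hz (-⟪x, f⟫) ⟪x, e⟫ hx x (by ring)
    refine ⟨c, ?_⟩
    rw [hc, rotJ]
    module

end

section

theorem in_Rot {d : ℕ} {e f : EE d} (h : ON e f) (θ : ℝ) (x : EE d) :
    ⟪rot e f θ x, e⟫ = Real.cos θ * ⟪x, e⟫ - Real.sin θ * ⟪x, f⟫ ∧
      ⟪rot e f θ x, f⟫ = Real.cos θ * ⟪x, f⟫ + Real.sin θ * ⟪x, e⟫ := by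
  obtain ⟨n1, n2, h3⟩ := h
  have h1 : ⟪e, e⟫ = 1 := by rw [real_inner_self_eq_norm_sq, n1, one_pow]
  have h2 : ⟪f, f⟫ = 1 := by rw [real_inner_self_eq_norm_sq, n2, one_pow]
  have h4 : ⟪f, e⟫ = 0 := by rw [real_inner_comm, h3]
  constructor <;>
    simp only [rot, rotJ, inner_add_left, inner_sub_left, real_inner_smul_left, h1, h2, h3, h4] <;>
    ring

theorem sRot : SRot := by
  intro d e f θ h
  have hi := in_Rot h θ
  obtain ⟨n1, n2, h3⟩ := h
  have h1 : ⟪e, e⟫ = 1 := by rw [real_inner_self_eq_norm_sq, n1, one_pow]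
  have h2 : ⟪f, f⟫ = 1 := by rw [real_inner_self_eq_norm_sq, n2, one_pow]
  have h4 : ⟪f, e⟫ = 0 := by rw [real_inner_comm, h3]
  refine ⟨?_, fun x => ?_⟩
  · let L : EE d →ₗ[ℝ] EE d :=
      { toFun := rot e f θ
        map_add' := fun x y => by
          simp only [rot, rotJ, inner_add_left]
          module
        map_smul' := fun c x => by
          simp only [rot, rotJ, real_inner_smul_left, RingHom.id_apply]
          module }
    have hL : ∀ x y, ⟪L x, L y⟫ = ⟪x, y⟫ := fun x y => by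
      have e1 : ⟪rot e f θ x, y⟫ = ⟪x, y⟫ + (Real.cos θ - 1) * (⟪x, e⟫ * ⟪y, e⟫ + ⟪x, f⟫ * ⟪y, f⟫) +
          Real.sin θ * (⟪x, e⟫ * ⟪y, f⟫ - ⟪x, f⟫ * ⟪y, e⟫) := by
        simp only [rot, rotJ, inner_add_left, inner_sub_left, real_inner_smul_left,
          real_inner_comm y e, real_inner_comm y f]
      change ⟪rot e f θ x, rot e f θ y⟫ = _
      rw [show rot e f θ y = y + (Real.cos θ - 1) • (⟪y, e⟫ • e + ⟪y, f⟫ • f) +
        Real.sin θ • rotJ e f y from rfl]
      simp only [rotJ, inner_add_right, inner_sub_right, real_inner_smul_right, (hi x).1, (hi x).2,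
        e1]
      linear_combination (⟪x, e⟫ * ⟪y, e⟫ + ⟪x, f⟫ * ⟪y, f⟫) * Real.cos_sq_add_sin_sq θ
    refine ⟨(L.isometryOfInner hL).toLinearIsometryEquiv rfl, fun x => rfl, fun x a b => ?_,
      fun x => ?_⟩
    · change rot e f θ x = x
      simp only [rot, rotJ, a, b]
      module
    · change rotJ e f (rot e f θ x) = rot e f θ (rotJ e f x)
      rw [rotJ, (hi x).1, (hi x).2]
      simp only [rot, rotJ, inner_sub_left, real_inner_smul_left, h1, h2, h3, h4]
      module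
  · have := ((((Real.hasDerivAt_cos θ).sub_const 1).smul_const
      (⟪x, e⟫ • e + ⟪x, f⟫ • f)).const_add x).add
      ((Real.hasDerivAt_sin θ).smul_const (rotJ e f x))
    refine this.congr_deriv ?_
    rw [rotJ, rotJ, (hi x).1, (hi x).2]
    module

end

section

theorem grad_Sw3 {d : ℕ} {φ : EE d → ℝ} (h : ContDiff ℝ 1 φ) : Continuous (gradient φ) :=
  (InnerProductSpace.toDual ℝ (EE d)).symm.continuous.comp (h.continuous_fderiv one_ne_zero)

theorem rotc_Sw3 {d : ℕ} (e f : EE d) : Continuous fun p : ℝ × EE d => rot e f p.1 p.2 := by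
  unfold rot rotJ
  fun_prop

theorem sSw3 (h2 : SSw2) (hR : SRot) : SSw3 := by
  intro d R e f z hon hsw
  have hz0 : ∀ x, ⟪z x, x⟫ = 0 := by
    intro x
    obtain ⟨ω, hω⟩ := h2 d e f z hon hsw x
    rw [hω, rotJ, real_inner_smul_left, inner_sub_left, real_inner_smul_left, real_inner_smul_left,
      real_inner_comm x e, real_inner_comm x f]
    ring
  refine ⟨hz0, fun x _ y _ _ => by simp only [hz0], fun h hm hr ⟨C, hC⟩ φ hφ => ?_⟩
  have htn : ∀ x, tn z x = z x := fun x => by simp [tn, hz0]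
  simp only [htn]
  have hg := grad_Sw3 hφ.1
  obtain ⟨Q, hQ⟩ : ∃ Q : ℝ × EE d → ℝ,
      Q = fun p => ⟪rot e f p.1 (z p.2), gradient φ (rot e f p.1 p.2)⟫ := ⟨_, rfl⟩
  have Qc : Continuous Q := by
    rw [hQ]
    exact ((rotc_Sw3 e f).comp
      (continuous_fst.prodMk (z.continuous.comp continuous_snd))).inner (hg.comp (rotc_Sw3 e f))
  have ha : ∀ θ : ℝ, ∫ x in ball 0 R, h x * Q (θ, x) =
      ∫ x in ball 0 R, h x * ⟪z x, gradient φ x⟫ := by
    intro θ
    obtain ⟨⟨g, g1, g2, g3⟩, -⟩ := hR d e f θ hon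
    have h1 := hsw g 1 (Or.inl rfl) g2 fun x => by rw [one_smul, g3]
    have h3 : g ⁻¹' ball 0 R = ball 0 R := by
      ext x
      simp only [mem_preimage, mem_ball_zero_iff, g.norm_map]
    rw [← g.measurePreserving.setIntegral_preimage_emb g.toHomeomorph.measurableEmbedding
      (fun x => h x * ⟪z x, gradient φ x⟫), h3]
    refine setIntegral_congr_fun measurableSet_ball fun x hx => ?_
    have h4 : g x ∈ ball (0 : EE d) R := by rwa [← mem_preimage, h3]
    simp only [hQ]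
    rw [h1 x, one_smul, hr (g x) (ball_subset_closedBall h4) x (ball_subset_closedBall hx)
      (g.norm_map x), g1, g1]
  have hb : Integrable (Function.uncurry fun θ x => h x * Q (θ, x))
      ((volume.restrict (uIoc 0 (2 * Real.pi))).prod (volume.restrict (ball (0 : EE d) R))) := by
    rw [Measure.prod_restrict]
    have h1 : IntegrableOn Q (uIcc 0 (2 * Real.pi) ×ˢ closedBall (0 : EE d) R)
        (volume.prod volume) :=
      Qc.continuousOn.integrableOn_compact (isCompact_uIcc.prod (isCompact_closedBall _ _))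
    refine Integrable.bdd_mul (c := C) (h1.mono_set (prod_mono uIoc_subset_uIcc
      ball_subset_closedBall)) (hm.comp measurable_snd).aestronglyMeasurable ?_
    refine (ae_restrict_iff' (measurableSet_uIoc.prod measurableSet_ball)).2
      (Eventually.of_forall fun p hp => ?_)
    exact hC _ (ball_subset_closedBall hp.2)
  have hc : ∀ x, ∫ θ in (0 : ℝ)..2 * Real.pi, h x * Q (θ, x) = 0 := by
    intro x
    obtain ⟨ω, hω⟩ := h2 d e f z hon hsw x
    have h1 : ∀ θ : ℝ, HasDerivAt (fun τ => ω * φ (rot e f τ x)) (Q (θ, x)) θ := by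
      intro θ
      obtain ⟨⟨g, g1, -, g3⟩, g4⟩ := hR d e f θ hon
      have h3 := ((hφ.1.differentiable one_ne_zero (rot e f θ x)).hasGradientAt.hasFDerivAt
        |>.comp_hasDerivAt θ (g4 x)).const_mul ω
      refine h3.congr_deriv ?_
      simp only [hQ]
      rw [InnerProductSpace.toDual_apply_apply, ← g1 (z x), hω, map_smul, ← g3, g1,
        real_inner_smul_left, real_inner_comm]
    rw [intervalIntegral.integral_const_mul, intervalIntegral.integral_eq_sub_of_hasDerivAt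
      (fun θ _ => h1 θ) ((Qc.comp (Continuous.prodMk_left x)).intervalIntegrable _ _)]
    simp [rot]
  have hd := intervalIntegral_integral_swap hb
  simp only [ha, hc, integral_zero, intervalIntegral.integral_const, sub_zero, smul_eq_mul] at hd
  exact (mul_eq_zero.1 hd).resolve_left Real.two_pi_pos.ne'

end

section

theorem tn_le_SumG {d : ℕ} (z : ZZ d) (x : EE d) : ‖tn z x‖ ≤ ‖z‖ + ‖z‖ := by
  have h1 := z.norm_coe_le_norm x
  refine (norm_sub_le _ _).trans (add_le_add h1 (le_trans ?_ h1))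
  rw [norm_smul, norm_div, Real.norm_eq_abs, norm_pow, norm_norm]
  rcases eq_or_lt_of_le (norm_nonneg x) with h | h
  · rw [← h, mul_zero]; exact norm_nonneg _
  · rw [div_mul_eq_mul_div, div_le_iff₀ (by positivity)]
    nlinarith [abs_real_inner_le_norm (z x) x]

theorem int_SumG {d : ℕ} (R : ℝ) (z : ZZ d) {h φ : EE d → ℝ} (hm : Measurable h) {C : ℝ}
    (hC : ∀ x ∈ closedBall (0 : EE d) R, |h x| ≤ C) (hφ : ContDiff ℝ 1 φ) :
    IntegrableOn (fun x => h x * ⟪tn z x, gradient φ x⟫) (ball 0 R) := by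
  have hg : Continuous (gradient φ) :=
    (InnerProductSpace.toDual ℝ (EE d)).symm.continuous.comp (hφ.continuous_fderiv one_ne_zero)
  obtain ⟨B, hB⟩ := (isCompact_closedBall (0 : EE d) R).exists_bound_of_continuousOn
    hg.continuousOn
  have hz : Measurable z := z.continuous.measurable
  have ht : Measurable (tn z) :=
    hz.sub (((hz.inner measurable_id).div (measurable_norm.pow_const 2)).smul measurable_id)
  refine Measure.integrableOn_of_bounded (M := C * ((‖z‖ + ‖z‖) * B)) measure_ball_lt_top.ne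
    (hm.mul (ht.inner hg.measurable)).aestronglyMeasurable
    ((ae_restrict_mem measurableSet_ball).mono fun x hx => ?_)
  have hx' := ball_subset_closedBall hx
  rw [norm_mul]
  exact mul_le_mul (hC x hx') ((norm_inner_le_norm _ _).trans (mul_le_mul (tn_le_SumG z x)
    (hB x hx') (norm_nonneg _) (by positivity))) (norm_nonneg _)
    ((abs_nonneg _).trans (hC x hx'))

theorem add_SumG {d : ℕ} {R : ℝ} {z w : ZZ d} (hz : Good R z) (hw : Good R w) :
    Good R (z + w : ZZ d) := by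
  refine ⟨fun x hx y hy e => ?_, fun h hm hr hC φ hφ => ?_⟩
  · have h1 := hz.1 x hx y hy e
    have h2 := hw.1 x hx y hy e
    simp only [BoundedContinuousFunction.add_apply, inner_add_left] at h1 h2 ⊢
    rw [h1, h2]
  · have e : ∀ x, h x * ⟪tn (z + w : ZZ d) x, gradient φ x⟫ =
        h x * ⟪tn z x, gradient φ x⟫ + h x * ⟪tn w x, gradient φ x⟫ := fun x => by
      rw [← mul_add, ← inner_add_left]
      simp only [tn, BoundedContinuousFunction.add_apply, inner_add_left, add_div, add_smul,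
        sub_add_sub_comm]
    obtain ⟨C, hC'⟩ := id hC
    simp only [e]
    rw [integral_add (int_SumG R z hm hC' hφ.1) (int_SumG R w hm hC' hφ.1),
      hz.2 h hm hr hC φ hφ, hw.2 h hm hr hC φ hφ, add_zero]

theorem sSumG : SSumG := by
  intro d n R z0 z h0 hz
  induction (Finset.univ : Finset (Fin n)) using Finset.induction_on with
  | empty => rwa [Finset.sum_empty, add_zero]
  | insert a s ha ih =>
    rw [Finset.sum_insert ha, add_left_comm]
    exact add_SumG (hz a) ih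

end

section

theorem app_SumS {d n : ℕ} (a : ZZ d) (b : Fin n → ZZ d) (x : EE d) :
    (a + ∑ i, b i : ZZ d) x = a x + ∑ i, b i x := by
  rw [BoundedContinuousFunction.add_apply, BoundedContinuousFunction.coe_sum, Finset.sum_apply]

theorem sSumS (hI : SInt) (hP : SPk1) : SSumS := by
  intro d n R D C C' T lam L β K s P F G f0 f u0 m0 U u m H I0 I IU S0 S hm
  have hG : ∀ z, G z = z := fun z => by
    ext1 x
    rw [H.repG, damp, sub_self, mul_zero, Real.rpow_zero, one_smul]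
  have hU : ∀ t > 0, U t = u0 t + ∑ i, u i t := fun t ht => by
    ext1 x
    rw [app_SumS, IU.rep t ht, I0.rep t ht]
    simp only [fun i => (I i).rep t ht x, pk]
    by_cases hx : x ∈ closedBall (0 : EE d) R
    · have h1 := fun i => (hP d R D C K _ H.ker H.D0 H.R0 (I i).dat t ht).1 x hx
      simp only [indicator_of_mem hx, smul_add, Finset.smul_sum]
      rw [integral_add ((hP d R D C K _ H.ker H.D0 H.R0 I0.dat t ht).1 x hx)
        (integrable_finsetSum _ fun i _ => h1 i), integral_finsetSum _ fun i _ => h1 i]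
    · simp only [indicator_of_notMem hx, Finset.sum_const_zero, add_zero]
  have hF : ∀ r ∈ Ioc 0 T, lam • F (m0 r + ∑ i, m i r) - G (m0 r + ∑ i, m i r) =
      lam • F (m0 r) - G (m0 r) + ∑ i, (lam • F (m i r) - G (m i r)) := fun r hr => by
    have h1 : ∀ i, lam • F (m i r) = 0 := fun i => by
      ext1 x
      rw [BoundedContinuousFunction.smul_apply, H.repF, fh, hm i r hr x, mul_zero, zero_div,
        zero_smul, smul_zero]
      rfl
    have h2 : F (m0 r + ∑ i, m i r) = F (m0 r) := by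
      ext1 x
      rw [H.repF, H.repF, fh, fh, app_SumS, inner_add_left, sum_inner,
        Finset.sum_eq_zero fun i _ => hm i r hr x, add_zero]
    simp only [h1, h2, hG, zero_sub, Finset.sum_neg_distrib]
    abel
  obtain ⟨c0, hc0⟩ := S0.1.2
  choose c hc using fun i => (S i).1.2
  refine ⟨⟨S0.1.1.add (continuousOn_finsetSum _ fun i _ => (S i).1.1), c0 + ∑ i, c i,
    fun t ht => (norm_add_le _ _).trans (add_le_add (hc0 t ht)
      (norm_sum_le_of_le _ fun i _ => hc i t ht))⟩, fun t ht => ?_⟩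
  have j0 := ((hI _ P T _ H.sg (S0.1.src (lam := lam) H.frc H.dmp)).1 t ht).2
  have j := fun i => ((hI _ P T _ H.sg ((S i).1.src (lam := lam) H.frc H.dmp)).1 t ht).2
  have e : ∫ r in Ioo 0 t, P (t - r) (lam • F (m0 r + ∑ i, m i r) - G (m0 r + ∑ i, m i r)) =
      (∫ r in Ioo 0 t, P (t - r) (lam • F (m0 r) - G (m0 r))) +
        ∑ i, ∫ r in Ioo 0 t, P (t - r) (lam • F (m i r) - G (m i r)) := by
    rw [← integral_finsetSum _ fun i _ => j i,
      ← integral_add j0 (integrable_finsetSum _ fun i _ => j i)]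
    refine setIntegral_congr_fun measurableSet_Ioo fun r hr => ?_
    rw [hF r ⟨hr.1, hr.2.le.trans ht.2⟩, map_add, map_sum]
  simp only
  rw [e, hU t ht.1, S0.2 t ht, Finset.sum_congr rfl fun i _ => (S i).2 t ht,
    Finset.sum_add_distrib]
  abel

end

section

theorem grad_DivA {d : ℕ} (φ : EE d → ℝ) (x : EE d) : ⟪x, gradient φ x⟫ = fderiv ℝ φ x x := by
  rw [real_inner_comm, gradient, InnerProductSpace.toDual_symm_apply]

theorem ftc_DivA {d : ℕ} {φ : EE d → ℝ} (hφ : ContDiff ℝ 1 φ) {a : ℝ} (h0 : 0 < a) (h1 : a < 1)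
    (y : EE d) :
    ∫ t in a..1, -(t⁻¹ * fderiv ℝ φ (t⁻¹ • y) (t⁻¹ • y)) = φ y - φ (a⁻¹ • y) := by
  have hp : ∀ t ∈ uIcc a 1, t ≠ 0 := fun t ht => by
    rw [uIcc_of_le h1.le] at ht
    exact (h0.trans_le ht.1).ne'
  have hi : ContinuousOn (fun t : ℝ => t⁻¹) (uIcc a 1) := continuousOn_id.inv₀ hp
  have hc : Continuous fun x => fderiv ℝ φ x x :=
    (hφ.continuous_fderiv one_ne_zero).clm_apply continuous_id
  have hk : ContinuousOn (fun t : ℝ => -(t⁻¹ * fderiv ℝ φ (t⁻¹ • y) (t⁻¹ • y))) (uIcc a 1) :=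
    (hi.mul (hc.comp_continuousOn (hi.smul continuousOn_const))).neg
  rw [intervalIntegral.integral_eq_sub_of_hasDerivAt (f := fun t : ℝ => φ (t⁻¹ • y))
    (fun t ht => ?_) hk.intervalIntegrable, inv_one, one_smul]
  have := ((hφ.differentiable one_ne_zero (t⁻¹ • y)).hasFDerivAt).comp_hasDerivAt t
    ((hasDerivAt_inv (hp t ht)).smul_const y)
  refine HasDerivAt.congr_deriv this ?_
  rw [map_smul, map_smul, smul_eq_mul, smul_eq_mul]
  ring

theorem sDivA : SDivA := by
  intro d R C a s φ hd hs hφ h0 h1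
  obtain ⟨hφ, hsub⟩ := hφ
  have hK : HasCompactSupport φ := (isCompact_closedBall (0 : EE d) R).of_isClosed_subset
    (isClosed_tsupport φ) (hsub.trans ball_subset_closedBall)
  have hc : Continuous fun x => fderiv ℝ φ x x :=
    (hφ.continuous_fderiv one_ne_zero).clm_apply continuous_id
  have hz : ∀ x, x ∉ closedBall (0 : EE d) R → fderiv ℝ φ x x = 0 := fun x hx => by
    have : fderiv ℝ φ x = 0 := by
      by_contra h
      exact hx (ball_subset_closedBall (hsub (support_fderiv_subset ℝ h)))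
    rw [this]
    rfl
  obtain ⟨M, hM⟩ := hc.bounded_above_of_compact_support
    (HasCompactSupport.intro (isCompact_closedBall (0 : EE d) R) hz)
  have ms : AEStronglyMeasurable (fun y : EE d => s ‖y‖) volume :=
    (hs.1.comp measurable_norm).aestronglyMeasurable
  have bs : ∀ᵐ y : EE d, ‖s ‖y‖‖ ≤ C := Eventually.of_forall fun y => hs.2 _
  have i0 : Integrable φ := hφ.continuous.integrable_of_hasCompactSupport hK
  have i1 := i0.bdd_mul ms bs
  have i2 := (i0.comp_smul (inv_ne_zero h0.ne')).bdd_mul ms bs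
  have i3 : Integrable (Function.uncurry fun (t : ℝ) (y : EE d) =>
      s ‖y‖ * -(t⁻¹ * fderiv ℝ φ (t⁻¹ • y) (t⁻¹ • y)))
      ((volume.restrict (uIoc a 1)).prod volume) := by
    have j : Integrable ((closedBall (0 : EE d) R).indicator fun _ => C * (a⁻¹ * M)) :=
      (integrableOn_const measure_closedBall_lt_top.ne).integrable_indicator
        measurableSet_closedBall
    rw [uIoc_of_le h1.le]
    refine (j.comp_snd _).mono' ((hs.1.comp measurable_snd.norm).mul (measurable_fst.inv.mul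
      (hc.measurable.comp (measurable_fst.inv.smul measurable_snd))).neg).aestronglyMeasurable ?_
    filter_upwards [Measure.quasiMeasurePreserving_fst.ae (ae_restrict_mem measurableSet_Ioc)]
      with p hp
    obtain ⟨t, y⟩ := p
    have t0 : 0 < t := h0.trans hp.1
    simp only [Function.uncurry_apply_pair]
    by_cases hy : y ∈ closedBall (0 : EE d) R
    · rw [indicator_of_mem hy, norm_mul, norm_neg, norm_mul, Real.norm_of_nonneg (inv_pos.2 t0).le]
      exact mul_le_mul (hs.2 _) (mul_le_mul (inv_anti₀ h0 hp.1.le) (hM _) (norm_nonneg _)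
        (inv_pos.2 h0).le) (by positivity) ((abs_nonneg _).trans (hs.2 0))
    · rw [indicator_of_notMem hy, hz, mul_zero, neg_zero, mul_zero, norm_zero]
      rw [mem_closedBall_zero_iff] at hy ⊢
      rw [norm_smul, Real.norm_of_nonneg (inv_pos.2 t0).le]
      exact fun h => hy ((le_mul_of_one_le_left (norm_nonneg _)
        ((one_le_inv₀ t0).2 hp.2)).trans h)
  calc _ = ∫ y : EE d, ∫ t in a..1, s ‖y‖ * -(t⁻¹ * fderiv ℝ φ (t⁻¹ • y) (t⁻¹ • y)) := by
        rw [← integral_sub i1 i2]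
        refine integral_congr_ae (Eventually.of_forall fun y => ?_)
        simp only [intervalIntegral.integral_const_mul, ftc_DivA hφ h0 h1 y, mul_sub]
    _ = ∫ t in a..1, ∫ y : EE d, s ‖y‖ * -(t⁻¹ * fderiv ℝ φ (t⁻¹ • y) (t⁻¹ • y)) :=
        (intervalIntegral_integral_swap i3).symm
    _ = _ := by
        rw [← intervalIntegral.integral_neg]
        refine intervalIntegral.integral_congr fun t ht => ?_
        rw [uIcc_of_le h1.le] at ht
        have t0 : 0 < t := h0.trans_le ht.1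
        have e := Measure.integral_comp_inv_smul_of_nonneg (volume : Measure (EE d))
          (fun x => s (t * ‖x‖) * fderiv ℝ φ x x) t0.le
        simp only [norm_smul, Real.norm_of_nonneg (inv_pos.2 t0).le,
          mul_inv_cancel_left₀ t0.ne', finrank_euclideanSpace_fin, smul_eq_mul] at e
        have e2 : ∀ y : EE d, s ‖y‖ * -(t⁻¹ * fderiv ℝ φ (t⁻¹ • y) (t⁻¹ • y)) =
            -t⁻¹ * (s ‖y‖ * fderiv ℝ φ (t⁻¹ • y) (t⁻¹ • y)) := fun y => by ring
        simp only [e2, grad_DivA]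
        rw [integral_const_mul, e, pow_sub₀ t t0.ne' hd, pow_one]
        ring

end

section

theorem int_Div {d : ℕ} {R : ℝ} {φ f : EE d → ℝ} (h : Test R φ) (hf : Continuous f)
    (h0 : ∀ x, x ∉ tsupport φ → f x = 0) : Integrable f := by
  have hK : IsCompact (tsupport φ) := (isCompact_closedBall (0 : EE d) R).of_isClosed_subset
    (isClosed_tsupport φ) (h.2.trans ball_subset_closedBall)
  exact hf.integrable_of_hasCompactSupport (HasCompactSupport.intro hK h0)

theorem lim_Div {x B : ℝ} (h : ∀ a : ℝ, 0 < a → a < 1 → |x| ≤ a * B) : x = 0 := by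
  have hl : Tendsto (fun a : ℝ => a * B) (𝓝[>] 0) (𝓝 0) := by
    have : Continuous fun a : ℝ => a * B := by fun_prop
    simpa using (this.tendsto 0).mono_left nhdsWithin_le_nhds
  refine abs_nonpos_iff.1 (ge_of_tendsto hl ?_)
  filter_upwards [Ioo_mem_nhdsGT (zero_lt_one' ℝ)] with a ha using h a ha.1 ha.2

theorem sDiv (hA : SDivA) : SDiv := by
  intro d R C s φ hd hs hφ
  obtain ⟨ψ, hψ⟩ : ∃ ψ : EE d → ℝ, ψ = fun x => ⟪x, gradient φ x⟫ := ⟨_, rfl⟩
  have eψ : ∀ x, ⟪x, gradient φ x⟫ = ψ x := fun x => by rw [hψ]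
  have fψ : ψ = fun x => fderiv ℝ φ x x := by
    funext x; rw [hψ]; simp
  have cψ : Continuous ψ := by
    rw [fψ]; exact (hφ.1.continuous_fderiv one_ne_zero).clm_apply continuous_id
  have zψ : ∀ x, x ∉ tsupport φ → ψ x = 0 := fun x hx => by
    rw [fψ]; simp [fderiv_of_notMem_tsupport ℝ hx]
  have zφ : ∀ x, x ∉ tsupport φ → φ x = 0 := fun x hx => image_eq_zero_of_notMem_tsupport hx
  have iψ : Integrable ψ := int_Div hφ cψ zψ
  have iφ : Integrable φ := int_Div hφ hφ.1.continuous zφ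
  have C0 : 0 ≤ C := (abs_nonneg _).trans (hs.2 0)
  have hA' := fun a (h0 : 0 < a) (h1 : a < 1) => hA d R C a s φ hd hs hφ h0 h1
  simp only [eψ] at hA' ⊢
  rw [setIntegral_eq_integral_of_forall_compl_eq_zero fun x hx => by
      rw [zψ x fun h => hx (hφ.2 h), mul_zero],
    setIntegral_eq_integral_of_forall_compl_eq_zero fun x hx => by
      rw [zφ x fun h => hx (hφ.2 h), mul_zero]]
  have hb : ∀ t ∈ uIoc (0 : ℝ) 1, ∀ x : EE d,
      ‖s (t * ‖x‖) * t ^ (d - 1) * ψ x‖ ≤ C * ‖ψ x‖ := fun t ht x => by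
    rw [uIoc_of_le zero_le_one] at ht
    rw [norm_mul, norm_mul]
    refine mul_le_mul_of_nonneg_right ?_ (norm_nonneg _)
    have h1 : ‖t ^ (d - 1)‖ ≤ 1 := by
      rw [norm_pow, Real.norm_of_nonneg ht.1.le]; exact pow_le_one₀ ht.1.le ht.2
    exact (mul_le_mul (hs.2 _) h1 (norm_nonneg _) C0).trans_eq (mul_one C)
  have hF : Integrable (Function.uncurry fun (t : ℝ) (x : EE d) => s (t * ‖x‖) * t ^ (d - 1) * ψ x)
      ((volume.restrict (uIoc (0 : ℝ) 1)).prod volume) := by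
    have hm := hs.1
    have hfin : IsFiniteMeasure (volume.restrict (uIoc (0 : ℝ) 1)) := by
      rw [uIoc_of_le zero_le_one]; infer_instance
    have hψm := cψ.measurable
    refine Integrable.mono' ((iψ.norm.const_mul C).comp_snd _) ?_ ?_
    · refine Measurable.aestronglyMeasurable ?_
      unfold Function.uncurry
      fun_prop
    · rw [Measure.restrict_prod_eq_prod_univ]
      filter_upwards [ae_restrict_mem (measurableSet_uIoc.prod MeasurableSet.univ)] with p hp
      exact hb p.1 hp.1 p.2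
  obtain ⟨I, hI⟩ : ∃ I : ℝ → ℝ, I = fun t => ∫ x : EE d, s (t * ‖x‖) * t ^ (d - 1) * ψ x :=
    ⟨_, rfl⟩
  have eI : ∀ t : ℝ, t ^ (d - 1) * ∫ x : EE d, s (t * ‖x‖) * ψ x = I t := fun t => by
    rw [hI, ← integral_const_mul]
    refine integral_congr_ae (Eventually.of_forall fun x => ?_)
    ring
  have iI : IntervalIntegrable I volume 0 1 := by
    rw [intervalIntegrable_iff, hI]
    exact hF.integral_prod_left
  have bI : ∀ t ∈ uIoc (0 : ℝ) 1, ‖I t‖ ≤ C * ∫ x, ‖ψ x‖ := fun t ht => by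
    rw [hI, ← integral_const_mul]
    exact norm_integral_le_of_norm_le (iψ.norm.const_mul C) (Eventually.of_forall (hb t ht))
  have e1 : ∫ x : EE d, bb s d ‖x‖ * ψ x = ∫ t in (0 : ℝ)..1, I t := by
    rw [hI, intervalIntegral_integral_swap hF]
    refine integral_congr_ae (Eventually.of_forall fun x => ?_)
    simp only [bb, intervalIntegral.integral_mul_const]
  simp only [eI] at hA'
  rw [e1, ← add_eq_zero_iff_eq_neg]
  refine lim_Div (B := C * (∫ x, ‖ψ x‖) + C * ∫ x, ‖φ x‖) fun a h0 h1 => ?_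
  have hsub : uIoc 0 a ⊆ uIoc (0 : ℝ) 1 := by
    rw [uIoc_of_le h0.le, uIoc_of_le zero_le_one]; exact Ioc_subset_Ioc_right h1.le
  have i1 : IntervalIntegrable I volume 0 a := iI.mono_set' hsub
  have i2 : IntervalIntegrable I volume a 1 := i1.symm.trans iI
  have h2 := intervalIntegral.integral_add_adjacent_intervals i1 i2
  have h3 := intervalIntegral.norm_integral_le_of_norm_le_const fun t ht => bI t (hsub ht)
  rw [sub_zero, abs_of_pos h0, Real.norm_eq_abs] at h3
  have h4 : ‖∫ y : EE d, s ‖y‖ * φ (a⁻¹ • y)‖ ≤ ∫ y : EE d, C * ‖φ (a⁻¹ • y)‖ := by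
    refine norm_integral_le_of_norm_le ((iφ.norm.comp_smul (inv_ne_zero h0.ne')).const_mul C)
      (Eventually.of_forall fun y => ?_)
    rw [norm_mul]
    exact mul_le_mul_of_nonneg_right (hs.2 _) (norm_nonneg _)
  rw [integral_const_mul, Measure.integral_comp_inv_smul_of_nonneg volume (fun y => ‖φ y‖) h0.le,
    finrank_euclideanSpace_fin, smul_eq_mul, Real.norm_eq_abs] at h4
  have h5 : a ^ d ≤ a := pow_le_of_le_one h0.le h1.le (by omega)
  have h6 : 0 ≤ C * ∫ x, ‖φ x‖ := mul_nonneg C0 (integral_nonneg fun _ => norm_nonneg _)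
  have h7 := mul_le_mul_of_nonneg_right h5 h6
  have e2 : (∫ t in (0 : ℝ)..1, I t) + ∫ x : EE d, s ‖x‖ * φ x =
      (∫ t in (0 : ℝ)..a, I t) + ∫ y : EE d, s ‖y‖ * φ (a⁻¹ • y) := by
    linarith [hA' a h0 h1]
  rw [e2]
  refine (abs_add_le _ _).trans ?_
  nlinarith

end

section

theorem sH1 : SH1 := by
  intro d R δ h hR hδ hc h0
  have e : (fun x : EE d => -∫ v in (‖x‖ ^ 2)..(R ^ 2), h v) =
      (fun u : ℝ => ∫ v in (R ^ 2)..u, h v) ∘ fun x : EE d => ‖x‖ ^ 2 := by
    funext x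
    exact (intervalIntegral.integral_symm _ _).symm
  have hd : ∀ u, HasDerivAt (fun u : ℝ => ∫ v in (R ^ 2)..u, h v) (h u) u := fun u =>
    (hc.integral_hasStrictDerivAt _ u).hasDerivAt
  refine ⟨⟨?_, ?_⟩, fun x => ?_⟩
  · rw [e]
    refine ContDiff.comp (contDiff_one_iff_deriv.2 ⟨fun u => (hd u).differentiableAt, ?_⟩)
      (contDiff_norm_sq ℝ)
    rw [show deriv (fun u : ℝ => ∫ v in (R ^ 2)..u, h v) = h from funext fun u => (hd u).deriv]
    exact hc
  · refine (closure_minimal (t := {x : EE d | ‖x‖ ^ 2 ≤ R ^ 2 - δ}) (fun x hx => ?_)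
      (isClosed_le (by fun_prop) continuous_const)).trans fun x hx => ?_
    · by_contra c
      have c' : R ^ 2 - δ < ‖x‖ ^ 2 := not_le.1 c
      refine hx ?_
      have : ∫ v in (‖x‖ ^ 2)..(R ^ 2), h v = ∫ _ in (‖x‖ ^ 2)..(R ^ 2), (0 : ℝ) :=
        intervalIntegral.integral_congr fun v hv =>
          h0 v ((le_min c'.le (by linarith)).trans hv.1)
      simp [this]
    · have c : ‖x‖ ^ 2 ≤ R ^ 2 - δ := hx
      rw [mem_ball_zero_iff]
      exact lt_of_pow_lt_pow_left₀ 2 hR.le (by linarith)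
  · rw [e]
    refine HasGradientAt.gradient (hasGradientAt_iff_hasFDerivAt.2 ?_)
    refine ((hd (‖x‖ ^ 2)).comp_hasFDerivAt x
      (hasStrictFDerivAt_norm_sq x).hasFDerivAt).congr_fderiv ?_
    ext y
    simp only [InnerProductSpace.toDual_apply_apply, real_inner_smul_left,
      _root_.smul_apply, innerSL_apply_apply, smul_eq_mul, nsmul_eq_mul]
    push_cast
    ring

end

section

theorem lim_H10 {d : ℕ} {F : Type} [NormedAddCommGroup F] {R K : ℝ} {f : ℕ → EE d → F}
    {g : EE d → F} (hc : ∀ n, Continuous (f n)) (hb : ∀ n, ∀ x ∈ ball (0 : EE d) R, ‖f n x‖ ≤ K)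
    (ht : ∀ x ∈ ball (0 : EE d) R, Tendsto (fun n => f n x) atTop (𝓝 (g x))) :
    MemLp g 2 (volume.restrict (ball 0 R)) ∧ ∀ n, ∀ x ∈ ball (0 : EE d) R,
      ‖f n x - g x‖ ^ 2 ≤ (2 * K) ^ 2 := by
  have : IsFiniteMeasure (volume.restrict (ball (0 : EE d) R)) :=
    isFiniteMeasure_restrict.2 measure_ball_lt_top.ne
  have hg : ∀ x ∈ ball (0 : EE d) R, ‖g x‖ ≤ K := fun x hx =>
    le_of_tendsto' (ht x hx).norm fun n => hb n x hx
  refine ⟨MemLp.of_bound (aestronglyMeasurable_of_tendsto_ae atTop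
    (fun n => (hc n).aestronglyMeasurable) (ae_restrict_of_forall_mem measurableSet_ball ht)) K
    (ae_restrict_of_forall_mem measurableSet_ball hg), fun n x hx => ?_⟩
  refine pow_le_pow_left₀ (norm_nonneg _) ((norm_sub_le _ _).trans ?_) 2
  linarith [hb n x hx, hg x hx]

theorem in_H10 {d : ℕ} {R K : ℝ} {φ : ℕ → EE d → ℝ} {p : EE d → ℝ} {g : EE d → EE d}
    (h0 : ∀ n, Test R (φ n)) (hc : ∀ n, Continuous (gradient (φ n)))
    (hb : ∀ n, ∀ x ∈ ball (0 : EE d) R, ‖φ n x‖ ≤ K)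
    (hb' : ∀ n, ∀ x ∈ ball (0 : EE d) R, ‖gradient (φ n) x‖ ≤ K)
    (ht : ∀ x ∈ ball (0 : EE d) R, Tendsto (fun n => φ n x) atTop (𝓝 (p x)))
    (ht' : ∀ x ∈ ball (0 : EE d) R, Tendsto (fun n => gradient (φ n) x) atTop (𝓝 (g x))) :
    InH10 R p g := by
  have : IsFiniteMeasure (volume.restrict (ball (0 : EE d) R)) :=
    isFiniteMeasure_restrict.2 measure_ball_lt_top.ne
  obtain ⟨a1, a2⟩ := lim_H10 (fun n => (h0 n).1.continuous) hb ht
  obtain ⟨b1, b2⟩ := lim_H10 hc hb' ht'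
  refine ⟨a1, b1, φ, h0, ?_⟩
  have h := tendsto_integral_of_dominated_convergence (μ := volume.restrict (ball (0 : EE d) R))
    (F := fun n x => (φ n x - p x) ^ 2 + ‖gradient (φ n) x - g x‖ ^ 2) (f := fun _ => (0 : ℝ))
    (fun _ => (2 * K) ^ 2 + (2 * K) ^ 2)
    (fun n => (((h0 n).1.continuous.aestronglyMeasurable.sub a1.1).pow 2).add
      (((hc n).aestronglyMeasurable.sub b1.1).norm.pow 2))
    (integrable_const _)
    (fun n => ae_restrict_of_forall_mem measurableSet_ball fun x hx => by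
      have h1 := a2 n x hx
      rw [Real.norm_eq_abs, sq_abs] at h1
      rw [Real.norm_of_nonneg (by positivity)]
      exact add_le_add h1 (b2 n x hx))
    (ae_restrict_of_forall_mem measurableSet_ball fun x hx => by
      have h1 := (((ht x hx).sub_const (p x)).pow 2).add
        (((ht' x hx).sub_const (g x)).norm.pow 2)
      simpa using h1)
  simpa using h

/-- The cutoff. -/
noncomputable def eta_H10 (S : ℝ) (n : ℕ) (v : ℝ) : ℝ :=
  max 0 (min 1 ((n + 1) * v - 1)) * max 0 (min 1 ((n + 1) * (S - v) - 1))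

theorem eta0_H10 {S v : ℝ} {n : ℕ} (h : v ≤ 1 / (n + 1) ∨ S - 1 / (n + 1) ≤ v) :
    eta_H10 S n v = 0 := by
  have hn : (0 : ℝ) < n + 1 := by positivity
  rcases h with h | h
  · rw [le_div_iff₀ hn] at h
    rw [eta_H10, max_eq_left ((min_le_right _ _).trans (by linarith)), zero_mul]
  · have h2 : S - v ≤ 1 / (n + 1) := by linarith
    rw [le_div_iff₀ hn] at h2
    rw [eta_H10, max_eq_left (b := min 1 ((n + 1) * (S - v) - 1))
      ((min_le_right _ _).trans (by linarith)), mul_zero]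

theorem eta1_H10 (S v : ℝ) (n : ℕ) : |eta_H10 S n v| ≤ 1 := by
  rw [eta_H10, abs_of_nonneg (mul_nonneg (le_max_left _ _) (le_max_left _ _))]
  exact mul_le_one₀ (max_le zero_le_one (min_le_left _ _)) (le_max_left _ _)
    (max_le zero_le_one (min_le_left _ _))

theorem eta2_H10 {S v : ℝ} (h : v ∈ Ioo 0 S) : ∀ᶠ n : ℕ in atTop, eta_H10 S n v = 1 := by
  have key : ∀ w : ℝ, 0 < w → ∀ᶠ n : ℕ in atTop, max 0 (min 1 (((n : ℝ) + 1) * w - 1)) = 1 := by
    intro w hw
    filter_upwards [tendsto_natCast_atTop_atTop.eventually (eventually_ge_atTop (2 / w))] with n hn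
    rw [div_le_iff₀ hw] at hn
    rw [min_eq_left (by linarith), max_eq_right zero_le_one]
  filter_upwards [key v h.1, key (S - v) (sub_pos.2 h.2)] with n h1 h2
  rw [eta_H10, h1, h2, mul_one]

theorem sH10 (h1 : SH1) : SH10 := by
  intro d R C q hR hq hC
  have hC0 : 0 ≤ C := (abs_nonneg _).trans (hC R ⟨hR, le_rfl⟩)
  have hδ : ∀ n : ℕ, (0 : ℝ) < 1 / (n + 1) := fun n => by positivity
  have hs : ∀ v ∈ Ioo 0 (R ^ 2), √v ∈ Ioo 0 R := fun v hv =>
    ⟨Real.sqrt_pos.2 hv.1, (Real.sqrt_lt' hR).2 hv.2⟩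
  obtain ⟨H, hH⟩ : ∃ H : ℕ → ℝ → ℝ, ∀ n v, H n v = eta_H10 (R ^ 2) n v * (q √v / 2) :=
    ⟨_, fun _ _ => rfl⟩
  have out : ∀ n v, v ∉ Ioo 0 (R ^ 2) → ∀ᶠ w in 𝓝 v, H n w = 0 := fun n v hv => by
    rcases not_and_or.1 hv with h | h
    · filter_upwards [Iio_mem_nhds ((not_lt.1 h).trans_lt (hδ n))] with w hw
      rw [hH, eta0_H10 (Or.inl (le_of_lt hw)), zero_mul]
    · filter_upwards [Ioi_mem_nhds ((sub_lt_self _ (hδ n)).trans_le (not_lt.1 h))] with w hw
      rw [hH, eta0_H10 (Or.inr (le_of_lt hw)), zero_mul]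
  have Hc : ∀ n, Continuous (H n) := fun n => continuous_iff_continuousAt.2 fun v => by
    by_cases hv : v ∈ Ioo 0 (R ^ 2)
    · have e : H n = fun v => eta_H10 (R ^ 2) n v * (q √v / 2) := funext (hH n)
      rw [e]
      refine ContinuousAt.mul (Continuous.continuousAt (by unfold eta_H10; fun_prop)) ?_
      exact ((hq.continuousAt (Ioc_mem_nhds (hs v hv).1 (hs v hv).2)).comp
        Real.continuous_sqrt.continuousAt).div_const 2
    · exact continuousAt_const.congr (EventuallyEq.symm (out n v hv))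
  have Hb : ∀ n v, ‖H n v‖ ≤ C / 2 := fun n v => by
    by_cases hv : v ∈ Ioo 0 (R ^ 2)
    · rw [hH, Real.norm_eq_abs, abs_mul, abs_div, abs_two]
      have h2 := hC _ ⟨(hs v hv).1, (hs v hv).2.le⟩
      exact (mul_le_of_le_one_left (by positivity) (eta1_H10 _ _ _)).trans (by linarith)
    · rw [(out n v hv).self_of_nhds, norm_zero]
      positivity
  have Ht : ∀ v, Tendsto (fun n => H n v) atTop
      (𝓝 ((Ioo 0 (R ^ 2)).indicator (fun v => q √v / 2) v)) := fun v => by
    refine tendsto_const_nhds.congr' ?_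
    by_cases hv : v ∈ Ioo 0 (R ^ 2)
    · filter_upwards [eta2_H10 hv] with n hn
      rw [hH, hn, one_mul, indicator_of_mem hv]
    · exact Eventually.of_forall fun n => by
        simp only [indicator_of_notMem hv, (out n v hv).self_of_nhds]
  have hφ := fun n => h1 d R _ (H n) hR (hδ n) (Hc n) fun v hv => by
    rw [hH, eta0_H10 (Or.inr hv), zero_mul]
  have hx2 : ∀ x ∈ ball (0 : EE d) R, ‖x‖ ^ 2 < R ^ 2 := fun x hx =>
    pow_lt_pow_left₀ (mem_ball_zero_iff.1 hx) (norm_nonneg _) two_ne_zero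
  refine ⟨fun x => -∫ v in (‖x‖ ^ 2)..(R ^ 2), (Ioo 0 (R ^ 2)).indicator (fun v => q √v / 2) v,
    in_H10 (K := C * R ^ 2 + C * R) (fun n => (hφ n).1) (fun n => ?_) (fun n x hx => ?_)
      (fun n x hx => ?_) (fun x hx => ?_) fun x hx => ?_⟩
  · rw [funext (hφ n).2]
    have := Hc n
    fun_prop
  · rw [norm_neg]
    refine (intervalIntegral.norm_integral_le_of_norm_le_const fun v _ => Hb n v).trans ?_
    rw [abs_of_nonneg (sub_nonneg.2 (hx2 x hx).le)]
    nlinarith [mul_nonneg hC0 (sq_nonneg ‖x‖), mul_nonneg hC0 (sq_nonneg R), mul_nonneg hC0 hR.le]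
  · rw [(hφ n).2, norm_smul, norm_mul, Real.norm_two]
    have h2 := mul_le_mul (Hb n (‖x‖ ^ 2)) (mem_ball_zero_iff.1 hx).le (norm_nonneg _)
      (by positivity)
    nlinarith [mul_nonneg hC0 (sq_nonneg R)]
  · exact (intervalIntegral.tendsto_integral_filter_of_dominated_convergence (fun _ => C / 2)
      (Eventually.of_forall fun n => (Hc n).aestronglyMeasurable)
      (Eventually.of_forall fun n => Eventually.of_forall fun v _ => Hb n v)
      intervalIntegrable_const (Eventually.of_forall fun v _ => Ht v)).neg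
  · simp only [fun n => (hφ n).2 x]
    rcases eq_or_ne x 0 with rfl | h0
    · simp
    · have hv : ‖x‖ ^ 2 ∈ Ioo 0 (R ^ 2) := ⟨by positivity, hx2 x hx⟩
      have h2 := ((Ht (‖x‖ ^ 2)).const_mul 2).smul_const x
      rwa [indicator_of_mem hv, Real.sqrt_sq (norm_nonneg _), mul_div_cancel₀ _ two_ne_zero] at h2

end

section

theorem congr_PrA {d : ℕ} {R : ℝ} {p : EE d → ℝ} {g g' : EE d → EE d} (h : InH10 R p g)
    (e : ∀ x ∈ ball (0 : EE d) R, g x = g' x) : InH10 R p g' := by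
  obtain ⟨h1, h2, φ, h3, h4⟩ := h
  refine ⟨h1, h2.ae_eq ((ae_restrict_mem measurableSet_ball).mono e), φ, h3, h4.congr fun n => ?_⟩
  exact setIntegral_congr_fun measurableSet_ball fun x hx => by simp only [e x hx]

theorem sPrA (hB : SB) (hH : SH10) : SPrA := by
  intro d R C s z hd hR hs hz
  obtain ⟨hc, -, hb⟩ := hB d s C hd hs
  constructor
  · obtain ⟨e0, he⟩ : ∃ e0 : EE d, ‖e0‖ = 1 := ⟨EuclideanSpace.single ⟨0, hd⟩ 1, by simp⟩
    have hpos : ∀ r : ℝ, 0 < 1 + ⟪z (r • e0), r • e0⟫ ^ 2 / r ^ 2 := fun r => by positivity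
    have hcont : Continuous fun r : ℝ => ⟪z (r • e0), r • e0⟫ :=
      (z.continuous.comp (continuous_id.smul continuous_const)).inner
        (continuous_id.smul continuous_const)
    obtain ⟨p, hp⟩ := hH d R C (fun r => -(bb s d r / (1 + ⟪z (r • e0), r • e0⟫ ^ 2 / r ^ 2))) hR
      (((hc.mono Ioc_subset_Ioi_self).div (continuousOn_const.add ((hcont.pow 2).continuousOn.div
        (continuous_pow 2).continuousOn fun r hr => pow_ne_zero 2 hr.1.ne'))
          fun r _ => (hpos r).ne').neg) fun r _ => by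
        rw [abs_neg, abs_div, abs_of_pos (hpos r)]
        exact (div_le_self (abs_nonneg _) (le_add_of_nonneg_right (by positivity))).trans (hb r)
    refine ⟨p, congr_PrA hp fun x hx => ?_⟩
    have hn : ‖‖x‖ • e0‖ = ‖x‖ := by rw [norm_smul, he, mul_one, norm_norm]
    have hx' : ‖x‖ ≤ R := (mem_ball_zero_iff.1 hx).le
    have e1 := hz.1 x (mem_closedBall_zero_iff.2 hx') (‖x‖ • e0)
      (mem_closedBall_zero_iff.2 (hn.le.trans hx')) hn.symm
    simp only at e1
    simp only [gv, e1]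
  · intro x hx
    have h1 : cut R ‖x‖ = 1 := by
      have h2 : ‖x‖ / R ≤ 1 := (div_le_one hR).2 (mem_ball_zero_iff.1 hx).le
      rw [cut, min_eq_left (by linarith), max_eq_right zero_le_one]
    rw [gv, fh, h1, inner_smul_right, smul_smul]
    congr 1
    rw [one_mul, div_eq_mul_inv, div_eq_mul_inv (_ * _), ← inv_pow]
    ring

end

section

theorem int_Press {d : ℕ} {R c : ℝ} {f g : EE d → ℝ} (hf : Measurable f)
    (hb : ∀ x ∈ closedBall (0 : EE d) R, |f x| ≤ c) (hg : Continuous g) :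
    IntegrableOn (fun x => f x * g x) (ball (0 : EE d) R) := by
  have h1 : IntegrableOn g (ball (0 : EE d) R) :=
    (hg.continuousOn.integrableOn_compact (isCompact_closedBall 0 R)).mono_set
      ball_subset_closedBall
  refine Integrable.bdd_mul (c := c) h1 hf.aestronglyMeasurable ?_
  filter_upwards [ae_restrict_mem measurableSet_ball] with x hx
  exact hb x (ball_subset_closedBall hx)

theorem sPress (hB : SB) (hD : SDiv) : SPress := by
  intro d R C s z hd _ hs hG φ hφ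
  obtain ⟨-, hbm, hbb⟩ := hB d s C hd hs
  have hC : 0 ≤ C := (abs_nonneg _).trans (hbb 0)
  have hgc : Continuous (gradient φ) :=
    (InnerProductSpace.toDual ℝ (EE d)).symm.continuous.comp (hφ.1.continuous_fderiv one_ne_zero)
  have hz : Continuous (z : EE d → EE d) := z.continuous
  have ha : Continuous fun x : EE d => ⟪z x, x⟫ := hz.inner continuous_id
  have hb : Measurable fun x : EE d => bb s d ‖x‖ := hbm.comp measurable_norm
  have hA : Measurable fun x : EE d => ⟪z x, x⟫ ^ 2 / ‖x‖ ^ 2 :=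
    (ha.measurable.pow_const 2).div (measurable_norm.pow_const 2)
  have hA0 : ∀ x : EE d, 0 ≤ ⟪z x, x⟫ ^ 2 / ‖x‖ ^ 2 := fun x => by positivity
  set h : EE d → ℝ := fun x => bb s d ‖x‖ * ⟪z x, x⟫ / (1 + ⟪z x, x⟫ ^ 2 / ‖x‖ ^ 2) with hh
  set q : EE d → ℝ := fun x =>
    bb s d ‖x‖ * (⟪z x, x⟫ ^ 2 / ‖x‖ ^ 2) / (1 + ⟪z x, x⟫ ^ 2 / ‖x‖ ^ 2) with hq
  have hm : Measurable h := (hb.mul ha.measurable).div (measurable_const.add hA)
  have qm : Measurable q := (hb.mul hA).div (measurable_const.add hA)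
  have hbd : ∀ x ∈ closedBall (0 : EE d) R, |h x| ≤ C * (‖z‖ * R) := fun x hx => by
    have h0 := hA0 x
    have h1 : |⟪z x, x⟫| ≤ ‖z‖ * R :=
      (abs_real_inner_le_norm _ _).trans (mul_le_mul (z.norm_coe_le_norm x)
        (mem_closedBall_zero_iff.1 hx) (norm_nonneg _) (norm_nonneg _))
    simp only [hh]
    rw [abs_div, abs_mul, abs_of_pos (by linarith : 0 < 1 + ⟪z x, x⟫ ^ 2 / ‖x‖ ^ 2)]
    refine (div_le_self (by positivity) (by linarith)).trans ?_
    exact mul_le_mul (hbb _) h1 (abs_nonneg _) hC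
  have qbd : ∀ x ∈ closedBall (0 : EE d) R, |q x| ≤ C := fun x _ => by
    have h0 := hA0 x
    simp only [hq]
    rw [abs_div, abs_mul, abs_of_pos (by linarith : 0 < 1 + ⟪z x, x⟫ ^ 2 / ‖x‖ ^ 2),
      abs_of_nonneg h0, div_le_iff₀ (by linarith)]
    exact mul_le_mul (hbb _) (by linarith) h0 hC
  have hrad : Rad R h := fun x hx y hy e => by
    have := hG.1 x hx y hy e
    simp only [hh]
    simp only at this
    rw [this, e]
  have i1 : IntegrableOn (fun x : EE d => bb s d ‖x‖ * ⟪x, gradient φ x⟫) (ball 0 R) :=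
    int_Press hb (fun x _ => hbb _) (continuous_id.inner hgc)
  have e2 : ∀ x : EE d, h x * ⟪tn z x, gradient φ x⟫ =
      h x * ⟪z x, gradient φ x⟫ - q x * ⟪x, gradient φ x⟫ := fun x => by
    simp only [hh, hq, tn, inner_sub_left, real_inner_smul_left]
    ring
  have i2 : IntegrableOn (fun x : EE d => h x * ⟪tn z x, gradient φ x⟫) (ball 0 R) := by
    simp only [e2]
    exact (int_Press hm hbd (hz.inner hgc)).sub (int_Press qm qbd (continuous_id.inner hgc))
  have e1 : ∀ x : EE d, ⟪gv s z x + ⟪z x, gv s z x⟫ • z x, gradient φ x⟫ =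
      -(bb s d ‖x‖ * ⟪x, gradient φ x⟫) - h x * ⟪tn z x, gradient φ x⟫ := fun x => by
    have h0 := hA0 x
    rw [e2]
    simp only [hh, hq, gv, inner_add_left, real_inner_smul_left, real_inner_smul_right]
    generalize ⟪z x, x⟫ ^ 2 / ‖x‖ ^ 2 = A at h0 ⊢
    have : 1 + A ≠ 0 := by linarith
    field_simp
    ring
  have i3 : IntegrableOn (fun x : EE d => -(bb s d ‖x‖ * ⟪x, gradient φ x⟫)) (ball 0 R) := i1.neg
  simp only [e1]
  rw [integral_sub i3 i2, hG.2 h hm hrad ⟨_, hbd⟩ φ hφ, integral_neg, hD d R C s φ hd hs hφ]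
  ring

end

section

theorem sMild (hI : SInt) (hP : SPk1) (hA : SPrA) (hQ : SPress) : SMild := by
  intro d R D γ C C' T lam L β K s P F G f u m hd hs hc hi hm hg
  refine ⟨⟨fun t => gv s (m t), fun t ht => ⟨(hA d R C' s (m t) hd hc.R0 hs (hg t ht)).1,
    hQ d R C' s (m t) hd hc.R0 hs (hg t ht)⟩, fun t ht x hx => ?_⟩, ?_⟩
  · have hx' : x ∈ closedBall (0 : EE d) R := ball_subset_closedBall hx
    set H : ℝ → ZZ d := fun r => lam • F (m r) - G (m r) with hH
    have sub : ∀ r ∈ Ioo 0 t, r ∈ Ioc 0 T := fun r hr => ⟨hr.1, hr.2.le.trans ht.2⟩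
    have e1 : ∀ r ∈ Ioo 0 t, EqOn (fun y => K (t - r) x y • H r y)
        (fun y => K (t - r) x y • src lam γ (m r y) (gv s (m r) y)) (ball 0 R) := by
      intro r hr y hy
      have h1 := (hA d R C' s (m r) hd hc.R0 hs (hg r (sub r hr))).2 y hy
      have h2 : H r y = lam • F (m r) y - G (m r) y := rfl
      simp only [src, h1, h2, hc.repF, hc.repG]
    have e2 : ∀ r ∈ Ioo 0 t, P (t - r) (H r) x =
        ∫ y in ball 0 R, K (t - r) x y • src lam γ (m r y) (gv s (m r) y) := by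
      intro r hr
      rw [hc.rep _ (sub_pos.2 hr.2), pk, indicator_of_mem hx']
      exact setIntegral_congr_fun measurableSet_ball (e1 r hr)
    have i1 := ((hI (ZZ d) P T H hc.sg (hm.1.src hc.frc hc.dmp)).1 t ht).2
    have i2 := (BoundedContinuousFunction.evalCLM ℝ x).integrable_comp i1
    have i3 := (BoundedContinuousFunction.evalCLM ℝ x).integral_comp_comm i1
    refine ⟨(hP d R D C K f hc.ker hc.D0 hc.R0 hi.dat t ht.1).1 x hx', fun r hr => ?_, ?_, ?_⟩
    · refine IntegrableOn.congr_fun ?_ (e1 r hr) measurableSet_ball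
      exact (hP d R D ‖H r‖ K (H r) hc.ker hc.D0 hc.R0 ⟨(H r).continuous.aestronglyMeasurable,
        fun y _ => (H r).norm_coe_le_norm y⟩ _ (sub_pos.2 hr.2)).1 x hx'
    · exact IntegrableOn.congr_fun i2 e2 measurableSet_Ioo
    · have h1 : m t x = u t x + (∫ r in Ioo 0 t, P (t - r) (H r)) x := by
        rw [hm.2 t ht]
        rfl
      have h2 : (∫ r in Ioo 0 t, P (t - r) (H r)) x = ∫ r in Ioo 0 t, P (t - r) (H r) x :=
        i3.symm
      beta_reduce
      rw [h1, h2, hi.rep t ht.1, pk, indicator_of_mem hx',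
        setIntegral_congr_fun measurableSet_Ioo e2]
  · exact (hm.1.1.comp continuousOn_fst fun p hp => hp.1).eval continuousOn_snd

end

end Pool.Agent.MP_b33505_an
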