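import Pool.Agent.MP_b33505_an.St2

namespace Pool.Agent.MP_b33505_an

open MeasureTheory Set Metric Filter Topology
open scoped RealInnerProductSpace Laplacian BoundedContinuousFunction

section

theorem pt_KCK {d : ℕ} {D t s : ℝ} (hD : 0 < D) (ht : 0 < t) (hs : 0 < s) (u v : EE d) :
    gauss D t u * gauss D s v = gauss D (t + s) (u + v) *
      gauss D (t * s / (t + s)) ((s / (t + s)) • u - (t / (t + s)) • v) := by
  have hts : 0 < t + s := by positivity
  have hp := Real.pi_pos
  unfold gauss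
  rw [mul_mul_mul_comm, mul_mul_mul_comm (_ ^ (-(d : ℝ) / 2)) (Real.exp _),
    ← Real.mul_rpow (by positivity) (by positivity),
    ← Real.mul_rpow (by positivity) (by positivity), ← Real.exp_add, ← Real.exp_add]
  congr 2
  · field_simp
  · rw [norm_add_sq_real, norm_sub_sq_real, norm_smul, norm_smul, real_inner_smul_left,
      real_inner_smul_right, Real.norm_of_nonneg (by positivity),
      Real.norm_of_nonneg (by positivity)]
    field_simp
    ring

theorem sCK (hI : SGaI) : SCK := by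
  intro d D t s x y hD ht hs
  have hts : 0 < t + s := by positivity
  obtain ⟨-, h1, h2⟩ := hI d D (t * s / (t + s)) hD (by positivity)
    ((s / (t + s)) • x + (t / (t + s)) • y)
  have e : (fun z => gauss D t (x - z) * gauss D s (z - y)) = fun z => gauss D (t + s) (x - y) *
      gauss D (t * s / (t + s)) ((s / (t + s)) • x + (t / (t + s)) • y - z) := by
    funext z
    rw [pt_KCK hD ht hs, sub_add_sub_cancel]
    congr 2
    match_scalars <;> field_simp <;> ring
  rw [e, integral_const_mul, h2, mul_one]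
  exact ⟨h1.const_mul _, rfl⟩

end

section

theorem sGc : SGc := by
  intro d D hD
  have pi := Real.pi_pos
  refine ⟨?_, fun t _ => ?_, fun t x y => ?_, fun s hs t ht x => ?_⟩
  · refine (ContinuousOn.rpow_const (by fun_prop) fun p hp => Or.inl ?_).mul
      (ContinuousOn.div (by fun_prop) (by fun_prop) fun p hp => ?_).rexp
    all_goals
      have : 0 < p.1 := hp.1
      positivity
  · unfold gauss
    fun_prop
  · rw [gauss, gauss, norm_sub_rev]
  · have t0 : 0 < t := hs.trans_le ht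
    rw [gauss, gauss, norm_zero, zero_pow two_ne_zero, neg_zero, zero_div, Real.exp_zero]
    refine mul_le_mul (Real.rpow_le_rpow_of_nonpos (by positivity) (by gcongr) ?_)
      (Real.exp_le_one_iff.2 (div_nonpos_of_nonpos_of_nonneg (neg_nonpos.2 (sq_nonneg _))
        (by positivity))) (Real.exp_pos _).le (by positivity)
    exact div_nonpos_of_nonpos_of_nonneg (neg_nonpos.2 (Nat.cast_nonneg d)) zero_le_two

end

section

theorem sQ (hI : SGaI) (hG : SGc) : SQ := by
  intro d R D τ f g hD hτ hf hg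
  obtain ⟨-, c1, -, c2⟩ := hG d D hD
  have hc := c1 τ hτ
  have hp : ∀ x : EE d, 0 ≤ gauss D τ x := fun x => (hI d D τ hD hτ x).1.le
  have cont : ∀ {k : EE d → ℝ}, Continuous k → ∀ x,
      Continuous fun z => gauss D τ (x - z) * k z := fun hk x =>
    (hc.comp (continuous_const.sub continuous_id)).mul hk
  have int : ∀ {k : EE d → ℝ}, Continuous k → ∀ x,
      IntegrableOn (fun z => gauss D τ (x - z) * k z) (ball 0 R) := fun hk x =>
    ((cont hk x).continuousOn.integrableOn_compact (isCompact_closedBall 0 R)).mono_set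
      ball_subset_closedBall
  refine ⟨?_, int hf, fun p q x => ?_, fun h x => ?_, fun B hB h x => ?_⟩
  · obtain ⟨C, hC⟩ := (isCompact_closedBall (0 : EE d) R).exists_bound_of_continuousOn
      hf.continuousOn
    have : IsFiniteMeasure (volume.restrict (ball (0 : EE d) R)) :=
      isFiniteMeasure_restrict.2 measure_ball_lt_top.ne
    refine continuous_of_dominated (bound := fun _ => gauss D τ (0 : EE d) * C)
      (fun x => (cont hf x).aestronglyMeasurable) (fun x => ?_) (integrable_const _)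
      (Eventually.of_forall fun z => (hc.comp (continuous_id.sub continuous_const)).mul
        continuous_const)
    filter_upwards [ae_restrict_mem measurableSet_ball] with z hz
    rw [norm_mul, Real.norm_of_nonneg (hp _)]
    exact mul_le_mul (c2 τ hτ τ le_rfl _) (hC z (ball_subset_closedBall hz)) (norm_nonneg _)
      (hp _)
  · unfold QQ
    rw [← integral_const_mul, ← integral_const_mul,
      ← integral_add ((int hf x).const_mul p) ((int hg x).const_mul q)]
    refine integral_congr_ae (Eventually.of_forall fun z => ?_)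
    dsimp only
    ring
  · exact setIntegral_mono_on (int hf x) (int hg x) measurableSet_ball fun z hz =>
      mul_le_mul_of_nonneg_left (h z hz) (hp _)
  · obtain ⟨-, i1, i2⟩ := hI d D τ hD hτ x
    have h1 : ‖QQ R D τ f x‖ ≤ ∫ z in ball (0 : EE d) R, gauss D τ (x - z) * B := by
      refine norm_integral_le_of_norm_le (i1.mul_const B).integrableOn ?_
      filter_upwards [ae_restrict_mem measurableSet_ball] with z hz
      rw [norm_mul, Real.norm_of_nonneg (hp _)]
      exact mul_le_mul_of_nonneg_left (h z hz) (hp _)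
    have h2 : ∫ z in ball (0 : EE d) R, gauss D τ (x - z) * B ≤ ∫ z, gauss D τ (x - z) * B :=
      setIntegral_le_integral (i1.mul_const B)
        (Eventually.of_forall fun z => mul_nonneg (hp _) hB)
    rw [integral_mul_const (μ := volume), i2, one_mul] at h2
    exact h1.trans h2

end

section

theorem sAa (hI : SGaI) (hG : SGc) (hC : SCK) : SAa := by
  intro d R D h j hD hh
  obtain ⟨-, g1, g2, g3⟩ := hG d D hD
  have g0 : ∀ t > 0, ∀ x : EE d, 0 ≤ gauss D t x := fun t ht x => (hI d D t hD ht x).1.le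
  have tp : ∀ j : ℕ, 0 < ((j : ℝ) + 1) * h := fun j => by positivity
  have key : Continuous (fun p : EE d × EE d => aa R D h p.2 j p.1) ∧
      ∀ x y : EE d, 0 ≤ aa R D h y j x ∧ aa R D h y j x ≤ gauss D (((j : ℝ) + 1) * h) (x - y) := by
    induction j with
    | zero =>
      refine ⟨(g1 h hh).comp (continuous_fst.sub continuous_snd), fun x y => ⟨g0 h hh _, ?_⟩⟩
      rw [Nat.cast_zero, zero_add, one_mul]
      exact le_rfl
    | succ j ih =>
      obtain ⟨c, b⟩ := ih
      have : IsFiniteMeasure (volume.restrict (ball (0 : EE d) R)) :=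
        isFiniteMeasure_restrict.2 measure_ball_lt_top.ne
      have m : ∀ x y : EE d, Continuous fun z => gauss D h (x - z) * aa R D h y j z := fun x y =>
        ((g1 h hh).comp (continuous_const.sub continuous_id)).mul
          (c.comp (continuous_id.prodMk continuous_const))
      have n0 : ∀ x y z : EE d, 0 ≤ gauss D h (x - z) * aa R D h y j z := fun x y z =>
        mul_nonneg (g0 h hh _) (b z y).1
      refine ⟨?_, fun x y => ⟨integral_nonneg (n0 x y), ?_⟩⟩
      · refine continuous_of_dominated (F := fun (p : EE d × EE d) z =>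
            gauss D h (p.1 - z) * aa R D h p.2 j z)
          (bound := fun _ => gauss D h (0 : EE d) * gauss D (((j : ℝ) + 1) * h) (0 : EE d))
          (fun p => (m p.1 p.2).aestronglyMeasurable) (fun p => ae_of_all _ fun z => ?_)
          (integrable_const _) (ae_of_all _ fun z => ?_)
        · rw [Real.norm_of_nonneg (n0 _ _ _)]
          exact mul_le_mul (g3 h hh h le_rfl _) ((b z p.2).2.trans (g3 _ (tp j) _ le_rfl _))
            (b z p.2).1 (g0 h hh _)
        · exact ((g1 h hh).comp (continuous_fst.sub continuous_const)).mul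
            (c.comp (continuous_const.prodMk continuous_snd))
      · obtain ⟨i1, i2⟩ := hC d D h (((j : ℝ) + 1) * h) x y hD hh (tp j)
        rw [show (((j + 1 : ℕ) : ℝ) + 1) * h = h + ((j : ℝ) + 1) * h by push_cast; ring, ← i2]
        refine le_trans (integral_mono_of_nonneg (ae_of_all _ (n0 x y)) i1.integrableOn
          (ae_of_all _ fun z => mul_le_mul_of_nonneg_left (b z y).2 (g0 h hh _))) ?_
        exact setIntegral_le_integral i1
          (ae_of_all _ fun z => mul_nonneg (g0 h hh _) (g0 _ (tp j) _))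
  refine ⟨key.1, fun x y => ⟨(key.2 x y).1, (key.2 x y).2, ?_⟩⟩
  refine Integrable.mono' (hI d D _ hD (tp j) y).2.1
    (key.1.comp (continuous_id.prodMk continuous_const)).aestronglyMeasurable
    (ae_of_all _ fun z => ?_)
  rw [Real.norm_of_nonneg (key.2 z y).1, g2]
  exact (key.2 z y).2

end

section

theorem swap_KAs {d : ℕ} (R : ℝ) (F : EE d → EE d → ℝ)
    (hF : Continuous fun p : EE d × EE d => F p.1 p.2) :
    ∫ w in ball (0 : EE d) R, ∫ z in ball (0 : EE d) R, F w z =
      ∫ z in ball (0 : EE d) R, ∫ w in ball (0 : EE d) R, F w z := by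
  refine integral_integral_swap ?_
  rw [Measure.prod_restrict]
  exact (hF.continuousOn.integrableOn_compact
    ((isCompact_closedBall (0 : EE d) R).prod (isCompact_closedBall (0 : EE d) R))).mono_set
      (prod_mono ball_subset_closedBall ball_subset_closedBall)

theorem last_KAs (hG : SGc) (hA : SAa) {d : ℕ} (R D h : ℝ) (hD : 0 < D) (hh : 0 < h) (j : ℕ) :
    ∀ x y : EE d, aa R D h y (j + 1) x =
      ∫ z in ball (0 : EE d) R, aa R D h z j x * gauss D h (z - y) := by
  induction j with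
  | zero =>
    intro x y
    rfl
  | succ j ih =>
    intro x y
    have g0 := (hG d D hD).2.1 h hh
    have a0 := (hA d R D h j hD hh).1
    have e1 : aa R D h y (j + 1 + 1) x = ∫ w in ball (0 : EE d) R, ∫ z in ball (0 : EE d) R,
        gauss D h (x - w) * aa R D h z j w * gauss D h (z - y) := by
      change ∫ w in ball (0 : EE d) R, gauss D h (x - w) * aa R D h y (j + 1) w = _
      refine integral_congr_ae (ae_of_all _ fun w => ?_)
      simp only
      rw [ih, ← integral_const_mul]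
      simp only [mul_assoc]
    rw [e1, swap_KAs R (fun w z => gauss D h (x - w) * aa R D h z j w * gauss D h (z - y))
      (((g0.comp (continuous_const.sub continuous_fst)).mul a0).mul
        (g0.comp (continuous_snd.sub continuous_const)))]
    refine integral_congr_ae (ae_of_all _ fun z => ?_)
    simp only
    rw [integral_mul_const]
    rfl

theorem sAs (hG : SGc) (hA : SAa) : SAs := by
  intro d R D h j x y hD hh
  induction j generalizing x y with
  | zero => exact (hG d D hD).2.2.1 h x y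
  | succ j ih =>
    rw [last_KAs hG hA R D h hD hh]
    change _ = ∫ z in ball (0 : EE d) R, gauss D h (y - z) * aa R D h x j z
    refine integral_congr_ae (ae_of_all _ fun z => ?_)
    simp only
    rw [ih x z, (hG d D hD).2.2.1 h z y, mul_comm]

end

section

theorem int_KMass (hI : SGaI) (hG : SGc) {d : ℕ} {R D h : ℝ} (hD : 0 < D) (hh : 0 < h)
    {f : EE d → ℝ} (hf : Continuous f) (hi : Integrable f) :
    ∫ x, QQ R D h f x = ∫ z in ball 0 R, f z := by
  obtain ⟨-, g1, g2, -⟩ := hG d D hD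
  have c1 := g1 h hh
  have i1 : ∀ z : EE d, Integrable fun x => gauss D h (x - z) := fun z => by
    simpa only [g2 h z] using (hI d D h hD hh z).2.1
  have e1 : ∀ z : EE d, ∫ x, gauss D h (x - z) = 1 := fun z => by
    simpa only [g2 h z] using (hI d D h hD hh z).2.2
  have hF : Integrable (Function.uncurry fun x z : EE d => gauss D h (x - z) * f z)
      (volume.prod (volume.restrict (ball 0 R))) := by
    have hc : Continuous (Function.uncurry fun x z : EE d => gauss D h (x - z) * f z) :=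
      (c1.comp (continuous_fst.sub continuous_snd)).mul (hf.comp continuous_snd)
    refine (integrable_prod_iff' hc.aestronglyMeasurable).2
      ⟨Eventually.of_forall fun z => (i1 z).mul_const (f z), ?_⟩
    refine (hi.norm.integrableOn (s := ball 0 R)).congr (Eventually.of_forall fun z => ?_)
    have e2 : ∀ x : EE d, ‖gauss D h (x - z) * f z‖ = gauss D h (x - z) * ‖f z‖ := fun x => by
      rw [norm_mul, Real.norm_of_nonneg (hI d D h hD hh (x - z)).1.le]
    simp only [Function.uncurry_apply_pair, e2, integral_mul_const, e1, one_mul]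
  unfold QQ
  rw [integral_integral_swap hF]
  simp only [integral_mul_const, e1, one_mul]

theorem sMass (hI : SGaI) (hG : SGc) (hA : SAa) : SMass := by
  intro d R D h n y hD hh
  have key : ∀ n : ℕ, ∑ j ∈ Finset.range n, (∫ z in (ball 0 R)ᶜ, aa R D h y j z) +
      ∫ z, aa R D h y n z = 1 := by
    intro n
    induction n with
    | zero =>
      have g2 := (hG d D hD).2.2.1
      simpa only [Finset.range_zero, Finset.sum_empty, zero_add, aa, g2 h y] using
        (hI d D h hD hh y).2.2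
    | succ n ih =>
      obtain ⟨a1, a2⟩ := hA d R D h n hD hh
      have hi := (a2 y y).2.2
      have hc : Continuous (aa R D h y n) :=
        a1.comp (continuous_id.prodMk (continuous_const (y := y)))
      have e1 : ∫ z, aa R D h y (n + 1) z = ∫ z in ball 0 R, aa R D h y n z :=
        int_KMass hI hG hD hh hc hi
      rw [Finset.sum_range_succ, e1, ← ih, ← integral_add_compl measurableSet_ball hi]
      ring
  have h0 : 0 ≤ ∫ z, aa R D h y n z :=
    integral_nonneg fun z => ((hA d R D h n hD hh).2 z y).1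
  linarith [key n]

end

section

theorem bd_KId0 (hI : SGaI) (hG : SGc) {d : ℕ} {D τ : ℝ} (hD : 0 < D) (hτ : 0 < τ) (v : EE d) :
    ‖gauss D τ v‖ ≤ gauss D τ (0 : EE d) := by
  rw [Real.norm_of_nonneg (hI d D τ hD hτ v).1.le]
  exact (hG d D hD).2.2.2 τ hτ τ le_rfl v

theorem split_KId0 (hI : SGaI) (hG : SGc) {d : ℕ} (R : ℝ) {D τ : ℝ} (hD : 0 < D) (hτ : 0 < τ)
    {a : EE d → ℝ} (ha : Integrable a) (x : EE d) :
    (∫ z, gauss D τ (x - z) * a z) - ∫ z in (ball 0 R)ᶜ, gauss D τ (x - z) * a z =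
      QQ R D τ a x := by
  have hi : Integrable fun z => gauss D τ (x - z) * a z :=
    ha.bdd_mul (((hG d D hD).2.1 τ hτ).comp (continuous_const.sub continuous_id)).aestronglyMeasurable
      (Eventually.of_forall fun z => bd_KId0 hI hG hD hτ _)
  rw [← integral_add_compl (measurableSet_ball (x := (0 : EE d)) (ε := R)) hi, add_sub_cancel_right]
  rfl

theorem swap_KId0 (hI : SGaI) (hG : SGc) (hC : SCK) {d : ℕ} (R : ℝ) {D σ h : ℝ} (hD : 0 < D)
    (hσ : 0 < σ) (hh : 0 < h) {a : EE d → ℝ} (ha : Integrable a) (x : EE d) :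
    ∫ z, gauss D σ (x - z) * QQ R D h a z = QQ R D (σ + h) a x := by
  have hi : Integrable (Function.uncurry fun z w : EE d =>
      gauss D h (z - w) * (gauss D σ (x - z) * a w))
      (volume.prod (volume.restrict (ball (0 : EE d) R))) :=
    ((hI d D σ hD hσ x).2.1.mul_prod ha.integrableOn).bdd_mul
      (((hG d D hD).2.1 h hh).comp (continuous_fst.sub continuous_snd)).aestronglyMeasurable
      (Eventually.of_forall fun z => bd_KId0 hI hG hD hh _)
  have key := integral_integral_swap hi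
  simp only [QQ, ← integral_const_mul]
  refine Eq.trans ?_ (key.trans ?_)
  · congr 1
    ext z
    congr 1
    ext w
    ring
  · congr 1
    ext w
    rw [← (hC d D σ h x w hD hσ hh).2, ← integral_mul_const]
    congr 1
    ext z
    ring

theorem sId0 (hI : SGaI) (hG : SGc) (hC : SCK) (hA : SAa) : SId0 := by
  intro d R D h t j x y hD hh
  induction j with
  | zero =>
    intro ht
    have h1 : 0 < t - (((0 : ℕ) : ℝ) + 1) * h := by linarith
    rw [Finset.sum_range_one, ← split_KId0 hI hG R hD h1 ((hA d R D h 0 hD hh).2 x y).2.2 x]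
    congr 1
    refine Eq.trans ?_ (hC d D _ h x y hD h1 hh).2.symm
    congr 1
    push_cast
    ring
  | succ j ih =>
    intro ht
    have h1 : 0 < t - (((j + 1 : ℕ) : ℝ) + 1) * h := by linarith
    have e : t - (((j + 1 : ℕ) : ℝ) + 1) * h + h = t - ((j : ℝ) + 1) * h := by
      push_cast
      ring
    rw [Finset.sum_range_succ, ← sub_sub, ih (by linarith),
      ← split_KId0 hI hG R hD h1 ((hA d R D h (j + 1) hD hh).2 x y).2.2 x, ← e,
      ← swap_KId0 hI hG hC R hD h1 hh ((hA d R D h j hD hh).2 x y).2.2 x]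
    rfl

end

section

lemma zero_KId {d : ℕ} (D s t : ℝ) (x z : EE d) (hs : t ≤ s) : gt D ((t, x) - (s, z)) = 0 := by
  unfold gt
  rw [if_neg]
  simpa using hs

lemma pos_KId {d : ℕ} (D s t : ℝ) (x z : EE d) (hs : s < t) :
    gt D ((t, x) - (s, z)) = gauss D (t - s) (x - z) := by
  unfold gt
  rw [if_pos (by simpa using hs)]
  rfl

lemma one_KId {d : ℕ} (R D h t : ℝ) (n : ℕ) (x y : EE d) (hh : 0 < h) (ht : t ≤ h) :
    kn R D h n t x y = gauss D t (x - y) := by
  unfold kn ww
  rw [Finset.sum_eq_zero, sub_zero]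
  intro i _
  have hi : (0 : ℝ) ≤ i := Nat.cast_nonneg i
  have : t ≤ ((i : ℝ) + 1) * h := by nlinarith
  simp only [zero_KId D _ t x _ this, zero_mul, integral_zero]

lemma two_KId (h0 : SId0) {d : ℕ} (R D h t : ℝ) (n : ℕ) (x y : EE d) (hD : 0 < D) (hh : 0 < h)
    (j : ℕ) (hj : j < n) (h1 : ((j : ℝ) + 1) * h < t) (h2 : t ≤ ((j : ℝ) + 2) * h) :
    kn R D h n t x y = QQ R D (t - ((j : ℝ) + 1) * h) (aa R D h y j) x := by
  rw [← h0 d R D h t j x y hD hh h1]
  unfold kn ww
  refine congrArg (fun r => gauss D t (x - y) - r) ?_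
  rw [← Finset.sum_subset (Finset.range_subset_range.2 (Nat.succ_le_of_lt hj))]
  · refine Finset.sum_congr rfl fun i hi => ?_
    have hi' : (i : ℝ) ≤ j := by exact_mod_cast Nat.lt_succ_iff.1 (Finset.mem_range.1 hi)
    have : ((i : ℝ) + 1) * h < t := by nlinarith
    simp only [pos_KId D _ t x _ this]
  · intro i _ hi
    have hi1 : j + 1 ≤ i := not_lt.1 fun hc => hi (Finset.mem_range.2 hc)
    have hi' : (j : ℝ) + 1 ≤ i := by exact_mod_cast hi1
    have : t ≤ ((i : ℝ) + 1) * h := by nlinarith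
    simp only [zero_KId D _ t x _ this, zero_mul, integral_zero]

lemma four_KId (h t : ℝ) (ht : h < t) (n : ℕ) : t ≤ ((n : ℝ) + 1) * h →
    ∃ j < n, ((j : ℝ) + 1) * h < t ∧ t ≤ ((j : ℝ) + 2) * h := by
  induction n with
  | zero => intro h1; simp at h1; linarith
  | succ n ih =>
    intro h1
    by_cases h2 : t ≤ ((n : ℝ) + 1) * h
    · obtain ⟨j, hj, h3⟩ := ih h2
      exact ⟨j, Nat.lt_succ_of_lt hj, h3⟩
    · refine ⟨n, Nat.lt_succ_self n, not_le.1 h2, ?_⟩
      push_cast at h1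
      linarith

theorem sId (h0 : SId0) : SId := by
  intro d R D h t n x y hD hh
  refine ⟨one_KId R D h t n x y hh, two_KId h0 R D h t n x y hD hh, ?_,
    fun ht => four_KId h t ht n⟩
  intro j hj
  cases j with
  | zero =>
    rw [one_KId R D h _ n x y hh (by simp)]
    simp [aa]
  | succ j =>
    rw [two_KId h0 R D h _ n x y hD hh j hj (by push_cast; linarith) (by push_cast; linarith)]
    have : (((j + 1 : ℕ) : ℝ) + 1) * h - ((j : ℝ) + 1) * h = h := by push_cast; ring
    rw [this]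
    rfl

end

section

theorem key_KPos (hI : SGaI) (hG : SGc) (hC : SCK) {d : ℕ} {R D τ s : ℝ} {a : EE d → ℝ}
    {y : EE d} (hD : 0 < D) (hτ : 0 < τ) (hs : 0 < s) (ha : Continuous a)
    (h0 : ∀ z, 0 ≤ a z ∧ a z ≤ gauss D s (z - y)) (x : EE d) :
    0 ≤ QQ R D τ a x ∧ QQ R D τ a x ≤ gauss D (τ + s) (x - y) ∧
    ∀ η ≥ 0, (∀ z ∈ ball (0 : EE d) R, gauss D s (z - y) - a z ≤ η) →
      (∀ z ∉ ball (0 : EE d) R, gauss D s (z - y) ≤ η) →
      gauss D (τ + s) (x - y) - QQ R D τ a x ≤ η := by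
  obtain ⟨iF, eF⟩ := hC d D τ s x y hD hτ hs
  obtain ⟨-, iG, eG⟩ := hI d D τ hD hτ x
  have gp : ∀ z : EE d, 0 ≤ gauss D τ (x - z) := fun z => (hI d D τ hD hτ (x - z)).1.le
  have cG : Continuous fun z : EE d => gauss D τ (x - z) :=
    ((hG d D hD).2.1 τ hτ).comp (continuous_const.sub continuous_id)
  have iA : Integrable fun z : EE d => gauss D τ (x - z) * a z := by
    refine iF.mono' (cG.mul ha).aestronglyMeasurable (Eventually.of_forall fun z => ?_)
    rw [Real.norm_of_nonneg (mul_nonneg (gp z) (h0 z).1)]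
    exact mul_le_mul_of_nonneg_left (h0 z).2 (gp z)
  have iB : Integrable ((ball (0 : EE d) R).indicator fun z => gauss D τ (x - z) * a z) :=
    iA.indicator measurableSet_ball
  have eQ : QQ R D τ a x =
      ∫ z, (ball (0 : EE d) R).indicator (fun z => gauss D τ (x - z) * a z) z :=
    (integral_indicator measurableSet_ball).symm
  refine ⟨?_, ?_, fun η hη h1 h2 => ?_⟩
  · exact integral_nonneg fun z => mul_nonneg (gp z) (h0 z).1
  · rw [eQ, ← eF]
    refine integral_mono iB iF fun z => ?_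
    by_cases hz : z ∈ ball (0 : EE d) R
    · rw [indicator_of_mem hz]
      exact mul_le_mul_of_nonneg_left (h0 z).2 (gp z)
    · rw [indicator_of_notMem hz]
      exact mul_nonneg (gp z) ((h0 z).1.trans (h0 z).2)
  · rw [eQ, ← eF, ← integral_sub iF iB]
    have e : η = ∫ z : EE d, gauss D τ (x - z) * η := by rw [integral_mul_const, eG, one_mul]
    refine le_trans (integral_mono (iF.sub iB) (iG.mul_const η) fun z => ?_) e.ge
    by_cases hz : z ∈ ball (0 : EE d) R
    · show _ - (ball (0 : EE d) R).indicator _ z ≤ _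
      rw [indicator_of_mem hz, ← mul_sub]
      exact mul_le_mul_of_nonneg_left (h1 z hz) (gp z)
    · show _ - (ball (0 : EE d) R).indicator _ z ≤ _
      rw [indicator_of_notMem hz, sub_zero]
      exact mul_le_mul_of_nonneg_left (h2 z hz) (gp z)

theorem sPos (hI : SGaI) (hG : SGc) (hC : SCK) (hA : SAa) (hId : SId) : SPos := by
  intro d R D h t n x y hD hh ht htn
  obtain ⟨i1, i2, -, i4⟩ := hId d R D h t n x y hD hh
  have ca : ∀ j, Continuous (aa R D h y j) := fun j =>
    (hA d R D h j hD hh).1.comp (continuous_id.prodMk (continuous_const (y := y)))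
  have ba : ∀ (j : ℕ) (z : EE d),
      0 ≤ aa R D h y j z ∧ aa R D h y j z ≤ gauss D (((j : ℝ) + 1) * h) (z - y) := fun j z =>
    ⟨((hA d R D h j hD hh).2 z y).1, ((hA d R D h j hD hh).2 z y).2.1⟩
  have pj : ∀ j : ℕ, 0 < ((j : ℝ) + 1) * h := fun j => by positivity
  rcases le_or_gt t h with k | k
  · rw [i1 k]
    exact ⟨(hI d D t hD ht _).1.le, le_rfl, fun η hη _ => by rw [sub_self]; exact hη⟩
  · obtain ⟨j, hj, j1, j2⟩ := i4 k htn
    obtain ⟨q1, q2, q3⟩ := key_KPos (R := R) hI hG hC hD (sub_pos.2 j1) (pj j) (ca j) (ba j) x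
    rw [sub_add_cancel] at q2 q3
    rw [i2 j hj j1 j2]
    refine ⟨q1, q2, fun η hη hb => ?_⟩
    have ind : ∀ i : ℕ, ((i : ℝ) + 1) * h ≤ t → ∀ z : EE d,
        gauss D (((i : ℝ) + 1) * h) (z - y) - aa R D h y i z ≤ η := by
      intro i
      induction i with
      | zero =>
        intro _ z
        have e : (((0 : ℕ) : ℝ) + 1) * h = h := by simp
        rw [e]
        exact (sub_self _).le.trans hη
      | succ i ih =>
        intro hi z
        have e : (((i + 1 : ℕ) : ℝ) + 1) * h = h + ((i : ℝ) + 1) * h := by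
          push_cast
          ring
        rw [e] at hi ⊢
        have hi' : ((i : ℝ) + 1) * h ≤ t := by linarith
        exact (key_KPos (R := R) hI hG hC hD hh (pj i) (ca i) (ba i) z).2.2 η hη
          (fun w _ => ih hi' w) (hb _ ⟨pj i, hi'⟩)
    exact q3 η hη (fun w _ => ind j j1.le w) (hb _ ⟨pj j, j1.le⟩)

end

section

theorem bd_KMom1 {d : ℕ} {D τ δ : ℝ} (hD : 0 < D) (hτ : 0 < τ) (h0 : 0 ≤ δ) {ξ : EE d}
    (hξ : δ ≤ ‖ξ‖) : gauss D τ ξ * ‖ξ‖ ^ 2 ≤ (2 : ℝ) ^ ((d : ℝ) / 2) * (16 * D ^ 2 * τ) *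
      Real.exp (-(δ ^ 2 / (16 * D ^ 2 * τ))) * gauss D (2 * τ) ξ := by
  have hp : 0 < 16 * D ^ 2 * τ := by positivity
  obtain ⟨u, hu⟩ : ∃ u, u = ‖ξ‖ ^ 2 / (16 * D ^ 2 * τ) := ⟨_, rfl⟩
  have e1 : ‖ξ‖ ^ 2 = 16 * D ^ 2 * τ * u := by
    rw [hu]
    field_simp
  have e2 : -‖ξ‖ ^ 2 / (4 * D ^ 2 * τ) = -u + -u + -(2 * u) := by
    rw [e1]
    field_simp
    ring
  have e3 : -‖ξ‖ ^ 2 / (4 * D ^ 2 * (2 * τ)) = -(2 * u) := by
    rw [e1]
    field_simp
    ring
  have e4 : (4 * Real.pi * D ^ 2 * τ) ^ (-(d : ℝ) / 2) =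
      (2 : ℝ) ^ ((d : ℝ) / 2) * (4 * Real.pi * D ^ 2 * (2 * τ)) ^ (-(d : ℝ) / 2) := by
    rw [show 4 * Real.pi * D ^ 2 * (2 * τ) = 2 * (4 * Real.pi * D ^ 2 * τ) by ring,
      Real.mul_rpow zero_le_two (by positivity), ← mul_assoc, ← Real.rpow_add two_pos, neg_div,
      add_neg_cancel, Real.rpow_zero, one_mul]
  have h1 : Real.exp (-u) * u ≤ 1 := by
    rw [Real.exp_neg, inv_mul_le_iff₀ (Real.exp_pos u)]
    linarith [Real.add_one_le_exp u]
  have h2 : Real.exp (-u) ≤ Real.exp (-(δ ^ 2 / (16 * D ^ 2 * τ))) := by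
    rw [hu]
    gcongr
  have h3 : Real.exp (-u) * (Real.exp (-u) * u) ≤ Real.exp (-(δ ^ 2 / (16 * D ^ 2 * τ))) :=
    (mul_le_of_le_one_right (Real.exp_pos _).le h1).trans h2
  have h4 := mul_le_mul_of_nonneg_left h3 (show 0 ≤ (2 : ℝ) ^ ((d : ℝ) / 2) * (16 * D ^ 2 * τ) *
    ((4 * Real.pi * D ^ 2 * (2 * τ)) ^ (-(d : ℝ) / 2) * Real.exp (-(2 * u))) by positivity)
  rw [gauss, gauss, e2, e3, e4, e1, Real.exp_add, Real.exp_add]
  linarith only [h4]

theorem sc_KMom1 {d : ℕ} {D τ : ℝ} (hD : 0 < D) (hτ : 0 < τ) (ξ : EE d) :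
    gauss D τ ξ * ‖ξ‖ ^ 2 =
      τ * (√τ ^ d)⁻¹ * (gauss D 1 ((√τ)⁻¹ • ξ) * ‖(√τ)⁻¹ • ξ‖ ^ 2) := by
  have e1 : ‖(√τ)⁻¹ • ξ‖ ^ 2 = ‖ξ‖ ^ 2 / τ := by
    rw [norm_smul, mul_pow, norm_inv, Real.norm_of_nonneg (Real.sqrt_nonneg _), inv_pow,
      Real.sq_sqrt hτ.le, inv_mul_eq_div]
  have e2 : (√τ ^ d)⁻¹ = τ ^ (-(d : ℝ) / 2) := by
    rw [Real.sqrt_eq_rpow, ← Real.rpow_natCast, ← Real.rpow_mul hτ.le, ← Real.rpow_neg hτ.le]
    congr 1
    ring
  have e3 : -(‖ξ‖ ^ 2 / τ) / (4 * D ^ 2 * 1) = -‖ξ‖ ^ 2 / (4 * D ^ 2 * τ) := by field_simp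
  rw [gauss, gauss, e1, e2, e3, mul_one, Real.mul_rpow (by positivity) hτ.le]
  field_simp

theorem sMom1 (hI : SGaI) (hG : SGc) : SMom1 := by
  intro d D hd hD
  have e0 : ∀ (t : ℝ) (y : EE d), gauss D t (0 - y) = gauss D t y := fun t y => by simp [gauss]
  have hpos : ∀ t > 0, ∀ y : EE d, 0 < gauss D t y := fun t ht y => (hI d D t hD ht y).1
  have hg : ∀ t > 0, Integrable (fun y : EE d => gauss D t y) ∧ ∫ y : EE d, gauss D t y = 1 :=
    fun t ht => by simpa only [e0] using (hI d D t hD ht 0).2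
  have hc : ∀ t > 0, Continuous fun ξ : EE d => gauss D t ξ * ‖ξ‖ ^ 2 := fun t ht =>
    ((hG d D hD).2.1 t ht).mul (continuous_norm.pow 2)
  have hn : ∀ t > 0, ∀ ξ : EE d, 0 ≤ gauss D t ξ * ‖ξ‖ ^ 2 := fun t ht ξ =>
    mul_nonneg (hpos t ht ξ).le (sq_nonneg _)
  have hi : ∀ t > 0, Integrable fun ξ : EE d => gauss D t ξ * ‖ξ‖ ^ 2 := fun t ht =>
    ((hg (2 * t) (by positivity)).1.const_mul _).mono' (hc t ht).aestronglyMeasurable
      (Eventually.of_forall fun ξ => by
        rw [Real.norm_of_nonneg (hn t ht ξ)]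
        exact bd_KMom1 hD ht le_rfl (norm_nonneg ξ))
  refine ⟨∫ ξ : EE d, gauss D 1 ξ * ‖ξ‖ ^ 2, ?_, fun τ hτ => ⟨hi τ hτ, ?_⟩, fun δ hδ η hη => ?_⟩
  · refine integral_pos_of_integrable_nonneg_nonzero (x := EuclideanSpace.single ⟨0, hd⟩ 1)
      (hc 1 one_pos) (hi 1 one_pos) (hn 1 one_pos) (mul_ne_zero (hpos 1 one_pos _).ne' ?_)
    simp
  · have hs : 0 < √τ := Real.sqrt_pos.2 hτ
    simp only [sc_KMom1 hD hτ]
    rw [integral_const_mul, Measure.integral_comp_inv_smul_of_nonneg volume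
      (fun ξ : EE d => gauss D 1 ξ * ‖ξ‖ ^ 2) hs.le, finrank_euclideanSpace_fin, smul_eq_mul]
    field_simp
  · obtain ⟨A, hA⟩ : ∃ A, A = (2 : ℝ) ^ ((d : ℝ) / 2) := ⟨_, rfl⟩
    have hA0 : 0 < A := by
      rw [hA]
      positivity
    refine ⟨η * δ ^ 2 / (A * (16 * D ^ 2) ^ 2), by positivity, fun τ hτ => ?_⟩
    have hτ0 := hτ.1
    have h2 := hg (2 * τ) (by positivity)
    have h3 : Real.exp (-(δ ^ 2 / (16 * D ^ 2 * τ))) ≤ 16 * D ^ 2 * τ / δ ^ 2 := by
      rw [Real.exp_neg, ← inv_div (δ ^ 2) (16 * D ^ 2 * τ)]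
      exact inv_anti₀ (by positivity) (by linarith [Real.add_one_le_exp (δ ^ 2 / (16 * D ^ 2 * τ))])
    have h4 : A * (16 * D ^ 2 * τ) * (16 * D ^ 2 * τ / δ ^ 2) ≤ η * τ := by
      have h5 := mul_le_mul_of_nonneg_right ((lt_div_iff₀ (by positivity)).1 hτ.2).le hτ0.le
      rw [← mul_div_assoc, div_le_iff₀ (by positivity)]
      linarith only [h5]
    refine le_trans (setIntegral_mono_on (hi τ hτ0).integrableOn
      (h2.1.const_mul _).integrableOn (isClosed_le continuous_const continuous_norm).measurableSet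
      fun ξ hξ => bd_KMom1 hD hτ0 hδ.le hξ) ?_
    refine le_trans (setIntegral_le_integral (h2.1.const_mul _) (Eventually.of_forall fun ξ =>
      mul_nonneg (by positivity) (hpos _ (by positivity) ξ).le)) ?_
    rw [integral_const_mul, h2.2, mul_one, ← hA]
    exact (mul_le_mul_of_nonneg_left h3 (by positivity)).trans h4

end

section

theorem sMom2 (hI : SGaI) (hG : SGc) : SMom2 := by
  intro d D τ x hD hτ hint
  obtain ⟨-, hc, -, -⟩ := hG d D hD
  have hcont : Continuous fun ξ : EE d => gauss D τ ξ := hc τ hτ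
  have heven : ∀ ξ : EE d, gauss D τ (-ξ) = gauss D τ ξ := by
    intro ξ
    simp only [gauss, norm_neg]
  have hpos : ∀ ξ : EE d, 0 < gauss D τ ξ := fun ξ => (hI d D τ hD hτ ξ).1
  obtain ⟨-, h0i, h01⟩ := hI d D τ hD hτ (0 : EE d)
  simp only [zero_sub, heven] at h0i h01
  have hlin : Integrable fun ξ : EE d => gauss D τ ξ * ⟪x, ξ⟫ := by
    refine Integrable.mono' ((h0i.add hint).const_mul ‖x‖) ?_ (Eventually.of_forall fun ξ => ?_)
    · exact (hcont.mul (continuous_const.inner continuous_id)).aestronglyMeasurable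
    · have h1 : |⟪x, ξ⟫| ≤ ‖x‖ * ‖ξ‖ := abs_real_inner_le_norm x ξ
      have h2 : ‖ξ‖ ≤ 1 + ‖ξ‖ ^ 2 := by nlinarith [sq_nonneg (‖ξ‖ - 1), norm_nonneg ξ]
      have h3 : ‖x‖ * ‖ξ‖ ≤ ‖x‖ * (1 + ‖ξ‖ ^ 2) := mul_le_mul_of_nonneg_left h2 (norm_nonneg x)
      have hp := hpos ξ
      rw [Real.norm_eq_abs, abs_mul, abs_of_pos hp]
      simp only [Pi.add_apply]
      calc gauss D τ ξ * |⟪x, ξ⟫| ≤ gauss D τ ξ * (‖x‖ * (1 + ‖ξ‖ ^ 2)) :=
            mul_le_mul_of_nonneg_left (h1.trans h3) hp.le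
        _ = ‖x‖ * (gauss D τ ξ + gauss D τ ξ * ‖ξ‖ ^ 2) := by ring
  have hodd : ∫ ξ : EE d, gauss D τ ξ * ⟪x, ξ⟫ = 0 := by
    have h := integral_neg_eq_self (fun ξ : EE d => gauss D τ ξ * ⟪x, ξ⟫) volume
    simp only [heven, inner_neg_right, mul_neg, integral_neg] at h
    linarith
  have hexp : ∀ ξ : EE d, gauss D τ ξ * ‖x - ξ‖ ^ 2 =
      ‖x‖ ^ 2 * gauss D τ ξ - 2 * (gauss D τ ξ * ⟪x, ξ⟫) + gauss D τ ξ * ‖ξ‖ ^ 2 := by
    intro ξ
    rw [norm_sub_sq_real]
    ring
  have hA : Integrable fun ξ : EE d => ‖x‖ ^ 2 * gauss D τ ξ - 2 * (gauss D τ ξ * ⟪x, ξ⟫) :=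
    (h0i.const_mul _).sub (hlin.const_mul _)
  have hF : Integrable fun ξ : EE d => gauss D τ ξ * ‖x - ξ‖ ^ 2 := by
    simp only [hexp]
    exact hA.add hint
  have hF' : Integrable fun z : EE d => gauss D τ (x - z) * ‖z‖ ^ 2 := by
    have := hF.comp_sub_left x
    simpa only [sub_sub_cancel] using this
  refine ⟨hF', ?_⟩
  have h1 := integral_sub_left_eq_self (fun ξ : EE d => gauss D τ ξ * ‖x - ξ‖ ^ 2) volume x
  simp only [sub_sub_cancel] at h1
  rw [h1]
  simp only [hexp]
  rw [integral_add hA hint, integral_sub (h0i.const_mul _) (hlin.const_mul _), integral_const_mul,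
    integral_const_mul, h01, hodd]
  ring

end

section

theorem pt_KSup {R ε δ u n : ℝ} (hR : 0 < R) (hε : 0 < ε) (hδ : 0 < δ) (h1 : δ ≤ 1)
    (h2 : δ ≤ ε / (2 * R + 1)) (hu : 0 ≤ u) (hn : 0 ≤ n) (hnu : n ≤ R + u) :
    (u < δ → 0 ≤ R ^ 2 - n ^ 2 + ε) ∧
      (δ ≤ u → 0 ≤ R ^ 2 - n ^ 2 + ε + (2 * R / δ + 1) * u ^ 2) := by
  have h3 : n ^ 2 ≤ (R + u) ^ 2 := pow_le_pow_left₀ hn hnu 2
  rw [le_div_iff₀ (by positivity)] at h2
  refine ⟨fun h => by nlinarith, fun h => ?_⟩
  have h4 : 2 * R / δ * δ = 2 * R := by field_simp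
  have h5 : 0 ≤ 2 * R / δ := by positivity
  have h6 := mul_le_mul_of_nonneg_left h (mul_nonneg h5 hu)
  nlinarith

theorem sSup (hI : SGaI) (_hG : SGc) (h1 : SMom1) (h2 : SMom2) : SSup := by
  intro d R D hd hR hD
  obtain ⟨c, hc, hm, ht⟩ := h1 d D hd hD
  refine ⟨c / 2, by positivity, fun ε hε => ?_⟩
  set δ : ℝ := min 1 (ε / (2 * R + 1)) with hδd
  have hδ : 0 < δ := lt_min one_pos (by positivity)
  set L : ℝ := 2 * R / δ + 1 with hLd
  have hL : 0 < L := by positivity
  obtain ⟨τ0, hτ0, htail⟩ := ht δ hδ (c / (2 * L)) (by positivity)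
  refine ⟨τ0, hτ0, fun τ hτ x hx => ?_⟩
  obtain ⟨m1, m2⟩ := hm τ hτ.1
  obtain ⟨n1, n2⟩ := h2 d D τ x hD hτ.1 m1
  obtain ⟨-, g1, g2⟩ := hI d D τ hD hτ.1 x
  have gp : ∀ z : EE d, 0 < gauss D τ z := fun z => (hI d D τ hD hτ.1 z).1
  have hS : MeasurableSet {ξ : EE d | δ ≤ ‖ξ‖} :=
    (isClosed_le continuous_const continuous_norm).measurableSet
  set T : EE d → ℝ := indicator {ξ : EE d | δ ≤ ‖ξ‖} fun ξ => gauss D τ ξ * ‖ξ‖ ^ 2 with hT
  have hTi : Integrable fun z => T (x - z) := (m1.indicator hS).comp_sub_left x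
  have hTv : ∫ z, T (x - z) ≤ c / (2 * L) * τ := by
    rw [integral_sub_left_eq_self, hT, integral_indicator hS]
    exact htail τ hτ
  have e : (fun z => gauss D τ (x - z) * psi R ε z) =
      fun z => (R ^ 2 + ε) * gauss D τ (x - z) - gauss D τ (x - z) * ‖z‖ ^ 2 := by
    funext z
    unfold psi
    ring
  have hPi : Integrable fun z => gauss D τ (x - z) * psi R ε z := by
    rw [e]
    exact (g1.const_mul _).sub n1
  have hPv : ∫ z, gauss D τ (x - z) * psi R ε z = psi R ε x - c * τ := by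
    rw [e, integral_sub (g1.const_mul _) n1, integral_const_mul, g2, n2, m2]
    unfold psi
    ring
  have hle : QQ R D τ (psi R ε) x ≤ ∫ z, (gauss D τ (x - z) * psi R ε z + L * T (x - z)) := by
    unfold QQ
    refine le_trans (setIntegral_mono_on hPi.integrableOn
      (hPi.add (hTi.const_mul L)).integrableOn measurableSet_ball fun z _ => ?_)
      (setIntegral_le_integral (hPi.add (hTi.const_mul L)) (Eventually.of_forall fun z => ?_))
    · exact le_add_of_nonneg_right (mul_nonneg hL.le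
        (indicator_nonneg (fun ξ _ => mul_nonneg (gp ξ).le (sq_nonneg _)) _))
    · have hz : ‖z‖ ≤ R + ‖x - z‖ := by
        have a1 : ‖z‖ ≤ ‖x‖ + ‖x - z‖ := by
          have := norm_sub_le x (x - z)
          rwa [sub_sub_cancel] at this
        linarith [mem_closedBall_zero_iff.1 hx]
      obtain ⟨p1, p2⟩ := pt_KSup hR hε hδ (min_le_left _ _) (min_le_right _ _) (norm_nonneg _)
        (norm_nonneg _) hz
      show 0 ≤ gauss D τ (x - z) * psi R ε z + L * T (x - z)
      rcases lt_or_ge ‖x - z‖ δ with h | h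
      · rw [hT, indicator_of_notMem (by simpa using h), mul_zero, add_zero]
        exact mul_nonneg (gp _).le (p1 h)
      · rw [hT, indicator_of_mem (by simpa using h)]
        have := mul_nonneg (gp (x - z)).le (p2 h)
        unfold psi
        linarith
  rw [integral_add hPi (hTi.const_mul L), integral_const_mul, hPv] at hle
  have h3 := mul_le_mul_of_nonneg_left hTv hL.le
  have h4 : L * (c / (2 * L) * τ) = c / 2 * τ := by field_simp
  linarith

end

section

theorem sBar (hQ : SQ) : SBar := by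
  intro d R D h c ε B f n hD hh hc hε hB hψ hf hfB
  have cψ : Continuous (psi R ε : EE d → ℝ) := by unfold psi; fun_prop
  have c1 : ∀ k, Continuous ((QQ R D h)^[k] f) := fun k => by
    induction k with
    | zero => exact hf
    | succ k ih =>
      rw [Function.iterate_succ_apply']
      exact (hQ d R D h _ _ hD hh ih ih).1
  have b0 : ∀ g : EE d → ℝ, Continuous g → (∀ z ∈ ball (0 : EE d) R, g z ≤ B) →
      ∀ x, QQ R D h g x ≤ B := fun g hg h1 x =>
    ((hQ d R D h g (fun _ => B) hD hh hg continuous_const).2.2.2.1 h1 x).trans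
      ((le_abs_self _).trans ((hQ d R D h (fun _ => B) g hD hh continuous_const hg).2.2.2.2 B hB
        (fun _ _ => (abs_of_nonneg hB).le) x))
  have b1 : ∀ k, ∀ z ∈ ball (0 : EE d) R, (QQ R D h)^[k] f z ≤ B := fun k => by
    induction k with
    | zero => exact hfB
    | succ k ih =>
      rw [Function.iterate_succ_apply']
      exact fun z _ => b0 _ (c1 k) ih z
  induction n with
  | zero =>
    intro x hx
    have h1 : ‖x‖ ^ 2 ≤ R ^ 2 := pow_le_pow_left₀ (norm_nonneg _) (mem_closedBall_zero_iff.1 hx) 2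
    have h2 : 0 ≤ psi R ε x := by unfold psi; linarith
    simpa using mul_nonneg hB h2
  | succ n ih =>
    intro x hx
    rw [Function.iterate_succ_apply']
    have a1 := b0 _ (c1 n) (b1 n) x
    have a2 := (hQ d R D h _ _ hD hh (c1 n) cψ).2.2.1 (n * (c * h)) (-B) x
    have a3 := (hQ d R D h (fun z => n * (c * h) * (QQ R D h)^[n] f z + -B * psi R ε z)
      (fun _ => 0) hD hh ((continuous_const.mul (c1 n)).add (continuous_const.mul cψ))
      continuous_const).2.2.2.1 (fun z hz => by linarith [ih z (ball_subset_closedBall hz)]) x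
    have a4 : QQ R D h (fun _ : EE d => (0 : ℝ)) x = 0 := by simp [QQ]
    have a5 := mul_le_mul_of_nonneg_left (hψ x hx) hB
    have a6 := mul_le_mul_of_nonneg_left a1 (mul_pos hc hh).le
    push_cast
    linarith

end

section

lemma iter_KBd {d : ℕ} (R D h : ℝ) (y : EE d) (i N : ℕ) :
    aa R D h y (i + N) = (QQ R D h)^[N] (aa R D h y i) := by
  induction N with
  | zero => rfl
  | succ N ih =>
    rw [Function.iterate_succ_apply', ← ih]
    rfl

lemma psi_cont_KBd {d : ℕ} (R ε : ℝ) : Continuous (psi R ε : EE d → ℝ) := by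
  unfold psi
  fun_prop

theorem sBd (hG : SGc) (hQ : SQ) (hA : SAa) (hId : SId) (hS : SSup) (hB : SBar) : SBd := by
  intro d R D t0 hd hR hD ht0
  obtain ⟨c, hc, hS'⟩ := hS d R D hd hR hD
  set s : ℝ := t0 / 4 with hs
  have hs0 : 0 < s := by positivity
  have hB0 : 0 ≤ gauss D s (0 : EE d) := by
    unfold gauss
    positivity
  set B : ℝ := gauss D s (0 : EE d) with hBd
  have hcs : 0 < c * s := mul_pos hc hs0
  have hC0 : 0 ≤ B / (c * s) := div_nonneg hB0 hcs.le
  refine ⟨B / (c * s), hC0, fun ε hε => ?_⟩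
  obtain ⟨τ0, hτ0, hsup⟩ := hS' ε hε
  refine ⟨min τ0 (s / 2), lt_min hτ0 (by positivity), ?_⟩
  rintro h ⟨hh0, hh1⟩ n t ht htn x hx y
  have hhτ : h < τ0 := lt_of_lt_of_le hh1 (min_le_left _ _)
  have hhs : h < s / 2 := lt_of_lt_of_le hh1 (min_le_right _ _)
  obtain ⟨-, hI2, -, hI4⟩ := hId d R D h t n x y hD hh0
  obtain ⟨j, hjn, hj1, hj2⟩ := hI4 (by linarith) htn
  rw [hI2 j hjn hj1 hj2]
  set i : ℕ := ⌈s / h⌉₊ with hi
  have hi1 : s ≤ (i : ℝ) * h := by
    have : s / h ≤ (i : ℝ) := Nat.le_ceil _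
    rwa [div_le_iff₀ hh0] at this
  have hi2 : (i : ℝ) * h < s + h := by
    have h1 : (i : ℝ) < s / h + 1 := Nat.ceil_lt_add_one (by positivity)
    have h2 := mul_lt_mul_of_pos_right h1 hh0
    rwa [add_mul, div_mul_cancel₀ _ hh0.ne', one_mul] at h2
  have hjh : 4 * s - 2 * h ≤ (j : ℝ) * h := by linarith
  have hij : i ≤ j := by
    have h1 : (i : ℝ) * h < (j : ℝ) * h := by linarith
    have h2 : (i : ℝ) < j := lt_of_mul_lt_mul_right h1 hh0.le
    exact_mod_cast h2.le
  obtain ⟨N, rfl⟩ := Nat.exists_eq_add_of_le hij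
  have hN : s ≤ (N : ℝ) * h := by
    push_cast at hjh
    linarith
  have hcont : ∀ k : ℕ, Continuous (aa R D h y k) := fun k =>
    (hA d R D h k hD hh0).1.comp (continuous_id.prodMk continuous_const)
  have hbar := hB d R D h c ε B (aa R D h y i) N hD hh0 hc hε hB0 (hsup h ⟨hh0, hhτ⟩) (hcont i)
    (fun z _ => ((hA d R D h i hD hh0).2 z y).2.1.trans
      ((hG d D hD).2.2.2 s hs0 _ (by nlinarith) _))
  rw [← iter_KBd] at hbar
  have hle : ∀ z ∈ ball (0 : EE d) R, aa R D h y (i + N) z ≤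
      B / (c * s) * psi R ε z + 0 * psi R ε z := by
    intro z hz
    have h1 := hbar z (ball_subset_closedBall hz)
    have h2 := ((hA d R D h (i + N) hD hh0).2 z y).1
    have h3 : c * s ≤ N * (c * h) := by nlinarith
    have h4 := mul_le_mul_of_nonneg_right h3 h2
    rw [zero_mul, add_zero, div_mul_eq_mul_div, le_div_iff₀ hcs]
    linarith
  set τ : ℝ := t - (((i + N : ℕ) : ℝ) + 1) * h with hτ
  have hτ1 : 0 < τ := by linarith
  have hτ2 : τ < τ0 := by linarith
  have hp := psi_cont_KBd (d := d) R ε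
  have hm := (hQ d R D τ (aa R D h y (i + N))
    (fun z => B / (c * s) * psi R ε z + 0 * psi R ε z) hD hτ1 (hcont _)
    ((continuous_const.mul hp).add (continuous_const.mul hp))).2.2.2.1 hle x
  rw [(hQ d R D τ (psi R ε) (psi R ε) hD hτ1 hp hp).2.2.1, zero_mul, add_zero] at hm
  refine hm.trans (mul_le_mul_of_nonneg_left ?_ hC0)
  have h5 := hsup τ ⟨hτ1, hτ2⟩ x hx
  have h6 := mul_pos hc hτ1
  linarith

end

section

theorem diff_KCon (hQ : SQ) {d : ℕ} {R D τ η : ℝ} {f g : EE d → ℝ} (hD : 0 < D) (hτ : 0 < τ)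
    (hη : 0 ≤ η) (hf : Continuous f) (hg : Continuous g)
    (h : ∀ z ∈ ball (0 : EE d) R, |f z - g z| ≤ η) (x : EE d) :
    |QQ R D τ f x - QQ R D τ g x| ≤ η := by
  have h1 := (hQ d R D τ f g hD hτ hf hg).2.2.1 1 (-1) x
  have hc : Continuous fun z => 1 * f z + (-1) * g z := by fun_prop
  have h2 := (hQ d R D τ _ g hD hτ hc hg).2.2.2.2 η hη (fun z hz => by
    rw [show 1 * f z + (-1) * g z = f z - g z by ring]
    exact h z hz) x
  rwa [h1, show 1 * QQ R D τ f x + (-1) * QQ R D τ g x = QQ R D τ f x - QQ R D τ g x by ring]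
    at h2

theorem cont_KCon (hA : SAa) {d : ℕ} {R D h : ℝ} (hD : 0 < D) (hh : 0 < h) (y : EE d) (j : ℕ) :
    Continuous (aa R D h y j) :=
  (hA d R D h j hD hh).1.comp (f := fun x : EE d => (x, y)) (by fun_prop)

theorem sCon (hQ : SQ) (hA : SAa) (hId : SId) : SCon := by
  intro d R D h t η n i x y y' hD hh hη h1 h2 h3
  have key : ∀ j, i ≤ j → ∀ z ∈ ball (0 : EE d) R, |aa R D h y j z - aa R D h y' j z| ≤ η := by
    intro j hj
    induction j, hj using Nat.le_induction with
    | base => exact h3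
    | succ j _ ih =>
      intro z _
      exact diff_KCon hQ hD hh hη (cont_KCon hA hD hh y j) (cont_KCon hA hD hh y' j) ih z
  have hi : (0 : ℝ) ≤ i := Nat.cast_nonneg i
  obtain ⟨j, hj, a1, a2⟩ := (hId d R D h t n x y hD hh).2.2.2 (by nlinarith) h2
  have hij : i ≤ j := by
    have b1 : (i : ℝ) + 1 < (j : ℝ) + 2 := lt_of_mul_lt_mul_right (h1.trans_le a2) hh.le
    have b2 : i + 1 < j + 2 := by exact_mod_cast b1
    omega
  rw [(hId d R D h t n x y hD hh).2.1 j hj a1 a2, (hId d R D h t n x y' hD hh).2.1 j hj a1 a2]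
  exact diff_KCon hQ hD (sub_pos.2 a1) hη (cont_KCon hA hD hh y j) (cont_KCon hA hD hh y' j)
    (key j hij) x

end

end Pool.Agent.MP_b33505_an
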