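import Pool.Agent.MP_b33505_an.St2

namespace Pool.Agent.MP_b33505_an

open MeasureTheory Set Metric Filter Topology
open scoped RealInnerProductSpace Laplacian BoundedContinuousFunction

section

noncomputable def ps_KFl0 (a u : ℝ) : ℝ := if 0 < u then u ^ (-a) * Real.exp (-u⁻¹) else 0

theorem lim_KFl0 (a : ℝ) : Tendsto (ps_KFl0 a) (𝓝 0) (𝓝 0) := by
  refine (tendsto_sup.2 ⟨?_, ?_⟩).mono_left (nhdsLE_sup_nhdsGT (0 : ℝ)).ge
  · refine tendsto_const_nhds.congr' ?_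
    filter_upwards [self_mem_nhdsWithin] with u hu
    rw [ps_KFl0, if_neg (not_lt.2 hu)]
  · refine ((tendsto_rpow_mul_exp_neg_mul_atTop_nhds_zero a 1 one_pos).comp
      tendsto_inv_nhdsGT_zero).congr' ?_
    filter_upwards [self_mem_nhdsWithin] with u hu
    rw [ps_KFl0, if_pos (show 0 < u from hu), Function.comp, Real.inv_rpow (le_of_lt hu),
      Real.rpow_neg (le_of_lt hu), neg_mul, one_mul]

theorem der_KFl0 (a u : ℝ) :
    HasDerivAt (ps_KFl0 a) (-a * ps_KFl0 (a + 1) u + ps_KFl0 (a + 2) u) u := by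
  rcases lt_trichotomy u 0 with h | rfl | h
  · rw [ps_KFl0, ps_KFl0, if_neg h.not_gt, if_neg h.not_gt, mul_zero, add_zero]
    refine (hasDerivAt_const u (0 : ℝ)).congr_of_eventuallyEq ?_
    filter_upwards [gt_mem_nhds h] with v hv
    rw [ps_KFl0, if_neg hv.not_gt]
  · rw [ps_KFl0, ps_KFl0, if_neg (lt_irrefl _), if_neg (lt_irrefl _), mul_zero, add_zero,
      hasDerivAt_iff_tendsto_slope_zero]
    refine ((lim_KFl0 (a + 1)).mono_left nhdsWithin_le_nhds).congr fun v => ?_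
    simp only [ps_KFl0, zero_add, lt_irrefl, if_false, sub_zero, smul_eq_mul]
    split_ifs with hv
    · rw [neg_add, Real.rpow_add hv, Real.rpow_neg_one]
      ring
    · simp
  · have h1 := (Real.hasDerivAt_rpow_const (p := -a) (.inl h.ne')).mul
      (hasDerivAt_inv h.ne').neg.exp
    refine (h1.congr_deriv ?_).congr_of_eventuallyEq ?_
    · rw [ps_KFl0, ps_KFl0, if_pos h, if_pos h, show -(a + 1) = -a - 1 by ring,
        show -(a + 2) = -a - (2 : ℕ) by push_cast; ring, Real.rpow_sub_natCast h.ne']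
      simp only [Pi.neg_apply]
      ring
    · filter_upwards [lt_mem_nhds h] with v hv
      rw [ps_KFl0, if_pos hv]
      rfl

theorem smooth_KFl0 (n : ℕ) : ∀ a, ContDiff ℝ n (ps_KFl0 a) := by
  induction n with
  | zero =>
    exact fun a => contDiff_zero.2
      (continuous_iff_continuousAt.2 fun u => (der_KFl0 a u).continuousAt)
  | succ n ih =>
    intro a
    rw [Nat.cast_succ, contDiff_succ_iff_deriv]
    refine ⟨fun u => (der_KFl0 a u).differentiableAt, by simp, ?_⟩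
    rw [funext fun u => (der_KFl0 a u).deriv]
    exact (contDiff_const.mul (ih _)).add (ih _)

theorem sFl0 : SFl0 := fun a => smooth_KFl0 3 a

end

section

theorem sFlat (h0 : SFl0) : SFlat := by
  intro d D hD
  have hn : ContDiff ℝ 3 fun p : ℝ × EE d => ‖p.2‖ ^ 2 := (contDiff_norm_sq ℝ).comp contDiff_snd
  have hp : ∀ p : ℝ × EE d, p ∈ {p : ℝ × EE d | p.2 ≠ 0} → 0 < ‖p.2‖ ^ 2 := fun p hp =>
    pow_pos (norm_pos_iff.2 hp) 2
  have h1 : ContDiffOn ℝ 3 (fun p : ℝ × EE d => (Real.pi * ‖p.2‖ ^ 2) ^ (-((d : ℝ) / 2)))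
      {p | p.2 ≠ 0} :=
    (contDiff_const.mul hn).contDiffOn.rpow_const_of_ne fun p h =>
      (mul_pos Real.pi_pos (hp p h)).ne'
  have h2 : ContDiffOn ℝ 3 (fun p : ℝ × EE d => 4 * D ^ 2 * p.1 / ‖p.2‖ ^ 2) {p | p.2 ≠ 0} :=
    (contDiff_const.mul contDiff_fst).contDiffOn.div hn.contDiffOn fun p h => (hp p h).ne'
  refine (h1.mul ((h0 ((d : ℝ) / 2)).comp_contDiffOn h2)).congr fun p h => ?_
  have a0 := hp p h
  have a1 : 0 < 4 * D ^ 2 := by positivity
  simp only [Function.comp]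
  by_cases ht : 0 < p.1
  · have a2 : 0 < 4 * D ^ 2 * p.1 / ‖p.2‖ ^ 2 := by positivity
    have e1 : Real.pi * ‖p.2‖ ^ 2 * (4 * D ^ 2 * p.1 / ‖p.2‖ ^ 2) =
        4 * Real.pi * D ^ 2 * p.1 := by
      rw [mul_assoc, mul_div_cancel₀ _ a0.ne']
      ring
    rw [gt, if_pos ht, if_pos a2, gauss, ← mul_assoc,
      ← Real.mul_rpow (mul_pos Real.pi_pos a0).le a2.le, e1, inv_div, neg_div, neg_div]
  · have a2 : ¬ 0 < 4 * D ^ 2 * p.1 / ‖p.2‖ ^ 2 := fun hh =>
      ht ((mul_pos_iff_of_pos_left a1).1 ((div_pos_iff_of_pos_right a0).1 hh))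
    rw [gt, if_neg ht, if_neg a2, mul_zero]

end

section

/-- the parabolic dilation -/
noncomputable def S_KScale (d : ℕ) (l : ℝ) : ℝ × EE d →L[ℝ] ℝ × EE d :=
  ((l ^ 2)⁻¹ • ContinuousLinearMap.fst ℝ ℝ (EE d)).prod (l⁻¹ • ContinuousLinearMap.snd ℝ ℝ (EE d))

theorem app_KScale {d : ℕ} (l : ℝ) (p : ℝ × EE d) :
    S_KScale d l p = ((l ^ 2)⁻¹ * p.1, l⁻¹ • p.2) := rfl

theorem nrm_KScale {d : ℕ} {l δ : ℝ} (hδ : 0 < δ) (h : δ ≤ l) :
    ‖S_KScale d l‖ ≤ (δ ^ 2)⁻¹ + δ⁻¹ + 1 := by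
  have hl : 0 < l := hδ.trans_le h
  have a1 : (l ^ 2)⁻¹ ≤ (δ ^ 2)⁻¹ := by gcongr
  have a2 : l⁻¹ ≤ δ⁻¹ := by gcongr
  have a3 : 0 < (δ ^ 2)⁻¹ := by positivity
  have a4 : 0 < δ⁻¹ := by positivity
  refine ContinuousLinearMap.opNorm_le_bound _ (by positivity) fun p => ?_
  rw [app_KScale, Prod.norm_def]
  refine max_le ?_ ?_
  · rw [norm_mul, Real.norm_of_nonneg (by positivity)]
    exact mul_le_mul (by linarith) (norm_fst_le p) (norm_nonneg _) (by positivity)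
  · rw [norm_smul, Real.norm_of_nonneg (by positivity)]
    exact mul_le_mul (by linarith) (norm_snd_le p) (norm_nonneg _) (by positivity)

theorem sc_KScale {d : ℕ} {D l : ℝ} (hD : 0 < D) (hl : 0 < l) (p : ℝ × EE d) :
    gt D p = (l ^ d)⁻¹ • (gt D ∘ S_KScale d l) p := by
  have h2 : 0 < (l ^ 2)⁻¹ := by positivity
  simp only [Function.comp, app_KScale, gt, smul_eq_mul, mul_pos_iff_of_pos_left h2]
  split_ifs with h
  · have e1 : ((l ^ 2)⁻¹ : ℝ) ^ (-(d : ℝ) / 2) = l ^ d := by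
      rw [← Real.rpow_two, ← Real.rpow_neg hl.le, ← Real.rpow_mul hl.le, ← Real.rpow_natCast]
      congr 1
      ring
    have e2 : -‖l⁻¹ • p.2‖ ^ 2 / (4 * D ^ 2 * ((l ^ 2)⁻¹ * p.1)) =
        -‖p.2‖ ^ 2 / (4 * D ^ 2 * p.1) := by
      rw [norm_smul, Real.norm_of_nonneg (by positivity)]
      field_simp
    unfold gauss
    rw [e2, show 4 * Real.pi * D ^ 2 * ((l ^ 2)⁻¹ * p.1) =
      (l ^ 2)⁻¹ * (4 * Real.pi * D ^ 2 * p.1) by ring, Real.mul_rpow h2.le (by positivity), e1]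
    field_simp
  · rw [mul_zero]

theorem sScale (hF : SFlat) : SScale := by
  intro d D δ T hD hδ
  have hV : IsOpen {p : ℝ × EE d | p.2 ≠ 0} := isOpen_ne_fun continuous_snd continuous_const
  have hg := hF d D hD
  have hQ : IsCompact (Icc 0 ((δ ^ 2)⁻¹ * T) ×ˢ sphere (0 : EE d) 1) :=
    isCompact_Icc.prod (isCompact_sphere _ _)
  have hQV : Icc 0 ((δ ^ 2)⁻¹ * T) ×ˢ sphere (0 : EE d) 1 ⊆ {p : ℝ × EE d | p.2 ≠ 0} :=
    fun p hp => ne_of_mem_sphere hp.2 one_ne_zero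
  have hb : ∀ j : Fin 4, ∃ B : ℝ, ∀ p ∈ Icc 0 ((δ ^ 2)⁻¹ * T) ×ˢ sphere (0 : EE d) 1,
      ‖iteratedFDeriv ℝ j (gt D) p‖ ≤ B := fun j =>
    hQ.exists_bound_of_continuousOn fun p hp =>
      ((hg.contDiffAt (hV.mem_nhds (hQV hp))).continuousAt_iteratedFDeriv
        (by exact_mod_cast Nat.lt_succ_iff.1 j.2)).continuousWithinAt
  choose B hB using hb
  obtain ⟨k, hk⟩ : ∃ k : ℝ, k = (δ ^ 2)⁻¹ + δ⁻¹ + 1 := ⟨_, rfl⟩
  have hk1 : 1 ≤ k := by
    rw [hk]
    exact le_add_of_nonneg_left (by positivity)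
  have hS0 : 0 ≤ ∑ i, |B i| := Finset.sum_nonneg fun i _ => abs_nonneg _
  refine ⟨(δ ^ d)⁻¹ * ((∑ i, |B i|) * k ^ 3), by positivity, fun p hp hT j hj => ?_⟩
  rcases lt_or_ge p.1 0 with h0 | h0
  · have e : gt D =ᶠ[𝓝 p] fun _ : ℝ × EE d => (0 : ℝ) := by
      filter_upwards [continuous_fst.continuousAt.eventually (gt_mem_nhds h0)] with q hq
      exact if_neg (not_lt.2 (le_of_lt hq))
    rw [(e.iteratedFDeriv ℝ j).self_of_nhds, iteratedFDeriv_fun_zero, Pi.zero_apply, norm_zero]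
    positivity
  obtain ⟨l, hl⟩ : ∃ l : ℝ, l = ‖p.2‖ := ⟨_, rfl⟩
  rw [← hl] at hp
  have hl0 : 0 < l := hδ.trans_le hp
  have hmem : S_KScale d l p ∈ Icc 0 ((δ ^ 2)⁻¹ * T) ×ˢ sphere (0 : EE d) 1 := by
    rw [app_KScale]
    refine ⟨⟨by positivity, mul_le_mul (by gcongr) hT h0 (by positivity)⟩, ?_⟩
    rw [mem_sphere_zero_iff_norm, norm_smul, Real.norm_of_nonneg (by positivity), ← hl]
    exact inv_mul_cancel₀ hl0.ne'
  have hj' : (j : WithTop ℕ∞) ≤ 3 := by exact_mod_cast hj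
  have hW : IsOpen (S_KScale d l ⁻¹' {p : ℝ × EE d | p.2 ≠ 0}) :=
    hV.preimage (S_KScale d l).continuous
  have e1 := (S_KScale d l).iteratedFDerivWithin_comp_right hg hV.uniqueDiffOn hW.uniqueDiffOn
    (hQV hmem) (i := j) hj'
  rw [iteratedFDerivWithin_of_isOpen j hW (hQV hmem),
    iteratedFDerivWithin_of_isOpen j hV (hQV hmem)] at e1
  have hc : ContDiffAt ℝ j (gt D ∘ S_KScale d l) p :=
    ((hg.contDiffAt (hV.mem_nhds (hQV hmem))).of_le hj').comp p (S_KScale d l).contDiff.contDiffAt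
  have e2 : iteratedFDeriv ℝ j (gt D) p =
      (l ^ d)⁻¹ • iteratedFDeriv ℝ j (gt D ∘ S_KScale d l) p := by
    rw [← iteratedFDeriv_const_smul_apply' hc]
    congr 1
    exact funext (sc_KScale hD hl0)
  rw [e2, e1, norm_smul, Real.norm_of_nonneg (by positivity)]
  refine mul_le_mul (by gcongr) ?_ (norm_nonneg _) (by positivity)
  refine (ContinuousMultilinearMap.norm_compContinuousLinearMap_le _ _).trans ?_
  rw [Finset.prod_const, Finset.card_univ, Fintype.card_fin]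
  refine mul_le_mul ?_ ?_ (by positivity) hS0
  · exact (hB ⟨j, by omega⟩ _ hmem).trans ((le_abs_self _).trans
      (Finset.single_le_sum (f := fun i => |B i|) (fun i _ => abs_nonneg _) (Finset.mem_univ _)))
  · exact (pow_le_pow_left₀ (norm_nonneg _) ((nrm_KScale hδ hp).trans hk.ge) j).trans
      (pow_le_pow_right₀ hk1 hj)

end

section

lemma lap_KGtH {d : ℕ} {g : ℝ × EE d → ℝ} {p : ℝ × EE d} (hg : ContDiffAt ℝ 2 g p) :
    Δ (fun x => g (p.1, x)) p.2 = ∑ i : Fin d, fderiv ℝ (fderiv ℝ g) p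
      (0, EuclideanSpace.basisFun (Fin d) ℝ i) (0, EuclideanSpace.basisFun (Fin d) ℝ i) := by
  have hi : ∀ x : EE d, HasFDerivAt (fun x : EE d => (p.1, x))
      (ContinuousLinearMap.inr ℝ ℝ (EE d)) x := fun x => hasFDerivAt_prodMk_right p.1 x
  have e1 : fderiv ℝ (fun x => g (p.1, x)) =ᶠ[𝓝 p.2]
      fun x => (fderiv ℝ g (p.1, x)).comp (ContinuousLinearMap.inr ℝ ℝ (EE d)) := by
    have ev : ∀ᶠ q in 𝓝 p, ContDiffAt ℝ 2 g q := hg.eventually (by simp)
    filter_upwards [(hi p.2).continuousAt.eventually ev] with x hx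
    exact ((hx.differentiableAt (by simp)).hasFDerivAt.comp x (hi x)).fderiv
  have d2 : HasFDerivAt (fderiv ℝ g) (fderiv ℝ (fderiv ℝ g) p) (p.1, p.2) :=
    ((hg.fderiv_right (m := 1) (by norm_num)).differentiableAt (by simp)).hasFDerivAt
  have d3 := ((d2.comp p.2 (hi p.2)).clm_comp
    (hasFDerivAt_const (ContinuousLinearMap.inr ℝ ℝ (EE d)) p.2)).fderiv
  rw [InnerProductSpace.laplacian_eq_iteratedFDeriv_orthonormalBasis _
    (EuclideanSpace.basisFun (Fin d) ℝ)]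
  refine Finset.sum_congr rfl fun i _ => ?_
  rw [iteratedFDeriv_two_apply, e1.fderiv_eq]
  erw [d3]
  simp

theorem sGtH (hH : SGaH) (hF : SFlat) : SGtH := by
  intro d D p hD hp
  have op : IsOpen {q : ℝ × EE d | q.2 ≠ 0} := isOpen_ne_fun continuous_snd continuous_const
  have c3 : ∀ q : ℝ × EE d, q.2 ≠ 0 → ContDiffAt ℝ 3 (gt D) q := fun q hq =>
    (hF d D hD).contDiffAt (op.mem_nhds hq)
  have ne : ∀ q : ℝ × EE d, q.2 ≠ 0 → q.1 ≠ 0 →
      HR D (fderiv ℝ (gt D) q) (fderiv ℝ (fderiv ℝ (gt D)) q) := fun q hq h0 => by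
    rcases lt_or_gt_of_ne h0 with h | h
    · have e0 : (gt D : ℝ × EE d → ℝ) =ᶠ[𝓝 q] fun _ => 0 := by
        filter_upwards [(isOpen_lt continuous_fst continuous_const).mem_nhds h] with r hr
        exact if_neg (not_lt.2 (le_of_lt hr))
      have e1 : fderiv ℝ (gt D : ℝ × EE d → ℝ) =ᶠ[𝓝 q] fun _ => 0 :=
        e0.fderiv.trans (Eventually.of_forall fun r => fderiv_const_apply 0)
      unfold HR
      rw [e1.fderiv_eq, e1.eq_of_nhds]
      simp
    · have h1 := ((hH d (‖q.2‖ + 1) D (q.1 / 2) q.1 0 hD (half_pos h)).2 q.1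
        ⟨half_lt_self h, le_rfl⟩ q.2 (mem_ball_zero_iff.2 (lt_add_one _))).2
      have e1 : (fun x : EE d => gauss D q.1 (x - 0)) = fun x => gt D (q.1, x) := by
        funext x
        rw [sub_zero]
        exact (if_pos h).symm
      have e2 : (fun t => gt D (t, q.2)) =ᶠ[𝓝 q.1] fun t => gauss D t (q.2 - 0) := by
        filter_upwards [lt_mem_nhds h] with t ht
        rw [sub_zero]
        exact if_pos ht
      have h2 : HasDerivAt (fun t => gt D (t, q.2)) (fderiv ℝ (gt D) q (1, 0)) q.1 :=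
        HasFDerivAt.comp_hasDerivAt (l := gt D) (f := fun t => (t, q.2)) q.1
          ((c3 q hq).differentiableAt (by simp)).hasFDerivAt
          ((hasDerivAt_id q.1).prodMk (hasDerivAt_const q.1 q.2))
      have h3 := h2.unique (h1.congr_of_eventuallyEq e2)
      unfold HR
      rw [h3, ← lap_KGtH ((c3 q hq).of_le (by norm_num)), ← e1]
  by_cases h0 : p.1 = 0
  · have c2 : ContDiffAt ℝ 2 (fderiv ℝ (gt D)) p := (c3 p hp).fderiv_right (by norm_num)
    have c1 : ContDiffAt ℝ 1 (fderiv ℝ (fderiv ℝ (gt D))) p := c2.fderiv_right (by norm_num)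
    have ct : Tendsto (fun t : ℝ => (t, p.2)) (𝓝[≠] 0) (𝓝 p) := by
      have : Tendsto (fun t : ℝ => (t, p.2)) (𝓝 p.1) (𝓝 (p.1, p.2)) :=
        (continuous_id.prodMk continuous_const).tendsto p.1
      rw [← h0]
      exact this.mono_left nhdsWithin_le_nhds
    have l1 : ContinuousAt (fun q : ℝ × EE d => fderiv ℝ (gt D) q (1, 0)) p :=
      c2.continuousAt.clm_apply continuousAt_const
    have l2 : ContinuousAt (fun q : ℝ × EE d => D ^ 2 * ∑ i : Fin d,
        fderiv ℝ (fderiv ℝ (gt D)) q (0, EuclideanSpace.basisFun (Fin d) ℝ i)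
          (0, EuclideanSpace.basisFun (Fin d) ℝ i)) p :=
      continuousAt_const.mul (tendsto_finsetSum _ fun i _ =>
        (c1.continuousAt.clm_apply continuousAt_const).clm_apply continuousAt_const)
    refine tendsto_nhds_unique_of_eventuallyEq (l1.tendsto.comp ct) (l2.tendsto.comp ct) ?_
    filter_upwards [self_mem_nhdsWithin] with t ht
    exact ne (t, p.2) hp ht
  · exact ne p hp h0

end

section

section
variable {E F : Type} [NormedAddCommGroup E] [NormedSpace ℝ E] [NormedAddCommGroup F]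
  [NormedSpace ℝ F] {f : E → F} {W : Set E} {M : ℝ}

theorem lip_KJ1 (hW : Convex ℝ W) (h1 : ∀ u ∈ W, DifferentiableAt ℝ f u)
    (h2 : ∀ p ∈ W, ∀ q ∈ W, ‖fderiv ℝ f q - fderiv ℝ f p‖ ≤ M * ‖q - p‖) (hM : 0 ≤ M)
    {p q : E} (hp : p ∈ W) (hq : q ∈ W) :
    ‖f q - f p - fderiv ℝ f p (q - p)‖ ≤ M * ‖q - p‖ ^ 2 := by
  have hs : segment ℝ p q ⊆ W := hW.segment_subset hp hq
  have := (convex_segment p q).norm_image_sub_le_of_norm_fderiv_le' (𝕜 := ℝ) (f := f)
    (φ := fderiv ℝ f p) (C := M * ‖q - p‖) (fun u hu => h1 u (hs hu))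
    (fun u hu => (h2 p hp u (hs hu)).trans (mul_le_mul_of_nonneg_left ?_ hM))
    (left_mem_segment ℝ p q) (right_mem_segment ℝ p q)
  · rwa [mul_assoc, ← sq] at this
  · have := dist_add_dist_of_mem_segment hu
    rw [dist_eq_norm', dist_eq_norm', dist_eq_norm'] at this
    linarith [norm_nonneg (q - u)]

theorem one_KJ1 (hW : Convex ℝ W) (c : ∀ p ∈ W, ContDiffAt ℝ 1 f p)
    (hb : ∀ p ∈ W, ‖iteratedFDeriv ℝ 1 f p‖ ≤ M) {p q : E} (hp : p ∈ W) (hq : q ∈ W) :
    ‖f q - f p‖ ≤ M * ‖q - p‖ :=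
  hW.norm_image_sub_le_of_norm_fderiv_le (𝕜 := ℝ)
    (fun u hu => (c u hu).differentiableAt (by norm_num)) (fun u hu => by
      rw [← norm_iteratedFDeriv_zero (𝕜 := ℝ) (f := fderiv ℝ f), norm_iteratedFDeriv_fderiv]
      exact hb u hu) hp hq

theorem two_KJ1 (hW : Convex ℝ W) (c : ∀ p ∈ W, ContDiffAt ℝ 2 f p)
    (hb : ∀ p ∈ W, ∀ j ≤ 2, ‖iteratedFDeriv ℝ j f p‖ ≤ M) {p q : E} (hp : p ∈ W) (hq : q ∈ W) :
    ‖f q - f p - fderiv ℝ f p (q - p)‖ ≤ M * ‖q - p‖ ^ 2 ∧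
      ‖fderiv ℝ f q - fderiv ℝ f p‖ ≤ M * ‖q - p‖ ∧ ‖f p‖ ≤ M ∧ ‖fderiv ℝ f p‖ ≤ M := by
  have l : ∀ p ∈ W, ∀ q ∈ W, ‖fderiv ℝ f q - fderiv ℝ f p‖ ≤ M * ‖q - p‖ := fun p hp q hq =>
    one_KJ1 hW (fun u hu => (c u hu).fderiv_right (by norm_num)) (fun u hu => by
      rw [norm_iteratedFDeriv_fderiv]
      exact hb u hu _ le_rfl) hp hq
  refine ⟨lip_KJ1 hW (fun u hu => (c u hu).differentiableAt (by norm_num)) l
    ((norm_nonneg _).trans (hb p hp 0 (by norm_num))) hp hq, l p hp q hq, ?_, ?_⟩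
  · rw [← norm_iteratedFDeriv_zero (𝕜 := ℝ)]
    exact hb p hp 0 (by norm_num)
  · rw [← norm_iteratedFDeriv_zero (𝕜 := ℝ) (f := fderiv ℝ f), norm_iteratedFDeriv_fderiv]
    exact hb p hp _ (by norm_num)

end

theorem sJ1 : SJ1 := by
  intro d D M g V W hV hWV hW hg hb hH
  have c0 : ∀ p ∈ W, ContDiffAt ℝ 3 g p := fun p hp => hg.contDiffAt (hV.mem_nhds (hWV hp))
  have a := fun p hp q hq => two_KJ1 (f := g) (p := p) (q := q) hW
    (fun u hu => (c0 u hu).of_le (by norm_num)) (fun u hu j hj => hb u hu j (by omega)) hp hq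
  have b := fun p hp q hq => two_KJ1 (f := fderiv ℝ g) (M := M) (p := p) (q := q) hW
    (fun u hu => (c0 u hu).fderiv_right (by norm_num)) (fun u hu j hj => by
      rw [norm_iteratedFDeriv_fderiv]
      exact hb u hu _ (by omega)) hp hq
  exact ⟨fun p hp q hq => (a p hp q hq).1, fun p hp q hq => (b p hp q hq).1,
    fun p hp q hq => (b p hp q hq).2.1, fun p hp => (a p hp p hp).2.2.1,
    fun p hp => (a p hp p hp).2.2.2, fun p hp => (b p hp p hp).2.2.2, hH⟩

end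

section

theorem one_KJi {d : ℕ} {V : Type} [NormedAddCommGroup V] [NormedSpace ℝ V] {S : Set (EE d)}
    {a : EE d → ℝ} (hS : MeasurableSet S) (ha : IntegrableOn a S) (a0 : ∀ z, 0 ≤ a z)
    {g : EE d → V} {c : ℝ} (hg : ContinuousOn g S) (hb : ∀ z ∈ S, ‖g z‖ ≤ c) :
    IntegrableOn (fun z => a z • g z) S ∧ ‖∫ z in S, a z • g z‖ ≤ c * ∫ z in S, a z := by
  have h1 : ∀ᵐ z ∂(volume.restrict S), ‖a z • g z‖ ≤ c * a z :=
    (ae_restrict_mem hS).mono fun z hz => by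
      rw [norm_smul, Real.norm_eq_abs, abs_of_nonneg (a0 z), mul_comm]
      exact mul_le_mul_of_nonneg_right (hb z hz) (a0 z)
  refine ⟨Integrable.mono' (ha.const_mul c)
    (ha.aestronglyMeasurable.smul (hg.aestronglyMeasurable hS)) h1, ?_⟩
  rw [← integral_const_mul]
  exact norm_integral_le_of_norm_le (ha.const_mul c) h1

theorem two_KJi {d : ℕ} {V : Type} [NormedAddCommGroup V] [NormedSpace ℝ V] {S : Set (EE d)}
    {a : EE d → ℝ} (hS : MeasurableSet S) (ha : IntegrableOn a S) (a0 : ∀ z, 0 ≤ a z)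
    {g g' : EE d → V} {M c : ℝ} (i : IntegrableOn (fun z => a z • g z) S)
    (i' : IntegrableOn (fun z => a z • g' z) S) (hb : ∀ z ∈ S, ‖g z - g' z‖ ≤ M * c) :
    ‖(∫ z in S, a z • g z) - ∫ z in S, a z • g' z‖ ≤ (M * ∫ z in S, a z) * c := by
  rw [← integral_sub i i', mul_right_comm, ← integral_const_mul]
  refine norm_integral_le_of_norm_le (ha.const_mul _) ((ae_restrict_mem hS).mono fun z hz => ?_)
  rw [← smul_sub, norm_smul, Real.norm_eq_abs, abs_of_nonneg (a0 z), mul_comm]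
  exact mul_le_mul_of_nonneg_right (hb z hz) (a0 z)

theorem three_KJi {d : ℕ} {V : Type} [NormedAddCommGroup V] [NormedSpace ℝ V] {S : Set (EE d)}
    {a : EE d → ℝ} (hS : MeasurableSet S) (ha : IntegrableOn a S) (a0 : ∀ z, 0 ≤ a z)
    {g g' g'' : EE d → V} {M c : ℝ} (i : IntegrableOn (fun z => a z • g z) S)
    (i' : IntegrableOn (fun z => a z • g' z) S) (i'' : IntegrableOn (fun z => a z • g'' z) S)
    (hb : ∀ z ∈ S, ‖g z - g' z - g'' z‖ ≤ M * c) :
    ‖(∫ z in S, a z • g z) - (∫ z in S, a z • g' z) - ∫ z in S, a z • g'' z‖ ≤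
      (M * ∫ z in S, a z) * c := by
  have e : ∀ z, a z • g z - a z • g' z = a z • (g z - g' z) := fun z => (smul_sub _ _ _).symm
  rw [← integral_sub i i']
  simp only [e]
  refine two_KJi (g := fun z => g z - g' z) hS ha a0 ?_ i'' hb
  simp only [← e]
  exact i.sub i'

theorem sJi : SJi := by
  intro d D M U S a F A B hS ha a0 hJ hc
  have e0 : ∀ p, ∫ z in S, F z p * a z = ∫ z in S, a z • F z p := fun p => by
    simp only [smul_eq_mul, mul_comm]
  have i0 := fun p (hp : p ∈ U) => one_KJi hS ha a0 (hc p hp).1 fun z hz => (hJ z hz).b0 p hp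
  have i1 := fun p (hp : p ∈ U) => one_KJi hS ha a0 (hc p hp).2.1 fun z hz => (hJ z hz).b1 p hp
  have i2 := fun p (hp : p ∈ U) => one_KJi (V := ℝ × EE d →L[ℝ] ℝ × EE d →L[ℝ] ℝ)
    (g := fun z => B z p) (c := M) hS ha a0 (hc p hp).2.2 fun z hz => (hJ z hz).b2 p hp
  refine ⟨fun p hp q hq => ?_, fun p hp q hq => ?_, fun p hp q hq => ?_, fun p hp => ?_,
    fun p hp => (i1 p hp).2, fun p hp => (i2 p hp).2, fun p hp => ?_⟩
  · rw [e0, e0, ContinuousLinearMap.integral_apply (i1 p hp).1]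
    exact three_KJi (g'' := fun z => A z p (q - p)) hS ha a0 (i0 q hq).1 (i0 p hp).1
      ((i1 p hp).1.apply_continuousLinearMap (q - p)) fun z hz => (hJ z hz).t0 p hp q hq
  · rw [ContinuousLinearMap.integral_apply (i2 p hp).1]
    exact three_KJi (g'' := fun z => B z p (q - p)) hS ha a0 (i1 q hq).1 (i1 p hp).1
      ((i2 p hp).1.apply_continuousLinearMap (q - p)) fun z hz => (hJ z hz).t1 p hp q hq
  · exact two_KJi (V := ℝ × EE d →L[ℝ] ℝ × EE d →L[ℝ] ℝ) (g := fun z => B z q)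
      (g' := fun z => B z p) hS ha a0 (i2 q hq).1 (i2 p hp).1 fun z hz => (hJ z hz).t2 p hp q hq
  · rw [e0]
    exact (i0 p hp).2
  · have j : ∀ v w : ℝ × EE d, IntegrableOn (fun z => (a z • B z p) v w) S := fun v w =>
      ((i2 p hp).1.apply_continuousLinearMap v).apply_continuousLinearMap w
    have e2 : ∀ v w : ℝ × EE d, (∫ z in S, a z • B z p) v w = ∫ z in S, (a z • B z p) v w :=
      fun v w => by
        rw [ContinuousLinearMap.integral_apply (i2 p hp).1,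
          ContinuousLinearMap.integral_apply ((i2 p hp).1.apply_continuousLinearMap v)]
    unfold HR
    simp only [e2]
    rw [ContinuousLinearMap.integral_apply (i1 p hp).1, ← integral_finsetSum _ fun i _ => j _ _,
      ← integral_const_mul]
    refine setIntegral_congr_fun hS fun z hz => ?_
    have := (hJ z hz).eq p hp
    unfold HR at this
    simp only [smul_apply, smul_eq_mul, this, ← Finset.mul_sum]
    ring

end

section

theorem add_KJs {X : Type} [SeminormedAddCommGroup X] {a b c : X} {M N r : ℝ} (e : c = a + b)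
    (h : ‖a‖ ≤ M * r) (h' : ‖b‖ ≤ N * r) : ‖c‖ ≤ (M + N) * r := by
  rw [e, add_mul]
  exact norm_add_le_of_le h h'

theorem sJs : SJs := by
  intro d D M' U n M f hf hM
  have key : ∃ A B, Jet D U (∑ j ∈ Finset.range n, M j)
      (fun p => ∑ j ∈ Finset.range n, f j p) A B := by
    clear hM
    induction n with
    | zero =>
      refine ⟨fun _ => 0, fun _ => 0, ?_, ?_, ?_, ?_, ?_, ?_, ?_⟩ <;> intros <;>
        simp [HR, sub_self (0 : ℝ × EE d →L[ℝ] ℝ × EE d →L[ℝ] ℝ), ContinuousLinearMap.opNorm_zero]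
    | succ n ih =>
      obtain ⟨A, B, h⟩ := ih fun j hj => hf j (Nat.lt_succ_of_lt hj)
      obtain ⟨A', B', h'⟩ := hf n n.lt_succ_self
      simp only [Finset.sum_range_succ]
      refine ⟨fun p => A p + A' p, fun p => B p + B' p, fun p hp q hq => ?_, fun p hp q hq => ?_,
        fun p hp q hq => ?_, fun p hp => ?_, fun p hp => ?_, fun p hp => ?_, fun p hp => ?_⟩
      · refine add_KJs (X := ℝ) ?_ (h.t0 p hp q hq) (h'.t0 p hp q hq)
        rw [add_apply]
        ring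
      · refine add_KJs ?_ (h.t1 p hp q hq) (h'.t1 p hp q hq)
        rw [add_apply]
        abel
      · rw [show B q + B' q - (B p + B' p) = B q - B p + (B' q - B' p) from
          add_sub_add_comm (B q) (B' q) (B p) (B' p), add_mul]
        exact (ContinuousLinearMap.opNorm_add_le _ _).trans
          (add_le_add (h.t2 p hp q hq) (h'.t2 p hp q hq))
      · exact (abs_add_le _ _).trans (add_le_add (h.b0 p hp) (h'.b0 p hp))
      · exact norm_add_le_of_le (h.b1 p hp) (h'.b1 p hp)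
      · exact (ContinuousLinearMap.opNorm_add_le _ _).trans (add_le_add (h.b2 p hp) (h'.b2 p hp))
      · have e1 := h.eq p hp
        have e2 := h'.eq p hp
        simp only [HR, add_apply, Finset.sum_add_distrib] at e1 e2 ⊢
        rw [e1, e2, mul_add]
  obtain ⟨A, B, h⟩ := key
  exact ⟨A, B,
    fun p hp q hq => (h.t0 p hp q hq).trans (mul_le_mul_of_nonneg_right hM (sq_nonneg _)),
    fun p hp q hq => (h.t1 p hp q hq).trans (mul_le_mul_of_nonneg_right hM (sq_nonneg _)),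
    fun p hp q hq => (h.t2 p hp q hq).trans (mul_le_mul_of_nonneg_right hM (norm_nonneg _)),
    fun p hp => (h.b0 p hp).trans hM, fun p hp => (h.b1 p hp).trans hM,
    fun p hp => (h.b2 p hp).trans hM, h.eq⟩

end

section

theorem tr_KJ2 {d : ℕ} {D M r : ℝ} {p0 q : ℝ × EE d} {f : ℝ × EE d → ℝ}
    {A : ℝ × EE d → ℝ × EE d →L[ℝ] ℝ} {B : ℝ × EE d → ℝ × EE d →L[ℝ] ℝ × EE d →L[ℝ] ℝ}
    (h : Jet D (ball (p0 - q) r) M f A B) :
    Jet D (ball p0 r) M (fun p => f (p - q)) (fun p => A (p - q)) fun p => B (p - q) := by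
  have m : ∀ p ∈ ball p0 r, p - q ∈ ball (p0 - q) r := fun p hp => by
    rwa [mem_ball, dist_sub_right]
  refine ⟨fun p hp p' hp' => ?_, fun p hp p' hp' => ?_, fun p hp p' hp' => ?_,
    fun p hp => h.b0 _ (m p hp), fun p hp => h.b1 _ (m p hp), fun p hp => h.b2 _ (m p hp),
    fun p hp => h.eq _ (m p hp)⟩
  · simpa only [sub_sub_sub_cancel_right] using h.t0 _ (m p hp) _ (m p' hp')
  · simpa only [sub_sub_sub_cancel_right] using h.t1 _ (m p hp) _ (m p' hp')
  · simpa only [sub_sub_sub_cancel_right] using h.t2 _ (m p hp) _ (m p' hp')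

theorem sJ2 (hA : SAa) (hM : SMass) (hF : SFlat) (hS : SScale) (hH : SGtH) (h1 : SJ1) (hi : SJi)
    (hs : SJs) : SJ2 := by
  intro d R D p0 hD hp0
  have hp0' : ‖p0.2‖ < R := mem_ball_zero_iff.1 hp0
  obtain ⟨r, hr, hr'⟩ : ∃ r : ℝ, 0 < r ∧ 2 * r = R - ‖p0.2‖ :=
    ⟨(R - ‖p0.2‖) / 2, by linarith, by ring⟩
  obtain ⟨M, M0, hMb⟩ := hS d D r (p0.1 + r) hD hr
  have hV : IsOpen {p : ℝ × EE d | p.2 ≠ 0} := isOpen_ne_fun continuous_snd continuous_const
  have far : ∀ p ∈ ball p0 r, ∀ z ∈ (ball (0 : EE d) R)ᶜ, r ≤ ‖p.2 - z‖ := by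
    intro p hp z hz
    have a1 : R ≤ ‖z‖ := not_lt.1 fun c => hz (mem_ball_zero_iff.2 c)
    have a2 : ‖p.2 - p0.2‖ < r := (norm_snd_le (p - p0)).trans_lt (mem_ball_iff_norm.1 hp)
    have a3 := norm_sub_norm_le z p.2
    have a4 := norm_sub_norm_le p.2 p0.2
    rw [norm_sub_rev] at a3
    linarith
  refine ⟨r, hr, M, fun h hh n y => ?_⟩
  refine hs d D M (ball p0 r) n (fun j => M * ∫ z in (ball 0 R)ᶜ, aa R D h y j z)
    (fun j p => ∫ z in (ball 0 R)ᶜ, gt D (p - (((j : ℝ) + 1) * h, z)) * aa R D h y j z)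
    (fun j _ => ?_) ?_
  · obtain ⟨-, ha⟩ := hA d R D h j hD hh
    have hs0 : 0 ≤ ((j : ℝ) + 1) * h := by positivity
    refine ⟨_, _, hi d D M (ball p0 r) (ball 0 R)ᶜ (aa R D h y j)
      (fun z p => gt D (p - (((j : ℝ) + 1) * h, z)))
      (fun z p => fderiv ℝ (gt D) (p - (((j : ℝ) + 1) * h, z)))
      (fun z p => fderiv ℝ (fderiv ℝ (gt D)) (p - (((j : ℝ) + 1) * h, z)))
      measurableSet_ball.compl (ha y y).2.2.integrableOn (fun z => (ha z y).1)
      (fun z hz => tr_KJ2 ?_) fun p hp => ?_⟩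
    · have key : ∀ p ∈ ball (p0 - (((j : ℝ) + 1) * h, z)) r, r ≤ ‖p.2‖ ∧ p.1 ≤ p0.1 + r := by
        intro p hp
        have a1 : p + (((j : ℝ) + 1) * h, z) ∈ ball p0 r := by
          rw [mem_ball_iff_norm] at hp ⊢
          convert hp using 2
          abel
        have a2 := far _ a1 z hz
        have a3 := (norm_fst_le _).trans_lt (mem_ball_iff_norm.1 a1)
        simp only [Prod.snd_add, add_sub_cancel_right] at a2
        simp only [Prod.fst_sub, Prod.fst_add, Real.norm_eq_abs] at a3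
        exact ⟨a2, by linarith [(abs_lt.1 a3).2]⟩
      have ne : ∀ p ∈ ball (p0 - (((j : ℝ) + 1) * h, z)) r, p.2 ≠ 0 := fun p hp =>
        norm_pos_iff.1 (hr.trans_le (key p hp).1)
      exact h1 d D M (gt D) _ _ hV ne (convex_ball _ _) (hF d D hD)
        (fun p hp => hMb p (key p hp).1 (key p hp).2) fun p hp => hH d D p hD (ne p hp)
    · have cm : Continuous fun z : EE d => p - (((j : ℝ) + 1) * h, z) := by fun_prop
      have c3 : ∀ z ∈ (ball (0 : EE d) R)ᶜ,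
          ContDiffAt ℝ 3 (gt D) (p - (((j : ℝ) + 1) * h, z)) := fun z hz =>
        (hF d D hD).contDiffAt (hV.mem_nhds (norm_pos_iff.1 (hr.trans_le (far p hp z hz))))
      refine ⟨fun z hz => ((c3 z hz).continuousAt.comp (f := fun z : EE d =>
          p - (((j : ℝ) + 1) * h, z)) cm.continuousAt).continuousWithinAt,
        fun z hz => (((c3 z hz).fderiv_right (m := 2) (by norm_num)).continuousAt.comp
          (f := fun z : EE d => p - (((j : ℝ) + 1) * h, z)) cm.continuousAt).continuousWithinAt,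
        fun z hz => ((((c3 z hz).fderiv_right (m := 2) (by norm_num)).fderiv_right (m := 1)
          (by norm_num)).continuousAt.comp
          (f := fun z : EE d => p - (((j : ℝ) + 1) * h, z)) cm.continuousAt).continuousWithinAt⟩
  · rw [← Finset.mul_sum]
    exact mul_le_of_le_one_right M0 (hM d R D h n y hD hh)

end

section

theorem lim_KJ3 {X F : Type} [NormedAddCommGroup F] [NormedSpace ℝ F] [FiniteDimensional ℝ F]
    (U : Set X) (M : ℝ) (A : ℕ → X → F) (h : ∀ m, ∀ p ∈ U, ‖A m p‖ ≤ M) :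
    ∃ A' : X → F, ∀ p ∈ U, Tendsto (fun m => A m p) (hyperfilter ℕ) (𝓝 (A' p)) := by
  have := FiniteDimensional.proper_real F
  have key : ∀ p, ∃ a : F, p ∈ U → Tendsto (fun m => A m p) (hyperfilter ℕ) (𝓝 a) := by
    intro p
    by_cases hp : p ∈ U
    · obtain ⟨a, -, ha⟩ := (isCompact_closedBall (0 : F) M).ultrafilter_le_nhds
        ((hyperfilter ℕ).map fun m => A m p) (by
          rw [le_principal_iff, Ultrafilter.coe_map, mem_map]
          exact Eventually.of_forall fun m => mem_closedBall_zero_iff.2 (h m p hp))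
      exact ⟨a, fun _ => ha⟩
    · exact ⟨0, fun h => absurd h hp⟩
  choose A' hA' using key
  exact ⟨A', hA'⟩

theorem app_KJ3 {E F : Type} [NormedAddCommGroup E] [NormedSpace ℝ E] [NormedAddCommGroup F]
    [NormedSpace ℝ F] {l : Filter ℕ} {A : ℕ → E →L[ℝ] F} {a : E →L[ℝ] F}
    (h : Tendsto A l (𝓝 a)) (v : E) : Tendsto (fun m => A m v) l (𝓝 (a v)) :=
  ((ContinuousLinearMap.apply ℝ F v).continuous.tendsto a).comp h

theorem nle_KJ3 {F : Type} [NormedAddCommGroup F] {a : ℕ → F} {x : F} {c : ℝ}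
    (ha : Tendsto a (hyperfilter ℕ) (𝓝 x)) (h : ∀ m, ‖a m‖ ≤ c) : ‖x‖ ≤ c :=
  le_of_tendsto' ha.norm h

theorem sle_KJ3 {F : Type} [NormedAddCommGroup F] {a b : ℕ → F} {x y : F} {c : ℝ}
    (ha : Tendsto a (hyperfilter ℕ) (𝓝 x)) (hb : Tendsto b (hyperfilter ℕ) (𝓝 y))
    (h : ∀ m, ‖a m - b m‖ ≤ c) : ‖x - y‖ ≤ c :=
  le_of_tendsto' (ha.sub hb).norm h

theorem sJ3 : SJ3 := by
  intro d D M U f g hf hg
  choose A B hJ using hf
  obtain ⟨A', hA⟩ := lim_KJ3 U M A fun m => (hJ m).b1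
  obtain ⟨B', hB⟩ := lim_KJ3 U M B fun m => (hJ m).b2
  refine ⟨A', B', fun p hp q hq => ?_, fun p hp q hq => ?_, fun p hp q hq => ?_,
    fun p hp => ?_, fun p hp => ?_, fun p hp => ?_, fun p hp => ?_⟩
  · exact le_of_tendsto' (((hg q hq).sub (hg p hp)).sub (app_KJ3 (hA p hp) (q - p))).abs
      fun m => (hJ m).t0 p hp q hq
  · exact le_of_tendsto' (((hA q hq).sub (hA p hp)).sub (app_KJ3 (hB p hp) (q - p))).norm
      fun m => (hJ m).t1 p hp q hq
  · exact sle_KJ3 (hB q hq) (hB p hp) fun m => (hJ m).t2 p hp q hq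
  · exact le_of_tendsto' (hg p hp).abs fun m => (hJ m).b0 p hp
  · exact le_of_tendsto' (hA p hp).norm fun m => (hJ m).b1 p hp
  · exact nle_KJ3 (hB p hp) fun m => (hJ m).b2 p hp
  · refine tendsto_nhds_unique (app_KJ3 (hA p hp) (1, 0)) ?_
    have h1 := (tendsto_finsetSum (Finset.univ : Finset (Fin d)) fun i _ =>
      app_KJ3 (app_KJ3 (hB p hp) (0, EuclideanSpace.basisFun (Fin d) ℝ i))
        (0, EuclideanSpace.basisFun (Fin d) ℝ i)).const_mul (D ^ 2)
    exact h1.congr fun m => ((hJ m).eq p hp).symm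

end

section

theorem der_KJ4 {E F : Type*} [NormedAddCommGroup E] [NormedSpace ℝ E] [NormedAddCommGroup F]
    [NormedSpace ℝ F] {U : Set E} (hU : IsOpen U) {f : E → F} {L : E →L[ℝ] F} {M : ℝ} {p : E}
    (hp : p ∈ U) (h : ∀ q ∈ U, ‖f q - f p - L (q - p)‖ ≤ M * ‖q - p‖ ^ 2) :
    HasFDerivAt f L p := by
  rw [hasFDerivAt_iff_isLittleO]
  have h1 : (fun q => f q - f p - L (q - p)) =O[𝓝 p] fun q => ‖q - p‖ ^ 2 := by
    refine Asymptotics.IsBigO.of_bound M ?_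
    filter_upwards [hU.mem_nhds hp] with q hq
    simpa using h q hq
  refine h1.trans_isLittleO ?_
  have h2 : Tendsto (fun q : E => q - p) (𝓝 p) (𝓝 0) := by
    have h3 : Continuous fun q : E => q - p := by fun_prop
    simpa using h3.tendsto p
  exact (Asymptotics.isLittleO_norm_pow_id (E' := E) one_lt_two).comp_tendsto h2

theorem cont_KJ4 {E F : Type*} [NormedAddCommGroup E] [NormedAddCommGroup F] {U : Set E}
    (hU : IsOpen U) {f : E → F} {M : ℝ} (h : ∀ p ∈ U, ∀ q ∈ U, ‖f q - f p‖ ≤ M * ‖q - p‖) :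
    ContinuousOn f U := by
  intro p hp
  refine ContinuousAt.continuousWithinAt ?_
  refine tendsto_iff_norm_sub_tendsto_zero.2 ?_
  have h2 : Tendsto (fun q => M * ‖q - p‖) (𝓝 p) (𝓝 0) := by
    have h3 : Continuous fun q : E => M * ‖q - p‖ := by fun_prop
    simpa using h3.tendsto p
  refine squeeze_zero' (Eventually.of_forall fun q => norm_nonneg _) ?_ h2
  filter_upwards [hU.mem_nhds hp] with q hq
  exact h p hp q hq

theorem sJ4 : SJ4 := by
  intro d D M r p0 g A B hr hJ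
  have hp0 : p0 ∈ ball p0 r := mem_ball_self hr
  have hg : ∀ p ∈ ball p0 r, HasFDerivAt g (A p) p := fun p hp =>
    der_KJ4 isOpen_ball hp fun q hq => by simpa using hJ.t0 p hp q hq
  have hA : ∀ p ∈ ball p0 r, HasFDerivAt A (B p) p := fun p hp =>
    der_KJ4 isOpen_ball hp fun q hq => hJ.t1 p hp q hq
  have hB := cont_KJ4 (E := ℝ × EE d) (F := ℝ × EE d →L[ℝ] ℝ × EE d →L[ℝ] ℝ) (f := B)
    isOpen_ball hJ.t2
  have hA1 : ContDiffAt ℝ 1 A p0 :=
    contDiffAt_one_iff.2 ⟨B, ball p0 r, isOpen_ball.mem_nhds hp0, hB, hA⟩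
  have hg2 : ContDiffAt ℝ 2 g p0 :=
    (contDiffAt_succ_iff_hasFDerivAt (n := 1)).2
      ⟨A, ⟨ball p0 r, isOpen_ball.mem_nhds hp0, hg⟩, hA1⟩
  have hi : ∀ x : EE d, HasFDerivAt (fun x : EE d => (p0.1, x))
      (ContinuousLinearMap.inr ℝ ℝ (EE d)) x := fun x => hasFDerivAt_prodMk_right p0.1 x
  have hc : Continuous fun x : EE d => (p0.1, x) := by fun_prop
  have hn : ∀ᶠ x in 𝓝 p0.2, (p0.1, x) ∈ ball p0 r :=
    hc.continuousAt.preimage_mem_nhds (isOpen_ball.mem_nhds hp0)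
  have h1 : fderiv ℝ (fun x => g (p0.1, x)) =ᶠ[𝓝 p0.2]
      fun x => (A (p0.1, x)).comp (ContinuousLinearMap.inr ℝ ℝ (EE d)) := by
    filter_upwards [hn] with x hx
    exact ((hg _ hx).comp x (hi x)).fderiv
  have h2 : ∀ v w : EE d, fderiv ℝ (fderiv ℝ fun x => g (p0.1, x)) p0.2 v w =
      B p0 (0, v) (0, w) := by
    intro v w
    rw [h1.fderiv_eq]
    have h3 : HasFDerivAt (fun x : EE d => A (p0.1, x))
        ((B p0).comp (ContinuousLinearMap.inr ℝ ℝ (EE d))) p0.2 := (hA p0 hp0).comp p0.2 (hi p0.2)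
    have h4 := h3.clm_comp (hasFDerivAt_const (ContinuousLinearMap.inr ℝ ℝ (EE d)) p0.2)
    rw [h4.fderiv]
    simp
  refine ⟨(hg p0 hp0).continuousAt, hg2.comp p0.2 (by fun_prop), ?_⟩
  have h5 : HasDerivAt (fun t : ℝ => (t, p0.2)) ((1 : ℝ), (0 : EE d)) p0.1 :=
    (hasDerivAt_id p0.1).prodMk (hasDerivAt_const p0.1 p0.2)
  have h6 := (hg p0 hp0).comp_hasDerivAt p0.1 h5
  have h7 := hJ.eq p0 hp0
  unfold HR at h7
  rw [h7] at h6
  have h8 : Δ (fun x => g (p0.1, x)) p0.2 = ∑ i : Fin d,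
      B p0 (0, EuclideanSpace.basisFun (Fin d) ℝ i) (0, EuclideanSpace.basisFun (Fin d) ℝ i) := by
    rw [InnerProductSpace.laplacian_eq_iteratedFDeriv_orthonormalBasis _
      (EuclideanSpace.basisFun (Fin d) ℝ)]
    refine Finset.sum_congr rfl fun i _ => ?_
    rw [iteratedFDeriv_two_apply]
    exact h2 _ _
  rw [h8]
  exact h6

end

section

theorem ev_KLa (t : ℝ) : ∀ᶠ m : ℕ in hyperfilter ℕ,
    t ≤ (((m * 2 ^ m : ℕ) : ℝ) + 1) * (1 / 2) ^ m := by
  refine Nat.hyperfilter_le_atTop ?_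
  filter_upwards [eventually_ge_atTop ⌈t⌉₊] with m hm
  have h1 : t ≤ m := Nat.ceil_le.1 hm
  have h2 : (2 : ℝ) ^ m * (1 / 2) ^ m = 1 := by rw [← mul_pow]; norm_num
  have h3 : (0 : ℝ) < (1 / 2) ^ m := by positivity
  push_cast
  rw [add_mul, mul_assoc, h2]
  linarith

theorem sLa (hT : SGaT) (hP : SPos) : SLa := by
  intro d R D hD
  have hE : ∀ t > 0, ∀ x y : EE d, ∀ᶠ m : ℕ in hyperfilter ℕ,
      0 ≤ kk R D m t x y ∧ kk R D m t x y ≤ gauss D t (x - y) ∧
      ∀ η ≥ 0, (∀ τ ∈ Ioc 0 t, ∀ z ∉ ball (0 : EE d) R, gauss D τ (z - y) ≤ η) →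
        gauss D t (x - y) - kk R D m t x y ≤ η := fun t ht x y =>
    (ev_KLa t).mono fun m hm => hP d R D _ t _ x y hD (by positivity) ht hm
  refine ⟨?_, fun K hK => ⟨fun t ht x y =>
    ge_of_tendsto (hK t ht x y) ((hE t ht x y).mono fun m h => h.1), fun y hy => ?_⟩⟩
  · have h : ∀ (t : ℝ) (x y : EE d), ∃ c : ℝ, 0 < t →
        Tendsto (fun m => kk R D m t x y) (hyperfilter ℕ) (𝓝 c) := fun t x y => by
      by_cases ht : 0 < t
      · obtain ⟨c, -, hc⟩ := (isCompact_Icc (a := (0 : ℝ)) (b := gauss D t (x - y))).ultrafilter_le_nhds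
          ((hyperfilter ℕ).map fun m => kk R D m t x y)
          (le_principal_iff.2 ((hE t ht x y).mono fun m h => ⟨h.1, h.2.1⟩))
        exact ⟨c, fun _ => hc⟩
      · exact ⟨0, fun h => absurd h ht⟩
    choose K hK using h
    exact ⟨K, fun t ht x y => hK t x y ht⟩
  · rw [Metric.tendstoUniformlyOn_iff]
    intro ε hε
    rw [mem_ball_zero_iff] at hy
    obtain ⟨t0, h0, ht0⟩ := hT d D (R - ‖y‖) (ε / 2) hD (by linarith) (by linarith)
    filter_upwards [Ioo_mem_nhdsGT h0] with t ht x _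
    have h1 : K t x y ≤ gauss D t (x - y) :=
      le_of_tendsto (hK t ht.1 x y) ((hE t ht.1 x y).mono fun m h => h.2.1)
    have h2 : gauss D t (x - y) - ε / 2 ≤ K t x y := by
      refine ge_of_tendsto (hK t ht.1 x y) ((hE t ht.1 x y).mono fun m h => ?_)
      have := h.2.2 (ε / 2) (by linarith) fun τ hτ z hz =>
        (ht0 τ ⟨hτ.1, hτ.2.trans_lt ht.2⟩ (z - y)).1 (by
          rw [mem_ball_zero_iff, not_lt] at hz
          linarith [norm_sub_norm_le z y])
      linarith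
    rw [Real.dist_eq, abs_lt]
    constructor <;> linarith

end

section

theorem sLb (hB : SBd) : SLb := by
  intro d R D K hd hR hD hK t0 ht0
  obtain ⟨C, C0, hC⟩ := hB d R D t0 hd hR hD ht0
  refine ⟨C, C0, fun t ht x hx y => le_of_forall_pos_le_add fun ε hε => ?_⟩
  obtain ⟨h0, h0p, h1⟩ := hC (ε / (C + 1)) (by positivity)
  have e1 : ∀ᶠ m : ℕ in atTop, (1 / 2 : ℝ) ^ m < h0 :=
    (tendsto_pow_atTop_nhds_zero_of_lt_one (by norm_num) (by norm_num)).eventually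
      (gt_mem_nhds h0p)
  have e2 : ∀ᶠ m : ℕ in atTop, t ≤ (m : ℝ) := tendsto_natCast_atTop_atTop.eventually_ge_atTop t
  have e3 : ∀ᶠ m : ℕ in atTop, kk R D m t x y ≤ C * psi R (ε / (C + 1)) x := by
    filter_upwards [e1, e2] with m a1 a2
    refine h1 _ ⟨by positivity, a1⟩ _ t ht ?_ x hx y
    have a3 : (2 : ℝ) ^ m * (1 / 2) ^ m = 1 := by rw [← mul_pow]; norm_num
    have a4 : (0 : ℝ) < (1 / 2) ^ m := by positivity
    push_cast
    rw [add_mul, mul_assoc, a3]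
    linarith
  refine (le_of_tendsto (hK t (ht0.trans_le ht) x y)
    (e3.filter_mono Nat.hyperfilter_le_atTop)).trans ?_
  have a5 : C * (ε / (C + 1)) ≤ ε := by
    rw [← mul_div_assoc, div_le_iff₀ (by positivity)]
    nlinarith
  unfold psi
  linarith

end

section

theorem mono_KLh {d : ℕ} {D M : ℝ} {U W : Set (ℝ × EE d)} {f : ℝ × EE d → ℝ}
    {A : ℝ × EE d → ℝ × EE d →L[ℝ] ℝ} {B : ℝ × EE d → ℝ × EE d →L[ℝ] ℝ × EE d →L[ℝ] ℝ}
    (h : Jet D U M f A B) (hW : W ⊆ U) : Jet D W M f A B :=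
  ⟨fun p hp q hq => h.t0 p (hW hp) q (hW hq), fun p hp q hq => h.t1 p (hW hp) q (hW hq),
    fun p hp q hq => h.t2 p (hW hp) q (hW hq), fun p hp => h.b0 p (hW hp),
    fun p hp => h.b1 p (hW hp), fun p hp => h.b2 p (hW hp), fun p hp => h.eq p (hW hp)⟩

theorem sLh (hH : SGaH) (hG : SGc) (h2 : SJ2) (h3 : SJ3) (h4 : SJ4) : SLh := by
  intro d R D K hD hK t ht x hx y
  obtain ⟨r, hr, M, hJ⟩ := h2 d R D (t, x) hD hx
  have hr' : 0 < min r t := lt_min hr ht
  obtain ⟨A, B, hAB⟩ := h3 d D M (ball (t, x) (min r t))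
    (fun m => ww R D ((1 / 2) ^ m) (m * 2 ^ m) y)
    (fun p => gauss D p.1 (p.2 - y) - K p.1 p.2 y) (fun m => by
      obtain ⟨A, B, h⟩ := hJ ((1 / 2) ^ m) (by positivity) (m * 2 ^ m) y
      exact ⟨A, B, mono_KLh h (ball_subset_ball (min_le_left _ _))⟩) (fun p hp => by
      have h5 : dist p.1 t < t :=
        (le_max_left _ _).trans_lt ((mem_ball.1 hp).trans_le (min_le_right r t))
      have h6 : 0 < p.1 := by
        rw [Real.dist_eq] at h5
        linarith [(abs_lt.1 h5).1]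
      refine ((hK p.1 h6 p.2 y).const_sub (gauss D p.1 (p.2 - y))).congr fun m => ?_
      simp only [kk, kn, sub_sub_cancel])
  obtain ⟨c1, c2, c3⟩ := h4 d D M _ (t, x) _ A B hr' hAB
  obtain ⟨g2, g3⟩ := (hH d R D (t / 2) t y hD (half_pos ht)).2 t ⟨half_lt_self ht, le_rfl⟩ x hx
  have g1 : ContinuousAt (fun p : ℝ × EE d => gauss D p.1 (p.2 - y)) (t, x) := by
    have e1 : ContinuousAt (fun p : ℝ × EE d => gauss D p.1 p.2) (t, x - y) :=
      (hG d D hD).1.continuousAt ((isOpen_Ioi.prod isOpen_univ).mem_nhds ⟨ht, mem_univ _⟩)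
    exact ContinuousAt.comp (f := fun p : ℝ × EE d => (p.1, p.2 - y)) (x := (t, x)) e1
      (by fun_prop)
  have e2 : (fun x' => K t x' y) = (fun x' => gauss D t (x' - y)) -
      fun x' => gauss D t (x' - y) - K t x' y := by
    funext x'
    simp
  refine ⟨?_, ?_, ?_⟩
  · simpa only [sub_sub_cancel] using g1.fun_sub c1
  · rw [e2]
    exact g2.sub c2
  · rw [e2, ContDiffAt.laplacian_sub g2 c2, mul_sub]
    simpa only [sub_sub_cancel] using g3.fun_sub c3

end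

section

theorem sLy0 (hG : SGc) (hAs : SAs) (hId : SId) (hP : SPos) (hB : SBd) (h2 : SJ2) : SLy0 := by
  intro d R D s hd hR hD hs y0 hy0 η hη
  have key : ∀ h > 0, ∀ i : ℕ, ((i : ℝ) + 1) * h = s → ∀ y z : EE d,
      aa R D h y i z = kn R D h i s y z := fun h hh i hi y z => by
    rw [hAs d R D h i z y hD hh, ← hi, (hId d R D h s i y z hD hh).2.2.1 i le_rfl]
  rcases (mem_closedBall_zero_iff.1 hy0).eq_or_lt with he | hl
  · obtain ⟨C, hC, h3⟩ := hB d R D s hd hR hD hs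
    obtain ⟨h0, hh0, h4⟩ := h3 (η / (C + 1)) (by positivity)
    have h5 : C * psi R (η / (C + 1)) y0 < η := by
      unfold psi
      rw [he, sub_self, zero_add, ← mul_div_assoc, div_lt_iff₀ (by positivity)]
      linarith
    have h6 : Continuous fun y : EE d => C * psi R (η / (C + 1)) y := by
      unfold psi
      fun_prop
    obtain ⟨δ, hδ, h7⟩ := Metric.eventually_nhds_iff.1
      (h6.continuousAt.eventually_lt continuousAt_const h5)
    refine ⟨δ, hδ, h0, hh0, fun h hh i hi y hy hyd z _ => ?_⟩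
    rw [key h hh.1 i hi, key h hh.1 i hi]
    have a1 := (hP d R D h s i y z hD hh.1 hs hi.ge).1
    have a2 := (hP d R D h s i y0 z hD hh.1 hs hi.ge).1
    have a3 := h4 h hh i s le_rfl hi.ge y hy z
    have a4 := h4 h hh i s le_rfl hi.ge y0 hy0 z
    have a5 := h7 hyd
    exact abs_le.2 ⟨by linarith, by linarith⟩
  obtain ⟨r, hr, M, h3⟩ := h2 d R D (s, y0) hD (mem_ball_zero_iff.2 hl)
  have h6 : Continuous fun y : EE d => M * ‖y - y0‖ ^ 2 + M * ‖y - y0‖ := by fun_prop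
  obtain ⟨δ, hδ, h7⟩ := Metric.eventually_nhds_iff.1 ((h6.continuousAt (x := y0)).eventually_lt
    (continuousAt_const (y := η / 2)) (by simpa using hη))
  obtain ⟨δ', hδ', h8⟩ := Metric.uniformContinuousOn_iff.1
    ((isCompact_closedBall (0 : EE d) (R + R)).uniformContinuousOn_of_continuous
      ((hG d D hD).2.1 s hs).continuousOn) (η / 2) (half_pos hη)
  refine ⟨min r (min δ δ'), by positivity, 1, one_pos, fun h hh i hi y hy hyd z hz => ?_⟩
  simp only [lt_min_iff] at hyd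
  obtain ⟨A, B, J⟩ := h3 h hh.1 i z
  have hq : (s, y) ∈ ball (s, y0) r := by simpa [Prod.dist_eq, hr] using hyd.1
  have hn : ‖((s, y) : ℝ × EE d) - (s, y0)‖ = ‖y - y0‖ := by simp [Prod.norm_def]
  have hb : ∀ x ∈ closedBall (0 : EE d) R, x - z ∈ closedBall (0 : EE d) (R + R) := fun x hx =>
    mem_closedBall_zero_iff.2 ((norm_sub_le _ _).trans
      (add_le_add (mem_closedBall_zero_iff.1 hx) (mem_ball_zero_iff.1 hz).le))
  have a1 := abs_le.1 (J.t0 _ (mem_ball_self hr) _ hq)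
  have a2 := abs_le.1 ((A (s, y0)).le_of_opNorm_le (J.b1 _ (mem_ball_self hr)) ((s, y) - (s, y0)))
  have a3 := h7 hyd.2.1
  have a4 := abs_lt.1 (h8 _ (hb y hy) _ (hb y0 hy0) (by simpa using hyd.2.2))
  rw [hn] at a1 a2
  rw [key h hh.1 i hi, key h hh.1 i hi, kn, kn]
  exact abs_le.2 ⟨by linarith, by linarith⟩

end

section

theorem sLy (h0 : SLy0) (hC : SCon) : SLy := by
  intro d R D K hd hR hD hL t0 ht0 y0 hy0 η hη
  obtain ⟨k, hk⟩ := exists_pow_lt_of_lt_one ht0 (by norm_num : (1 / 2 : ℝ) < 1)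
  obtain ⟨δ, hδ, h1, hh1, H⟩ := h0 d R D ((1 / 2) ^ k) hd hR hD (by positivity) y0 hy0 η hη
  refine ⟨δ, hδ, fun t ht x y hy hyy => ?_⟩
  have t0' : 0 < t := ht0.trans_le ht
  refine le_of_tendsto ((hL t t0' x y).sub (hL t t0' x y0)).abs
    (Eventually.filter_mono Nat.hyperfilter_le_atTop ?_)
  have e1 : ∀ᶠ m : ℕ in atTop, (1 / 2 : ℝ) ^ m < h1 :=
    (tendsto_pow_atTop_nhds_zero_of_lt_one (by norm_num) (by norm_num)).eventually (gt_mem_nhds hh1)
  have e2 : ∀ᶠ m : ℕ in atTop, t ≤ m := tendsto_natCast_atTop_atTop.eventually_ge_atTop t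
  filter_upwards [e1, e2, eventually_ge_atTop k] with m a b c
  have e : ∀ j : ℕ, (2 : ℝ) ^ j * (1 / 2) ^ j = 1 := fun j => by rw [← mul_pow]; norm_num
  have hi : (((2 ^ (m - k) - 1 : ℕ) : ℝ) + 1) * (1 / 2) ^ m = (1 / 2) ^ k := by
    obtain ⟨j, rfl⟩ := Nat.exists_eq_add_of_le c
    rw [Nat.add_sub_cancel_left, Nat.cast_sub Nat.one_le_two_pow, pow_add]
    push_cast
    linear_combination (1 / 2 : ℝ) ^ k * e j
  refine hC d R D _ t η _ (2 ^ (m - k) - 1) x y y0 hD (by positivity) hη.le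
    (by rw [hi]; linarith) ?_ (H _ ⟨by positivity, a⟩ _ hi y hy hyy)
  have p : (0 : ℝ) < (1 / 2) ^ m := by positivity
  push_cast
  rw [add_mul, mul_assoc, e]
  linarith

end

section

theorem sKer (ha : SLa) (hb : SLb) (hh : SLh) (hy : SLy) : SKer := by
  intro d R D hd hR hD
  obtain ⟨⟨K, hK⟩, h2⟩ := ha d R D hD
  obtain ⟨pos, ini⟩ := h2 K hK
  have zero : ∀ t > 0, ∀ x : EE d, ‖x‖ = R → ∀ y, K t x y = 0 := by
    intro t ht x hx y
    obtain ⟨C, -, hC⟩ := hb d R D K hd hR hD hK t ht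
    have h1 := hC t le_rfl x (by simp [hx]) y
    rw [hx, sub_self, mul_zero] at h1
    exact le_antisymm h1 (pos t ht x y)
  refine ⟨K, ?_, fun t ht x hx y _ => (hh d R D K hD hK t ht x hx y).2,
    fun t ht x hx y _ => zero t ht x (by simpa using hx) y, ini⟩
  rintro ⟨t0, x0, y0⟩ ⟨ht0, hx0, hy0⟩
  have ht : (0 : ℝ) < t0 := ht0
  have hx : ‖x0‖ ≤ R := by simpa using hx0
  set S : Set (ℝ × EE d × EE d) := Ioi 0 ×ˢ closedBall 0 R ×ˢ closedBall 0 R with hS
  have near : ∀ᶠ p : ℝ × EE d × EE d in 𝓝[S] (t0, x0, y0), t0 / 2 ≤ p.1 :=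
    (continuous_fst.continuousAt.eventually
      (eventually_ge_nhds (show t0 / 2 < t0 by linarith))).filter_mono nhdsWithin_le_nhds
  have T1 : Tendsto (fun p : ℝ × EE d × EE d => K p.1 p.2.1 p.2.2 - K p.1 p.2.1 y0)
      (𝓝[S] (t0, x0, y0)) (𝓝 0) := by
    refine Metric.tendsto_nhds.2 fun ε hε => ?_
    obtain ⟨δ, hδ, h3⟩ := hy d R D K hd hR hD hK (t0 / 2) (by linarith) y0 hy0 (ε / 2)
      (by linarith)
    have n1 : Tendsto (fun p : ℝ × EE d × EE d => p.2.2) (𝓝 (t0, x0, y0)) (𝓝 y0) :=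
      (continuous_snd.comp continuous_snd).tendsto (t0, x0, y0)
    have n2 : ∀ᶠ p : ℝ × EE d × EE d in 𝓝[S] (t0, x0, y0), dist p.2.2 y0 < δ :=
      (Metric.tendsto_nhds.1 n1 δ hδ).filter_mono nhdsWithin_le_nhds
    filter_upwards [near, n2, self_mem_nhdsWithin] with p p1 p2 p3
    rw [Real.dist_eq, sub_zero]
    linarith [h3 p.1 p1 p.2.1 p.2.2 p3.2.2 p2]
  have T2 : Tendsto (fun p : ℝ × EE d × EE d => K p.1 p.2.1 y0) (𝓝[S] (t0, x0, y0))
      (𝓝 (K t0 x0 y0)) := by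
    rcases hx.lt_or_eq with l | e
    · have c1 := (hh d R D K hD hK t0 ht x0 (by simpa using l) y0).1
      have c2 : Tendsto (fun p : ℝ × EE d × EE d => (p.1, p.2.1)) (𝓝 (t0, x0, y0)) (𝓝 (t0, x0)) :=
        (continuous_fst.prodMk (continuous_fst.comp continuous_snd)).tendsto (t0, x0, y0)
      exact (c1.tendsto.comp c2).mono_left nhdsWithin_le_nhds
    · rw [zero t0 ht x0 e y0]
      obtain ⟨C, -, hC⟩ := hb d R D K hd hR hD hK (t0 / 2) (by linarith)
      have c3 : Continuous fun p : ℝ × EE d × EE d => C * (R ^ 2 - ‖p.2.1‖ ^ 2) := by fun_prop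
      have c4 : Tendsto (fun p : ℝ × EE d × EE d => C * (R ^ 2 - ‖p.2.1‖ ^ 2))
          (𝓝[S] (t0, x0, y0)) (𝓝 0) := by
        have c5 := (c3.tendsto (t0, x0, y0)).mono_left (nhdsWithin_le_nhds (s := S))
        simpa [e] using c5
      refine squeeze_zero' ?_ ?_ c4
      · filter_upwards [self_mem_nhdsWithin] with p p3 using pos p.1 p3.1 p.2.1 y0
      · filter_upwards [near, self_mem_nhdsWithin] with p p1 p3 using hC p.1 p1 p.2.1 p3.2.1 y0
  have T3 := T1.add T2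
  simp only [sub_add_cancel, zero_add] at T3
  exact T3

end

end Pool.Agent.MP_b33505_an
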