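import Pool.Agent.MP_b33505_an.Main
import Pool.Agent.MP_b33505_an.PA
import Pool.Agent.MP_b33505_an.PB
import Pool.Agent.MP_b33505_an.PC
import Pool.Agent.MP_b33505_an.PD
import Pool.Agent.MP_b33505_an.PE

namespace Pool.Agent.MP_b33505_an

theorem aStab : SStab := sStab sInt (sShift sInt)
theorem aDif : SDif := sDif sInt aStab
theorem aEx : SEx := sEx sInt aDif (sApx (sExL sInt) aStab)
theorem aG2 : SG2 := sG2 sG1 sG2a
theorem aF : SF := sF sB sF1
theorem aGaT : SGaT := sGaT sGaI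
theorem aKb : SKb := sKb sMax sLin sGaH sGaI aGaT
theorem aKinv : SKinv := sKinv sMax sLin
theorem aKini : SKini := sKini sGaI aGaT aKb
theorem aKlaw : SKlaw := sKlaw sLin aKini (sKsup sMax sLin)
theorem aPk1 : SPk1 := sPk1 sGaI aKb
theorem aP : SP := sP aPk1 (sPk2 aPk1) (sPk3 aPk1 aKlaw)
theorem aSym : SSym := sSym sInt aDif (sSym1 aKinv)
theorem aSumS : SSumS := sSumS sInt aPk1
theorem aPrA : SPrA := sPrA sB (sH10 sH1)
theorem aPress : SPress := sPress sB (sDiv sDivA)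
theorem aMild : SMild := sMild sInt aPk1 aPrA aPress

theorem aCK : SCK := sCK sGaI
theorem aQ : SQ := sQ sGaI sGc
theorem aAa : SAa := sAa sGaI sGc aCK
theorem aId : SId := sId (sId0 sGaI sGc aCK aAa)
theorem aPos : SPos := sPos sGaI sGc aCK aAa aId
theorem aBd : SBd :=
  sBd sGc aQ aAa aId (sSup sGaI sGc (sMom1 sGaI sGc) (sMom2 sGaI sGc)) (sBar aQ)
theorem aFlat : SFlat := sFlat sFl0
theorem aJ2 : SJ2 :=
  sJ2 aAa (sMass sGaI sGc aAa) aFlat (sScale aFlat) (sGtH sGaH aFlat) sJ1 sJi sJs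

/-- The Dirichlet heat kernel of a ball exists. -/
theorem aKer : SKer :=
  sKer (sLa aGaT aPos) (sLb aBd) (sLh sGaH sGc aJ2 sJ3 sJ4)
    (sLy (sLy0 sGc (sAs sGc aAa) aId aPos aBd aJ2) (sCon aQ aAa aId))

end Pool.Agent.MP_b33505_an
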