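import Mathlib

/-! The network formation system on a ball: Dirichlet heat kernel, pressure, mild solutions. -/

namespace Pool.Agent.MP_b33505_an

open MeasureTheory Set Metric Filter Topology
open scoped RealInnerProductSpace Laplacian

/-- Euclidean space of dimension `d`. -/
abbrev EE (d : ℕ) : Type := EuclideanSpace ℝ (Fin d)

variable {d : ℕ}

/-- The fundamental solution of `∂_t = D^2 Δ` on the whole space. -/
noncomputable def gauss (D t : ℝ) (x : EE d) : ℝ :=
  (4 * Real.pi * D ^ 2 * t) ^ (-(d : ℝ) / 2) * Real.exp (-‖x‖ ^ 2 / (4 * D ^ 2 * t))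

/-- `K` is the Dirichlet heat kernel of `D^2 Δ` on the ball of radius `R`: continuous up to the
boundary for `t > 0`, a classical solution of the heat equation in `(t, x)`, zero for `x` on the
boundary, and `K - gauss` tends to zero uniformly in `x` as `t` decreases to `0`. -/
structure IsKernel (R D : ℝ) (K : ℝ → EE d → EE d → ℝ) : Prop where
  cont : ContinuousOn (fun p : ℝ × EE d × EE d => K p.1 p.2.1 p.2.2)
    (Ioi 0 ×ˢ closedBall 0 R ×ˢ closedBall 0 R)
  heat : ∀ t > 0, ∀ x ∈ ball (0 : EE d) R, ∀ y ∈ ball (0 : EE d) R,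
    ContDiffAt ℝ 2 (fun x' => K t x' y) x ∧
      HasDerivAt (fun t' => K t' x y) (D ^ 2 * Δ (fun x' => K t x' y) x) t
  bdry : ∀ t > 0, ∀ x ∈ sphere (0 : EE d) R, ∀ y ∈ ball (0 : EE d) R, K t x y = 0
  init : ∀ y ∈ ball (0 : EE d) R, TendstoUniformlyOn (fun t x => K t x y - gauss D t (x - y))
    (fun _ => 0) (𝓝[>] 0) (closedBall 0 R)

/-- `C^1` functions with compact support in the open ball. -/
def Test (R : ℝ) (φ : EE d → ℝ) : Prop := ContDiff ℝ 1 φ ∧ tsupport φ ⊆ ball 0 R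

/-- `p` lies in `H^1_0` of the ball and `g` is its gradient. -/
def InH10 (R : ℝ) (p : EE d → ℝ) (g : EE d → EE d) : Prop :=
  MemLp p 2 (volume.restrict (ball 0 R)) ∧ MemLp g 2 (volume.restrict (ball 0 R)) ∧
    ∃ φ : ℕ → EE d → ℝ, (∀ n, Test R (φ n)) ∧
      Tendsto (fun n => ∫ x in ball 0 R, ((φ n x - p x) ^ 2 + ‖gradient (φ n) x - g x‖ ^ 2))
        atTop (𝓝 0)

/-- `g` is the gradient of the weak solution `p` in `H^1_0` of `-div ((I + m ⊗ m) ∇p) = S`. -/
def IsPressure (R : ℝ) (S : EE d → ℝ) (m g : EE d → EE d) : Prop :=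
  (∃ p, InH10 R p g) ∧ ∀ φ, Test R φ →
    ∫ x in ball 0 R, ⟪g x + ⟪m x, g x⟫ • m x, gradient φ x⟫ = ∫ x in ball 0 R, S x * φ x

/-- The damping term `|v|^(2(γ-1)) v`. -/
noncomputable def damp (γ : ℝ) (v : EE d) : EE d := ‖v‖ ^ (2 * (γ - 1)) • v

/-- The source `λ (v · g) g - |v|^(2(γ-1)) v`. -/
noncomputable def src (lam γ : ℝ) (v g : EE d) : EE d := lam • (⟪v, g⟫ • g) - damp γ v

/-- `m` is a fixed point of the Duhamel map on `(0, T]` with parameter `lam`; all integrals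
converge. -/
def IsMild (R : ℝ) (K : ℝ → EE d → EE d → ℝ) (S : EE d → ℝ) (γ T : ℝ) (mI : EE d → EE d) (lam : ℝ)
    (m : ℝ → EE d → EE d) : Prop :=
  ∃ g : ℝ → EE d → EE d, (∀ s ∈ Ioc 0 T, IsPressure R S (m s) (g s)) ∧
    ∀ t ∈ Ioc 0 T, ∀ x ∈ ball (0 : EE d) R,
      IntegrableOn (fun y => K t x y • mI y) (ball 0 R) ∧
      (∀ s ∈ Ioo 0 t,
        IntegrableOn (fun y => K (t - s) x y • src lam γ (m s y) (g s y)) (ball 0 R)) ∧
      IntegrableOn (fun s => ∫ y in ball 0 R, K (t - s) x y • src lam γ (m s y) (g s y))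
        (Ioo 0 t) ∧
      m t x = (∫ y in ball 0 R, K t x y • mI y) +
        ∫ s in Ioo 0 t, ∫ y in ball 0 R, K (t - s) x y • src lam γ (m s y) (g s y)

/-- The infinitesimal rotation in the plane spanned by `e` and `f`. -/
noncomputable def rotJ (e f x : EE d) : EE d := ⟪x, e⟫ • f - ⟪x, f⟫ • e

/-- A swirl in the plane of `e`, `f`: its amplitude depends on the squared length of the component
of `x` in the plane and on the component orthogonal to the plane. -/
noncomputable def swirl (e f : EE d) (w : ℝ × EE d → ℝ) (x : EE d) : EE d :=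
  w (⟪x, e⟫ ^ 2 + ⟪x, f⟫ ^ 2, x - ⟪x, e⟫ • e - ⟪x, f⟫ • f) • rotJ e f x

end Pool.Agent.MP_b33505_an
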