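import Pool.Agent.MP_b33505_an.GDefs

/-! The space of mild solutions of the network formation system on a ball. -/

namespace Pool.Agent.MP_b33505_an

open MeasureTheory Set Metric
open scoped ENNReal

variable {d : ℕ}

/-- `m` has values in VMO and is a fixed point of the Duhamel map with parameter `lam`; all
integrals converge. -/
def MildX (R : ℝ) (K : ℝ → EE d → EE d → ℝ) (S : EE d → ℝ) (γ T : ℝ) (mI : EE d → EE d)
    (lam : ℝ) (m : XT d R T) : Prop :=
  (∀ᵐ t ∂(volume.restrict (Ioo 0 T)), VMO R (m t)) ∧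
  ∃ g : ℝ → EE d → EE d, (∀ᵐ s ∂(volume.restrict (Ioo 0 T)), IsPressure R S (m s) (g s)) ∧
    ∀ᵐ t ∂(volume.restrict (Ioo 0 T)), ∀ᵐ x ∂(volume.restrict (ball (0 : EE d) R)),
      IntegrableOn (fun y => K t x y • mI y) (ball 0 R) ∧
      (∀ᵐ s ∂(volume.restrict (Ioo 0 t)),
        IntegrableOn (fun y => K (t - s) x y • src lam γ (m s y) (g s y)) (ball 0 R)) ∧
      IntegrableOn (fun s => ∫ y in ball 0 R, K (t - s) x y • src lam γ (m s y) (g s y))
        (Ioo 0 t) ∧
      m t x = (∫ y in ball 0 R, K t x y • mI y) +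
        ∫ s in Ioo 0 t, ∫ y in ball 0 R, K (t - s) x y • src lam γ (m s y) (g s y)

/-- The set of all pairs of a parameter `lam ≥ 0` and a mild solution `m`. -/
def SolX (R : ℝ) (K : ℝ → EE d → EE d → ℝ) (S : EE d → ℝ) (γ T : ℝ) (mI : EE d → EE d) :
    Set (ℝ × XT d R T) :=
  {q | 0 ≤ q.1 ∧ MildX R K S γ T mI q.1 q.2}

theorem sig_eq (R : ℝ) (K : ℝ → EE d → EE d → ℝ) (S : EE d → ℝ) (γ T : ℝ) (mI : EE d → EE d) :
    Sig R K S γ T mI = SolX R K S γ T mI := rfl

end Pool.Agent.MP_b33505_an
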