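import Pool.Agent.MP_b33505_an.St
import Pool.Agent.MP_b33505_an.NwDefs

/-! Toroidal data and the passage to the space of mild solutions. -/

set_option autoImplicit false

open Set MeasureTheory Filter Topology Metric
open scoped ENNReal RealInnerProductSpace Convolution

namespace Pool.Agent.MP_b33505_an.Nw

abbrev E (d : ℕ) : Type := EE d

variable {d : ℕ}

def Test (R : ℝ) (φ : E d → ℝ) : Prop :=
  ContDiff ℝ ((⊤ : ℕ∞) : WithTop ℕ∞) φ ∧ HasCompactSupport φ ∧ tsupport φ ⊆ ball 0 R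

structure Ker (R : ℝ) (k : ℝ → E d → E d → ℝ) : Prop where
  meas : Measurable (fun q : ℝ × E d × E d => k q.1 q.2.1 q.2.2)
  nn : ∀ t x y, 0 ≤ k t x y
  bdd : ∀ t, ∃ M : ℝ, ∀ x y, k t x y ≤ M
  mass : ∀ t x, ∫ y in ball 0 R, k t x y ≤ 1
  inv : ∀ (g : E d ≃ₗᵢ[ℝ] E d) t x y, k t (g x) (g y) = k t x y

/-- The semigroup. -/
noncomputable def P (k : ℝ → E d → E d → ℝ) (R t : ℝ) (f : E d → E d) (x : E d) : E d :=
  ∫ y in ball 0 R, k t x y • f y

/-- Measurable fields bounded on the ball. -/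
structure BM (R M : ℝ) (f : E d → E d) : Prop where
  nn : 0 ≤ M
  meas : Measurable f
  bd : ∀ x ∈ ball (0 : E d) R, ‖f x‖ ≤ M

/-- Equivariant fields. -/
def Eqv (z : E d → E d) : Prop := ∀ (g : E d ≃ₗᵢ[ℝ] E d) x, z (g x) = g (z x)

/-- Toroidal fields: orthogonal to `h e` for all `h` invariant under the stabiliser of `e`. -/
def Tor (R : ℝ) (n : E d → E d) : Prop :=
  ∀ (e : E d) (h : E d → ℝ) (M : ℝ), Measurable h → (∀ y, |h y| ≤ M) →
    (∀ g : E d ≃ₗᵢ[ℝ] E d, g e = e → ∀ y, h (g y) = h y) →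
    ∫ y in ball 0 R, h y * ⟪e, n y⟫ = 0

/-- `m` is represented by the function `z`. -/
def Rep (R T : ℝ) (m : XT d R T) (z : ℝ → E d → E d) : Prop :=
  ∀ᵐ t ∂(volume.restrict (Ioo 0 T)), (m t : E d → E d) =ᵐ[volume.restrict (ball 0 R)] z t

section tools
variable {R T M M' : ℝ} {k : ℝ → E d → E d → ℝ} {f f' : E d → E d}

instance fin_ball (R : ℝ) : IsFiniteMeasure (volume.restrict (ball (0 : E d) R)) :=
  isFiniteMeasure_restrict.2 measure_ball_lt_top.ne

theorem Ker.meas_y (hk : Ker R k) (t : ℝ) (x : E d) : Measurable (k t x) :=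
  hk.meas.comp (measurable_const.prodMk (measurable_const.prodMk measurable_id))

theorem Ker.int (hk : Ker R k) (t : ℝ) (x : E d) : IntegrableOn (k t x) (ball 0 R) := by
  obtain ⟨M, hM⟩ := hk.bdd t
  exact Integrable.of_bound (hk.meas_y t x).aestronglyMeasurable M
    (ae_of_all _ fun y => by rw [Real.norm_eq_abs, abs_of_nonneg (hk.nn t x y)]; exact hM x y)

theorem BM.int (hf : BM R M f) : IntegrableOn f (ball 0 R) :=
  Integrable.of_bound hf.meas.aestronglyMeasurable M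
    ((ae_restrict_mem measurableSet_ball).mono fun x hx => hf.bd x hx)

theorem P_int (hk : Ker R k) (hf : BM R M f) (t : ℝ) (x : E d) :
    IntegrableOn (fun y => k t x y • f y) (ball 0 R) := by
  refine Integrable.mono' ((hk.int t x).mul_const M)
    ((hk.meas_y t x).smul hf.meas).aestronglyMeasurable ?_
  refine (ae_restrict_mem measurableSet_ball).mono fun y hy => ?_
  rw [norm_smul, Real.norm_eq_abs, abs_of_nonneg (hk.nn t x y)]
  exact mul_le_mul_of_nonneg_left (hf.bd y hy) (hk.nn t x y)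

theorem P_le (hk : Ker R k) (hf : BM R M f) (t : ℝ) (x : E d) : ‖P k R t f x‖ ≤ M := by
  have h : ‖P k R t f x‖ ≤ ∫ y in ball 0 R, k t x y * M := by
    refine norm_integral_le_of_norm_le ((hk.int t x).mul_const M) ?_
    refine (ae_restrict_mem measurableSet_ball).mono fun y hy => ?_
    rw [norm_smul, Real.norm_eq_abs, abs_of_nonneg (hk.nn t x y)]
    exact mul_le_mul_of_nonneg_left (hf.bd y hy) (hk.nn t x y)
  rw [integral_mul_const] at h
  exact h.trans (by nlinarith [hk.mass t x, hf.nn])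

theorem P_meas (hk : Ker R k) (hf : Measurable f) (t : ℝ) : Measurable (P k R t f) := by
  have h1 : Measurable (fun w : E d × E d => k t w.1 w.2) :=
    hk.meas.comp (measurable_const.prodMk measurable_id)
  have h2 : Measurable (fun w : E d × E d => f w.2) := hf.comp measurable_snd
  have h : Measurable (fun w : E d × E d => k t w.1 w.2 • f w.2) := h1.smul h2
  exact (h.stronglyMeasurable.integral_prod_right' (ν := volume.restrict (ball 0 R))).measurable

end tools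

def STo1 (d : ℕ) : Prop := ∀ (R M t : ℝ) (k : ℝ → E d → E d → ℝ) (f : E d → E d), Ker R k →
  BM R M f → Tor R f → Tor R (P k R t f) ∧ ∀ x, ⟪P k R t f x, x⟫ = 0

def SZon (d : ℕ) : Prop := 2 ≤ d → ∀ (e : E d) (h : E d → ℝ), e ≠ 0 → Measurable h →
  (∀ g : E d ≃ₗᵢ[ℝ] E d, g e = e → ∀ y, h (g y) = h y) →
  ∃ G : ℝ × ℝ → ℝ, Measurable G ∧ (∀ q, ∃ y, G q = h y) ∧ ∀ y, h y = G (‖y‖ ^ 2, ⟪e, y⟫)

def SRad (d : ℕ) : Prop :=
  (∀ a : E d → E d, Eqv a → ∀ x, a x = (⟪a x, x⟫ / ‖x‖ ^ 2) • x) ∧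
  (1 ≤ d → ∀ (R C : ℝ) (h : E d → ℝ), 0 < R → Measurable h →
    (∀ x ∈ ball (0 : E d) R, |h x| ≤ C) → (∀ (g : E d ≃ₗᵢ[ℝ] E d) y, h (g y) = h y) →
    ∃ ρ : ℝ → ℝ, Measurable ρ ∧ (∀ τ, |ρ τ| ≤ C) ∧ ∀ x ∈ ball (0 : E d) R, h x = ρ (‖x‖ ^ 2))

def SA0 (d : ℕ) : Prop := ∀ (R : ℝ) (e : E d) (w : E d → ℝ), 0 < R → Measurable w →
  IntegrableOn w (ball 0 R) →
  (∀ χ η : ℝ → ℝ, ContDiff ℝ ((⊤ : ℕ∞) : WithTop ℕ∞) χ → ContDiff ℝ ((⊤ : ℕ∞) : WithTop ℕ∞) η →
    tsupport χ ⊆ Iio (R ^ 2) → ∫ y in ball 0 R, χ (‖y‖ ^ 2) * η ⟪e, y⟫ * w y = 0) →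
  ∀ (G : ℝ × ℝ → ℝ) (M : ℝ), Measurable G → (∀ q, |G q| ≤ M) →
    ∫ y in ball 0 R, G (‖y‖ ^ 2, ⟪e, y⟫) * w y = 0

def SA1 (d : ℕ) : Prop := ∀ (R : ℝ) (e : E d) (N : E d → E d), 0 < R →
  (∀ x ∈ ball (0 : E d) R, ⟪N x, x⟫ = 0) →
  (∀ φ : E d → ℝ, Test R φ → ∫ x in ball 0 R, ⟪N x, gradient φ x⟫ = 0) →
  ∀ χ η : ℝ → ℝ, ContDiff ℝ ((⊤ : ℕ∞) : WithTop ℕ∞) χ → ContDiff ℝ ((⊤ : ℕ∞) : WithTop ℕ∞) η →
    tsupport χ ⊆ Iio (R ^ 2) → ∫ y in ball 0 R, χ (‖y‖ ^ 2) * η ⟪e, y⟫ * ⟪e, N y⟫ = 0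

def SFo (d : ℕ) : Prop := ∀ (φ : E d → ℝ), ContDiff ℝ ((⊤ : ℕ∞) : WithTop ℕ∞) φ →
  HasCompactSupport φ → ∃ A B : E d → ℝ, Continuous A ∧ Continuous B ∧
    Integrable (fun ξ => ‖ξ‖ * |A ξ|) ∧ Integrable (fun ξ => ‖ξ‖ * |B ξ|) ∧
    ∀ x v : E d, ⟪v, gradient φ x⟫ =
      ∫ ξ, ⟪ξ, v⟫ * (A ξ * Real.cos (2 * Real.pi * ⟪ξ, x⟫) + B ξ * Real.sin (2 * Real.pi * ⟪ξ, x⟫))

def SVmo (d : ℕ) : Prop := ∀ (R : ℝ) (f f' : E d → E d), ContinuousOn f (closedBall 0 R) →
  f' =ᵐ[volume.restrict (ball 0 R)] f → VMO R f'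

def SDist (d : ℕ) : Prop := ∀ (R T ε : ℝ) (m m' : XT d R T) (z z' : ℝ → E d → E d), 0 ≤ ε →
  Rep R T m z → Rep R T m' z' →
  (∀ t ∈ Ioo (0 : ℝ) T, ∀ x ∈ ball (0 : E d) R, ‖z t x - z' t x‖ ≤ ε) → dist m m' ≤ ε

def SB (d : ℕ) : Prop := ∀ (R M C : ℝ) (n : E d → E d) (h φ : E d → ℝ), BM R M n → Tor R n →
  Measurable h → (∀ x ∈ ball (0 : E d) R, |h x| ≤ C) →
  (∀ (g : E d ≃ₗᵢ[ℝ] E d) y, h (g y) = h y) →
  ContDiff ℝ ((⊤ : ℕ∞) : WithTop ℕ∞) φ ∧ HasCompactSupport φ →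
  ∫ y in ball 0 R, h y * ⟪n y, gradient φ y⟫ = 0

def SEmb (d : ℕ) : Prop := ∀ (R T M : ℝ) (z : ℝ → E d → E d), 0 ≤ M →
  (∀ t ∈ Ioo (0 : ℝ) T, ∀ x ∈ ball (0 : E d) R, ‖z t x‖ ≤ M) →
  ContinuousOn (fun q : ℝ × E d => z q.1 q.2) (Ioo 0 T ×ˢ closedBall 0 R) →
  ∃ m : XT d R T, Rep R T m z

theorem inner_To1 {R M : ℝ} {k : ℝ → E d → E d → ℝ} {f : E d → E d} (hk : Ker R k)
    (hf : BM R M f) (t : ℝ) (e x : E d) :
    ⟪e, P k R t f x⟫ = ∫ y in ball 0 R, k t x y * ⟪e, f y⟫ := by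
  unfold P
  rw [← integral_inner (P_int hk hf t x)]
  simp only [inner_smul_right]

theorem cv_To1 (R : ℝ) (g : E d ≃ₗᵢ[ℝ] E d) (F : E d → ℝ) :
    ∫ x in ball 0 R, F (g x) = ∫ x in ball 0 R, F x := by
  have h := g.measurePreserving.setIntegral_preimage_emb
    g.toHomeomorph.measurableEmbedding F (ball 0 R)
  rwa [LinearIsometryEquiv.preimage_ball, map_zero] at h

theorem sTo1 : STo1 d := by
  intro R M t k f hk hf hT
  obtain ⟨K, hK⟩ := hk.bdd t
  have hK' : ∀ x y, |k t x y| ≤ K := fun x y => by rw [abs_of_nonneg (hk.nn t x y)]; exact hK x y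
  have K0 : 0 ≤ K := (abs_nonneg _).trans (hK' 0 0)
  have hkm : Measurable fun q : E d × E d => k t q.1 q.2 :=
    hk.meas.comp (measurable_const.prodMk measurable_id)
  refine ⟨fun e h N hm hN hinv => ?_, fun x => ?_⟩
  · have N0 : 0 ≤ N := (abs_nonneg _).trans (hN 0)
    have m1 : Measurable fun q : E d × E d => h q.1 * k t q.1 q.2 :=
      (hm.comp measurable_fst).mul hkm
    have b1 : ∀ x y, ‖h x * k t x y‖ ≤ N * K := fun x y => by
      rw [norm_mul]
      exact mul_le_mul (hN x) (hK' x y) (norm_nonneg _) N0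
    have m2 : Measurable fun y => ⟪e, f y⟫ := measurable_const.inner hf.meas
    have hi : Integrable (Function.uncurry fun x y => h x * k t x y * ⟪e, f y⟫)
        ((volume.restrict (ball (0 : E d) R)).prod (volume.restrict (ball (0 : E d) R))) := by
      refine Integrable.of_bound (m1.mul (m2.comp measurable_snd)).aestronglyMeasurable
        (N * K * (‖e‖ * M)) ?_
      have a : ∀ᵐ q ∂(volume.restrict (ball (0 : E d) R)).prod
          (volume.restrict (ball (0 : E d) R)), q.2 ∈ ball (0 : E d) R :=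
        Measure.quasiMeasurePreserving_snd.ae (ae_restrict_mem measurableSet_ball)
      refine a.mono fun q hq => ?_
      change ‖h q.1 * k t q.1 q.2 * ⟪e, f q.2⟫‖ ≤ _
      rw [norm_mul]
      exact mul_le_mul (b1 _ _) ((norm_inner_le_norm _ _).trans
        (mul_le_mul_of_nonneg_left (hf.bd _ hq) (norm_nonneg e))) (norm_nonneg _)
        (mul_nonneg N0 K0)
    have key := hT e (fun y => ∫ x in ball 0 R, h x * k t x y)
      (N * K * volume.real (ball (0 : E d) R))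
      (m1.stronglyMeasurable.integral_prod_left' (μ := volume.restrict (ball 0 R))).measurable
      (fun y => norm_setIntegral_le_of_norm_le_const measure_ball_lt_top fun x _ => b1 x y)
      fun g hg y => by
        rw [← cv_To1 R g fun x => h x * k t x (g y)]
        simp only [hinv g hg, hk.inv]
    simp only [inner_To1 hk hf, ← integral_const_mul, ← mul_assoc]
    rw [integral_integral_swap hi]
    simpa only [integral_mul_const] using key
  · rw [real_inner_comm, inner_To1 hk hf]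
    refine hT x (k t x) K (hk.meas_y t x) (hK' x) fun g hg y => ?_
    rw [← hk.inv g t x y, hg]

theorem refl_Zon {y y' : E d} (h : ‖y‖ = ‖y'‖) :
    ∃ g : E d ≃ₗᵢ[ℝ] E d, g y = y' ∧ ∀ e, ⟪e, y⟫ = ⟪e, y'⟫ → g e = e :=
  ⟨(ℝ ∙ (y - y'))ᗮ.reflection, Submodule.reflection_sub h, fun e he =>
    Submodule.reflection_mem_subspace_eq_self
      (Submodule.mem_orthogonal_singleton_iff_inner_left.2 (by rw [inner_sub_right, he, sub_self]))⟩

theorem perp_Zon (hd : 2 ≤ d) {e : E d} (he : e ≠ 0) : ∃ u : E d, ‖u‖ = 1 ∧ ⟪e, u⟫ = 0 := by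
  have h1 := Submodule.finrank_add_finrank_orthogonal (ℝ ∙ e)
  rw [finrank_span_singleton he, finrank_euclideanSpace_fin] at h1
  have h2 : (ℝ ∙ e)ᗮ ≠ ⊥ := fun h => by
    rw [h, finrank_bot] at h1
    omega
  obtain ⟨v, hv, v0⟩ := Submodule.exists_mem_ne_zero_of_ne_bot h2
  refine ⟨‖v‖⁻¹ • v, norm_smul_inv_norm v0, ?_⟩
  rw [inner_smul_right, Submodule.mem_orthogonal_singleton_iff_inner_right.1 hv, mul_zero]

theorem sZon : SZon d := by
  intro hd e h he hm hi
  obtain ⟨u, u1, u2⟩ := perp_Zon hd he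
  have e0 : ‖e‖ ≠ 0 := norm_ne_zero_iff.2 he
  refine ⟨fun q => h ((q.2 / ‖e‖ ^ 2) • e + √(q.1 - q.2 ^ 2 / ‖e‖ ^ 2) • u),
    hm.comp (by fun_prop), fun q => ⟨_, rfl⟩, fun y => ?_⟩
  have h1 : 0 ≤ ‖y‖ ^ 2 - ⟪e, y⟫ ^ 2 / ‖e‖ ^ 2 := by
    rw [sub_nonneg, div_le_iff₀ (by positivity), ← mul_pow, mul_comm, ← sq_abs]
    exact pow_le_pow_left₀ (abs_nonneg _) (abs_real_inner_le_norm e y) 2
  have h2 : ‖y‖ = ‖(⟪e, y⟫ / ‖e‖ ^ 2) • e + √(‖y‖ ^ 2 - ⟪e, y⟫ ^ 2 / ‖e‖ ^ 2) • u‖ := by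
    refine (sq_eq_sq₀ (norm_nonneg _) (norm_nonneg _)).1 ?_
    rw [norm_add_sq_real, inner_smul_left, inner_smul_right, u2, norm_smul, norm_smul, u1,
      mul_one, mul_pow, Real.norm_eq_abs, Real.norm_eq_abs, sq_abs, sq_abs, Real.sq_sqrt h1]
    field_simp
    ring
  obtain ⟨g, g1, g2⟩ := refl_Zon h2
  have g3 := g2 e (by
    rw [inner_add_right, inner_smul_right, inner_smul_right, u2, real_inner_self_eq_norm_sq]
    field_simp
    ring)
  rw [← hi g g3 y, g1]

theorem sRad : SRad d := by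
  refine ⟨fun a ha x => ?_, fun hd R C h hR hm hb hi => ?_⟩
  · obtain ⟨v, hv⟩ : ∃ v, v = a x - (⟪a x, x⟫ / ‖x‖ ^ 2) • x := ⟨_, rfl⟩
    have h1 : ⟪x, v⟫ = 0 := by
      by_cases x0 : x = 0
      · rw [x0, inner_zero_left]
      · have := norm_ne_zero_iff.2 x0
        rw [hv, inner_sub_right, inner_smul_right, real_inner_self_eq_norm_sq, real_inner_comm]
        field_simp
        ring
    obtain ⟨g, g1, g2⟩ := refl_Zon (norm_neg v).symm
    have g3 := g2 x (by rw [inner_neg_right, h1, neg_zero])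
    have g4 := ha g x
    rw [g3] at g4
    have g5 : g v = v := by rw [hv, map_sub, map_smul, ← g4, g3]
    have g6 : (2 : ℝ) • v = 0 := by
      rw [two_smul]
      exact eq_neg_iff_add_eq_zero.1 (g5.symm.trans g1)
    have g7 : v = 0 := (smul_eq_zero.1 g6).resolve_left two_ne_zero
    exact sub_eq_zero.1 (hv.symm.trans g7)
  · obtain ⟨u, hu⟩ : ∃ u : E d, ‖u‖ = 1 := ⟨EuclideanSpace.single ⟨0, hd⟩ 1, by simp⟩
    have hn : ∀ t : ℝ, ‖√t • u‖ = √t := fun t => by
      rw [norm_smul, hu, mul_one, Real.norm_of_nonneg (Real.sqrt_nonneg t)]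
    refine ⟨(Ico 0 (R ^ 2)).indicator fun t => h (√t • u),
      (hm.comp (by fun_prop)).indicator measurableSet_Ico, fun τ => ?_, fun x hx => ?_⟩
    · by_cases hτ : τ ∈ Ico 0 (R ^ 2)
      · rw [indicator_of_mem hτ]
        exact hb _ (by rw [mem_ball_zero_iff, hn]; exact (Real.sqrt_lt' hR).2 hτ.2)
      · rw [indicator_of_notMem hτ, abs_zero]
        exact (abs_nonneg _).trans (hb 0 (mem_ball_self hR))
    · have h1 : ‖x‖ ^ 2 ∈ Ico 0 (R ^ 2) :=
        ⟨sq_nonneg _, pow_lt_pow_left₀ (mem_ball_zero_iff.1 hx) (norm_nonneg _) two_ne_zero⟩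
      obtain ⟨g, g1, -⟩ := refl_Zon (y := x) (y' := √(‖x‖ ^ 2) • u)
        (by rw [hn, Real.sqrt_sq (norm_nonneg _)])
      rw [indicator_of_mem h1, ← g1, hi]

/-- smooth approximations of the indicator of a half line -/
noncomputable def ch_A0 (c : ℝ) (n : ℕ) (x : ℝ) : ℝ :=
  Real.smoothTransition (((n : ℝ) + 1) * (c - x) - 1)

theorem smooth_A0 (c : ℝ) (n : ℕ) : ContDiff ℝ ((⊤ : ℕ∞) : WithTop ℕ∞) (ch_A0 c n) :=
  Real.smoothTransition.contDiff.comp
    ((contDiff_const.mul (contDiff_const.sub contDiff_id)).sub contDiff_const)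

theorem supp_A0 (c : ℝ) (n : ℕ) : tsupport (ch_A0 c n) ⊆ Iio c := by
  have h0 : (0 : ℝ) < n + 1 := by positivity
  have h1 : tsupport (ch_A0 c n) ⊆ {x | 1 ≤ ((n : ℝ) + 1) * (c - x)} := by
    refine closure_minimal (fun x hx => ?_) (isClosed_le continuous_const (by fun_prop))
    by_contra h
    exact hx (Real.smoothTransition.zero_of_nonpos (by
      simp only [mem_ofPred_eq, not_le] at h; linarith))
  intro x hx
  have h2 : 1 ≤ ((n : ℝ) + 1) * (c - x) := h1 hx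
  exact sub_pos.1 ((mul_pos_iff_of_pos_left h0).1 (by linarith))

theorem abs_A0 (c : ℝ) (n : ℕ) (x : ℝ) : |ch_A0 c n x| ≤ 1 := by
  rw [ch_A0, abs_of_nonneg (Real.smoothTransition.nonneg _)]
  exact Real.smoothTransition.le_one _

theorem lim_A0 (c x : ℝ) : ∀ᶠ n : ℕ in atTop, ch_A0 c n x = if x < c then 1 else 0 := by
  split_ifs with h
  · have h0 : 0 < c - x := sub_pos.2 h
    obtain ⟨N, hN⟩ := exists_nat_ge (2 / (c - x))
    filter_upwards [eventually_ge_atTop N] with n hn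
    have h1 : (N : ℝ) ≤ n := by exact_mod_cast hn
    rw [div_le_iff₀ h0] at hN
    exact Real.smoothTransition.one_of_one_le (by nlinarith)
  · refine Eventually.of_forall fun n => Real.smoothTransition.zero_of_nonpos ?_
    have h0 : (0 : ℝ) < n + 1 := by positivity
    nlinarith [not_lt.1 h]

theorem sets_A0 {X : Type} [MeasurableSpace X] {μ : Measure X} {π : X → ℝ × ℝ} {w : X → ℝ}
    (hπ : Measurable π) (hw : Integrable w μ) (h0 : ∫ y, w y ∂μ = 0)
    (h : ∀ a b : ℝ, ∫ y in π ⁻¹' (Iio a ×ˢ Iio b), w y ∂μ = 0) :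
    ∀ s : Set (ℝ × ℝ), MeasurableSet s → ∫ y in π ⁻¹' s, w y ∂μ = 0 := by
  have hg : MeasurableSpace.generateFrom (range (Iio : ℝ → Set ℝ)) = Real.measurableSpace :=
    (BorelSpace.measurable_eq.trans (borel_eq_generateFrom_Iio ℝ)).symm
  have hs : IsCountablySpanning (range (Iio : ℝ → Set ℝ)) :=
    ⟨fun n => Iio (n : ℝ), fun n => ⟨_, rfl⟩, eq_univ_of_forall fun x =>
      mem_iUnion.2 (exists_nat_gt x)⟩
  refine MeasurableSpace.induction_on_inter (generateFrom_eq_prod hg hg hs hs).symm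
    (isPiSystem_Iio.prod isPiSystem_Iio) (by simp) ?_ (fun t ht H => ?_) fun f hd hf H => ?_
  · rintro _ ⟨_, ⟨a, rfl⟩, _, ⟨b, rfl⟩, rfl⟩
    exact h a b
  · have := integral_add_compl (hπ ht) hw
    rw [H, h0, zero_add] at this
    exact this
  · rw [preimage_iUnion, integral_iUnion (fun i => hπ (hf i))
      (fun i j hij => (hd hij).preimage π) hw.integrableOn]
    simp only [H, tsum_zero]

theorem bdd_A0 {X : Type} [MeasurableSpace X] {μ : Measure X} [IsFiniteMeasure μ]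
    {π : X → ℝ × ℝ} {w : X → ℝ} (hπ : Measurable π) (hw : Integrable w μ)
    (h : ∀ s : Set (ℝ × ℝ), MeasurableSet s → ∫ y in π ⁻¹' s, w y ∂μ = 0) {G : ℝ × ℝ → ℝ} {M : ℝ}
    (hG : Measurable G) (hM : ∀ q, |G q| ≤ M) : ∫ y, G (π y) * w y ∂μ = 0 := by
  have hm := hπ.comap_le
  have h1 : (fun _ => (0 : ℝ)) =ᵐ[μ] μ[w | MeasurableSpace.comap π inferInstance] := by
    refine ae_eq_condExp_of_forall_setIntegral_eq hm hw (fun s _ _ => integrableOn_zero) ?_
      stronglyMeasurable_const.aestronglyMeasurable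
    rintro _ ⟨t, ht, rfl⟩ -
    rw [h t ht, integral_zero]
  have h2 := condExp_stronglyMeasurable_mul_of_bound hm (f := fun y => G (π y))
    (hG.comp (comap_measurable π)).stronglyMeasurable hw M (Eventually.of_forall fun y => hM _)
  have h3 := integral_condExp (μ := μ) (f := (fun y => G (π y)) * w) hm
  refine h3.symm.trans ((integral_congr_ae ?_).trans (integral_zero X ℝ))
  filter_upwards [h1, h2] with y a1 a2
  rw [a2, Pi.mul_apply, ← a1, mul_zero]

theorem sA0 : SA0 d := by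
  intro R e w hR hw hi h G M hG hM
  have hfin : IsFiniteMeasure (volume.restrict (ball (0 : E d) R)) :=
    isFiniteMeasure_restrict.2 measure_ball_lt_top.ne
  have hc : Continuous fun y : E d => ((‖y‖ ^ 2, ⟪e, y⟫) : ℝ × ℝ) := by fun_prop
  have hb : ∀ y ∈ ball (0 : E d) R, ‖y‖ ^ 2 < R ^ 2 := fun y hy =>
    pow_lt_pow_left₀ (mem_ball_zero_iff.1 hy) (norm_nonneg _) two_ne_zero
  have hrect : ∀ a b : ℝ, ∫ y in (fun y : E d => ((‖y‖ ^ 2, ⟪e, y⟫) : ℝ × ℝ)) ⁻¹' (Iio a ×ˢ Iio b),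
      w y ∂(volume.restrict (ball (0 : E d) R)) = 0 := by
    intro a b
    rw [← integral_indicator (hc.measurable (measurableSet_Iio.prod measurableSet_Iio))]
    have hl := tendsto_integral_of_dominated_convergence (μ := volume.restrict (ball (0 : E d) R))
      (F := fun n y => ch_A0 (min a (R ^ 2)) n (‖y‖ ^ 2) * ch_A0 b n ⟪e, y⟫ * w y)
      (f := ((fun y : E d => ((‖y‖ ^ 2, ⟪e, y⟫) : ℝ × ℝ)) ⁻¹' (Iio a ×ˢ Iio b)).indicator w)
      (fun y => ‖w y‖) (fun n => ?_) hi.norm (fun n => Eventually.of_forall fun y => ?_) ?_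
    · refine tendsto_nhds_unique hl (tendsto_const_nhds.congr fun n => ?_)
      exact (h _ _ (smooth_A0 _ n) (smooth_A0 b n)
        ((supp_A0 _ n).trans (Iio_subset_Iio (min_le_right _ _)))).symm
    · have c1 := (smooth_A0 (min a (R ^ 2)) n).continuous
      have c2 := (smooth_A0 b n).continuous
      exact (Continuous.aestronglyMeasurable (by fun_prop)).mul hw.aestronglyMeasurable
    · rw [norm_mul, norm_mul]
      refine mul_le_of_le_one_left (norm_nonneg _) ?_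
      exact mul_le_one₀ (abs_A0 _ _ _) (norm_nonneg _) (abs_A0 _ _ _)
    · filter_upwards [ae_restrict_mem measurableSet_ball] with y hy
      refine tendsto_const_nhds.congr' ?_
      filter_upwards [lim_A0 (min a (R ^ 2)) (‖y‖ ^ 2), lim_A0 b ⟪e, y⟫] with n a1 a2
      rw [a1, a2]
      by_cases b1 : ‖y‖ ^ 2 < a <;> by_cases b2 : ⟪e, y⟫ < b <;>
        simp [indicator, b1, b2, hb y hy]
  refine bdd_A0 hc.measurable hi (sets_A0 hc.measurable hi ?_ hrect) hG hM
  have h1 := hrect (R ^ 2) (‖e‖ * R + 1)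
  rwa [Measure.restrict_eq_self_of_ae_mem] at h1
  filter_upwards [ae_restrict_mem measurableSet_ball] with y hy
  refine ⟨hb y hy, ?_⟩
  have h2 := real_inner_le_norm e y
  have h3 := mul_le_mul_of_nonneg_left (mem_ball_zero_iff.1 hy).le (norm_nonneg e)
  show ⟪e, y⟫ < ‖e‖ * R + 1
  linarith

theorem prim_A1 (η : ℝ → ℝ) (hη : ContDiff ℝ ((⊤ : ℕ∞) : WithTop ℕ∞) η) :
    ∃ G : ℝ → ℝ, ContDiff ℝ ((⊤ : ℕ∞) : WithTop ℕ∞) G ∧ ∀ t, HasDerivAt G (η t) t := by
  have hd : ∀ t, HasDerivAt (fun u => ∫ x in (0 : ℝ)..u, η x) (η t) t := fun t =>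
    (hη.continuous.integral_hasStrictDerivAt 0 t).hasDerivAt
  refine ⟨fun u => ∫ x in (0 : ℝ)..u, η x, ?_, hd⟩
  refine contDiff_infty_iff_deriv.2 ⟨fun t => (hd t).differentiableAt, ?_⟩
  have : deriv (fun u => ∫ x in (0 : ℝ)..u, η x) = η := funext fun t => (hd t).deriv
  rw [this]
  exact hη

theorem sA1 : SA1 d := by
  intro R e N hR hN hw χ η hχ hη hs
  obtain ⟨G, hG, hGd⟩ := prim_A1 η hη
  have hF : IsClosed {y : E d | ‖y‖ ^ 2 ∈ tsupport χ} :=
    (isClosed_tsupport χ).preimage (by fun_prop)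
  have hFb : {y : E d | ‖y‖ ^ 2 ∈ tsupport χ} ⊆ ball 0 R := by
    intro y hy
    have h1 : ‖y‖ ^ 2 < R ^ 2 := hs hy
    rw [mem_ball_zero_iff]
    exact lt_of_pow_lt_pow_left₀ 2 hR.le h1
  have hsup : tsupport (fun y : E d => χ (‖y‖ ^ 2) * G ⟪e, y⟫) ⊆
      {y : E d | ‖y‖ ^ 2 ∈ tsupport χ} := by
    refine closure_minimal (fun y hy => subset_tsupport χ ?_) hF
    exact left_ne_zero_of_mul hy
  have hT : Test R (fun y : E d => χ (‖y‖ ^ 2) * G ⟪e, y⟫) := by
    refine ⟨?_, ?_, hsup.trans hFb⟩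
    · exact (hχ.comp (contDiff_norm_sq ℝ)).mul (hG.comp (contDiff_const.inner ℝ contDiff_id))
    · exact (isCompact_closedBall (0 : E d) R).of_isClosed_subset (isClosed_tsupport _)
        ((hsup.trans hFb).trans ball_subset_closedBall)
  rw [← hw _ hT]
  refine setIntegral_congr_fun measurableSet_ball fun y hy => ?_
  have h1 : HasFDerivAt (fun y : E d => χ (‖y‖ ^ 2))
      (deriv χ (‖y‖ ^ 2) • (2 • innerSL ℝ y)) y :=
    ((hχ.differentiable (by simp) _).hasDerivAt).comp_hasFDerivAt y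
      (hasStrictFDerivAt_norm_sq y).hasFDerivAt
  have h2 : HasFDerivAt (fun y : E d => G ⟪e, y⟫) (η ⟪e, y⟫ • innerSL ℝ e) y :=
    (hGd ⟪e, y⟫).comp_hasFDerivAt y (innerSL ℝ e).hasFDerivAt
  have h3 := (h1.fun_mul h2).fderiv
  have h4 : ⟪y, N y⟫ = 0 := by rw [real_inner_comm]; exact hN y hy
  show χ (‖y‖ ^ 2) * η ⟪e, y⟫ * ⟪e, N y⟫ =
    ⟪N y, gradient (fun y : E d => χ (‖y‖ ^ 2) * G ⟪e, y⟫) y⟫
  rw [real_inner_comm (gradient _ y), gradient, InnerProductSpace.toDual_symm_apply, h3]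
  simp [h4, mul_assoc]

theorem int_Fo (ψ : SchwartzMap (E d) ℂ) {A : E d → ℝ} (hA : Continuous A)
    (h : ∀ ξ, |A ξ| ≤ 2 * Real.pi * ‖ψ ξ‖) : Integrable (fun ξ => ‖ξ‖ * |A ξ|) := by
  refine ((ψ.integrable_pow_mul volume 1).const_mul (2 * Real.pi)).mono'
    (by fun_prop : Continuous fun ξ => ‖ξ‖ * |A ξ|).aestronglyMeasurable
    (Eventually.of_forall fun ξ => ?_)
  rw [Real.norm_of_nonneg (by positivity), pow_one, mul_left_comm]
  exact mul_le_mul_of_nonneg_left (h ξ) (norm_nonneg _)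

open FourierTransform LineDeriv in
theorem sFo : SFo d := by
  intro φ hφ hc
  have hc' : HasCompactSupport fun x => (φ x : ℂ) := hc.comp_left Complex.ofReal_zero
  set f : SchwartzMap (E d) ℂ := hc'.toSchwartzMap (Complex.ofRealCLM.contDiff.comp hφ) with hf
  set ψ : SchwartzMap (E d) ℂ := 𝓕 f with hψ
  have hp : 0 ≤ 2 * Real.pi := by positivity
  have cψ := ψ.continuous
  refine ⟨fun ξ => -(2 * Real.pi * (ψ ξ).im), fun ξ => -(2 * Real.pi * (ψ ξ).re), by fun_prop,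
    by fun_prop, int_Fo ψ (by fun_prop) fun ξ => ?_, int_Fo ψ (by fun_prop) fun ξ => ?_,
    fun x v => ?_⟩
  · rw [abs_neg, abs_mul, abs_of_nonneg hp]
    exact mul_le_mul_of_nonneg_left (Complex.abs_im_le_norm _) hp
  · rw [abs_neg, abs_mul, abs_of_nonneg hp]
    exact mul_le_mul_of_nonneg_left (Complex.abs_re_le_norm _) hp
  have h1 := SchwartzMap.lineDerivOp_fourierInv_eq ψ v
  rw [hψ, fourierInv_fourier_eq, ← hψ] at h1
  set g : SchwartzMap (E d) ℂ := (2 * Real.pi * Complex.I) •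
    SchwartzMap.smulLeftCLM ℂ (inner ℝ · v) ψ with hg
  have h2 : fderiv ℝ f x v =
      ∫ ξ, Complex.exp ((2 * Real.pi * ⟪ξ, x⟫ : ℝ) * Complex.I) • g ξ := by
    rw [← SchwartzMap.lineDerivOp_apply_eq_fderiv, h1, SchwartzMap.fourierInv_coe,
      Real.fourierInv_eq']
  have h3 : fderiv ℝ f x v = (⟪v, gradient φ x⟫ : ℝ) := by
    have hd : HasFDerivAt φ (fderiv ℝ φ x) x := (hφ.differentiable (by simp) x).hasFDerivAt
    have h4 : HasFDerivAt f (Complex.ofRealCLM.comp (fderiv ℝ φ x)) x :=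
      Complex.ofRealCLM.hasFDerivAt.comp x hd
    rw [h4.fderiv, real_inner_comm, gradient, InnerProductSpace.toDual_symm_apply]
    rfl
  have hi : Integrable fun ξ =>
      Complex.exp ((2 * Real.pi * ⟪ξ, x⟫ : ℝ) * Complex.I) • g ξ :=
    g.integrable.bdd_mul (c := 1) (by fun_prop : Continuous fun ξ : E d =>
      Complex.exp ((2 * Real.pi * ⟪ξ, x⟫ : ℝ) * Complex.I)).aestronglyMeasurable
      (Eventually.of_forall fun ξ => (Complex.norm_exp_ofReal_mul_I _).le)
  have h5 := Complex.reCLM.integral_comp_comm hi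
  rw [← h2, h3] at h5
  refine h5.symm.trans (integral_congr_ae (Eventually.of_forall fun ξ => ?_))
  have ht : (fun y : E d => ⟪y, v⟫).HasTemperateGrowth := by fun_prop
  have h6 : g ξ = 2 * Real.pi * Complex.I * ((⟪ξ, v⟫ : ℝ) * ψ ξ) := by
    rw [hg, smul_apply, SchwartzMap.smulLeftCLM_apply_apply ht]
    rfl
  simp only [Complex.reCLM_apply, smul_eq_mul, h6, Complex.mul_re, Complex.mul_im,
    Complex.exp_ofReal_mul_I_re, Complex.exp_ofReal_mul_I_im, Complex.ofReal_re,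
    Complex.ofReal_im, Complex.I_re, Complex.I_im, Complex.re_ofNat, Complex.im_ofNat]
  ring

theorem one_B {R M C : ℝ} {n : E d → E d} {h A : E d → ℝ} {c : ℝ → ℝ} (hn : BM R M n)
    (ht : Tor R n) (hm : Measurable h) (hb : ∀ x, |h x| ≤ C)
    (hi : ∀ (g : E d ≃ₗᵢ[ℝ] E d) y, h (g y) = h y) (hA : Continuous A)
    (iA : Integrable (fun ξ => ‖ξ‖ * |A ξ|)) (hc : Continuous c) (c1 : ∀ t, |c t| ≤ 1) :
    Integrable (fun q : E d × E d => h q.1 * (⟪q.2, n q.1⟫ * (A q.2 * c ⟪q.2, q.1⟫)))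
      ((volume.restrict (ball (0 : E d) R)).prod volume) ∧
    ∀ ξ : E d, ∫ y in ball (0 : E d) R, h y * (⟪ξ, n y⟫ * (A ξ * c ⟪ξ, y⟫)) = 0 := by
  have C0 : 0 ≤ C := (abs_nonneg _).trans (hb 0)
  refine ⟨?_, fun ξ => ?_⟩
  · have hd : Integrable (fun q : E d × E d => (C * M) * (‖q.2‖ * |A q.2|))
        ((volume.restrict (ball (0 : E d) R)).prod volume) :=
      Integrable.mul_prod (integrable_const (C * M)) iA
    refine hd.mono' (Measurable.aestronglyMeasurable ?_) ?_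
    · exact (hm.comp measurable_fst).mul ((measurable_snd.inner (hn.meas.comp measurable_fst)).mul
        ((hA.measurable.comp measurable_snd).mul
          (hc.measurable.comp (measurable_snd.inner measurable_fst))))
    · have : ∀ᵐ q : E d × E d ∂((volume.restrict (ball (0 : E d) R)).prod volume),
          q.1 ∈ ball (0 : E d) R :=
        Measure.quasiMeasurePreserving_fst.ae (ae_restrict_mem measurableSet_ball)
      refine this.mono fun q hq => ?_
      rw [Real.norm_eq_abs, abs_mul, abs_mul, abs_mul]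
      have e1 : |⟪q.2, n q.1⟫| ≤ ‖q.2‖ * M := (abs_real_inner_le_norm _ _).trans
        (mul_le_mul_of_nonneg_left (hn.bd _ hq) (norm_nonneg _))
      have e2 : |A q.2| * |c ⟪q.2, q.1⟫| ≤ |A q.2| :=
        mul_le_of_le_one_right (abs_nonneg _) (c1 _)
      have e3 := mul_le_mul e1 e2 (by positivity) (mul_nonneg (norm_nonneg _) hn.nn)
      refine (mul_le_mul (hb _) e3 (by positivity) C0).trans_eq ?_
      ring
  · have := ht ξ (fun y => h y * c ⟪ξ, y⟫) C
      (hm.mul (hc.measurable.comp (measurable_const.inner measurable_id)))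
      (fun y => by
        rw [abs_mul]
        exact (mul_le_of_le_one_right (abs_nonneg _) (c1 _)).trans (hb y))
      (fun g hg y => by
        have e : ⟪ξ, g y⟫ = ⟪ξ, y⟫ := by
          conv_lhs => rw [← hg]
          exact g.inner_map_map ξ y
        rw [hi, e])
    have e : ∀ y, h y * (⟪ξ, n y⟫ * (A ξ * c ⟪ξ, y⟫)) = A ξ * (h y * c ⟪ξ, y⟫ * ⟪ξ, n y⟫) :=
      fun y => by ring
    simp only [e]
    rw [integral_const_mul, this, mul_zero]

theorem sB (hF : SFo d) : SB d := by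
  intro R M C n h φ hn ht hm hb hi hφ
  obtain ⟨A, B, hA, hB, iA, iB, hf⟩ := hF φ hφ.1 hφ.2
  have m1 : Measurable (indicator (ball (0 : E d) R) h) := hm.indicator measurableSet_ball
  have b1 : ∀ x, |indicator (ball (0 : E d) R) h x| ≤ |C| := fun x => by
    by_cases hx : x ∈ ball (0 : E d) R
    · rw [indicator_of_mem hx]; exact (hb x hx).trans (le_abs_self C)
    · rw [indicator_of_notMem hx, abs_zero]; exact abs_nonneg C
  have i1 : ∀ (g : E d ≃ₗᵢ[ℝ] E d) y, indicator (ball (0 : E d) R) h (g y) =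
      indicator (ball (0 : E d) R) h y := fun g y => by
    have e : g y ∈ ball (0 : E d) R ↔ y ∈ ball (0 : E d) R := by
      rw [mem_ball_zero_iff, mem_ball_zero_iff, g.norm_map]
    by_cases hx : y ∈ ball (0 : E d) R
    · rw [indicator_of_mem hx, indicator_of_mem (e.2 hx), hi]
    · rw [indicator_of_notMem hx, indicator_of_notMem (fun h => hx (e.1 h))]
  obtain ⟨a1, a2⟩ := one_B (c := fun t => Real.cos (2 * Real.pi * t)) hn ht m1 b1 i1 hA iA
    (by fun_prop) fun t => Real.abs_cos_le_one _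
  obtain ⟨d1, d2⟩ := one_B (c := fun t => Real.sin (2 * Real.pi * t)) hn ht m1 b1 i1 hB iB
    (by fun_prop) fun t => Real.abs_sin_le_one _
  have s1 := integral_integral_swap (f := fun y ξ : E d => indicator (ball (0 : E d) R) h y *
    (⟪ξ, n y⟫ * (A ξ * Real.cos (2 * Real.pi * ⟪ξ, y⟫)))) a1
  have s2 := integral_integral_swap (f := fun y ξ : E d => indicator (ball (0 : E d) R) h y *
    (⟪ξ, n y⟫ * (B ξ * Real.sin (2 * Real.pi * ⟪ξ, y⟫)))) d1
  simp only [a2, d2, integral_zero] at s1 s2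
  rw [← add_zero (0 : ℝ)]
  nth_rewrite 1 [← s1]
  nth_rewrite 1 [← s2]
  rw [← integral_add a1.integral_prod_left d1.integral_prod_left]
  refine integral_congr_ae ?_
  filter_upwards [ae_restrict_mem measurableSet_ball, a1.prod_right_ae, d1.prod_right_ae]
    with y hy y1 y2
  rw [← integral_add y1 y2, hf, ← integral_const_mul, indicator_of_mem hy]
  refine integral_congr_ae (ae_of_all _ fun ξ => ?_)
  ring

theorem avg_Vmo {F : Type} [NormedAddCommGroup F] [NormedSpace ℝ F] [CompleteSpace F]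
    {U : Set (E d)} (h0 : volume U ≠ 0) (h1 : volume U ≠ ∞) {g : E d → F} {c : F} {e : ℝ}
    (hm : AEStronglyMeasurable g (volume.restrict U))
    (hb : ∀ᵐ y ∂(volume.restrict U), ‖g y - c‖ ≤ e) : ‖(⨍ y in U, g y) - c‖ ≤ e := by
  have : IsFiniteMeasure (volume.restrict U) := isFiniteMeasure_restrict.2 h1
  rw [← mem_closedBall_iff_norm]
  refine (convex_closedBall c e).set_average_mem isClosed_closedBall h0 h1
    (hb.mono fun y hy => mem_closedBall_iff_norm.2 hy) ?_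
  refine Integrable.of_bound hm (e + ‖c‖) (hb.mono fun y hy => ?_)
  exact (norm_le_norm_sub_add (g y) c).trans (by linarith)

theorem sVmo : SVmo d := by
  intro R f f' hf he ε hε
  obtain ⟨δ, hδ, hu⟩ := Metric.uniformContinuousOn_iff.1
    ((isCompact_closedBall (0 : E d) R).uniformContinuousOn_of_continuous hf) (ε / 2)
    (by positivity)
  refine ⟨δ, hδ, fun x hx r hr hrδ => ?_⟩
  have hO : IsOpen (ball x r ∩ ball (0 : E d) R) := isOpen_ball.inter isOpen_ball
  have h0 := hO.measure_ne_zero volume ⟨x, mem_ball_self hr, hx⟩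
  have h1 : volume (ball x r ∩ ball (0 : E d) R) ≠ ∞ :=
    ((measure_mono inter_subset_left).trans_lt measure_ball_lt_top).ne
  have he' : f' =ᵐ[volume.restrict (ball x r ∩ ball 0 R)] f :=
    ae_restrict_of_ae_restrict_of_subset inter_subset_right he
  have hm : AEStronglyMeasurable f' (volume.restrict (ball x r ∩ ball 0 R)) :=
    ((hf.mono (inter_subset_right.trans ball_subset_closedBall)).aestronglyMeasurable
      hO.measurableSet).congr he'.symm
  have hb : ∀ᵐ y ∂(volume.restrict (ball x r ∩ ball (0 : E d) R)), ‖f' y - f x‖ ≤ ε / 2 := by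
    filter_upwards [he', ae_restrict_mem hO.measurableSet] with y h2 h3
    rw [h2, ← dist_eq_norm]
    exact (hu y (ball_subset_closedBall h3.2) x (ball_subset_closedBall hx)
      ((mem_ball.1 h3.1).trans hrδ)).le
  have h2 := avg_Vmo h0 h1 hm hb
  have h3 := avg_Vmo (c := (0 : ℝ)) (e := ε) h0 h1
    (hm.sub (aestronglyMeasurable_const (b := ⨍ z in ball x r ∩ ball 0 R, f' z))).norm
    (hb.mono fun y hy => by
      rw [sub_zero, norm_norm, Pi.sub_apply]
      rw [norm_sub_rev] at h2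
      exact (norm_sub_le_norm_sub_add_norm_sub _ (f x) _).trans (by linarith))
  rw [sub_zero] at h3
  exact (le_abs_self _).trans h3

theorem norm_Emb {α F : Type} [MeasurableSpace α] {μ : Measure α} [NormedAddCommGroup F]
    (f : Lp F (⊤ : ℝ≥0∞) μ) {ε : ℝ} (hε : 0 ≤ ε) (h : ∀ᵐ x ∂μ, ‖f x‖ ≤ ε) : ‖f‖ ≤ ε := by
  rw [Lp.norm_def, eLpNorm_exponent_top]
  exact ENNReal.toReal_le_of_le_ofReal hε (eLpNormEssSup_le_of_ae_bound h)

theorem sub_Emb {α F : Type} [MeasurableSpace α] {μ : Measure α} [NormedAddCommGroup F]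
    (f f' : Lp F (⊤ : ℝ≥0∞) μ) {ε : ℝ} (hε : 0 ≤ ε) (h : ∀ᵐ x ∂μ, ‖f x - f' x‖ ≤ ε) :
    ‖f - f'‖ ≤ ε := by
  refine norm_Emb _ hε ?_
  filter_upwards [h, Lp.coeFn_sub f f'] with x h1 h2
  rw [h2]
  exact h1

theorem ball_Emb {R ε : ℝ} (f f' : Lp (E d) (⊤ : ℝ≥0∞) (volume.restrict (ball (0 : E d) R)))
    {u u' : E d → E d} (hε : 0 ≤ ε) (h1 : (f : E d → E d) =ᵐ[volume.restrict (ball 0 R)] u)
    (h2 : (f' : E d → E d) =ᵐ[volume.restrict (ball 0 R)] u')
    (h : ∀ x ∈ ball (0 : E d) R, ‖u x - u' x‖ ≤ ε) : ‖f - f'‖ ≤ ε := by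
  refine sub_Emb _ _ hε ?_
  filter_upwards [h1, h2, ae_restrict_mem measurableSet_ball] with x e1 e2 hx
  rw [e1, e2]
  exact h x hx

theorem sDist : SDist d := by
  intro R T ε m m' z z' hε h1 h2 h
  rw [dist_eq_norm]
  refine sub_Emb _ _ hε ?_
  filter_upwards [h1, h2, ae_restrict_mem measurableSet_Ioo] with t e1 e2 ht
  exact ball_Emb _ _ hε e1 e2 (h t ht)

theorem sEmb : SEmb d := by
  intro R T M z h0 hz hc
  have h1 : ∀ t : ℝ, ∃ f : Lp (E d) (⊤ : ℝ≥0∞) (volume.restrict (ball (0 : E d) R)),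
      t ∈ Ioo 0 T → (f : E d → E d) =ᵐ[volume.restrict (ball 0 R)] z t := fun t => by
    by_cases ht : t ∈ Ioo 0 T
    · have hm : MemLp (z t) (⊤ : ℝ≥0∞) (volume.restrict (ball (0 : E d) R)) :=
        memLp_top_of_bound ((hc.comp (f := fun x : E d => (t, x)) (by fun_prop) fun x hx =>
          ⟨ht, ball_subset_closedBall hx⟩).aestronglyMeasurable measurableSet_ball) M
          ((ae_restrict_mem measurableSet_ball).mono (hz t ht))
      exact ⟨hm.toLp _, fun _ => hm.coeFn_toLp⟩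
    · exact ⟨0, fun h => absurd h ht⟩
  choose F hF using h1
  have h2 : ContinuousOn F (Ioo 0 T) := by
    intro t ht
    obtain ⟨a, a0, a1⟩ := exists_between ht.1
    obtain ⟨b, b0, b1⟩ := exists_between ht.2
    have hs : Icc a b ⊆ Ioo 0 T := Icc_subset_Ioo a0 b1
    have hu := ((isCompact_Icc (a := a) (b := b)).prod
      (isCompact_closedBall (0 : E d) R)).uniformContinuousOn_of_continuous
      (hc.mono (prod_mono hs subset_rfl))
    refine ContinuousAt.continuousWithinAt (ContinuousOn.continuousAt (s := Icc a b) ?_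
      (Icc_mem_nhds a1 b0))
    refine Metric.continuousOn_iff.2 fun s hs1 ε hε => ?_
    obtain ⟨δ, δ0, hδ⟩ := Metric.uniformContinuousOn_iff.1 hu (ε / 2) (half_pos hε)
    refine ⟨δ, δ0, fun r hr1 hr => ?_⟩
    rw [dist_eq_norm]
    refine (ball_Emb _ _ (half_pos hε).le (hF r (hs hr1)) (hF s (hs hs1)) fun x hx => ?_).trans_lt
      (half_lt_self hε)
    rw [← dist_eq_norm]
    refine (hδ (r, x) ⟨hr1, ball_subset_closedBall hx⟩ (s, x) ⟨hs1, ball_subset_closedBall hx⟩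
      ?_).le
    rw [Prod.dist_eq, dist_self]
    exact max_lt hr δ0
  have h3 : MemLp F (⊤ : ℝ≥0∞) (volume.restrict (Ioo 0 T)) := by
    refine memLp_top_of_bound (h2.aestronglyMeasurable measurableSet_Ioo) M
      ((ae_restrict_mem measurableSet_Ioo).mono fun t ht => norm_Emb _ h0 ?_)
    filter_upwards [hF t ht, ae_restrict_mem measurableSet_ball] with x e hx
    rw [e]
    exact hz t ht x hx
  refine ⟨h3.toLp F, ?_⟩
  filter_upwards [h3.coeFn_toLp, ae_restrict_mem measurableSet_Ioo] with t e ht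
  rw [e]
  exact hF t ht

theorem mol_Nw (φ : E d → ℝ) (h1 : ContDiff ℝ 1 φ)
    (hc : HasCompactSupport φ) {ε : ℝ} (hε : 0 < ε) :
    ∃ ψ : E d → ℝ, ContDiff ℝ ((⊤ : ℕ∞) : WithTop ℕ∞) ψ ∧ HasCompactSupport ψ ∧
      ∀ x, ‖gradient ψ x - gradient φ x‖ ≤ ε := by
  have hfc : Continuous (fderiv ℝ φ) := h1.continuous_fderiv one_ne_zero
  have hu : UniformContinuous (fderiv ℝ φ) :=
    (hc.fderiv ℝ).uniformContinuous_of_continuous hfc
  obtain ⟨δ, hδ, hδ'⟩ := Metric.uniformContinuous_iff.1 hu ε hε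
  let b : ContDiffBump (0 : E d) := ⟨δ / 2, δ, by positivity, by linarith⟩
  have hl : LocallyIntegrable (b.normed volume) volume :=
    (b.continuous_normed (μ := volume)).locallyIntegrable
  refine ⟨b.normed volume ⋆[ContinuousLinearMap.lsmul ℝ ℝ, volume] φ, ?_, ?_, fun x => ?_⟩
  · exact (b.hasCompactSupport_normed (μ := volume)).contDiff_convolution_left _
      b.contDiff_normed h1.continuous.locallyIntegrable
  · exact HasCompactSupport.convolution _ b.hasCompactSupport_normed hc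
  · have hd := (hc.hasFDerivAt_convolution_right (ContinuousLinearMap.lsmul ℝ ℝ) hl h1 x).fderiv
    have e : (b.normed volume ⋆[(ContinuousLinearMap.lsmul ℝ ℝ).precompR
        (E d), volume] fderiv ℝ φ) x =
        (b.normed volume ⋆[ContinuousLinearMap.lsmul ℝ ℝ, volume] fderiv ℝ φ) x := by
      simp only [convolution_def]
      refine integral_congr_ae (ae_of_all _ fun t => ?_)
      ext v
      simp
    have hle := b.dist_normed_convolution_le (μ := volume) (x₀ := x) (ε := ε)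
      hfc.aestronglyMeasurable (fun y hy => (hδ' hy).le)
    unfold gradient
    rw [← map_sub, LinearIsometryEquiv.norm_map, hd, e, ← dist_eq_norm]
    exact hle

theorem tor_Fin (hZ : SZon d) (h0 : SA0 d) (h1 : SA1 d) (hd : 2 ≤ d) {R C : ℝ} (hR : 0 < R)
    {N : E d → E d} (hN : BM R C N) (ht : ∀ x ∈ ball (0 : E d) R, ⟪N x, x⟫ = 0)
    (hdiv : ∀ φ : E d → ℝ, Test R φ → ∫ x in ball 0 R, ⟪N x, gradient φ x⟫ = 0) : Tor R N := by
  intro e h M hm hb hinv
  by_cases he : e = 0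
  · simp [he]
  obtain ⟨G, hG, hGr, hGh⟩ := hZ hd e h he hm hinv
  have hw : Measurable fun y => ⟪e, N y⟫ := measurable_const.inner hN.meas
  have hi : IntegrableOn (fun y => ⟪e, N y⟫) (ball 0 R) := hN.int.const_inner e
  have := h0 R e _ hR hw hi (h1 R e N hR ht hdiv) G M hG
    (fun q => by obtain ⟨y, hy⟩ := hGr q; rw [hy]; exact hb y)
  simpa only [hGh] using this

theorem ker_Nw (hB : SKb) (hI : SKinv) (hG : SGaI) {R D : ℝ} {K : ℝ → E d → E d → ℝ}
    (hK : IsKernel R D K) (hD : 0 < D) : ∃ k, Ker R k ∧ ∀ t, 0 < t → ∀ x y, y ∈ ball (0 : E d) R →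
      k t x y = (closedBall (0 : E d) R).indicator (fun x => K t x y) x := by
  classical
  set A : Set (ℝ × E d × E d) := Ioi 0 ×ˢ closedBall 0 R ×ˢ ball 0 R with hA
  have mA : MeasurableSet A :=
    measurableSet_Ioi.prod (measurableSet_closedBall.prod measurableSet_ball)
  let F : ℝ × E d × E d → ℝ := A.indicator fun q => K q.1 q.2.1 q.2.2
  have e1 : ∀ q ∈ A, F q = K q.1 q.2.1 q.2.2 := fun q hq => indicator_of_mem hq _
  have e0 : ∀ q, q ∉ A → F q = 0 := fun q hq => indicator_of_notMem hq _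
  have kb := (hB d R D K hK hD).1
  have hm : Measurable F := by
    have h1 := (hK.cont.mono (prod_mono Subset.rfl (prod_mono Subset.rfl
      ball_subset_closedBall))).measurable_piecewise (continuousOn_const (c := (0 : ℝ))) mA
    rw [show (fun _ => (0 : ℝ)) = (0 : ℝ × E d × E d → ℝ) from rfl, piecewise_eq_indicator] at h1
    exact h1
  refine ⟨fun t x y => F (t, x, y), ⟨hm, fun t x y => ?_, fun t => ?_,
    fun t x => ?_, fun g t x y => ?_⟩, fun t ht x y hy => ?_⟩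
  · by_cases h : (t, x, y) ∈ A
    · exact (e1 _ h).symm ▸ (kb t h.1 x h.2.1 y h.2.2).1
    · exact (e0 _ h).ge
  · by_cases ht : 0 < t
    · obtain ⟨M, hM⟩ := ((isCompact_closedBall (0 : E d) R).prod
        (isCompact_closedBall (0 : E d) R)).exists_bound_of_continuousOn
          (hK.cont.comp (f := fun p : E d × E d => (t, p)) (by fun_prop) fun p hp => ⟨ht, hp⟩)
      refine ⟨max M 0, fun x y => ?_⟩
      by_cases h : (t, x, y) ∈ A
      · exact (e1 _ h).trans_le (((le_abs_self _).trans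
          (hM (x, y) ⟨h.2.1, ball_subset_closedBall h.2.2⟩)).trans (le_max_left _ _))
      · exact (e0 _ h).trans_le (le_max_right _ _)
    · exact ⟨0, fun x y => (e0 (t, x, y) fun h => ht h.1).le⟩
  · by_cases h : 0 < t ∧ x ∈ closedBall (0 : E d) R
    · have hg := hG d D t hD h.1
      refine le_trans (integral_mono_of_nonneg ?_ (hg x).2.1.integrableOn ?_)
        ((setIntegral_le_integral (hg x).2.1 (ae_of_all _ fun y => (hg _).1.le)).trans
          (hg x).2.2.le)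
      · refine (ae_restrict_mem measurableSet_ball).mono fun y hy => ?_
        exact (kb t h.1 x h.2 y hy).1.trans_eq (e1 (t, x, y) ⟨h.1, h.2, hy⟩).symm
      · refine (ae_restrict_mem measurableSet_ball).mono fun y hy => ?_
        exact (e1 (t, x, y) ⟨h.1, h.2, hy⟩).trans_le (kb t h.1 x h.2 y hy).2
    · have h1 : ∀ y, F (t, x, y) = 0 := fun y => e0 _ fun h2 => h ⟨h2.1, h2.2.1⟩
      simp [h1]
  · have h1 : (t, g x, g y) ∈ A ↔ (t, x, y) ∈ A := by simp [hA]
    by_cases h : (t, x, y) ∈ A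
    · exact (e1 _ (h1.2 h)).trans ((hI d R D K hK g t h.1 x h.2.1 y h.2.2).trans (e1 _ h).symm)
    · exact (e0 _ (mt h1.1 h)).trans (e0 _ h).symm
  · by_cases hx : x ∈ closedBall (0 : E d) R
    · rw [indicator_of_mem hx]; exact e1 (t, x, y) ⟨ht, hx, hy⟩
    · rw [indicator_of_notMem hx]; exact e0 _ fun h => hx h.2.1

theorem good_Nw {R M : ℝ} {n : E d → E d} (hn : BM R M n) (ht : Tor R n)
    (h0 : ∀ x, ⟪n x, x⟫ = 0) : Good R n := by
  refine ⟨fun x _ y _ _ => by simp only [h0], ?_⟩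
  rintro h hm hr ⟨C, hC⟩ φ hφ
  have htn : ∀ x, tn n x = n x := fun x => by simp [tn, h0]
  simp only [htn]
  have hcs : HasCompactSupport φ :=
    (isCompact_closedBall (0 : E d) R).of_isClosed_subset (isClosed_tsupport φ)
      (hφ.2.trans ball_subset_closedBall)
  set h1 := (closedBall (0 : E d) R).indicator h with hh1
  have hi : ∀ (g : E d ≃ₗᵢ[ℝ] E d) y, h1 (g y) = h1 y := fun g y => by
    have e : g y ∈ closedBall (0 : E d) R ↔ y ∈ closedBall (0 : E d) R := by simp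
    by_cases hy : y ∈ closedBall (0 : E d) R
    · rw [hh1, indicator_of_mem hy, indicator_of_mem (e.2 hy)]
      exact hr _ (e.2 hy) _ hy (g.norm_map y)
    · rw [hh1, indicator_of_notMem hy, indicator_of_notMem (mt e.1 hy)]
  have e1 : ∀ x ∈ ball (0 : E d) R, h1 x = h x := fun x hx =>
    indicator_of_mem (ball_subset_closedBall hx) _
  have hint : ∀ ψ : E d → ℝ, ContDiff ℝ 1 ψ → HasCompactSupport ψ →
      IntegrableOn (fun x => h x * ⟪n x, gradient ψ x⟫) (ball 0 R) := by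
    intro ψ c1 c2
    have hc : Continuous (gradient ψ) :=
      (InnerProductSpace.toDual ℝ (E d)).symm.continuous.comp (c1.continuous_fderiv one_ne_zero)
    obtain ⟨B, hB⟩ := (isCompact_closedBall (0 : E d) R).exists_bound_of_continuousOn
      hc.continuousOn
    refine Integrable.of_bound (hm.mul (hn.meas.inner hc.measurable)).aestronglyMeasurable
      (|C| * (M * B)) ((ae_restrict_mem measurableSet_ball).mono fun x hx => ?_)
    rw [Real.norm_eq_abs, abs_mul]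
    exact mul_le_mul ((hC x (ball_subset_closedBall hx)).trans (le_abs_self C))
      ((abs_real_inner_le_norm _ _).trans (mul_le_mul (hn.bd x hx)
        (hB x (ball_subset_closedBall hx)) (norm_nonneg _) hn.nn)) (abs_nonneg _) (abs_nonneg _)
  set V := (volume : Measure (E d)).real (ball 0 R) with hV
  have hV0 : 0 ≤ V := measureReal_nonneg
  have key : ∀ ε : ℝ, 0 < ε →
      |∫ x in ball 0 R, h x * ⟪n x, gradient φ x⟫| ≤ |C| * (M * ε) * V := by
    intro ε hε
    obtain ⟨ψ, p1, p2, p3⟩ := mol_Nw φ hφ.1 hcs hε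
    have z := sB sFo R M C n h1 ψ hn ht (hm.indicator measurableSet_closedBall)
      (fun x hx => (e1 x hx).symm ▸ hC x (ball_subset_closedBall hx)) hi ⟨p1, p2⟩
    rw [setIntegral_congr_fun measurableSet_ball (g := fun x => h x * ⟪n x, gradient ψ x⟫)
      (fun x hx => by simp only [e1 x hx])] at z
    rw [← sub_zero (∫ x in ball 0 R, h x * ⟪n x, gradient φ x⟫), ← z,
      ← integral_sub (hint φ hφ.1 hcs) (hint ψ (p1.of_le (by simp)) p2), ← Real.norm_eq_abs]
    refine norm_setIntegral_le_of_norm_le_const measure_ball_lt_top fun x hx => ?_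
    rw [← mul_sub, ← inner_sub_right, Real.norm_eq_abs, abs_mul]
    exact mul_le_mul ((hC x (ball_subset_closedBall hx)).trans (le_abs_self C))
      ((abs_real_inner_le_norm _ _).trans (mul_le_mul (hn.bd x hx)
        ((norm_sub_rev _ _).trans_le (p3 x)) (norm_nonneg _) hn.nn)) (abs_nonneg _) (abs_nonneg _)
  refine abs_nonpos_iff.1 (le_of_forall_pos_le_add fun η hη => ?_)
  have hp : 0 < |C| * M * V + 1 := by have := hn.nn; positivity
  refine (key (η / (|C| * M * V + 1)) (by positivity)).trans ?_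
  rw [zero_add, show |C| * (M * (η / (|C| * M * V + 1))) * V =
    η * ((|C| * M * V) / (|C| * M * V + 1)) by ring]
  exact mul_le_of_le_one_right hη.le ((div_le_one hp).2 (by linarith))

/-- Tangential divergence free data stay tangential and good under the heat semigroup. -/
theorem toroid (hB : SKb) (hI : SKinv) (hG : SGaI) (hd : 2 ≤ d) {R D C : ℝ}
    {K : ℝ → EE d → EE d → ℝ} {N : EE d → EE d} (hK : IsKernel R D K) (hD : 0 < D) (hR : 0 < R)
    (hN : Dat R C N) (ht : ∀ x ∈ ball (0 : EE d) R, ⟪N x, x⟫ = 0)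
    (hdiv : ∀ φ, Pool.Agent.MP_b33505_an.Test R φ →
      ∫ x in ball 0 R, ⟪N x, gradient φ x⟫ = 0) :
    ∀ t > 0, (∀ x, ⟪pk R K t N x, x⟫ = 0) ∧ Good R (pk R K t N) := by
  intro t ht0
  obtain ⟨k, hk, hA⟩ := ker_Nw hB hI hG hK hD
  have hC : 0 ≤ C := (norm_nonneg _).trans (hN.2 0 (mem_ball_self hR))
  have m0 : Measurable (hN.1.mk N) := hN.1.measurable_mk
  set A : Set (E d) := {x | ‖hN.1.mk N x‖ ≤ C ∧ ⟪hN.1.mk N x, x⟫ = 0} with hAd
  have mA : MeasurableSet A := (measurableSet_le m0.norm measurable_const).inter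
    (measurableSet_eq_fun (m0.inner measurable_id) measurable_const)
  set N' := A.indicator (hN.1.mk N) with hN'
  have hae : N' =ᵐ[volume.restrict (ball 0 R)] N := by
    filter_upwards [hN.1.ae_eq_mk, ae_restrict_mem measurableSet_ball] with x e hx
    rw [hN', indicator_of_mem (show x ∈ A from ⟨e ▸ hN.2 x hx, e ▸ ht x hx⟩), e]
  have hb : BM R C N' := ⟨hC, m0.indicator mA, fun x _ => by
    by_cases hx : x ∈ A
    · rw [hN', indicator_of_mem hx]; exact hx.1
    · rw [hN', indicator_of_notMem hx, norm_zero]; exact hC⟩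
  have hT : Tor R N' := by
    refine tor_Fin sZon sA0 sA1 hd hR hb (fun x _ => ?_) fun φ hφ => ?_
    · by_cases hx : x ∈ A
      · rw [hN', indicator_of_mem hx]; exact hx.2
      · rw [hN', indicator_of_notMem hx, inner_zero_left]
    · rw [← hdiv φ ⟨hφ.1.of_le (by simp), hφ.2.2⟩]
      exact integral_congr_ae (hae.mono fun x e => by simp only [e])
  have e : pk R K t N = P k R t N' := by
    funext x
    unfold pk P
    by_cases hx : x ∈ closedBall (0 : E d) R
    · rw [indicator_of_mem hx]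
      refine integral_congr_ae ?_
      filter_upwards [hae, ae_restrict_mem measurableSet_ball] with y e hy
      rw [hA t ht0 x y hy, indicator_of_mem hx, e]
    · rw [indicator_of_notMem hx, setIntegral_congr_fun measurableSet_ball
        (g := fun _ => (0 : E d)) (fun y hy => by
          simp only [hA t ht0 x y hy, indicator_of_notMem hx, zero_smul])]
      simp
  rw [e]
  obtain ⟨q1, q2⟩ := sTo1 R C t k N' hk hb hT
  exact ⟨q2, good_Nw ⟨hC, P_meas hk hb.meas t, fun x _ => P_le hk hb t x⟩ q1 q2⟩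

theorem mild_Nw {R γ T lam : ℝ} {K : ℝ → EE d → EE d → ℝ} {S : EE d → ℝ} {mI : EE d → EE d}
    {z : ℝ → EE d → EE d} {m : XT d R T} (hr : Rep R T m z)
    (hc : ContinuousOn (fun q : ℝ × EE d => z q.1 q.2) (Ioc 0 T ×ˢ closedBall 0 R))
    (hz : IsMild R K S γ T mI lam z) : MildX R K S γ T mI lam m := by
  obtain ⟨g, hg, he⟩ := hz
  refine ⟨?_, g, ?_, ?_⟩
  · filter_upwards [hr, ae_restrict_mem measurableSet_Ioo] with t e ht
    exact sVmo R (z t) _ (hc.comp (f := fun x : E d => (t, x)) (by fun_prop) fun x hx =>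
      ⟨Ioo_subset_Ioc_self ht, hx⟩) e
  · filter_upwards [hr, ae_restrict_mem measurableSet_Ioo] with t e ht
    obtain ⟨p1, p2⟩ := hg t (Ioo_subset_Ioc_self ht)
    refine ⟨p1, fun φ hφ => ?_⟩
    rw [← p2 φ hφ]
    exact integral_congr_ae (e.mono fun x ex => by simp only [ex])
  · filter_upwards [hr, ae_restrict_mem measurableSet_Ioo] with t e ht
    filter_upwards [e, ae_restrict_mem measurableSet_ball] with x ex hx
    obtain ⟨i1, i2, i3, i4⟩ := he t (Ioo_subset_Ioc_self ht) x hx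
    have hr' := ae_restrict_of_ae_restrict_of_subset (Ioo_subset_Ioo_right ht.2.le) hr
    have c1 : ∀ᵐ s ∂(volume.restrict (Ioo 0 t)),
        (fun y => K (t - s) x y • src lam γ (z s y) (g s y)) =ᵐ[volume.restrict (ball 0 R)]
          fun y => K (t - s) x y • src lam γ (m s y) (g s y) :=
      hr'.mono fun s es => es.mono fun y ey => by simp only [ey]
    have c2 : (fun s => ∫ y in ball 0 R, K (t - s) x y • src lam γ (z s y) (g s y))
        =ᵐ[volume.restrict (Ioo 0 t)]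
          fun s => ∫ y in ball 0 R, K (t - s) x y • src lam γ (m s y) (g s y) :=
      c1.mono fun s es => integral_congr_ae es
    refine ⟨i1, ?_, i3.congr c2, ?_⟩
    · filter_upwards [c1, ae_restrict_mem measurableSet_Ioo] with s es hs
      exact (i2 s hs).congr es
    · rw [ex, i4, integral_congr_ae c2]

/-- A continuous curve of pointwise mild solutions gives a global branch. -/
theorem bridge {R γ T : ℝ} {K : ℝ → EE d → EE d → ℝ} {S : EE d → ℝ} {mI : EE d → EE d}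
    (z : ℝ → ℝ → EE d → EE d)
    (hc : ∀ lam, 0 ≤ lam →
      ContinuousOn (fun q : ℝ × EE d => z lam q.1 q.2) (Ioc 0 T ×ˢ closedBall 0 R))
    (hb : ∀ lam, 0 ≤ lam → ∃ M : ℝ, ∀ t ∈ Ioc (0 : ℝ) T, ∀ x ∈ ball (0 : EE d) R, ‖z lam t x‖ ≤ M)
    (hz : ∀ lam, 0 ≤ lam → IsMild R K S γ T mI lam (z lam))
    (hl : ∀ l₀, 0 ≤ l₀ → ∀ ε > 0, ∃ δ > 0, ∀ l, 0 ≤ l → |l - l₀| < δ →
      ∀ t ∈ Ioc (0 : ℝ) T, ∀ x ∈ ball (0 : EE d) R, ‖z l t x - z l₀ t x‖ ≤ ε) :
    ∃ m₀ : XT d R T, (0, m₀) ∈ SolX R K S γ T mI ∧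
      ∀ lam : ℝ, 0 ≤ lam → ∃ m, (lam, m) ∈ connectedComponentIn (SolX R K S γ T mI) (0, m₀) := by
  have h1 : ∀ lam : ℝ, ∃ m : XT d R T, 0 ≤ lam → Rep R T m (z lam) := fun lam => by
    by_cases h : 0 ≤ lam
    · obtain ⟨M, hM⟩ := hb lam h
      obtain ⟨m, hm⟩ := sEmb R T (max M 0) (z lam) (le_max_right _ _)
        (fun t ht x hx => (hM t (Ioo_subset_Ioc_self ht) x hx).trans (le_max_left _ _))
        ((hc lam h).mono (prod_mono Ioo_subset_Ioc_self Subset.rfl))
      exact ⟨m, fun _ => hm⟩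
    · exact ⟨0, fun h' => absurd h' h⟩
  choose m hm using h1
  have hmild : ∀ lam, 0 ≤ lam → (lam, m lam) ∈ SolX R K S γ T mI := fun lam h =>
    ⟨h, mild_Nw (hm lam h) (hc lam h) (hz lam h)⟩
  have hcont : ContinuousOn m (Ici 0) := by
    refine Metric.continuousOn_iff.2 fun l₀ h₀ ε hε => ?_
    obtain ⟨δ, hδ, h⟩ := hl l₀ h₀ (ε / 2) (half_pos hε)
    refine ⟨δ, hδ, fun l h' hd => ?_⟩
    exact (sDist R T _ _ _ _ _ (half_pos hε).le (hm l h') (hm l₀ h₀) fun t ht x hx =>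
      h l h' hd t (Ioo_subset_Ioc_self ht) x hx).trans_lt (half_lt_self hε)
  refine ⟨m 0, hmild 0 le_rfl, fun lam h => ⟨m lam, ?_⟩⟩
  have hpre : IsPreconnected ((fun l : ℝ => (l, m l)) '' Ici 0) :=
    isPreconnected_Ici.image _ (continuousOn_id.prodMk hcont)
  refine hpre.subset_connectedComponentIn ⟨0, mem_Ici.2 le_rfl, rfl⟩ ?_ ⟨lam, h, rfl⟩
  rintro _ ⟨l, hl', rfl⟩
  exact hmild l hl'

/-- The same branch from a family that is locally Lipschitz in the parameter. -/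
theorem bridge2 {R γ T : ℝ} {K : ℝ → EE d → EE d → ℝ} {S : EE d → ℝ} {mI : EE d → EE d}
    (H : ∃ m : ℝ → ℝ → EE d → EE d,
      (∀ lam ≥ 0, ContinuousOn (fun p : ℝ × EE d => m lam p.1 p.2) (Ioc 0 T ×ˢ closedBall 0 R) ∧
        (∃ C : ℝ, ∀ t ∈ Ioc 0 T, ∀ x ∈ closedBall (0 : EE d) R, ‖m lam t x‖ ≤ C) ∧
        IsMild R K S γ T mI lam (m lam)) ∧
      ∀ Λ : ℝ, ∃ L : ℝ, ∀ lam ∈ Icc 0 Λ, ∀ lam' ∈ Icc 0 Λ, ∀ t ∈ Ioc 0 T,
        ∀ x ∈ closedBall (0 : EE d) R, ‖m lam t x - m lam' t x‖ ≤ L * |lam - lam'|) :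
    ∃ m₀ : XT d R T, (0, m₀) ∈ SolX R K S γ T mI ∧
      ∀ lam : ℝ, 0 ≤ lam → ∃ m, (lam, m) ∈ connectedComponentIn (SolX R K S γ T mI) (0, m₀) := by
  obtain ⟨z, h1, h2⟩ := H
  refine bridge z (fun l h => (h1 l h).1) (fun l h => ?_) (fun l h => (h1 l h).2.2)
    fun l₀ h₀ ε hε => ?_
  · obtain ⟨C, hC⟩ := (h1 l h).2.1
    exact ⟨C, fun t ht x hx => hC t ht x (ball_subset_closedBall hx)⟩
  · obtain ⟨L, hL⟩ := h2 (l₀ + 1)
    have hp : 0 < |L| + 1 := by positivity
    refine ⟨min 1 (ε / (|L| + 1)), lt_min one_pos (div_pos hε hp), fun l hl hd t ht x hx => ?_⟩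
    have d1 := abs_lt.1 (hd.trans_le (min_le_left _ _))
    have d2 := (lt_div_iff₀ hp).1 (hd.trans_le (min_le_right _ _))
    refine (hL l ⟨hl, by linarith [d1.2]⟩ l₀ ⟨h₀, by linarith⟩ t ht x
      (ball_subset_closedBall hx)).trans ?_
    nlinarith [le_abs_self L, abs_nonneg (l - l₀), abs_nonneg L]

end Pool.Agent.MP_b33505_an.Nw
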