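import Pool.Agent.MP_b33505_an.St
import Pool.Agent.MP_b33505_an.NwDefs

/-! Steps of the uniqueness of the mild solution at parameter zero. -/

namespace Pool.Agent.MP_b33505_an

open MeasureTheory Set Metric Filter Topology
open scoped RealInnerProductSpace Laplacian BoundedContinuousFunction

abbrev YY (d : ℕ) (R : ℝ) : Type :=
  Lp (EE d) (⊤ : ENNReal) (volume.restrict (ball (0 : EE d) R))

def SUtr : Prop := ∀ (d : ℕ) (R : ℝ) (a : YY d R),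
  ∃ f : EE d → EE d, Dat R ‖a‖ f ∧ f =ᵐ[volume.restrict (ball (0 : EE d) R)] a

def SUq : Prop := ∀ (d : ℕ) (R D : ℝ) (K : ℝ → EE d → EE d → ℝ), IsKernel R D K → 0 < D → 0 < R →
  ∃ Q : ℝ → YY d R → ZZ d, (∀ t > 0, ∀ (a : YY d R) (x : EE d), Q t a x = pk R K t a x) ∧
    (∀ t > 0, ∀ a, ‖Q t a‖ ≤ ‖a‖) ∧
    ContinuousOn (fun p : ℝ × YY d R => Q p.1 p.2) (Ioi 0 ×ˢ univ)

def SUg : Prop := ∀ (d : ℕ) (R : ℝ) (g : EE d → EE d), Continuous g →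
  ∃ H : YY d R → YY d R, Continuous H ∧
    (∀ a, H a =ᵐ[volume.restrict (ball (0 : EE d) R)] fun y => g (a y)) ∧
    ∀ M : ℝ, ∃ B : ℝ, ∀ a, ‖a‖ ≤ M → ‖H a‖ ≤ B

def SUi1 : Prop := ∀ (Y Z : Type) [NormedAddCommGroup Y] [NormedAddCommGroup Z]
  (Q : ℝ → Y → Z) (T B : ℝ) (h : ℝ → Y), (∀ t > 0, ∀ a, ‖Q t a‖ ≤ ‖a‖) →
  ContinuousOn (fun p : ℝ × Y => Q p.1 p.2) (Ioi 0 ×ˢ univ) →
  AEStronglyMeasurable h (volume.restrict (Ioo 0 T)) →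
  (∀ᵐ s ∂(volume.restrict (Ioo 0 T)), ‖h s‖ ≤ B) →
  ∀ t ∈ Ioc 0 T, IntegrableOn (fun s => Q (t - s) (h s)) (Ioo 0 t)

def SUi : Prop := ∀ (Y Z : Type) [NormedAddCommGroup Y] [NormedAddCommGroup Z] [NormedSpace ℝ Z]
  [CompleteSpace Z] (Q : ℝ → Y → Z) (T B : ℝ) (h : ℝ → Y), (∀ t > 0, ∀ a, ‖Q t a‖ ≤ ‖a‖) →
  ContinuousOn (fun p : ℝ × Y => Q p.1 p.2) (Ioi 0 ×ˢ univ) →
  AEStronglyMeasurable h (volume.restrict (Ioo 0 T)) →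
  (∀ᵐ s ∂(volume.restrict (Ioo 0 T)), ‖h s‖ ≤ B) →
  BC T fun t => ∫ s in Ioo 0 t, Q (t - s) (h s)

/-- A first form: the fixed point has a representative given by the Duhamel formula. -/
def SUr1 : Prop := ∀ (d : ℕ) (R D γ C T L β : ℝ) (K : ℝ → EE d → EE d → ℝ) (s : ℝ → ℝ)
  (S : EE d → ℝ) (P : ℝ → ZZ d →L[ℝ] ZZ d) (F G : ZZ d → ZZ d) (f : EE d → EE d) (u : ℝ → ZZ d)
  (m : XT d R T), 1 / 2 < γ → Ctx R D γ K s P F G L β → Ini R C K P f u →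
  MildX R K S γ T f 0 m → ∃ (z : ℝ → ZZ d) (w : ℝ → ℝ → ZZ d), BC T z ∧
    (∀ t > 0, ∀ r x, w t r x = pk R K t (fun y => -damp γ (m r y)) x) ∧
    (∀ t ∈ Ioc 0 T, z t = u t + ∫ r in Ioo 0 t, w (t - r) r) ∧
    ∀ᵐ t ∂(volume.restrict (Ioo 0 T)), m t =ᵐ[volume.restrict (ball (0 : EE d) R)] z t

def SUr : Prop := ∀ (d : ℕ) (R D γ C T L β : ℝ) (K : ℝ → EE d → EE d → ℝ) (s : ℝ → ℝ)
  (S : EE d → ℝ) (P : ℝ → ZZ d →L[ℝ] ZZ d) (F G : ZZ d → ZZ d) (f : EE d → EE d) (u : ℝ → ZZ d)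
  (m : XT d R T), 1 / 2 < γ → Ctx R D γ K s P F G L β → Ini R C K P f u →
  MildX R K S γ T f 0 m → ∃ z : ℝ → ZZ d, Sol P u T F G 0 z ∧
    ∀ᵐ t ∂(volume.restrict (Ioo 0 T)), m t =ᵐ[volume.restrict (ball (0 : EE d) R)] z t

def SUn : Prop := ∀ (d : ℕ) (R D γ C T : ℝ) (K : ℝ → EE d → EE d → ℝ) (S : EE d → ℝ)
  (f : EE d → EE d) (m m' : XT d R T), 1 ≤ d → 0 < R → 0 < D → 1 / 2 < γ → IsKernel R D K →
  Dat R C f → MildX R K S γ T f 0 m → MildX R K S γ T f 0 m' → m = m'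

end Pool.Agent.MP_b33505_an
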