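import Pool.Agent.MP_b33505_an.All
import Pool.Agent.MP_b33505_an.Nw
import Pool.Agent.MP_b33505_an.St3

namespace Pool.Agent.MP_b33505_an

open MeasureTheory Set Metric Filter Topology
open scoped RealInnerProductSpace

theorem aTor : STor := fun _ _ _ _ _ _ hd hK hD hR hN h1 h2 =>
  Nw.toroid aKb aKinv sGaI hd hK hD hR hN h1 h2

theorem fin_Fin (hU : SUn) (d : ℕ) (hd : 2 ≤ d) (R D T γ : ℝ) (hR : 0 < R) (hD : 0 < D)
    (hT : 0 < T) (hγ : 1 / 2 < γ) (K : ℝ → EE d → EE d → ℝ) (hK : IsKernel R D K) (s : ℝ → ℝ)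
    (hs : Measurable s) (hsb : ∃ C : ℝ, ∀ r, |s r| ≤ C) (μ : ℝ → ℝ) (hμ : Measurable μ)
    (N : EE d → EE d) (hN : Measurable N)
    (hb : ∃ C : ℝ, ∀ x ∈ ball (0 : EE d) R, ‖μ ‖x‖ • x‖ ≤ C ∧ ‖N x‖ ≤ C)
    (hN1 : ∀ x ∈ ball (0 : EE d) R, ⟪N x, x⟫ = 0)
    (hN2 : ∀ φ, Test R φ → ∫ x in ball 0 R, ⟪N x, gradient φ x⟫ = 0) (hc : γ = 1 ∨ N = 0) :
    ∃ m₀ : XT d R T,
      (∀ m, (0, m) ∈ SolX R K (fun x => s ‖x‖) γ T (fun x => μ ‖x‖ • x + N x) ↔ m = m₀) ∧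
      Prod.fst '' connectedComponentIn
        (SolX R K (fun x => s ‖x‖) γ T (fun x => μ ‖x‖ • x + N x)) (0, m₀) = Ici 0 := by
  obtain ⟨m₀, h0, h1⟩ := Nw.bridge2 (main_Main aP aG2 sG3 aF aEx aDif aSym sRadG aTor sSumG aSumS
    aMild d hd R D T γ hR hD hT hγ K hK s hs hsb μ hμ N hN hb hN1 hN2 hc)
  obtain ⟨C, hC⟩ := hb
  have m0 : Measurable fun x : EE d => μ ‖x‖ • x := (hμ.comp measurable_norm).smul measurable_id
  refine ⟨m₀, fun m => ⟨fun hm => ?_, fun hm => hm ▸ h0⟩, Subset.antisymm ?_ fun lam hl => ?_⟩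
  · exact hU d R D γ (C + C) T K _ _ m m₀ (by omega) hR hD hγ hK
      ⟨(m0.add hN).aestronglyMeasurable,
        fun y hy => (norm_add_le _ _).trans (add_le_add (hC y hy).1 (hC y hy).2)⟩ hm.2 h0.2
  · rintro _ ⟨q, hq, rfl⟩
    exact (connectedComponentIn_subset _ _ hq).1
  · obtain ⟨m, hm⟩ := h1 lam hl
    exact ⟨_, hm, rfl⟩

end Pool.Agent.MP_b33505_an
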