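import Pool.Agent.MP_b33505_an.St3

namespace Pool.Agent.MP_b33505_an

open MeasureTheory Set Metric Filter Topology
open scoped RealInnerProductSpace Laplacian BoundedContinuousFunction

section

theorem sUtr : SUtr := by
  intro d R a
  have h1 : ∀ᵐ y ∂volume.restrict (ball (0 : EE d) R), ‖a y‖ ≤ ‖a‖ := by
    filter_upwards [ae_le_eLpNormEssSup (f := a) (μ := volume.restrict (ball (0 : EE d) R))]
      with y hy
    rw [Lp.norm_def, eLpNorm_exponent_top, ← toReal_enorm]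
    exact ENNReal.toReal_mono (by simpa using (Lp.eLpNorm_ne_top a)) hy
  have h2 : {y | ‖a y‖ ≤ ‖a‖}.indicator a =ᵐ[volume.restrict (ball (0 : EE d) R)] a :=
    h1.mono fun y hy => indicator_of_mem (s := {y | ‖a y‖ ≤ ‖a‖}) hy _
  refine ⟨_, ⟨(Lp.aestronglyMeasurable a).congr h2.symm, fun y _ => ?_⟩, h2⟩
  by_cases hy : y ∈ {y | ‖a y‖ ≤ ‖a‖}
  · rw [indicator_of_mem hy]
    exact hy
  · rw [indicator_of_notMem hy, norm_zero]
    exact norm_nonneg _

end

section

lemma cg_Uq {d : ℕ} (R t : ℝ) (K : ℝ → EE d → EE d → ℝ) (f g : EE d → EE d)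
    (h : f =ᵐ[volume.restrict (ball (0 : EE d) R)] g) : pk R K t f = pk R K t g := by
  unfold pk
  refine congrArg _ (funext fun x => integral_congr_ae ?_)
  filter_upwards [h] with y hy
  rw [hy]

lemma sub_Uq {d : ℕ} (R t : ℝ) (K : ℝ → EE d → EE d → ℝ) (f g h : EE d → EE d)
    (hf : ∀ x ∈ closedBall (0 : EE d) R, IntegrableOn (fun y => K t x y • f y) (ball 0 R))
    (hg : ∀ x ∈ closedBall (0 : EE d) R, IntegrableOn (fun y => K t x y • g y) (ball 0 R))
    (hh : h =ᵐ[volume.restrict (ball (0 : EE d) R)] fun y => f y - g y) (x : EE d) :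
    pk R K t f x - pk R K t g x = pk R K t h x := by
  rw [cg_Uq R t K h _ hh]
  unfold pk
  by_cases hx : x ∈ closedBall (0 : EE d) R
  · simp only [indicator_of_mem hx, smul_sub]
    exact (integral_sub (hf x hx) (hg x hx)).symm
  · simp only [indicator_of_notMem hx, sub_zero]

theorem sUq (hT : SUtr) (h1 : SPk1) (h2 : SPk2) : SUq := by
  intro d R D K hK hD hR
  choose f hf hfa using hT d R
  have key := fun (a : YY d R) (t : ℝ) (ht : 0 < t) => h1 d R D ‖a‖ K (f a) hK hD hR (hf a) t ht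
  obtain ⟨Q, hQ⟩ : ∃ Q : ℝ → YY d R → ZZ d, ∀ t > 0, ∀ (a : YY d R) (x : EE d),
      Q t a x = pk R K t (f a) x := by
    refine ⟨fun t a => if h : 0 < t then BoundedContinuousFunction.ofNormedAddCommGroup
      (pk R K t (f a)) (key a t h).2.1 ‖a‖ (key a t h).2.2 else 0, fun t ht a x => ?_⟩
    simp only [dif_pos ht]
    rfl
  have hn : ∀ t > 0, ∀ a, ‖Q t a‖ ≤ ‖a‖ := fun t ht a =>
    (BoundedContinuousFunction.norm_le (norm_nonneg a)).2 fun x => by
      rw [hQ t ht]; exact (key a t ht).2.2 x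
  have hs : ∀ t > 0, ∀ a b, Q t a - Q t b = Q t (a - b) := by
    intro t ht a b
    refine BoundedContinuousFunction.ext fun x => ?_
    rw [BoundedContinuousFunction.sub_apply, hQ t ht, hQ t ht, hQ t ht]
    refine sub_Uq R t K _ _ _ (key a t ht).1 (key b t ht).1 ?_ x
    filter_upwards [hfa (a - b), hfa a, hfa b, Lp.coeFn_sub a b] with y e1 e2 e3 e4
    rw [e1, e2, e3, e4, Pi.sub_apply]
  refine ⟨Q, fun t ht a x => by rw [hQ t ht, cg_Uq R t K _ _ (hfa a)], hn, ?_⟩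
  rw [Metric.continuousOn_iff]
  rintro ⟨t0, a0⟩ ⟨ht0, -⟩ ε hε
  have hp : 0 < ‖a0‖ + 1 := by positivity
  obtain ⟨δ, hδ, hd⟩ := h2 d R D K hK hD hR t0 ht0 (ε / 2 / (‖a0‖ + 1)) (by positivity)
  refine ⟨min δ (ε / 2), by positivity, ?_⟩
  rintro ⟨t, a⟩ ⟨ht, -⟩ hda
  rw [Prod.dist_eq, max_lt_iff, lt_min_iff, lt_min_iff] at hda
  have e1 : |t - t0| < δ := by simpa [Real.dist_eq] using hda.1.1
  have e2 : ‖a - a0‖ < ε / 2 := by simpa [dist_eq_norm] using hda.2.2
  have e3 : ‖Q t a0 - Q t0 a0‖ ≤ ε / 2 / (‖a0‖ + 1) * ‖a0‖ :=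
    (BoundedContinuousFunction.norm_le (by positivity)).2 fun x => by
      rw [BoundedContinuousFunction.sub_apply, hQ t ht, hQ t0 ht0]
      exact hd t ht e1 _ _ (hf a0) x
  have e4 : ε / 2 / (‖a0‖ + 1) * ‖a0‖ ≤ ε / 2 := by
    rw [div_mul_eq_mul_div, div_le_iff₀ hp]
    nlinarith
  have e5 : ‖Q t a - Q t a0‖ ≤ ‖a - a0‖ := by rw [hs t ht]; exact hn t ht _
  have e6 := norm_sub_le_norm_sub_add_norm_sub (Q t a) (Q t a0) (Q t0 a0)
  rw [dist_eq_norm]
  show ‖Q t a - Q t0 a0‖ < ε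
  linarith

end

section

theorem ae_Ug {d : ℕ} {R : ℝ} (a : YY d R) :
    ∀ᵐ y ∂(volume.restrict (ball (0 : EE d) R)), ‖a y‖ ≤ ‖a‖ := by
  have h1 := ae_le_eLpNormEssSup (f := (a : EE d → EE d))
    (μ := volume.restrict (ball (0 : EE d) R))
  have h2 := Lp.eLpNorm_ne_top a
  rw [eLpNorm_exponent_top] at h2
  refine h1.mono fun y hy => ?_
  rw [Lp.norm_def, eLpNorm_exponent_top, ← toReal_enorm]
  exact ENNReal.toReal_mono h2 hy

theorem norm_Ug {d : ℕ} {R C : ℝ} (a : YY d R) (hC : 0 ≤ C)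
    (h : ∀ᵐ y ∂(volume.restrict (ball (0 : EE d) R)), ‖a y‖ ≤ C) : ‖a‖ ≤ C := by
  rw [Lp.norm_def, eLpNorm_exponent_top]
  exact ENNReal.toReal_le_of_le_ofReal hC (eLpNormEssSup_le_of_ae_bound h)

theorem sUg : SUg := by
  intro d R g hg
  have bd : ∀ M : ℝ, ∃ B : ℝ, 0 ≤ B ∧ ∀ v : EE d, ‖v‖ ≤ M → ‖g v‖ ≤ B := by
    intro M
    obtain ⟨B, hB⟩ := (isCompact_closedBall (0 : EE d) M).exists_bound_of_continuousOn
      hg.continuousOn
    exact ⟨max B 0, le_max_right _ _, fun v hv =>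
      (hB v (mem_closedBall_zero_iff.2 hv)).trans (le_max_left _ _)⟩
  have mem : ∀ a : YY d R, MemLp (fun y => g (a y)) ⊤ (volume.restrict (ball (0 : EE d) R)) := by
    intro a
    obtain ⟨B, -, hB⟩ := bd ‖a‖
    exact memLp_top_of_bound (hg.comp_aestronglyMeasurable (Lp.aestronglyMeasurable a)) B
      ((ae_Ug a).mono fun y hy => hB _ hy)
  refine ⟨fun a => (mem a).toLp _, ?_, fun a => (mem a).coeFn_toLp, fun M => ?_⟩
  · rw [Metric.continuous_iff]
    intro a0 ε hε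
    have hu := (isCompact_closedBall (0 : EE d) (‖a0‖ + 1)).uniformContinuousOn_of_continuous
      hg.continuousOn
    obtain ⟨δ, hδ, h⟩ := Metric.uniformContinuousOn_iff.1 hu (ε / 2) (half_pos hε)
    refine ⟨min δ 1, lt_min hδ one_pos, fun a ha => ?_⟩
    rw [dist_eq_norm] at ha ⊢
    refine (norm_Ug _ (half_pos hε).le ?_).trans_lt (half_lt_self hε)
    have h1 : ‖a‖ ≤ ‖a0‖ + 1 := by
      have := norm_sub_norm_le a a0
      linarith [ha.trans_le (min_le_right _ _)]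
    filter_upwards [ae_Ug a, ae_Ug a0, ae_Ug (a - a0), Lp.coeFn_sub a a0,
      Lp.coeFn_sub ((mem a).toLp _) ((mem a0).toLp _), (mem a).coeFn_toLp, (mem a0).coeFn_toLp]
      with y y1 y2 y3 y4 y5 y6 y7
    rw [y5, Pi.sub_apply, y6, y7, ← dist_eq_norm]
    refine (h _ (mem_closedBall_zero_iff.2 (y1.trans h1)) _
      (mem_closedBall_zero_iff.2 (y2.trans (by linarith))) ?_).le
    rw [y4, Pi.sub_apply] at y3
    rw [dist_eq_norm]
    exact y3.trans_lt (ha.trans_le (min_le_left _ _))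
  · obtain ⟨B, B0, hB⟩ := bd M
    refine ⟨B, fun a ha => norm_Ug _ B0 ?_⟩
    filter_upwards [ae_Ug a, (mem a).coeFn_toLp] with y y1 y2
    rw [y2]
    exact hB _ (y1.trans ha)

end

section

theorem sUi1 : SUi1 := by
  intro Y Z _ _ Q T B h hQ hc hm hB t ht
  have sub : Ioo 0 t ⊆ Ioo 0 T := Ioo_subset_Ioo_right ht.2
  have c1 : Continuous fun p : ℝ × Y => Q (Real.exp p.1) p.2 :=
    hc.comp_continuous (f := fun p : ℝ × Y => (Real.exp p.1, p.2)) (by fun_prop)
      fun p => ⟨Real.exp_pos _, mem_univ _⟩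
  have m1 : AEStronglyMeasurable (fun s => (Real.log (t - s), h s)) (volume.restrict (Ioo 0 t)) :=
    (Real.measurable_log.comp (measurable_const.sub measurable_id)).aestronglyMeasurable.prodMk
      (hm.mono_set sub)
  have hi : ∀ᵐ s ∂volume.restrict (Ioo 0 t), s ∈ Ioo 0 t := ae_restrict_mem measurableSet_Ioo
  have m2 : AEStronglyMeasurable (fun s => Q (t - s) (h s)) (volume.restrict (Ioo 0 t)) := by
    refine (c1.comp_aestronglyMeasurable m1).congr ?_
    filter_upwards [hi] with s hs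
    simp only [Real.exp_log (sub_pos.2 hs.2)]
  refine Integrable.of_bound m2 B ?_
  filter_upwards [hi, ae_restrict_of_ae_restrict_of_subset sub hB] with s hs h1
  exact (hQ _ (sub_pos.2 hs.2) _).trans h1

end

section

theorem int_Ui {T t : ℝ} (h : t ≤ T) : Ioo 0 T ∩ Iio t = Ioo 0 t := by
  ext s
  simp only [mem_inter_iff, mem_Ioo, mem_Iio]
  exact ⟨fun a => ⟨a.1.1, a.2⟩, fun a => ⟨⟨a.1, a.2.trans_le h⟩, a.2⟩⟩

theorem sUi (h1 : SUi1) : SUi := by
  intro Y Z _ _ _ _ Q T B h hQ hc hm hB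
  have hI := h1 Y Z Q T B h hQ hc hm hB
  have hb : ∀ t, ∀ᵐ s ∂(volume.restrict (Ioo 0 T)),
      ‖(Iio t).indicator (fun s => Q (t - s) (h s)) s‖ ≤ |B| := by
    intro t
    filter_upwards [hB] with s hs
    by_cases hst : s ∈ Iio t
    · rw [indicator_of_mem hst]
      exact ((hQ _ (sub_pos.2 hst) _).trans hs).trans (le_abs_self B)
    · rw [indicator_of_notMem hst, norm_zero]
      exact abs_nonneg B
  have he : ∀ t ∈ Ioc 0 T, ∫ s in Ioo 0 t, Q (t - s) (h s) =
      ∫ s in Ioo 0 T, (Iio t).indicator (fun s => Q (t - s) (h s)) s := by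
    intro t ht
    rw [setIntegral_indicator measurableSet_Iio, int_Ui ht.2]
  refine ⟨?_, |B| * volume.real (Ioo (0 : ℝ) T), fun t ht => ?_⟩
  · refine ContinuousOn.congr (fun t0 _ => ?_) he
    refine continuousWithinAt_of_dominated (bound := fun _ => |B|) ?_
      (Eventually.of_forall hb) (integrable_const _) ?_
    · filter_upwards [self_mem_nhdsWithin] with t ht
      rw [aestronglyMeasurable_indicator_iff measurableSet_Iio,
        Measure.restrict_restrict measurableSet_Iio, inter_comm, int_Ui ht.2]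
      exact (hI t ht).aestronglyMeasurable
    · filter_upwards [ae_restrict_of_ae (volume.ae_ne t0)] with s hs
      refine ContinuousAt.continuousWithinAt ?_
      rcases lt_or_gt_of_ne hs with a | a
      · have c1 : ContinuousAt (fun p : ℝ × Y => Q p.1 p.2) (t0 - s, h s) :=
          hc.continuousAt ((isOpen_Ioi.prod isOpen_univ).mem_nhds ⟨sub_pos.2 a, mem_univ _⟩)
        have c2 : ContinuousAt (fun t : ℝ => Q (t - s) (h s)) t0 :=
          ContinuousAt.comp (f := fun t : ℝ => (t - s, h s)) c1 (by fun_prop)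
        refine c2.congr ?_
        filter_upwards [Ioi_mem_nhds a] with t ht
        rw [indicator_of_mem (show s ∈ Iio t from ht)]
      · refine (continuousAt_const (y := (0 : Z))).congr ?_
        filter_upwards [Iio_mem_nhds a] with t ht
        rw [indicator_of_notMem (show s ∉ Iio t from fun g => lt_asymm (show s < t from g) ht)]
  · show ‖∫ s in Ioo 0 t, Q (t - s) (h s)‖ ≤ _
    rw [he t ht]
    exact norm_setIntegral_le_of_norm_le_const_ae measure_Ioo_lt_top (hb t)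

end

section

theorem bd_Ur1 {X Y : Type} [MeasurableSpace X] [NormedAddCommGroup Y] {μ : Measure X}
    (a : Lp Y (⊤ : ENNReal) μ) : ∀ᵐ x ∂μ, ‖a x‖ ≤ ‖a‖ := by
  have h1 := Lp.eLpNorm_ne_top a
  rw [eLpNorm_exponent_top] at h1
  filter_upwards [ae_le_eLpNormEssSup (f := a) (μ := μ)] with x hx
  rw [Lp.norm_def, eLpNorm_exponent_top, ← toReal_enorm]
  exact ENNReal.toReal_mono h1 hx

theorem sUr1 (hG : SG2) (hq : SUq) (hg : SUg) (h1 : SUi1) (hi : SUi) : SUr1 := by
  intro d R D γ C T L β K s S P F G f u m hγ ctx ini hm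
  obtain ⟨Q, q1, q2, q3⟩ := hq d R D K ctx.ker ctx.D0 ctx.R0
  obtain ⟨H, c1, c2, c3⟩ := hg d R (fun v => -damp γ v) (hG d γ hγ).cont.neg
  obtain ⟨B, hB⟩ := c3 ‖m‖
  have m1 : AEStronglyMeasurable (fun r => H (m r)) (volume.restrict (Ioo 0 T)) :=
    c1.comp_aestronglyMeasurable (Lp.aestronglyMeasurable m)
  have m2 : ∀ᵐ r ∂(volume.restrict (Ioo 0 T)), ‖H (m r)‖ ≤ B :=
    (bd_Ur1 m).mono fun r hr => hB _ hr
  have i1 := h1 (YY d R) (ZZ d) Q T B _ q2 q3 m1 m2
  obtain ⟨b1, B', b2⟩ := hi (YY d R) (ZZ d) Q T B _ q2 q3 m1 m2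
  have rep : ∀ t > 0, ∀ r x, Q t (H (m r)) x = pk R K t (fun y => -damp γ (m r y)) x := by
    intro t ht r x
    rw [q1 t ht]
    unfold pk
    congr 1
    funext x'
    refine integral_congr_ae ?_
    filter_upwards [c2 (m r)] with y hy
    rw [hy]
  refine ⟨fun t => u t + ∫ r in Ioo 0 t, Q (t - r) (H (m r)), fun t r => Q t (H (m r)),
    ⟨(ini.orb.cont.mono fun t ht => ht.1).add b1, C + B', fun t ht =>
      (norm_add_le _ _).trans (add_le_add (ini.orb.bd t ht.1) (b2 t ht))⟩,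
    rep, fun t _ => rfl, ?_⟩
  obtain ⟨-, g, -, h3⟩ := hm
  filter_upwards [h3, ae_restrict_mem measurableSet_Ioo] with t h4 ht
  filter_upwards [h4, ae_restrict_mem measurableSet_ball] with x h5 hx
  have hx' : x ∈ closedBall (0 : EE d) R := ball_subset_closedBall hx
  have h6 : (∫ r in Ioo 0 t, Q (t - r) (H (m r))) x = ∫ r in Ioo 0 t, Q (t - r) (H (m r)) x :=
    ((BoundedContinuousFunction.evalCLM ℝ x).integral_comp_comm (i1 t ⟨ht.1, ht.2.le⟩)).symm
  rw [h5.2.2.2, BoundedContinuousFunction.add_apply, h6, ini.rep t ht.1, pk,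
    indicator_of_mem hx']
  congr 1
  refine setIntegral_congr_fun measurableSet_Ioo fun r hr => ?_
  beta_reduce
  rw [rep _ (sub_pos.2 hr.2), pk, indicator_of_mem hx']
  simp only [src, zero_smul, zero_sub]

end

section

theorem sUr (h : SUr1) : SUr := by
  intro d R D γ C T L β K s S P F G f u m hγ ctx ini hm
  obtain ⟨z, w, hz, hw, e, ae⟩ := h d R D γ C T L β K s S P F G f u m hγ ctx ini hm
  refine ⟨z, ⟨hz, fun t ht => ?_⟩, ae⟩
  rw [e t ht]
  congr 1
  have h1 := ae_restrict_of_ae_restrict_of_subset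
    (show Ioo (0 : ℝ) t ⊆ Ioo 0 T from Ioo_subset_Ioo_right ht.2) ae
  refine integral_congr_ae ?_
  filter_upwards [h1, ae_restrict_mem measurableSet_Ioo] with r hr hr'
  have p : 0 < t - r := sub_pos.2 hr'.2
  ext1 x
  rw [hw _ p, ctx.rep _ p]
  unfold pk
  by_cases hx : x ∈ closedBall (0 : EE d) R
  · rw [indicator_of_mem hx, indicator_of_mem hx]
    refine integral_congr_ae ?_
    filter_upwards [hr] with y hy
    simp [ctx.repG, hy]
  · rw [indicator_of_notMem hx, indicator_of_notMem hx]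

end

section

theorem sUn (hP : SP) (hG2 : SG2) (hG3 : SG3) (hF : SF) (hD : SDif) (hr : SUr) : SUn := by
  intro d R D γ C T K S f m m' hd hR h0 hγ hK hf hm hm'
  obtain ⟨P, sg, rep, ini⟩ := hP d R D K hK h0 hR
  obtain ⟨G, dmp, repG⟩ := hG3 d (damp γ) (hG2 d γ hγ)
  obtain ⟨F, L, β, frc, repF⟩ := hF d R 0 (fun _ => 0) hd hR ⟨measurable_const, fun _ => by simp⟩
  have ctx : Ctx R D γ K (fun _ => 0) P F G L β := ⟨hR, h0, hK, sg, rep, frc, repF, dmp, repG⟩
  obtain ⟨u, iu⟩ := ini C f hf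
  obtain ⟨z, hz, e⟩ := hr d R D γ C T L β K _ S P F G f u m hγ ctx iu hm
  obtain ⟨z', hz', e'⟩ := hr d R D γ C T L β K _ S P F G f u m' hγ ctx iu hm'
  have b0 : BC T (fun _ : ℝ => (0 : ZZ d)) := ⟨continuousOn_const, 0, fun _ _ => by simp⟩
  have key := hD (ZZ d) P u T F G L β 0 0 0 z z' (fun _ => 0) (fun _ => 0) sg frc dmp hz.1 hz'.1
    b0 b0 le_rfl (fun _ _ => by simp) (by simpa only [add_zero] using hz.2)
    (by simpa only [add_zero] using hz'.2)
  refine Lp.ext ?_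
  filter_upwards [e, e', ae_restrict_mem measurableSet_Ioo] with t h1 h2 ht
  have h3 := key t ⟨ht.1, ht.2.le⟩
  rw [sub_self, abs_zero, zero_mul, add_zero, mul_zero, zero_mul, norm_le_zero_iff,
    sub_eq_zero] at h3
  rw [h3] at h1
  exact Lp.ext (h1.trans h2.symm)

end

end Pool.Agent.MP_b33505_an
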