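import Pool.Agent.MP_b33505_an.Fin
import Pool.Agent.MP_b33505_an.PF

namespace Pool.Agent.MP_b33505_an

theorem aUn : SUn :=
  sUn aP aG2 sG3 aF aDif (sUr (sUr1 aG2 (sUq sUtr aPk1 (sPk2 aPk1)) sUg sUi1 (sUi sUi1)))

end Pool.Agent.MP_b33505_an
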