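import Pool.Agent.MP_b33505_an.Defs

/-! The set of mild solutions of the network formation system on a ball. -/

namespace Pool.Agent.MP_b33505_an

open MeasureTheory Set Metric

/-- The space `L^∞(μ; F)`. -/
abbrev Linf {α : Type} [MeasurableSpace α] (F : Type) [NormedAddCommGroup F] (μ : Measure α) :
    Type :=
  Lp F (⊤ : ENNReal) μ

/-- A function in the class `f`. -/
noncomputable def rep {α : Type} [MeasurableSpace α] {F : Type} [NormedAddCommGroup F]
    {μ : Measure α} (f : Linf F μ) : α → F := f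

variable {d : ℕ}

/-- Vanishing mean oscillation on the ball of radius `R`. -/
def VMO (R : ℝ) (f : EE d → EE d) : Prop :=
  ∀ ε : ℝ, 0 < ε → ∃ δ : ℝ, 0 < δ ∧ ∀ x ∈ ball (0 : EE d) R, ∀ r : ℝ, 0 < r → r < δ →
    ⨍ y in ball x r ∩ ball 0 R, ‖f y - ⨍ z in ball x r ∩ ball 0 R, f z‖ ≤ ε

/-- The space `L^∞(0, T; L^∞(B_R))`. -/
abbrev XT (d : ℕ) (R T : ℝ) : Type :=
  Linf (Linf (EE d) (volume.restrict (ball (0 : EE d) R))) (volume.restrict (Ioo (0 : ℝ) T))

/-- `m` has values in VMO and is a fixed point of the Duhamel map with parameter `lam`, almost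
everywhere; all integrals converge. -/
def Fix (R : ℝ) (K : ℝ → EE d → EE d → ℝ) (S : EE d → ℝ) (γ T : ℝ) (mI : EE d → EE d)
    (lam : ℝ) (m : ℝ → EE d → EE d) : Prop :=
  (∀ᵐ t ∂(volume.restrict (Ioo 0 T)), VMO R (m t)) ∧
  ∃ g : ℝ → EE d → EE d, (∀ᵐ s ∂(volume.restrict (Ioo 0 T)), IsPressure R S (m s) (g s)) ∧
    ∀ᵐ t ∂(volume.restrict (Ioo 0 T)), ∀ᵐ x ∂(volume.restrict (ball (0 : EE d) R)),
      IntegrableOn (fun y => K t x y • mI y) (ball 0 R) ∧
      (∀ᵐ s ∂(volume.restrict (Ioo 0 t)),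
        IntegrableOn (fun y => K (t - s) x y • src lam γ (m s y) (g s y)) (ball 0 R)) ∧
      IntegrableOn (fun s => ∫ y in ball 0 R, K (t - s) x y • src lam γ (m s y) (g s y))
        (Ioo 0 t) ∧
      m t x = (∫ y in ball 0 R, K t x y • mI y) +
        ∫ s in Ioo 0 t, ∫ y in ball 0 R, K (t - s) x y • src lam γ (m s y) (g s y)

/-- The set of all pairs of a parameter `lam ≥ 0` and a mild solution `m`. -/
def Sig (R : ℝ) (K : ℝ → EE d → EE d → ℝ) (S : EE d → ℝ) (γ T : ℝ) (mI : EE d → EE d) :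
    Set (ℝ × XT d R T) :=
  {q | 0 ≤ q.1 ∧ Fix R K S γ T mI q.1 fun t => rep (rep q.2 t)}

end Pool.Agent.MP_b33505_an
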