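import Pool.Agent.MP_b33505_an.St

namespace Pool.Agent.MP_b33505_an

open MeasureTheory Set Metric Filter Topology
open scoped RealInnerProductSpace Laplacian BoundedContinuousFunction

theorem dif_Main (hDif : SDif) {d : ℕ} {P : ℝ → ZZ d →L[ℝ] ZZ d} {F G : ZZ d → ZZ d}
    {L β T lam lam' : ℝ} {u m m' : ℝ → ZZ d} (hP : SG P) (hF : Frc F L β) (hG : Dmp G)
    (h : Sol P u T F G lam m) (h' : Sol P u T F G lam' m') :
    ∀ t ∈ Ioc 0 T, ‖m t - m' t‖ ≤ 2 * (|lam - lam'| * β) * Real.exp ((|lam| * L + 1) * T) := by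
  have z : BC T (fun _ : ℝ => (0 : ZZ d)) := ⟨continuousOn_const, 0, fun _ _ => by simp⟩
  have := hDif (ZZ d) P u T F G L β lam lam' 0 m m' (fun _ => 0) (fun _ => 0) hP hF hG h.1 h'.1 z z
    le_rfl (fun _ _ => by simp) (by simpa only [add_zero] using h.2)
    (by simpa only [add_zero] using h'.2)
  simpa only [add_zero] using this

/-- The heat semigroup preserves tangential divergence free fields. -/
def STor : Prop := ∀ (d : ℕ) (R D C : ℝ) (K : ℝ → EE d → EE d → ℝ) (N : EE d → EE d), 2 ≤ d →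
  IsKernel R D K → 0 < D → 0 < R → Dat R C N → (∀ x ∈ ball (0 : EE d) R, ⟪N x, x⟫ = 0) →
  (∀ φ, Test R φ → ∫ x in ball 0 R, ⟪N x, gradient φ x⟫ = 0) →
  ∀ t > 0, (∀ x, ⟪pk R K t N x, x⟫ = 0) ∧ Good R (pk R K t N)

theorem smul_Main {d : ℕ} {R : ℝ} {z : EE d → EE d} (c : ℝ) (h0 : ∀ x, ⟪z x, x⟫ = 0)
    (h : Good R z) : Good R fun x => c • z x := by
  refine ⟨fun x _ y _ _ => by simp only [inner_smul_left, h0, mul_zero], ?_⟩
  rintro g hg hr ⟨C, hC⟩ φ hφ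
  rw [← h.2 (fun x => c * g x) (hg.const_mul c) (fun x hx y hy e => by simp only [hr x hx y hy e])
    ⟨|c| * C, fun x hx => by
      rw [abs_mul]; exact mul_le_mul_of_nonneg_left (hC x hx) (abs_nonneg c)⟩ φ hφ]
  refine integral_congr_ae (Eventually.of_forall fun x => ?_)
  simp only [tn, real_inner_smul_left, h0, mul_zero, zero_div, zero_smul, sub_zero]
  ring

theorem exp_Main {d : ℕ} {R D C T lam L β : ℝ} {K : ℝ → EE d → EE d → ℝ} {s : ℝ → ℝ}
    {P : ℝ → ZZ d →L[ℝ] ZZ d} {F G : ZZ d → ZZ d} {u : ℝ → ZZ d} (ctx : Ctx R D 1 K s P F G L β)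
    (hu : Orb P u C) (h0 : ∀ t > 0, ∀ x, ⟪u t x, x⟫ = 0) :
    Sol P u T F G lam fun t => Real.exp (-t) • u t := by
  refine ⟨⟨(by fun_prop : Continuous fun t : ℝ => Real.exp (-t)).continuousOn.smul
    (hu.cont.mono fun t ht => ht.1), C, fun t ht => ?_⟩, fun t ht => ?_⟩
  · rw [norm_smul, Real.norm_eq_abs, Real.abs_exp]
    have h1 : Real.exp (-t) ≤ 1 := Real.exp_le_one_iff.2 (by linarith [ht.1])
    have h2 := hu.bd t ht.1
    nlinarith [norm_nonneg (u t), Real.exp_pos (-t)]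
  · have e : ∀ r ∈ Ioo 0 t, P (t - r) (lam • F (Real.exp (-r) • u r) - G (Real.exp (-r) • u r)) =
        (-Real.exp (-r)) • u t := fun r hr => by
      have h1 : F (Real.exp (-r) • u r) = 0 := by
        ext1 x
        simp [ctx.repF, fh, real_inner_smul_left, h0 r hr.1 x]
      have h2 : G (Real.exp (-r) • u r) = Real.exp (-r) • u r := by
        ext1 x
        simp [ctx.repG, damp]
      rw [h1, h2, show lam • (0 : ZZ d) = 0 from by ext1 x; simp, zero_sub, map_neg, map_smul, hu.law _ (sub_pos.2 hr.2) r hr.1,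
        sub_add_cancel]
      ext1 x
      simp
    rw [setIntegral_congr_fun measurableSet_Ioo e, integral_smul_const,
      ← integral_Ioc_eq_integral_Ioo, ← intervalIntegral.integral_of_le ht.1.le,
      intervalIntegral.integral_neg, intervalIntegral.integral_comp_neg, integral_exp]
    simp [sub_smul]

theorem main_Main (hP : SP) (hG2 : SG2) (hG3 : SG3) (hF : SF) (hEx : SEx) (hDif : SDif)
    (hSym : SSym) (hRad : SRadG) (hTor : STor) (hSG : SSumG) (hSS : SSumS)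
    (hM : SMild) (d : ℕ) (hd : 2 ≤ d) (R D T γ : ℝ) (hR : 0 < R) (hD : 0 < D) (hT : 0 < T)
    (hγ : 1 / 2 < γ) (K : ℝ → EE d → EE d → ℝ) (hK : IsKernel R D K) (s : ℝ → ℝ)
    (hs : Measurable s) (hsb : ∃ C : ℝ, ∀ r, |s r| ≤ C) (μ : ℝ → ℝ) (hμ : Measurable μ)
    (N : EE d → EE d) (hN : Measurable N)
    (hb : ∃ C : ℝ, ∀ x ∈ ball (0 : EE d) R, ‖μ ‖x‖ • x‖ ≤ C ∧ ‖N x‖ ≤ C)
    (hN1 : ∀ x ∈ ball (0 : EE d) R, ⟪N x, x⟫ = 0)
    (hN2 : ∀ φ, Test R φ → ∫ x in ball 0 R, ⟪N x, gradient φ x⟫ = 0) (hc : γ = 1 ∨ N = 0) :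
    ∃ m : ℝ → ℝ → EE d → EE d,
      (∀ lam ≥ 0, ContinuousOn (fun p : ℝ × EE d => m lam p.1 p.2) (Ioc 0 T ×ˢ closedBall 0 R) ∧
        (∃ C : ℝ, ∀ t ∈ Ioc 0 T, ∀ x ∈ closedBall (0 : EE d) R, ‖m lam t x‖ ≤ C) ∧
        IsMild R K (fun x => s ‖x‖) γ T (fun x => μ ‖x‖ • x + N x) lam (m lam)) ∧
      ∀ Λ : ℝ, ∃ L : ℝ, ∀ lam ∈ Icc 0 Λ, ∀ lam' ∈ Icc 0 Λ, ∀ t ∈ Ioc 0 T,
        ∀ x ∈ closedBall (0 : EE d) R, ‖m lam t x - m lam' t x‖ ≤ L * |lam - lam'| := by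
  obtain ⟨Cs, hCs⟩ := hsb
  obtain ⟨C, hC⟩ := hb
  have hd1 : 1 ≤ d := by omega
  obtain ⟨P, sg, rep, ini⟩ := hP d R D K hK hD hR
  obtain ⟨G, dmp, repG⟩ := hG3 d (damp γ) (hG2 d γ hγ)
  obtain ⟨F, L, β, frc, repF⟩ := hF d R Cs s hd1 hR ⟨hs, hCs⟩
  have ctx : Ctx R D γ K s P F G L β := ⟨hR, hD, hK, sg, rep, frc, repF, dmp, repG⟩
  have m0 : Measurable fun x : EE d => μ ‖x‖ • x := (hμ.comp measurable_norm).smul measurable_id
  obtain ⟨u0, i0⟩ := ini C (fun x => μ ‖x‖ • x) ⟨m0.aestronglyMeasurable, fun y hy => (hC y hy).1⟩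
  obtain ⟨u, iu⟩ := ini C N ⟨hN.aestronglyMeasurable, fun y hy => (hC y hy).2⟩
  obtain ⟨U, iU⟩ := ini (C + C) (fun x => μ ‖x‖ • x + N x)
    ⟨(m0.add hN).aestronglyMeasurable,
      fun y hy => (norm_add_le _ _).trans (add_le_add (hC y hy).1 (hC y hy).2)⟩
  choose m hm using fun lam => hEx (ZZ d) P U _ T F G L β lam sg iU.orb hT frc dmp
  have rad : ∀ {C' lam : ℝ} {g : EE d → EE d} {v z : ℝ → ZZ d}, Ini R C' K P g v →
      (∀ x, g x = μ ‖x‖ • x) → Sol P v T F G lam z → ∀ t ∈ Ioc 0 T, Good R (z t) := by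
    intro C' lam g v z hi hg hz t ht
    refine hRad d R _ fun a x => ?_
    have := hSym d R D γ C' T lam L β K s P F G g v z a 1 ctx hi (Or.inl rfl)
      (fun x => by rw [hg, hg, one_smul, a.norm_map, map_smul]) hz t ht x
    rwa [one_smul] at this
  have good : ∀ lam, ∀ t ∈ Ioc 0 T, Good R (m lam t) := by
    intro lam t ht
    rcases hc with rfl | rfl
    · obtain ⟨z0, hz0⟩ := hEx (ZZ d) P u0 _ T F G L β lam sg i0.orb hT frc dmp
      have h1 : ∀ t > 0, (∀ x, ⟪u t x, x⟫ = 0) ∧ Good R (u t) := fun t ht => by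
        rw [show (u t : EE d → EE d) = pk R K t N from funext (iu.rep t ht)]
        exact hTor d R D C K N hd hK hD hR iu.dat hN1 hN2 t ht
      have h2 := hSS d 1 R D C _ T lam L β K s P F G _ (fun _ => N) u0 z0 U (fun _ => u)
        (fun _ t => Real.exp (-t) • u t) ctx i0 (fun _ => iu)
        (by simpa only [Finset.univ_unique, Finset.sum_singleton] using iU) hz0
        (fun _ => exp_Main ctx iu.orb fun t ht => (h1 t ht).1)
        fun _ t ht x => by simp [real_inner_smul_left, (h1 t ht.1).1 x]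
      have h3 := dif_Main hDif sg frc dmp (hm lam) h2 t ht
      rw [sub_self, abs_zero, zero_mul, mul_zero, zero_mul, norm_le_zero_iff, sub_eq_zero] at h3
      rw [h3]
      exact hSG d 1 R _ _ (rad i0 (fun _ => rfl) hz0 t ht) fun _ =>
        smul_Main _ (h1 t ht.1).1 (h1 t ht.1).2
    · exact rad iU (fun x => by simp) (hm lam) t ht
  refine ⟨fun lam t x => m lam t x, fun lam _ => ?_, fun Λ => ?_⟩
  · obtain ⟨h1, h2⟩ := hM d R D γ _ Cs T lam L β K s P F G _ U (m lam) hd1 ⟨hs, hCs⟩ ctx iU (hm lam)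
      (good lam)
    obtain ⟨B, hB⟩ := (hm lam).1.2
    exact ⟨h2, ⟨B, fun t ht x _ => ((m lam t).norm_coe_le_norm x).trans (hB t ht)⟩, h1⟩
  · refine ⟨2 * β * Real.exp ((Λ * L + 1) * T), fun lam h1 lam' _ t ht x _ => ?_⟩
    have b0 : 0 ≤ β := (norm_nonneg _).trans (frc.bd 0)
    have h3 := ((m lam t - m lam' t).norm_coe_le_norm x).trans
      (dif_Main hDif sg frc dmp (hm lam) (hm lam') t ht)
    have h4 : Real.exp ((|lam| * L + 1) * T) ≤ Real.exp ((Λ * L + 1) * T) := by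
      rw [abs_of_nonneg h1.1]
      gcongr
      · exact frc.L0
      · exact h1.2
    calc _ ≤ 2 * (|lam - lam'| * β) * Real.exp ((Λ * L + 1) * T) :=
          h3.trans (mul_le_mul_of_nonneg_left h4 (by positivity))
      _ = _ := by ring

end Pool.Agent.MP_b33505_an
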