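import Pool.Agent.MP_b33505_an.Defs

/-! Working definitions and the statements of the steps. -/

namespace Pool.Agent.MP_b33505_an

open MeasureTheory Set Metric Filter Topology
open scoped RealInnerProductSpace Laplacian BoundedContinuousFunction

/-! ### abstract layer -/

section
variable {Z : Type} [NormedAddCommGroup Z] [NormedSpace ℝ Z]

structure SG (P : ℝ → Z →L[ℝ] Z) : Prop where
  nrm : ∀ t > 0, ∀ z, ‖P t z‖ ≤ ‖z‖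
  cont : ∀ z, ContinuousOn (fun t => P t z) (Ioi 0)
  law : ∀ t > 0, ∀ s > 0, ∀ z, P t (P s z) = P (t + s) z

structure Orb (P : ℝ → Z →L[ℝ] Z) (u : ℝ → Z) (α : ℝ) : Prop where
  bd : ∀ t > 0, ‖u t‖ ≤ α
  cont : ContinuousOn u (Ioi 0)
  law : ∀ t > 0, ∀ s > 0, P t (u s) = u (t + s)

def BC (T : ℝ) (m : ℝ → Z) : Prop :=
  ContinuousOn m (Ioc 0 T) ∧ ∃ C : ℝ, ∀ t ∈ Ioc 0 T, ‖m t‖ ≤ C

def Mild (P : ℝ → Z →L[ℝ] Z) (u : ℝ → Z) (T : ℝ) (h m : ℝ → Z) : Prop :=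
  ∀ t ∈ Ioc 0 T, m t = u t + ∫ s in Ioo 0 t, P (t - s) (h s)

def Mon (G : Z → Z) : Prop := ∀ M ε : ℝ, 0 < ε → ∃ k0 : ℝ, ∀ k ≥ k0, ∀ a b : Z, ‖a‖ ≤ M →
  ‖b‖ ≤ M → ‖k • (a - b) - (G a - G b)‖ ≤ k * ‖a - b‖ + ε

def Lip (L : ℝ) (F : Z → Z) : Prop := ∀ a b, ‖F a - F b‖ ≤ L * ‖a - b‖

structure Dmp (G : Z → Z) : Prop where
  cont : Continuous G
  zero : G 0 = 0
  mon : Mon G
  apx : ∀ M η : ℝ, 0 < η → ∃ (G' : Z → Z) (L : ℝ), 0 ≤ L ∧ Lip L G' ∧ G' 0 = 0 ∧ Mon G' ∧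
    ∀ a, ‖a‖ ≤ M → ‖G' a - G a‖ ≤ η

structure Frc (F : Z → Z) (L β : ℝ) : Prop where
  L0 : 0 ≤ L
  lip : Lip L F
  bd : ∀ a, ‖F a‖ ≤ β

def Sol (P : ℝ → Z →L[ℝ] Z) (u : ℝ → Z) (T : ℝ) (F G : Z → Z) (lam : ℝ) (m : ℝ → Z) : Prop :=
  BC T m ∧ Mild P u T (fun s => lam • F (m s) - G (m s)) m

theorem Lip.continuous {L : ℝ} {F : Z → Z} (h : Lip L F) (hL : 0 ≤ L) : Continuous F :=
  (LipschitzWith.of_dist_le_mul (K := ⟨L, hL⟩) fun a b => by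
    rw [dist_eq_norm, dist_eq_norm]
    exact h a b).continuous

theorem Dmp.bd {G : Z → Z} (h : Dmp G) (M : ℝ) : ∃ B : ℝ, ∀ a, ‖a‖ ≤ M → ‖G a‖ ≤ B := by
  obtain ⟨G', L, L0, hL, h0, -, hG⟩ := h.apx M 1 one_pos
  refine ⟨L * M + 1, fun a ha => ?_⟩
  have h1 := hL a 0
  rw [h0, sub_zero, sub_zero] at h1
  have h2 := norm_sub_norm_le (G a) (G' a)
  rw [norm_sub_rev] at h2
  have h3 := mul_le_mul_of_nonneg_left ha L0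
  linarith [hG a ha]

theorem BC.src {T L β lam : ℝ} {F G : Z → Z} {m : ℝ → Z} (hm : BC T m) (hF : Frc F L β)
    (hG : Dmp G) : BC T fun s => lam • F (m s) - G (m s) := by
  obtain ⟨h1, C, hC⟩ := hm
  obtain ⟨B, hB⟩ := hG.bd C
  refine ⟨(((hF.lip.continuous hF.L0).comp_continuousOn h1).const_smul lam).sub
    (hG.cont.comp_continuousOn h1), |lam| * β + B, fun t ht => (norm_sub_le _ _).trans ?_⟩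
  rw [norm_smul, Real.norm_eq_abs]
  exact add_le_add (mul_le_mul_of_nonneg_left (hF.bd _) (abs_nonneg _)) (hB _ (hC t ht))

end

def SInt : Prop := ∀ (Z : Type) [NormedAddCommGroup Z] [NormedSpace ℝ Z] [CompleteSpace Z]
  (P : ℝ → Z →L[ℝ] Z) (T : ℝ) (h : ℝ → Z), SG P → BC T h →
  (∀ t ∈ Ioc 0 T, ContinuousOn (fun s => P (t - s) (h s)) (Ioo 0 t) ∧
    IntegrableOn (fun s => P (t - s) (h s)) (Ioo 0 t)) ∧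
  BC T fun t => ∫ s in Ioo 0 t, P (t - s) (h s)

def SShift : Prop := ∀ (Z : Type) [NormedAddCommGroup Z] [NormedSpace ℝ Z] [CompleteSpace Z]
  (P : ℝ → Z →L[ℝ] Z) (u : ℝ → Z) (α T : ℝ) (h m : ℝ → Z), SG P → Orb P u α → BC T h → BC T m →
  Mild P u T h m → ∀ k : ℝ, ∀ t ∈ Ioc 0 T, m t = Real.exp (-k * t) • u t +
    ∫ s in Ioo 0 t, Real.exp (-k * (t - s)) • P (t - s) (h s + k • m s)

def SStab : Prop := ∀ (Z : Type) [NormedAddCommGroup Z] [NormedSpace ℝ Z] [CompleteSpace Z]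
  (P : ℝ → Z →L[ℝ] Z) (u : ℝ → Z) (α T : ℝ) (h m : ℝ → Z) (L β : ℝ), SG P → Orb P u α → BC T h →
  BC T m → Mild P u T h m → 0 ≤ L → 0 ≤ β →
  (∀ ε > 0, ∃ k0 : ℝ, ∀ k ≥ k0, ∀ s ∈ Ioc 0 T, ‖h s + k • m s‖ ≤ (k + L) * ‖m s‖ + β + ε) →
  ∀ t ∈ Ioc 0 T, ‖m t‖ ≤ (α + 2 * β) * Real.exp ((L + 1) * T)

def SExL : Prop := ∀ (Z : Type) [NormedAddCommGroup Z] [NormedSpace ℝ Z] [CompleteSpace Z]
  (P : ℝ → Z →L[ℝ] Z) (u : ℝ → Z) (α T : ℝ) (N : Z → Z) (L : ℝ), SG P → Orb P u α → 0 < T →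
  0 ≤ L → Lip L N → ∃ m, BC T m ∧ Mild P u T (fun s => N (m s)) m

def SDif : Prop := ∀ (Z : Type) [NormedAddCommGroup Z] [NormedSpace ℝ Z] [CompleteSpace Z]
  (P : ℝ → Z →L[ℝ] Z) (u : ℝ → Z) (T : ℝ) (F G : Z → Z) (L β lam lam' η : ℝ) (m m' r r' : ℝ → Z),
  SG P → Frc F L β → Dmp G → BC T m → BC T m' → BC T r → BC T r' → 0 ≤ η →
  (∀ t ∈ Ioc 0 T, ‖r t - r' t‖ ≤ η) →
  Mild P u T (fun s => lam • F (m s) - G (m s) + r s) m →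
  Mild P u T (fun s => lam' • F (m' s) - G (m' s) + r' s) m' →
  ∀ t ∈ Ioc 0 T, ‖m t - m' t‖ ≤ 2 * (|lam - lam'| * β + η) * Real.exp ((|lam| * L + 1) * T)

def SApx : Prop := ∀ (Z : Type) [NormedAddCommGroup Z] [NormedSpace ℝ Z] [CompleteSpace Z]
  (P : ℝ → Z →L[ℝ] Z) (u : ℝ → Z) (α T : ℝ) (F G : Z → Z) (L β lam : ℝ), SG P → Orb P u α →
  0 < T → Frc F L β → Dmp G → ∃ M : ℝ, ∀ η > 0, ∃ m r : ℝ → Z, BC T m ∧ BC T r ∧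
    (∀ t ∈ Ioc 0 T, ‖m t‖ ≤ M ∧ ‖r t‖ ≤ η) ∧
    Mild P u T (fun s => lam • F (m s) - G (m s) + r s) m

def SEx : Prop := ∀ (Z : Type) [NormedAddCommGroup Z] [NormedSpace ℝ Z] [CompleteSpace Z]
  (P : ℝ → Z →L[ℝ] Z) (u : ℝ → Z) (α T : ℝ) (F G : Z → Z) (L β lam : ℝ), SG P → Orb P u α →
  0 < T → Frc F L β → Dmp G → ∃ m, Sol P u T F G lam m

/-! ### the kernel -/

variable {d : ℕ}

abbrev ZZ (d : ℕ) : Type := EE d →ᵇ EE d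

def Heat (R D a b : ℝ) (u : ℝ → EE d → ℝ) : Prop :=
  ContinuousOn (fun p : ℝ × EE d => u p.1 p.2) (Icc a b ×ˢ closedBall 0 R) ∧
  ∀ t ∈ Ioc a b, ∀ x ∈ ball (0 : EE d) R,
    ContDiffAt ℝ 2 (u t) x ∧ HasDerivAt (fun t' => u t' x) (D ^ 2 * Δ (u t) x) t

noncomputable def pk (R : ℝ) (K : ℝ → EE d → EE d → ℝ) (t : ℝ) (f : EE d → EE d) : EE d → EE d :=
  (closedBall 0 R).indicator fun x => ∫ y in ball 0 R, K t x y • f y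

def Dat (R C : ℝ) (f : EE d → EE d) : Prop :=
  AEStronglyMeasurable f (volume.restrict (ball 0 R)) ∧ ∀ y ∈ ball (0 : EE d) R, ‖f y‖ ≤ C

def SMax : Prop := ∀ (d : ℕ) (R D a b c : ℝ) (u : ℝ → EE d → ℝ), Heat R D a b u →
  (∀ x ∈ closedBall (0 : EE d) R, u a x ≤ c) →
  (∀ t ∈ Icc a b, ∀ x ∈ sphere (0 : EE d) R, u t x ≤ c) →
  ∀ t ∈ Icc a b, ∀ x ∈ closedBall (0 : EE d) R, u t x ≤ c

def SLin : Prop := ∀ (d : ℕ) (R D a b : ℝ),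
  (∀ (u v : ℝ → EE d → ℝ) (p q : ℝ), Heat R D a b u → Heat R D a b v →
    Heat R D a b fun t x => p * u t x + q * v t x) ∧
  (∀ (u : ℝ → EE d → ℝ) (g : EE d ≃ₗᵢ[ℝ] EE d), Heat R D a b u →
    Heat R D a b fun t x => u t (g x)) ∧
  ∀ (K : ℝ → EE d → EE d → ℝ) (s : ℝ), IsKernel R D K → 0 < a → 0 ≤ s →
    ∀ y ∈ ball (0 : EE d) R, Heat R D a b fun t x => K (t + s) x y

def SGaH : Prop := ∀ (d : ℕ) (R D a b : ℝ) (y : EE d), 0 < D → 0 < a →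
  Heat R D a b fun t x => gauss D t (x - y)

def SGaI : Prop := ∀ (d : ℕ) (D t : ℝ), 0 < D → 0 < t → ∀ x : EE d, 0 < gauss D t x ∧
  Integrable (fun y => gauss D t (x - y)) ∧ ∫ y, gauss D t (x - y) = 1

def SGaT : Prop := ∀ (d : ℕ) (D δ ε : ℝ), 0 < D → 0 < δ → 0 < ε → ∃ t0 > 0, ∀ t ∈ Ioo 0 t0,
  ∀ x : EE d, (δ ≤ ‖x‖ → gauss D t x ≤ ε) ∧ ∫ y in {y | δ ≤ ‖x - y‖}, gauss D t (x - y) ≤ ε

/-- Bounds of the kernel. -/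
def Kb (R D : ℝ) (K : ℝ → EE d → EE d → ℝ) : Prop :=
  ∀ t > 0, ∀ x ∈ closedBall (0 : EE d) R, ∀ y ∈ ball (0 : EE d) R,
    0 ≤ K t x y ∧ K t x y ≤ gauss D t (x - y)

def SKb : Prop := ∀ (d : ℕ) (R D : ℝ) (K : ℝ → EE d → EE d → ℝ), IsKernel R D K → 0 < D →
  Kb R D K ∧ ∀ δ > 0, ∀ ε > 0, ∃ t0 > 0, ∀ t ∈ Ioo 0 t0, ∀ x ∈ closedBall (0 : EE d) R,
    ∀ y : EE d, ‖y‖ ≤ R - δ → gauss D t (x - y) - K t x y ≤ ε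

def SKinv : Prop := ∀ (d : ℕ) (R D : ℝ) (K : ℝ → EE d → EE d → ℝ), IsKernel R D K →
  ∀ g : EE d ≃ₗᵢ[ℝ] EE d, ∀ t > 0, ∀ x ∈ closedBall (0 : EE d) R, ∀ y ∈ ball (0 : EE d) R,
    K t (g x) (g y) = K t x y

def SKini : Prop := ∀ (d : ℕ) (R D : ℝ) (K : ℝ → EE d → EE d → ℝ), IsKernel R D K → 0 < D →
  0 < R → ∀ φ : EE d → ℝ, ContinuousOn φ (closedBall 0 R) → (∀ x ∈ sphere (0 : EE d) R, φ x = 0) →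
  ∀ ε > 0, ∃ t0 > 0, ∀ t ∈ Ioo 0 t0, ∀ x ∈ closedBall (0 : EE d) R,
    |(∫ z in ball 0 R, K t x z * φ z) - φ x| ≤ ε

def SKsup : Prop := ∀ (d : ℕ) (R D a b c : ℝ) (K : ℝ → EE d → EE d → ℝ) (φ : EE d → ℝ)
  (u : ℝ → EE d → ℝ), IsKernel R D K → ContinuousOn φ (closedBall 0 R) → 0 < a →
  Heat R D a b u → (∀ t ∈ Icc a b, ∀ x ∈ sphere (0 : EE d) R, u t x = 0) →
  (∀ x ∈ closedBall (0 : EE d) R, |u a x - ∫ z in ball 0 R, K a x z * φ z| ≤ c) →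
  ∀ t ∈ Icc a b, ∀ x ∈ closedBall (0 : EE d) R, |u t x - ∫ z in ball 0 R, K t x z * φ z| ≤ c

def SKlaw : Prop := ∀ (d : ℕ) (R D : ℝ) (K : ℝ → EE d → EE d → ℝ), IsKernel R D K → 0 < D →
  0 < R → ∀ t > 0, ∀ s > 0, ∀ x ∈ closedBall (0 : EE d) R, ∀ y ∈ ball (0 : EE d) R,
    ∫ z in ball 0 R, K t x z * K s z y = K (t + s) x y

def SPk1 : Prop := ∀ (d : ℕ) (R D C : ℝ) (K : ℝ → EE d → EE d → ℝ) (f : EE d → EE d),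
  IsKernel R D K → 0 < D → 0 < R → Dat R C f → ∀ t > 0,
  (∀ x ∈ closedBall (0 : EE d) R, IntegrableOn (fun y => K t x y • f y) (ball 0 R)) ∧
    Continuous (pk R K t f) ∧ ∀ x, ‖pk R K t f x‖ ≤ C

def SPk2 : Prop := ∀ (d : ℕ) (R D : ℝ) (K : ℝ → EE d → EE d → ℝ), IsKernel R D K → 0 < D →
  0 < R → ∀ t0 > 0, ∀ ε > 0, ∃ δ > 0, ∀ t > 0, |t - t0| < δ → ∀ (C : ℝ) (f : EE d → EE d),
    Dat R C f → ∀ x, ‖pk R K t f x - pk R K t0 f x‖ ≤ ε * C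

def SPk3 : Prop := ∀ (d : ℕ) (R D C : ℝ) (K : ℝ → EE d → EE d → ℝ) (f : EE d → EE d),
  IsKernel R D K → 0 < D → 0 < R → Dat R C f → ∀ t > 0, ∀ s > 0,
    pk R K t (pk R K s f) = pk R K (t + s) f

structure Ini (R C : ℝ) (K : ℝ → EE d → EE d → ℝ) (P : ℝ → ZZ d →L[ℝ] ZZ d) (f : EE d → EE d)
    (u : ℝ → ZZ d) : Prop where
  dat : Dat R C f
  orb : Orb P u C
  rep : ∀ t > 0, ∀ x, u t x = pk R K t f x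

def SP : Prop := ∀ (d : ℕ) (R D : ℝ) (K : ℝ → EE d → EE d → ℝ), IsKernel R D K → 0 < D → 0 < R →
  ∃ P : ℝ → ZZ d →L[ℝ] ZZ d, SG P ∧ (∀ t > 0, ∀ (z : ZZ d) (x : EE d), P t z x = pk R K t z x) ∧
    ∀ (C : ℝ) (f : EE d → EE d), Dat R C f → ∃ u, Ini R C K P f u

/-! ### the nonlinear terms -/

def SG1 : Prop := ∀ (d : ℕ) (c : ℝ → ℝ), (∀ r ≥ 0, 0 ≤ c r) →
  MonotoneOn (fun r => c r * r) (Ici 0) → Continuous (fun v : EE d => c ‖v‖ • v) →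
  Mon fun v : EE d => c ‖v‖ • v

def SG2a : Prop := ∀ (d : ℕ) (γ ρ M : ℝ), 1 / 2 < γ → 0 < ρ → ρ ≤ M →
  (∃ L : ℝ, 0 ≤ L ∧ Lip L fun v : EE d => (max ρ (min ‖v‖ M)) ^ (2 * (γ - 1)) • v) ∧
    MonotoneOn (fun r : ℝ => (max ρ (min r M)) ^ (2 * (γ - 1)) * r) (Ici 0)

def SG2 : Prop := ∀ (d : ℕ) (γ : ℝ), 1 / 2 < γ → Dmp (damp γ : EE d → EE d)

def SG3 : Prop := ∀ (d : ℕ) (g : EE d → EE d), Dmp g →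
  ∃ G : ZZ d → ZZ d, Dmp G ∧ ∀ (z : ZZ d) (x : EE d), G z x = g (z x)

noncomputable def bb (s : ℝ → ℝ) (d : ℕ) (r : ℝ) : ℝ :=
  ∫ t in (0 : ℝ)..1, s (t * r) * t ^ (d - 1)

noncomputable def cut (R r : ℝ) : ℝ := max 0 (min 1 (2 - r / R))

noncomputable def fh (R : ℝ) (s : ℝ → ℝ) (x v : EE d) : EE d :=
  ((cut R ‖x‖ * bb s d ‖x‖) ^ 2 * ⟪v, x⟫ / (1 + ⟪v, x⟫ ^ 2 / ‖x‖ ^ 2) ^ 2) • x

noncomputable def gv (s : ℝ → ℝ) (z : EE d → EE d) (x : EE d) : EE d :=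
  (-(bb s d ‖x‖ / (1 + ⟪z x, x⟫ ^ 2 / ‖x‖ ^ 2))) • x

/-- A bounded measurable profile. -/
def Prof (s : ℝ → ℝ) (C : ℝ) : Prop := Measurable s ∧ ∀ r, |s r| ≤ C

def SB : Prop := ∀ (d : ℕ) (s : ℝ → ℝ) (C : ℝ), 1 ≤ d → Prof s C →
  ContinuousOn (bb s d) (Ioi 0) ∧ Prof (bb s d) C

def SF1 : Prop := ∀ (d : ℕ) (R C : ℝ) (s : ℝ → ℝ), 0 < R → Prof (bb s d) C → ∀ x v w : EE d,
  ‖fh R s x v - fh R s x w‖ ≤ (2 * R * C) ^ 2 * ‖v - w‖ ∧ ‖fh R s x v‖ ≤ (2 * R * C) ^ 2 ∧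
    ‖fh R s x v‖ ≤ C ^ 2 * ‖x‖ ^ 2

def SF : Prop := ∀ (d : ℕ) (R C : ℝ) (s : ℝ → ℝ), 1 ≤ d → 0 < R → Prof s C →
  ∃ (F : ZZ d → ZZ d) (L β : ℝ), Frc F L β ∧ ∀ (z : ZZ d) (x : EE d), F z x = fh R s x (z x)

structure Ctx (R D γ : ℝ) (K : ℝ → EE d → EE d → ℝ) (s : ℝ → ℝ) (P : ℝ → ZZ d →L[ℝ] ZZ d)
    (F G : ZZ d → ZZ d) (L β : ℝ) : Prop where
  R0 : 0 < R
  D0 : 0 < D
  ker : IsKernel R D K
  sg : SG P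
  rep : ∀ t > 0, ∀ (z : ZZ d) (x : EE d), P t z x = pk R K t z x
  frc : Frc F L β
  repF : ∀ (z : ZZ d) (x : EE d), F z x = fh R s x (z x)
  dmp : Dmp G
  repG : ∀ (z : ZZ d) (x : EE d), G z x = damp γ (z x)

/-! ### symmetry -/

def SSym1 : Prop := ∀ (d : ℕ) (R D : ℝ) (K : ℝ → EE d → EE d → ℝ) (g : EE d ≃ₗᵢ[ℝ] EE d) (σ : ℝ)
  (f f' : EE d → EE d), IsKernel R D K → (∀ y ∈ ball (0 : EE d) R, f' y = σ • g.symm (f (g y))) →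
  ∀ t > 0, ∀ x, pk R K t f' x = σ • g.symm (pk R K t f (g x))

def SSym : Prop := ∀ (d : ℕ) (R D γ C T lam L β : ℝ) (K : ℝ → EE d → EE d → ℝ) (s : ℝ → ℝ)
  (P : ℝ → ZZ d →L[ℝ] ZZ d) (F G : ZZ d → ZZ d) (f : EE d → EE d) (u m : ℝ → ZZ d)
  (g : EE d ≃ₗᵢ[ℝ] EE d) (σ : ℝ), Ctx R D γ K s P F G L β → Ini R C K P f u → σ = 1 ∨ σ = -1 →
  (∀ x, f (g x) = σ • g (f x)) → Sol P u T F G lam m →
  ∀ t ∈ Ioc 0 T, ∀ x, m t (g x) = σ • g (m t x)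

noncomputable def tn (z : EE d → EE d) (x : EE d) : EE d := z x - (⟪z x, x⟫ / ‖x‖ ^ 2) • x

def Rad (R : ℝ) (h : EE d → ℝ) : Prop :=
  ∀ x ∈ closedBall (0 : EE d) R, ∀ y ∈ closedBall (0 : EE d) R, ‖x‖ = ‖y‖ → h x = h y

def Good (R : ℝ) (z : EE d → EE d) : Prop := Rad R (fun x => ⟪z x, x⟫) ∧
  ∀ h : EE d → ℝ, Measurable h → Rad R h → (∃ C : ℝ, ∀ x ∈ closedBall (0 : EE d) R, |h x| ≤ C) →
    ∀ φ, Test R φ → ∫ x in ball 0 R, h x * ⟪tn z x, gradient φ x⟫ = 0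

def ON (e f : EE d) : Prop := ‖e‖ = 1 ∧ ‖f‖ = 1 ∧ ⟪e, f⟫ = 0

def SW (e f : EE d) (z : EE d → EE d) : Prop := ∀ (g : EE d ≃ₗᵢ[ℝ] EE d) (σ : ℝ),
  σ = 1 ∨ σ = -1 → (∀ x, ⟪x, e⟫ = 0 → ⟪x, f⟫ = 0 → g x = x) →
  (∀ x, rotJ e f (g x) = σ • g (rotJ e f x)) → ∀ x, z (g x) = σ • g (z x)

noncomputable def rot (e f : EE d) (θ : ℝ) (x : EE d) : EE d :=
  x + (Real.cos θ - 1) • (⟪x, e⟫ • e + ⟪x, f⟫ • f) + Real.sin θ • rotJ e f x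

def SRadG : Prop := ∀ (d : ℕ) (R : ℝ) (z : EE d → EE d),
  (∀ (g : EE d ≃ₗᵢ[ℝ] EE d) (x : EE d), z (g x) = g (z x)) → Good R z

def SSw1 : Prop := ∀ (d : ℕ) (e f : EE d) (w : ℝ × EE d → ℝ), ON e f → SW e f (swirl e f w)

def SSw2 : Prop := ∀ (d : ℕ) (e f : EE d) (z : EE d → EE d), ON e f → SW e f z →
  ∀ x, ∃ ω : ℝ, z x = ω • rotJ e f x

def SRot : Prop := ∀ (d : ℕ) (e f : EE d) (θ : ℝ), ON e f →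
  (∃ g : EE d ≃ₗᵢ[ℝ] EE d, (∀ x, g x = rot e f θ x) ∧
    (∀ x, ⟪x, e⟫ = 0 → ⟪x, f⟫ = 0 → g x = x) ∧ ∀ x, rotJ e f (g x) = g (rotJ e f x)) ∧
  ∀ x, HasDerivAt (fun τ => rot e f τ x) (rotJ e f (rot e f θ x)) θ

def SSw3 : Prop := ∀ (d : ℕ) (R : ℝ) (e f : EE d) (z : ZZ d), ON e f → SW e f z →
  (∀ x, ⟪z x, x⟫ = 0) ∧ Good R z

def SSumG : Prop := ∀ (d n : ℕ) (R : ℝ) (z0 : ZZ d) (z : Fin n → ZZ d), Good R z0 →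
  (∀ i, Good R (z i)) → Good R (z0 + ∑ i, z i : ZZ d)

def SSumS : Prop := ∀ (d n : ℕ) (R D C C' T lam L β : ℝ) (K : ℝ → EE d → EE d → ℝ) (s : ℝ → ℝ)
  (P : ℝ → ZZ d →L[ℝ] ZZ d) (F G : ZZ d → ZZ d) (f0 : EE d → EE d) (f : Fin n → EE d → EE d)
  (u0 m0 U : ℝ → ZZ d) (u m : Fin n → ℝ → ZZ d), Ctx R D 1 K s P F G L β → Ini R C K P f0 u0 →
  (∀ i, Ini R C K P (f i) (u i)) → Ini R C' K P (fun x => f0 x + ∑ i, f i x) U →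
  Sol P u0 T F G lam m0 → (∀ i, Sol P (u i) T F G lam (m i)) →
  (∀ i, ∀ t ∈ Ioc 0 T, ∀ x, ⟪m i t x, x⟫ = 0) →
  Sol P U T F G lam fun t => m0 t + ∑ i, m i t

/-! ### the pressure -/

def SDivA : Prop := ∀ (d : ℕ) (R C a : ℝ) (s : ℝ → ℝ) (φ : EE d → ℝ), 1 ≤ d → Prof s C →
  Test R φ → 0 < a → a < 1 →
  (∫ y : EE d, s ‖y‖ * φ y) - ∫ y : EE d, s ‖y‖ * φ (a⁻¹ • y) =
    -∫ t in a..1, t ^ (d - 1) * ∫ x : EE d, s (t * ‖x‖) * ⟪x, gradient φ x⟫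

def SDiv : Prop := ∀ (d : ℕ) (R C : ℝ) (s : ℝ → ℝ) (φ : EE d → ℝ), 1 ≤ d → Prof s C → Test R φ →
  ∫ x in ball 0 R, bb s d ‖x‖ * ⟪x, gradient φ x⟫ = -∫ x in ball 0 R, s ‖x‖ * φ x

def SH1 : Prop := ∀ (d : ℕ) (R δ : ℝ) (h : ℝ → ℝ), 0 < R → 0 < δ → Continuous h →
  (∀ v ≥ R ^ 2 - δ, h v = 0) →
  Test R (fun x : EE d => -∫ v in (‖x‖ ^ 2)..(R ^ 2), h v) ∧
    ∀ x : EE d, gradient (fun x : EE d => -∫ v in (‖x‖ ^ 2)..(R ^ 2), h v) x = (2 * h (‖x‖ ^ 2)) • x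

def SH10 : Prop := ∀ (d : ℕ) (R C : ℝ) (q : ℝ → ℝ), 0 < R → ContinuousOn q (Ioc 0 R) →
  (∀ r ∈ Ioc 0 R, |q r| ≤ C) → ∃ p : EE d → ℝ, InH10 R p fun x => q ‖x‖ • x

def SPrA : Prop := ∀ (d : ℕ) (R C : ℝ) (s : ℝ → ℝ) (z : ZZ d), 1 ≤ d → 0 < R → Prof s C →
  Good R z → (∃ p, InH10 R p (gv s z)) ∧
    ∀ x ∈ ball (0 : EE d) R, ⟪z x, gv s z x⟫ • gv s z x = fh R s x (z x)

def SPress : Prop := ∀ (d : ℕ) (R C : ℝ) (s : ℝ → ℝ) (z : ZZ d), 1 ≤ d → 0 < R → Prof s C →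
  Good R z → ∀ φ, Test R φ →
    ∫ x in ball 0 R, ⟪gv s z x + ⟪z x, gv s z x⟫ • z x, gradient φ x⟫ =
      ∫ x in ball 0 R, s ‖x‖ * φ x

def SMild : Prop := ∀ (d : ℕ) (R D γ C C' T lam L β : ℝ) (K : ℝ → EE d → EE d → ℝ) (s : ℝ → ℝ)
  (P : ℝ → ZZ d →L[ℝ] ZZ d) (F G : ZZ d → ZZ d) (f : EE d → EE d) (u m : ℝ → ZZ d), 1 ≤ d →
  Prof s C' → Ctx R D γ K s P F G L β → Ini R C K P f u → Sol P u T F G lam m →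
  (∀ t ∈ Ioc 0 T, Good R (m t)) →
  IsMild R K (fun x => s ‖x‖) γ T f lam (fun t x => m t x) ∧
    ContinuousOn (fun p : ℝ × EE d => m p.1 p.2) (Ioc 0 T ×ˢ closedBall 0 R)

end Pool.Agent.MP_b33505_an
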