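import Pool.Agent.MP_b33505_an.St

/-! Existence of the Dirichlet heat kernel of a ball: definitions and statements of the steps. -/

namespace Pool.Agent.MP_b33505_an

open MeasureTheory Set Metric Filter Topology
open scoped RealInnerProductSpace Laplacian BoundedContinuousFunction

variable {d : ℕ}

noncomputable def QQ (R D τ : ℝ) (f : EE d → ℝ) (x : EE d) : ℝ :=
  ∫ z in ball 0 R, gauss D τ (x - z) * f z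

/-- density at time `(j + 1) h` of the walk started at `y` and killed outside the ball -/
noncomputable def aa (R D h : ℝ) (y : EE d) : ℕ → EE d → ℝ
  | 0 => fun x => gauss D h (x - y)
  | j + 1 => QQ R D h (aa R D h y j)

noncomputable def gt (D : ℝ) (p : ℝ × EE d) : ℝ := if 0 < p.1 then gauss D p.1 p.2 else 0

noncomputable def ww (R D h : ℝ) (n : ℕ) (y : EE d) (p : ℝ × EE d) : ℝ :=
  ∑ j ∈ Finset.range n, ∫ z in (ball 0 R)ᶜ, gt D (p - (((j : ℝ) + 1) * h, z)) * aa R D h y j z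

noncomputable def kn (R D h : ℝ) (n : ℕ) (t : ℝ) (x y : EE d) : ℝ :=
  gauss D t (x - y) - ww R D h n y (t, x)

noncomputable def kk (R D : ℝ) (m : ℕ) (t : ℝ) (x y : EE d) : ℝ :=
  kn R D ((1 / 2) ^ m) (m * 2 ^ m) t x y

noncomputable def psi (R ε : ℝ) (x : EE d) : ℝ := R ^ 2 - ‖x‖ ^ 2 + ε

/-- the heat equation between first and second order terms -/
def HR (D : ℝ) (A : ℝ × EE d →L[ℝ] ℝ) (B : ℝ × EE d →L[ℝ] ℝ × EE d →L[ℝ] ℝ) : Prop :=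
  A (1, 0) = D ^ 2 * ∑ i : Fin d,
    B (0, EuclideanSpace.basisFun (Fin d) ℝ i) (0, EuclideanSpace.basisFun (Fin d) ℝ i)

structure Jet (D : ℝ) (U : Set (ℝ × EE d)) (M : ℝ) (f : ℝ × EE d → ℝ)
    (A : ℝ × EE d → ℝ × EE d →L[ℝ] ℝ)
    (B : ℝ × EE d → ℝ × EE d →L[ℝ] ℝ × EE d →L[ℝ] ℝ) : Prop where
  t0 : ∀ p ∈ U, ∀ q ∈ U, |f q - f p - A p (q - p)| ≤ M * ‖q - p‖ ^ 2
  t1 : ∀ p ∈ U, ∀ q ∈ U, ‖A q - A p - B p (q - p)‖ ≤ M * ‖q - p‖ ^ 2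
  t2 : ∀ p ∈ U, ∀ q ∈ U, ‖B q - B p‖ ≤ M * ‖q - p‖
  b0 : ∀ p ∈ U, |f p| ≤ M
  b1 : ∀ p ∈ U, ‖A p‖ ≤ M
  b2 : ∀ p ∈ U, ‖B p‖ ≤ M
  eq : ∀ p ∈ U, HR D (A p) (B p)

/-- `K` is the limit of the approximations along the hyperfilter -/
def Lm (R D : ℝ) (K : ℝ → EE d → EE d → ℝ) : Prop := ∀ t > 0, ∀ x y : EE d,
  Tendsto (fun m => kk R D m t x y) (hyperfilter ℕ) (𝓝 (K t x y))

def SCK : Prop := ∀ (d : ℕ) (D t s : ℝ) (x y : EE d), 0 < D → 0 < t → 0 < s →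
  Integrable (fun z => gauss D t (x - z) * gauss D s (z - y)) ∧
    ∫ z, gauss D t (x - z) * gauss D s (z - y) = gauss D (t + s) (x - y)

def SGc : Prop := ∀ (d : ℕ) (D : ℝ), 0 < D →
  ContinuousOn (fun p : ℝ × EE d => gauss D p.1 p.2) (Ioi 0 ×ˢ univ) ∧
  (∀ t > 0, Continuous fun x : EE d => gauss D t x) ∧
  (∀ (t : ℝ) (x y : EE d), gauss D t (x - y) = gauss D t (y - x)) ∧
  ∀ s > 0, ∀ t ≥ s, ∀ x : EE d, gauss D t x ≤ gauss D s (0 : EE d)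

def SQ : Prop := ∀ (d : ℕ) (R D τ : ℝ) (f g : EE d → ℝ), 0 < D → 0 < τ → Continuous f →
  Continuous g → Continuous (QQ R D τ f) ∧
  (∀ x, IntegrableOn (fun z => gauss D τ (x - z) * f z) (ball 0 R)) ∧
  (∀ (p q : ℝ) (x : EE d),
    QQ R D τ (fun z => p * f z + q * g z) x = p * QQ R D τ f x + q * QQ R D τ g x) ∧
  ((∀ z ∈ ball (0 : EE d) R, f z ≤ g z) → ∀ x, QQ R D τ f x ≤ QQ R D τ g x) ∧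
  ∀ B ≥ 0, (∀ z ∈ ball (0 : EE d) R, |f z| ≤ B) → ∀ x, |QQ R D τ f x| ≤ B

def SAa : Prop := ∀ (d : ℕ) (R D h : ℝ) (j : ℕ), 0 < D → 0 < h →
  Continuous (fun p : EE d × EE d => aa R D h p.2 j p.1) ∧
  ∀ x y : EE d, 0 ≤ aa R D h y j x ∧ aa R D h y j x ≤ gauss D (((j : ℝ) + 1) * h) (x - y) ∧
    Integrable (aa R D h y j)

def SAs : Prop := ∀ (d : ℕ) (R D h : ℝ) (j : ℕ) (x y : EE d), 0 < D → 0 < h →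
  aa R D h y j x = aa R D h x j y

def SMass : Prop := ∀ (d : ℕ) (R D h : ℝ) (n : ℕ) (y : EE d), 0 < D → 0 < h →
  ∑ j ∈ Finset.range n, ∫ z in (ball 0 R)ᶜ, aa R D h y j z ≤ 1

def SId0 : Prop := ∀ (d : ℕ) (R D h t : ℝ) (j : ℕ) (x y : EE d), 0 < D → 0 < h →
  ((j : ℝ) + 1) * h < t →
  gauss D t (x - y) - ∑ i ∈ Finset.range (j + 1),
      ∫ z in (ball 0 R)ᶜ, gauss D (t - ((i : ℝ) + 1) * h) (x - z) * aa R D h y i z =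
    QQ R D (t - ((j : ℝ) + 1) * h) (aa R D h y j) x

def SId : Prop := ∀ (d : ℕ) (R D h t : ℝ) (n : ℕ) (x y : EE d), 0 < D → 0 < h →
  (t ≤ h → kn R D h n t x y = gauss D t (x - y)) ∧
  (∀ j < n, ((j : ℝ) + 1) * h < t → t ≤ ((j : ℝ) + 2) * h →
    kn R D h n t x y = QQ R D (t - ((j : ℝ) + 1) * h) (aa R D h y j) x) ∧
  (∀ j ≤ n, kn R D h n (((j : ℝ) + 1) * h) x y = aa R D h y j x) ∧
  (h < t → t ≤ ((n : ℝ) + 1) * h → ∃ j < n, ((j : ℝ) + 1) * h < t ∧ t ≤ ((j : ℝ) + 2) * h)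

def SPos : Prop := ∀ (d : ℕ) (R D h t : ℝ) (n : ℕ) (x y : EE d), 0 < D → 0 < h → 0 < t →
  t ≤ ((n : ℝ) + 1) * h → 0 ≤ kn R D h n t x y ∧ kn R D h n t x y ≤ gauss D t (x - y) ∧
  ∀ η ≥ 0, (∀ τ ∈ Ioc 0 t, ∀ z ∉ ball (0 : EE d) R, gauss D τ (z - y) ≤ η) →
    gauss D t (x - y) - kn R D h n t x y ≤ η

def SMom1 : Prop := ∀ (d : ℕ) (D : ℝ), 1 ≤ d → 0 < D → ∃ c > 0,
  (∀ τ > 0, Integrable (fun ξ : EE d => gauss D τ ξ * ‖ξ‖ ^ 2) ∧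
    ∫ ξ : EE d, gauss D τ ξ * ‖ξ‖ ^ 2 = c * τ) ∧
  ∀ δ > 0, ∀ η > 0, ∃ τ0 > 0, ∀ τ ∈ Ioo 0 τ0,
    ∫ ξ in {ξ : EE d | δ ≤ ‖ξ‖}, gauss D τ ξ * ‖ξ‖ ^ 2 ≤ η * τ

def SMom2 : Prop := ∀ (d : ℕ) (D τ : ℝ) (x : EE d), 0 < D → 0 < τ →
  Integrable (fun ξ : EE d => gauss D τ ξ * ‖ξ‖ ^ 2) →
  Integrable (fun z => gauss D τ (x - z) * ‖z‖ ^ 2) ∧
    ∫ z, gauss D τ (x - z) * ‖z‖ ^ 2 = ‖x‖ ^ 2 + ∫ ξ : EE d, gauss D τ ξ * ‖ξ‖ ^ 2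

def SSup : Prop := ∀ (d : ℕ) (R D : ℝ), 1 ≤ d → 0 < R → 0 < D → ∃ c > 0, ∀ ε > 0, ∃ τ0 > 0,
  ∀ τ ∈ Ioo 0 τ0, ∀ x ∈ closedBall (0 : EE d) R, QQ R D τ (psi R ε) x ≤ psi R ε x - c * τ

def SBar : Prop := ∀ (d : ℕ) (R D h c ε B : ℝ) (f : EE d → ℝ) (n : ℕ), 0 < D → 0 < h → 0 < c →
  0 < ε → 0 ≤ B →
  (∀ x ∈ closedBall (0 : EE d) R, QQ R D h (psi R ε) x ≤ psi R ε x - c * h) → Continuous f →
  (∀ z ∈ ball (0 : EE d) R, f z ≤ B) →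
  ∀ x ∈ closedBall (0 : EE d) R, n * (c * h) * (QQ R D h)^[n] f x ≤ B * psi R ε x

def SBd : Prop := ∀ (d : ℕ) (R D t0 : ℝ), 1 ≤ d → 0 < R → 0 < D → 0 < t0 → ∃ C ≥ 0, ∀ ε > 0,
  ∃ h0 > 0, ∀ h ∈ Ioo 0 h0, ∀ (n : ℕ) (t : ℝ), t0 ≤ t → t ≤ ((n : ℝ) + 1) * h →
    ∀ x ∈ closedBall (0 : EE d) R, ∀ y : EE d, kn R D h n t x y ≤ C * psi R ε x

def SCon : Prop := ∀ (d : ℕ) (R D h t η : ℝ) (n i : ℕ) (x y y' : EE d), 0 < D → 0 < h → 0 ≤ η →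
  ((i : ℝ) + 1) * h < t → t ≤ ((n : ℝ) + 1) * h →
  (∀ z ∈ ball (0 : EE d) R, |aa R D h y i z - aa R D h y' i z| ≤ η) →
  |kn R D h n t x y - kn R D h n t x y'| ≤ η

def SFl0 : Prop := ∀ a : ℝ,
  ContDiff ℝ 3 fun u : ℝ => if 0 < u then u ^ (-a) * Real.exp (-u⁻¹) else 0

def SFlat : Prop := ∀ (d : ℕ) (D : ℝ), 0 < D →
  ContDiffOn ℝ 3 (gt D : ℝ × EE d → ℝ) {p | p.2 ≠ 0}

def SScale : Prop := ∀ (d : ℕ) (D δ T : ℝ), 0 < D → 0 < δ → ∃ M ≥ 0, ∀ p : ℝ × EE d,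
  δ ≤ ‖p.2‖ → p.1 ≤ T → ∀ j ≤ 3, ‖iteratedFDeriv ℝ j (gt D) p‖ ≤ M

def SGtH : Prop := ∀ (d : ℕ) (D : ℝ) (p : ℝ × EE d), 0 < D → p.2 ≠ 0 →
  HR D (fderiv ℝ (gt D) p) (fderiv ℝ (fderiv ℝ (gt D)) p)

def SJ1 : Prop := ∀ (d : ℕ) (D M : ℝ) (g : ℝ × EE d → ℝ) (V W : Set (ℝ × EE d)), IsOpen V →
  W ⊆ V → Convex ℝ W → ContDiffOn ℝ 3 g V → (∀ p ∈ W, ∀ j ≤ 3, ‖iteratedFDeriv ℝ j g p‖ ≤ M) →
  (∀ p ∈ W, HR D (fderiv ℝ g p) (fderiv ℝ (fderiv ℝ g) p)) →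
  Jet D W M g (fderiv ℝ g) (fderiv ℝ (fderiv ℝ g))

def SJi : Prop := ∀ (d : ℕ) (D M : ℝ) (U : Set (ℝ × EE d)) (S : Set (EE d)) (a : EE d → ℝ)
  (F : EE d → ℝ × EE d → ℝ) (A : EE d → ℝ × EE d → ℝ × EE d →L[ℝ] ℝ)
  (B : EE d → ℝ × EE d → ℝ × EE d →L[ℝ] ℝ × EE d →L[ℝ] ℝ), MeasurableSet S → IntegrableOn a S →
  (∀ z, 0 ≤ a z) → (∀ z ∈ S, Jet D U M (F z) (A z) (B z)) →
  (∀ p ∈ U, ContinuousOn (fun z => F z p) S ∧ ContinuousOn (fun z => A z p) S ∧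
    ContinuousOn (fun z => B z p) S) →
  Jet D U (M * ∫ z in S, a z) (fun p => ∫ z in S, F z p * a z) (fun p => ∫ z in S, a z • A z p)
    fun p => ∫ z in S, a z • B z p

def SJs : Prop := ∀ (d : ℕ) (D M' : ℝ) (U : Set (ℝ × EE d)) (n : ℕ) (M : ℕ → ℝ)
  (f : ℕ → ℝ × EE d → ℝ), (∀ j < n, ∃ A B, Jet D U (M j) (f j) A B) →
  ∑ j ∈ Finset.range n, M j ≤ M' → ∃ A B, Jet D U M' (fun p => ∑ j ∈ Finset.range n, f j p) A B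

def SJ2 : Prop := ∀ (d : ℕ) (R D : ℝ) (p0 : ℝ × EE d), 0 < D → p0.2 ∈ ball (0 : EE d) R →
  ∃ r > 0, ∃ M : ℝ, ∀ h > 0, ∀ (n : ℕ) (y : EE d), ∃ A B, Jet D (ball p0 r) M (ww R D h n y) A B

def SJ3 : Prop := ∀ (d : ℕ) (D M : ℝ) (U : Set (ℝ × EE d)) (f : ℕ → ℝ × EE d → ℝ)
  (g : ℝ × EE d → ℝ), (∀ m, ∃ A B, Jet D U M (f m) A B) →
  (∀ p ∈ U, Tendsto (fun m => f m p) (hyperfilter ℕ) (𝓝 (g p))) → ∃ A B, Jet D U M g A B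

def SJ4 : Prop := ∀ (d : ℕ) (D M r : ℝ) (p0 : ℝ × EE d) (g : ℝ × EE d → ℝ)
  (A : ℝ × EE d → ℝ × EE d →L[ℝ] ℝ) (B : ℝ × EE d → ℝ × EE d →L[ℝ] ℝ × EE d →L[ℝ] ℝ), 0 < r →
  Jet D (ball p0 r) M g A B → ContinuousAt g p0 ∧ ContDiffAt ℝ 2 (fun x => g (p0.1, x)) p0.2 ∧
    HasDerivAt (fun t => g (t, p0.2)) (D ^ 2 * Δ (fun x => g (p0.1, x)) p0.2) p0.1

def SLa : Prop := ∀ (d : ℕ) (R D : ℝ), 0 < D → (∃ K : ℝ → EE d → EE d → ℝ, Lm R D K) ∧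
  ∀ K : ℝ → EE d → EE d → ℝ, Lm R D K → (∀ t > 0, ∀ x y, 0 ≤ K t x y) ∧
    ∀ y ∈ ball (0 : EE d) R, TendstoUniformlyOn (fun t x => K t x y - gauss D t (x - y))
      (fun _ => 0) (𝓝[>] 0) (closedBall 0 R)

def SLb : Prop := ∀ (d : ℕ) (R D : ℝ) (K : ℝ → EE d → EE d → ℝ), 1 ≤ d → 0 < R → 0 < D →
  Lm R D K → ∀ t0 > 0, ∃ C ≥ 0, ∀ t ≥ t0, ∀ x ∈ closedBall (0 : EE d) R, ∀ y,
    K t x y ≤ C * (R ^ 2 - ‖x‖ ^ 2)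

def SLh : Prop := ∀ (d : ℕ) (R D : ℝ) (K : ℝ → EE d → EE d → ℝ), 0 < D → Lm R D K →
  ∀ t > 0, ∀ x ∈ ball (0 : EE d) R, ∀ y : EE d,
    ContinuousAt (fun p : ℝ × EE d => K p.1 p.2 y) (t, x) ∧
    ContDiffAt ℝ 2 (fun x' => K t x' y) x ∧
      HasDerivAt (fun t' => K t' x y) (D ^ 2 * Δ (fun x' => K t x' y) x) t

def SLy0 : Prop := ∀ (d : ℕ) (R D s : ℝ), 1 ≤ d → 0 < R → 0 < D → 0 < s →
  ∀ y0 ∈ closedBall (0 : EE d) R, ∀ η > 0, ∃ δ > 0, ∃ h0 > 0, ∀ h ∈ Ioo 0 h0, ∀ i : ℕ,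
    ((i : ℝ) + 1) * h = s → ∀ y ∈ closedBall (0 : EE d) R, dist y y0 < δ →
      ∀ z ∈ ball (0 : EE d) R, |aa R D h y i z - aa R D h y0 i z| ≤ η

def SLy : Prop := ∀ (d : ℕ) (R D : ℝ) (K : ℝ → EE d → EE d → ℝ), 1 ≤ d → 0 < R → 0 < D →
  Lm R D K → ∀ t0 > 0, ∀ y0 ∈ closedBall (0 : EE d) R, ∀ η > 0, ∃ δ > 0, ∀ t ≥ t0,
    ∀ x : EE d, ∀ y ∈ closedBall (0 : EE d) R, dist y y0 < δ → |K t x y - K t x y0| ≤ η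

def SKer : Prop := ∀ (d : ℕ) (R D : ℝ), 1 ≤ d → 0 < R → 0 < D →
  ∃ K : ℝ → EE d → EE d → ℝ, IsKernel R D K

end Pool.Agent.MP_b33505_an
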